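import Pool.Agent.Lib.MP_6a3dac_ag.TW.Sys
import Pool.Agent.Lib.MP_6a3dac_ag.GI.Comb

/-!
# The graded ring of a centre inside the field
-/

set_option autoImplicit false
set_option linter.unusedSectionVars false
set_option linter.unusedVariables false

namespace Pool.Agent.Lib.MP_6a3dac_ag.TW

open Pool.Agent.Lib.MP_6a3dac_ag GI QD IsLocalRing
open scoped Pointwise

section Frac

variable {F : Type} [Field F] {T : ℕ → AddSubgroup F} {D : Subring F} {v : F}

-- BEGIN T1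
theorem t1_mul {D : Subring F} {m n : ℕ} {a b v : F} (hv : v ≠ 0) (ha : IsU D (a / v ^ m))
    (hb : IsU D (b / v ^ n)) : IsU D (a * b / v ^ (m + n)) := by
  have h1 : a * b / v ^ (m + n) = a / v ^ m * (b / v ^ n) := by
    rw [pow_add]
    field_simp
  rw [h1]
  exact ha.mul hb

/-- TASK T1. **The fractions form a dominated subring.** Closed under sums: `z h = f`, `z' h' = f'` give
`(z + z') (h h') = f h' + f' h`. Domination: if `a h = f` and `a b = 1`, `a, b ∈ D`, then `b f = h` and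
`f / v ^ n = a (h / v ^ n)` is a unit. -/
theorem exists_fracRing (hT : GSys T) (hv : v ≠ 0) (hv1 : v ∈ T 1)
    (hratio : ∀ n, ∀ f ∈ T n, f / v ^ n ∈ D) :
    ∃ R' : Subring F, (∀ z, z ∈ R' ↔ z ∈ D ∧ ∃ n, ∃ f ∈ T n, ∃ h ∈ T n, IsU D (h / v ^ n) ∧
      z * h = f) ∧ R' ≤ D ∧ ∀ a ∈ R', ∀ b ∈ D, a * b = 1 → b ∈ R' := by
  have h1 : IsU D (1 / v ^ 0) := by
    rw [pow_zero, div_one]
    exact isU_one D
  refine ⟨{ carrier := {z | z ∈ D ∧ ∃ n, ∃ f ∈ T n, ∃ h ∈ T n, IsU D (h / v ^ n) ∧ z * h = f}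
            mul_mem' := ?_
            one_mem' := ⟨D.one_mem, 0, 1, hT.one, 1, hT.one, h1, one_mul 1⟩
            add_mem' := ?_
            zero_mem' := ⟨D.zero_mem, 0, 0, (T 0).zero_mem, 1, hT.one, h1, zero_mul 1⟩
            neg_mem' := ?_ }, fun z => Iff.rfl, fun z hz => hz.1, ?_⟩
  · rintro a b ⟨ha, n, f, hf, h, hh, hu, e⟩ ⟨hb, n', f', hf', h', hh', hu', e'⟩
    refine ⟨D.mul_mem ha hb, n + n', f * f', hT.mul hf hf', h * h', hT.mul hh hh',
      t1_mul hv hu hu', ?_⟩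
    rw [← e, ← e']
    ring
  · rintro a b ⟨ha, n, f, hf, h, hh, hu, e⟩ ⟨hb, n', f', hf', h', hh', hu', e'⟩
    refine ⟨D.add_mem ha hb, n + n', f * h' + h * f', (T (n + n')).add_mem (hT.mul hf hh')
      (hT.mul hh hf'), h * h', hT.mul hh hh', t1_mul hv hu hu', ?_⟩
    rw [← e, ← e']
    ring
  · rintro a ⟨ha, n, f, hf, h, hh, hu, e⟩
    refine ⟨D.neg_mem ha, n, -f, (T n).neg_mem hf, h, hh, hu, ?_⟩
    rw [← e]
    ring
  · rintro a ⟨ha, n, f, hf, h, hh, hu, e⟩ b hb hab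
    refine ⟨hb, n, h, hh, f, hf, ?_, ?_⟩
    · rw [← e, mul_div_assoc]
      exact IsU.mul ⟨ha, b, hb, hab⟩ hu
    · rw [← e, ← mul_assoc, mul_comm b a, hab, one_mul]
-- END T1

end Frac

variable {M F I : Type} [CommRing M] [Field F] {ι : M →+* F} {x : I → M} {B : ℕ → Set M}
  {Λ : Subring M} {r : ℕ} {D : Subring F} {i : I} {β : ℕ → M}

/-- The components of the graded ring generated by `V` over `Λ`, inside the field. -/
def sysT (ι : M →+* F) (Λ : Subring M) (V : Set M) (n : ℕ) : AddSubgroup F :=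
  (Submodule.span Λ (V ^ n)).toAddSubgroup.map ι.toAddMonoidHom

theorem mem_sysT {V : Set M} {n : ℕ} {z : F} :
    z ∈ sysT ι Λ V n ↔ ∃ f ∈ Submodule.span Λ (V ^ n), ι f = z := Iff.rfl

-- BEGIN T2
/-- TASK T2. For products see `mul_mem_span` (used in `exists_good_e`, GI/Comb.lean); `pow_add`. -/
theorem gSys_sysT (V : Set M) : GSys (sysT ι Λ V) := by
  refine ⟨⟨1, ?_, map_one ι⟩, ?_⟩
  · refine Submodule.subset_span ?_
    rw [pow_zero]
    exact Set.mem_one.2 rfl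
  · rintro m n a b ⟨f, hf, rfl⟩ ⟨g, hg, rfl⟩
    refine ⟨f * g, ?_, map_mul ι f g⟩
    change f * g ∈ Submodule.span Λ (V ^ (m + n))
    rw [pow_add]
    exact mul_mem_span hf hg

/-- TASK T2. Induction on `n` and `Submodule.span_induction`. -/
theorem smul_mem_span_pow {G : Type} [Group G] [MulSemiringAction G M] {g : G}
    (hΛ : ∀ c ∈ Λ, g • c ∈ Λ) {V : Set M} (hV : ∀ w ∈ V, g • w ∈ Submodule.span Λ V) {n : ℕ} {f : M}
    (hf : f ∈ Submodule.span Λ (V ^ n)) : g • f ∈ Submodule.span Λ (V ^ n) := by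
  have key : ∀ (W : Set M), (∀ w ∈ W, g • w ∈ Submodule.span Λ W) → ∀ f ∈ Submodule.span Λ W,
      g • f ∈ Submodule.span Λ W := by
    intro W hW f hf
    induction hf using Submodule.span_induction with
    | mem w hw => exact hW w hw
    | zero =>
      rw [smul_zero]
      exact Submodule.zero_mem _
    | add a b _ _ ha hb =>
      rw [smul_add]
      exact Submodule.add_mem _ ha hb
    | smul c a _ ha =>
      have h1 : g • (c • a) = (⟨g • (c : M), hΛ c c.2⟩ : Λ) • (g • a) := by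
        change g • ((c : M) * a) = (g • (c : M)) * (g • a)
        rw [smul_mul']
      rw [h1]
      exact Submodule.smul_mem _ _ ha
  refine key _ ?_ f hf
  clear hf
  induction n with
  | zero =>
    intro w hw
    rw [pow_zero, Set.mem_one] at hw
    rw [hw, smul_one, pow_zero]
    exact Submodule.subset_span (Set.mem_one.2 rfl)
  | succ n ih =>
    intro w hw
    rw [pow_succ, Set.mem_mul] at hw
    obtain ⟨a, ha, b, hb, rfl⟩ := hw
    rw [smul_mul', pow_succ]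
    exact mul_mem_span (ih a ha) (hV b hb)

/-- TASK T2. -/
theorem sysT_stable {G : Type} [Group G] [MulSemiringAction G M] [MulSemiringAction G F]
    (hF : ∀ (g : G) m, g • ι m = ι (g • m)) {g : G}
    (hΛ : ∀ c ∈ Λ, g • c ∈ Λ) {V : Set M} (hV : ∀ w ∈ V, g • w ∈ Submodule.span Λ V) :
    ∀ n, ∀ f ∈ sysT ι Λ V n, g • f ∈ sysT ι Λ V n := by
  rintro n _ ⟨f, hf, rfl⟩
  exact ⟨g • f, smul_mem_span_pow hΛ hV hf, (hF g f).symm⟩
-- END T2

-- BEGIN T3
/-- TASK T3. Products of elements `f j ∈ span Λ (B j)` lie in the span of the products. Induction on `r` as in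
`finite_PSet` (DNF/Order.lean). -/
theorem prod_mem_span {r : ℕ} {f : ℕ → M} (hf : ∀ j ∈ Finset.Icc 1 r, f j ∈ Submodule.span Λ (B j)) :
    ∏ j ∈ Finset.Icc 1 r, f j ∈ Submodule.span Λ (DNF.PSet B r) := by
  induction r with
  | zero =>
    refine Submodule.subset_span ⟨fun _ => 0, fun j hj => ?_, rfl⟩
    rw [Finset.mem_Icc] at hj
    omega
  | succ r ih =>
    rw [Finset.prod_Icc_succ_top (by omega)]
    have h1 := ih fun j hj => hf j (by
      rw [Finset.mem_Icc] at hj ⊢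
      omega)
    have h2 := hf (r + 1) (by
      rw [Finset.mem_Icc]
      omega)
    refine Submodule.span_mono ?_ (mul_mem_span h1 h2)
    intro w hw
    rw [Set.mem_mul] at hw
    obtain ⟨a, ⟨β, hβ, rfl⟩, b, hb, rfl⟩ := hw
    refine ⟨Function.update β (r + 1) b, fun j hj => ?_, ?_⟩
    · by_cases hjr : j = r + 1
      · subst hjr
        rwa [Function.update_self]
      · rw [Function.update_of_ne hjr]
        refine hβ j ?_
        rw [Finset.mem_Icc] at hj ⊢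
        omega
    · rw [Finset.prod_Icc_succ_top (by omega), Function.update_self]
      have h3 : ∏ j ∈ Finset.Icc 1 r, β j =
          ∏ j ∈ Finset.Icc 1 r, Function.update β (r + 1) b j := by
        refine Finset.prod_congr rfl fun j hj => ?_
        rw [Finset.mem_Icc] at hj
        rw [Function.update_of_ne (by omega)]
      rw [h3]

/-- TASK T3. -/
theorem smul_WSet {G : Type} [Group G] [MulSemiringAction G M] {g : G}
    (hx : ∀ l, ∃ l', g • x l = x l')
    (hB : ∀ j ∈ Finset.Icc 1 r, ∀ b ∈ B j, g • b ∈ Submodule.span Λ (B j)) :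
    ∀ w ∈ DNF.WSet x B r, g • w ∈ Submodule.span Λ (DNF.WSet x B r) := by
  rintro w ⟨i, q, ⟨β, hβ, rfl⟩, rfl⟩
  obtain ⟨i', hi'⟩ := hx i
  have h1 : g • ∏ j ∈ Finset.Icc 1 r, β j = ∏ j ∈ Finset.Icc 1 r, g • β j :=
    map_prod (MulSemiringAction.toRingHom G M g) _ _
  rw [smul_mul', hi', h1]
  have h2 : ∏ j ∈ Finset.Icc 1 r, g • β j ∈ Submodule.span Λ (DNF.PSet B r) :=
    prod_mem_span fun j hj => hB j hj _ (hβ j hj)
  have h3 : x i' ∈ Submodule.span Λ ({x i'} : Set M) :=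
    Submodule.subset_span (Set.mem_singleton _)
  refine Submodule.span_mono ?_ (mul_mem_span h3 h2)
  intro w hw
  rw [Set.mem_mul] at hw
  obtain ⟨a, ha, b, hb, rfl⟩ := hw
  rw [Set.mem_singleton_iff] at ha
  exact ⟨i', b, hb, by rw [ha]⟩

/-- TASK T3. -/
theorem WSet_deg {L : Type} [Field L] [Algebra L M] {ℳ : ℕ → Submodule L M} [GradedAlgebra ℳ]
    {dg : ℕ → ℕ} (hx : ∀ k, x k ∈ ℳ 1) (hB : ∀ j, ∀ b ∈ B j, b ∈ ℳ (dg j)) :
    ∀ w ∈ DNF.WSet x B r, w ∈ ℳ (1 + ∑ j ∈ Finset.Icc 1 r, dg j) := by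
  rintro w ⟨i, q, ⟨β, hβ, rfl⟩, rfl⟩
  exact SetLike.mul_mem_graded (hx i)
    (SetLike.prod_mem_graded ℳ dg β fun j hj => hB j _ (hβ j hj))
-- END T3

-- BEGIN T4
theorem t4_prod_ne (hD : LocSit ι x B Λ r D i β) : ι (∏ j ∈ Finset.Icc 1 r, β j) ≠ 0 := by
  rw [map_prod]
  exact Finset.prod_ne_zero_iff.mpr hD.β_ne

theorem t4_ne (hD : LocSit ι x B Λ r D i β) : ι (x i * ∏ j ∈ Finset.Icc 1 r, β j) ≠ 0 := by
  rw [map_mul]
  exact mul_ne_zero hD.ne (t4_prod_ne hD)

theorem t4_mem (hD : LocSit ι x B Λ r D i β) {w : M} (hw : w ∈ DNF.WSet x B r) :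
    ι w ∈ sysT ι Λ (DNF.WSet x B r) 1 := by
  refine ⟨w, Submodule.subset_span ?_, rfl⟩
  rw [pow_one]
  exact hw

theorem t4_quot (hD : LocSit ι x B Λ r D i β) {w : M} (hw : w ∈ DNF.WSet x B r) :
    ι w / ι (x i * ∏ j ∈ Finset.Icc 1 r, β j) ∈ D := by
  obtain ⟨k, q, ⟨β', hβ', rfl⟩, rfl⟩ := hw
  have h1 : ι (x k * ∏ j ∈ Finset.Icc 1 r, β' j) / ι (x i * ∏ j ∈ Finset.Icc 1 r, β j) =
      ι (x k) / ι (x i) * ∏ j ∈ Finset.Icc 1 r, (ι (β' j) / ι (β j)) := by
    rw [Finset.prod_div_distrib, map_mul, map_mul, map_prod, map_prod, mul_div_mul_comm]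
  rw [h1]
  exact D.mul_mem (hD.coord k) (D.prod_mem fun j hj => hD.ratio j hj _ (hβ' j hj))

theorem t4_ratio (hD : LocSit ι x B Λ r D i β) (n : ℕ) :
    ∀ f ∈ sysT ι Λ (DNF.WSet x B r) n, f / ι (x i * ∏ j ∈ Finset.Icc 1 r, β j) ^ n ∈ D := by
  rintro _ ⟨f, hf, rfl⟩
  refine frac_mem (ι := ι) hD.lam ?_ hf
  clear hf
  induction n with
  | zero =>
    intro t ht
    rw [pow_zero, Set.mem_one] at ht
    rw [ht, map_one, pow_zero, div_one]
    exact D.one_mem
  | succ n ih =>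
    intro t ht
    rw [pow_succ, Set.mem_mul] at ht
    obtain ⟨a, ha, b, hb, rfl⟩ := ht
    rw [map_mul, pow_succ, mul_div_mul_comm]
    exact D.mul_mem (ih a ha) (t4_quot hD hb)

/-- TASK T4. **The local ring of a chart is a homogeneous local ring.** `v = ι (x i * ∏ β j)`. `ratio`: the quotient of an
element `x k * ∏ b_j` of `WSet` by `v` is `(x k / x i) * ∏ (b_j / β_j)`; for `n` by induction (`pow_succ`), and
`frac_mem` (CO11). `frac`: `exists_fracRing` and `hD.gen`: the ring contains `ι c`, `c ∈ Λ` (`n = 0`, `h = 1`), the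
`x k / x i` (`n = 1`, `h = v`, `f = ι (x k * ∏ β j)`) and the `b / β j` (replace the factor `β j` by `b`,
`Function.update`; see `OrderHyp.ratio_mem` in DNF/Order.lean). -/
theorem LocSit.gPt (hD : LocSit ι x B Λ r D i β) :
    GPt (sysT ι Λ (DNF.WSet x B r)) D (ι (x i * ∏ j ∈ Finset.Icc 1 r, β j)) := by
  classical
  have hv := t4_ne hD
  have hw : x i * ∏ j ∈ Finset.Icc 1 r, β j ∈ DNF.WSet x B r :=
    ⟨i, _, ⟨β, hD.β_mem, rfl⟩, rfl⟩
  have hu : IsU D (ι (x i * ∏ j ∈ Finset.Icc 1 r, β j) /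
      ι (x i * ∏ j ∈ Finset.Icc 1 r, β j) ^ 1) := by
    rw [pow_one, div_self hv]
    exact isU_one D
  refine ⟨hD.loc, hv, t4_mem hD hw, t4_ratio hD, fun z hz => ?_⟩
  obtain ⟨R', hR', hle, hdom⟩ := exists_fracRing (gSys_sysT (ι := ι) (Λ := Λ) (DNF.WSet x B r)) hv
    (t4_mem hD hw) (t4_ratio hD)
  have hDR : D ≤ R' := by
    refine hD.gen R' hle hdom (fun c hc => ?_) (fun k => ?_) fun j hj b hb => ?_
    · refine (hR' _).2 ⟨hD.lam c hc, 0, ι c, ⟨c, ?_, rfl⟩, 1, (gSys_sysT _).one, ?_, mul_one _⟩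
      · have h1 : c = (⟨c, hc⟩ : Λ) • (1 : M) := (mul_one c).symm
        change c ∈ Submodule.span Λ (DNF.WSet x B r ^ 0)
        rw [h1]
        refine Submodule.smul_mem _ _ (Submodule.subset_span ?_)
        rw [pow_zero]
        exact Set.mem_one.2 rfl
      · rw [pow_zero, div_one]
        exact isU_one D
    · refine (hR' _).2 ⟨hD.coord k, 1, ι (x k * ∏ j ∈ Finset.Icc 1 r, β j),
        t4_mem hD ⟨k, _, ⟨β, hD.β_mem, rfl⟩, rfl⟩, _, t4_mem hD hw, hu, ?_⟩
      rw [map_mul, map_mul, ← mul_assoc, div_mul_cancel₀ _ hD.ne]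
    · have hβ' : ∀ l ∈ Finset.Icc 1 r, Function.update β j b l ∈ B l := by
        intro l hl
        by_cases hlj : l = j
        · subst hlj
          rwa [Function.update_self]
        · rw [Function.update_of_ne hlj]
          exact hD.β_mem l hl
      refine (hR' _).2 ⟨hD.ratio j hj b hb, 1,
        ι (x i * ∏ l ∈ Finset.Icc 1 r, Function.update β j b l),
        t4_mem hD ⟨i, _, ⟨_, hβ', rfl⟩, rfl⟩, _, t4_mem hD hw, hu, ?_⟩
      rw [Finset.prod_update_of_mem hj, ← Finset.mul_prod_erase _ _ hj,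
        Finset.sdiff_singleton_eq_erase]
      simp only [map_mul]
      have := hD.β_ne j hj
      field_simp
  exact ((hR' z).1 (hDR hz)).2
-- END T4

end Pool.Agent.Lib.MP_6a3dac_ag.TW
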