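import Pool.Agent.Lib.MP_6a3dac_ag.GI.Reg
import Pool.Agent.Lib.MP_6a3dac_ag.GI.Abs
import Pool.Agent.Lib.MP_6a3dac_ag.TW.Set

/-!
# Regular models of the rings of invariants of finite groups, second version
-/

set_option autoImplicit false
set_option linter.unusedSectionVars false
set_option linter.unusedVariables false

namespace Pool.Agent.Lib.MP_6a3dac_ag.TW

open Pool.Agent.Lib.MP_6a3dac_ag GI QD HomogeneousLocalization
open CategoryTheory Limits AlgebraicGeometry IsDedekindDomain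

section Reg

variable {R K A L M F : Type} [CommRing R] [CommRing K] [CommRing A] [Algebra R K] [Algebra K A]
  [Algebra R A] [IsScalarTower R K A] [CommRing L] [CommRing M] [Algebra R L] [Algebra L M]
  [Algebra R M] [IsScalarTower R L M] [Field F]
  (𝒜 : ℕ → Submodule K A) [GradedAlgebra 𝒜] (ℳ : ℕ → Submodule L M) [GradedAlgebra ℳ]
  (j : A →+* M) (ι : M →+* F) (S : Subalgebra R A) (T : Subalgebra R M)
  {G : Type} [Group G] [Finite G] [MulSemiringAction G M] [MulSemiringAction G F]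

/-- **Regularity of the ring of invariants at all homogeneous primes.** -/
theorem regAt_of_fixG (hj : Function.Injective j) (hι : Function.Injective ι)
    (hgr : ∀ n a, a ∈ 𝒜 n ↔ j a ∈ ℳ n)
    (hfix : ∀ m, (∀ g : G, g • m = m) → ∃ a, j a = m) (hfix' : ∀ (g : G) a, g • j a = j a)
    (hST : ∀ a, a ∈ S ↔ j a ∈ T) (hTG : ∀ g : G, ∀ t ∈ T, g • t ∈ T)
    (hGF : ∀ (g : G) m, g • ι m = ι (g • m))
    (H : ∀ (Q : Ideal T) (_ : Q.IsPrime), (∃ n, 0 < n ∧ ∃ t : T, (t : M) ∈ ℳ n ∧ t ∉ Q) →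
      IsRegularLocalRing (fixG (⊤ : Subgroup G) (homLoc ℳ ι T Q)) ∧
      ∀ z ∈ fixG (⊤ : Subgroup G) (homLoc ℳ ι T Q), ∃ (n : ℕ) (a s : T), (a : M) ∈ ℳ n ∧
        (s : M) ∈ ℳ n ∧ (∀ g : G, g • (s : M) = s) ∧ s ∉ Q ∧ z * ι s = ι a) :
    RegAt 𝒜 S := by
  classical
  intro hS y hyp hyh hirr
  let := subGradedAlgebra 𝒜 hS
  -- going up
  let jT : S →+* T := (j.comp (S.val : S →+* A)).codRestrict T.toSubring fun s => (hST s).mp s.2
  have hjT : ∀ s : S, ((jT s : T) : M) = j s := fun _ => rfl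
  have hjTinj : Function.Injective jT := by
    intro a b hab
    apply Subtype.ext
    apply hj
    rw [← hjT, ← hjT, hab]
  have hlift : ∀ t : T, (∀ g : G, g • (t : M) = t) → ∃ s : S, jT s = t := by
    intro t ht
    obtain ⟨a, ha⟩ := hfix t ht
    exact ⟨⟨a, (hST a).mpr (by rw [ha]; exact t.2)⟩, Subtype.ext ha⟩
  obtain ⟨Q, hQp, hQ⟩ : ∃ Q : Ideal T, Q.IsPrime ∧ ∀ s : S, jT s ∈ Q ↔ s ∈ y := by
    let : Algebra S T := jT.toAlgebra
    let : MulSemiringAction G T := actOn G T hTG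
    have : Algebra.IsIntegral S T := by
      refine isIntegral_of_group G (fun t ht => ?_)
      exact hlift t fun g => congrArg Subtype.val (ht g)
    obtain ⟨Q, -, hQp, hQ⟩ := Ideal.exists_ideal_over_prime_of_isIntegral y (⊥ : Ideal T) (by
      intro s hs
      have h1 : jT s = 0 := hs
      rw [hjTinj (h1.trans (map_zero jT).symm)]
      exact y.zero_mem)
    refine ⟨Q, hQp, fun s => ?_⟩
    rw [← hQ]
    rfl
  have hι0 : ∀ t : T, t ∉ Q → ι t ≠ 0 := fun t ht => map_ne_zero_of_notMem ι T Q hι ht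
  -- an element of positive degree
  obtain ⟨d, hd, s₀, hs₀, hs₀y⟩ : ∃ d, 0 < d ∧ ∃ s : S, (s : A) ∈ 𝒜 d ∧ s ∉ y := by
    by_contra hcon
    push Not at hcon
    apply hirr
    rw [HomogeneousIdeal.toIdeal_irrelevant_le]
    intro i hi s hs
    exact hcon i hi s hs
  obtain ⟨hreg, hfr⟩ := H Q hQp ⟨d, hd, jT s₀, (hgr _ _).mp hs₀, (hQ s₀).not.mpr hs₀y⟩
  apply isRegularLocalRing_of_homLoc 𝒜 (ι.comp j) S y (hι.comp hj) hS
  have heq : homLoc 𝒜 (ι.comp j) S y = fixG (⊤ : Subgroup G) (homLoc ℳ ι T Q) := by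
    ext z
    constructor
    · rintro ⟨n, a, s, ha, hs, hsy, h1⟩
      change z * ι (j s) = ι (j a) at h1
      have hsQ : jT s ∉ Q := (hQ s).not.mpr hsy
      refine ⟨⟨n, jT a, jT s, (hgr n a).mp ha, (hgr n s).mp hs, hsQ, h1⟩, fun g _ => ?_⟩
      apply mul_right_cancel₀ (hι0 _ hsQ)
      rw [hjT, h1]
      calc g • z * ι (j s) = g • z * g • (ι (j s)) := by rw [hGF, hfix']
        _ = g • (ι (j a)) := by rw [← smul_mul', h1]
        _ = ι (j a) := by rw [hGF, hfix']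
    · intro hz
      obtain ⟨n, a, s, ha, hs, hsG, hsQ, h1⟩ := hfr z hz
      obtain ⟨s', hs'⟩ := hlift s hsG
      obtain ⟨a', ha'⟩ := hlift a (by
        intro g
        apply hι
        rw [← hGF, ← h1, smul_mul', hGF, hsG, hz.2 g (Subgroup.mem_top g)])
      have hs2 : j s' = (s : M) := congrArg Subtype.val hs'
      have ha2 : j a' = (a : M) := congrArg Subtype.val ha'
      refine ⟨n, a', s', ?_, ?_, ?_, ?_⟩
      · rw [hgr, ha2]
        exact ha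
      · rw [hgr, hs2]
        exact hs
      · rw [← hQ, hs']
        exact hsQ
      · change z * ι (j s') = ι (j a')
        rw [hs2, ha2, h1]
  rw [heq]
  exact hreg

end Reg

section Den

open scoped Pointwise

variable {R L M F I : Type} [CommRing R] [Field L] [CommRing M] [Algebra R L] [Algebra L M]
  [Algebra R M] [IsScalarTower R L M] [Field F] {ℳ : ℕ → Submodule L M} [GradedAlgebra ℳ]
  {x : I → M} {B : ℕ → Set M} {δ : ℕ} {ϖ : M} {Λ : Subring M} {r : ℕ} {T : Subalgebra R M}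
  {ι : M →+* F} {G : Type} [Group G] [Finite G] [MulSemiringAction G M] [MulSemiringAction G F]

theorem span_pow_le (h : DNF.OrderHyp ℳ x B δ ϖ Λ r T) {n : ℕ} {f : M}
    (hf : f ∈ Submodule.span Λ ((DNF.WSet x B r) ^ n)) : f ∈ T ∧ f ∈ ℳ ((δ * r + 1) * n) := by
  have key : ∀ n : ℕ, ∀ w ∈ (DNF.WSet x B r) ^ n, w ∈ T ∧ w ∈ ℳ ((δ * r + 1) * n) := by
    intro n
    induction n with
    | zero =>
      intro w hw
      rw [pow_zero, Set.mem_one] at hw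
      rw [hw, mul_zero]
      exact ⟨T.one_mem, SetLike.GradedOne.one_mem⟩
    | succ n ih =>
      intro w hw
      rw [pow_succ] at hw
      obtain ⟨a, ha, b, hb, rfl⟩ := hw
      obtain ⟨h1, h2⟩ := ih a ha
      refine ⟨T.mul_mem h1 (h.W_le b hb), ?_⟩
      rw [mul_add, mul_one]
      exact SetLike.mul_mem_graded h2 (h.W_deg hb)
  induction hf using Submodule.span_induction with
  | mem w hw => exact key n w hw
  | zero => exact ⟨T.zero_mem, Submodule.zero_mem _⟩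
  | add a b _ _ ha hb => exact ⟨T.add_mem ha.1 hb.1, Submodule.add_mem _ ha.2 hb.2⟩
  | smul c a _ ha =>
    have h1 := SetLike.mul_mem_graded (h.Λdeg c c.2) ha.2
    rw [zero_add] at h1
    exact ⟨T.mul_mem (h.Λ_le c c.2) ha.1, h1⟩

/-- **Invariant denominators.** -/
theorem exists_inv_frac (h : DNF.OrderHyp ℳ x B δ ϖ Λ r T) (hι : Function.Injective ι)
    (hGF : ∀ (g : G) m, g • ι m = ι (g • m)) (Q : Ideal T) [Q.IsPrime] {i : I} {β : ℕ → M}
    (hβ : ∀ j ∈ Finset.Icc 1 r, β j ∈ B j) (hf : x i * ∏ j ∈ Finset.Icc 1 r, β j ∈ T)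
    (hfQ : (⟨x i * ∏ j ∈ Finset.Icc 1 r, β j, hf⟩ : T) ∉ Q)
    (hD : LocSit ι x B Λ r (homLoc ℳ ι T Q) i β)
    (hst : ∀ (g : G) (n : ℕ), ∀ f ∈ sysT ι Λ (DNF.WSet x B r) n,
      g • f ∈ sysT ι Λ (DNF.WSet x B r) n) :
    ∀ z ∈ fixG (⊤ : Subgroup G) (homLoc ℳ ι T Q), ∃ (n : ℕ) (a s : T), (a : M) ∈ ℳ n ∧
        (s : M) ∈ ℳ n ∧ (∀ g : G, g • (s : M) = s) ∧ s ∉ Q ∧ z * ι s = ι a := by
  intro z hz
  obtain ⟨n, -, f, hfT, k, hkT, hfG, hkG, hu, hzk⟩ :=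
    GPt.exists_inv (gSys_sysT _) (LocSit.gPt hD) (K := (⊤ : Subgroup G))
      (fun g _ => hst g) hz
  obtain ⟨f', hf', rfl⟩ := hfT
  obtain ⟨k', hk', rfl⟩ := hkT
  obtain ⟨h1, h2⟩ := span_pow_le h hf'
  obtain ⟨h3, h4⟩ := span_pow_le h hk'
  have hkG' : ∀ g : G, g • k' = k' := by
    intro g
    apply hι
    rw [← hGF]
    exact hkG g (Subgroup.mem_top g)
  refine ⟨(δ * r + 1) * n, ⟨f', h1⟩, ⟨k', h3⟩, h2, h4, hkG', ?_, hzk⟩
  have hvn : (⟨x i * ∏ j ∈ Finset.Icc 1 r, β j, hf⟩ : T) ^ n ∉ Q := fun h5 =>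
    hfQ ((inferInstance : Q.IsPrime).mem_of_pow_mem n h5)
  have hv0 : ι (x i * ∏ j ∈ Finset.Icc 1 r, β j) ≠ 0 := map_ne_zero_of_notMem ι T Q hι hfQ
  have hdeg : (((⟨x i * ∏ j ∈ Finset.Icc 1 r, β j, hf⟩ : T) ^ n : T) : M) ∈
      ℳ ((δ * r + 1) * n) := by
    rw [SubmonoidClass.coe_pow]
    have h5 := SetLike.pow_mem_graded n (h.W_deg (w := x i * ∏ j ∈ Finset.Icc 1 r, β j)
      ⟨i, _, ⟨β, hβ, rfl⟩, rfl⟩)
    rwa [smul_eq_mul, mul_comm] at h5
  refine (isUnit_homLoc_iff ℳ ι T Q hι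
    (⟨_, hu.1⟩ : homLoc ℳ ι T Q) (n := (δ * r + 1) * n)
    (a := ⟨k', h3⟩) (s := (⟨x i * ∏ j ∈ Finset.Icc 1 r, β j, hf⟩ : T) ^ n) h4 hdeg hvn ?_).mp
    ((isUnit_iff_isU _).2 hu)
  rw [SubmonoidClass.coe_pow, map_pow]
  exact div_mul_cancel₀ _ (pow_ne_zero _ hv0)

end Den

end Pool.Agent.Lib.MP_6a3dac_ag.TW
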