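import Pool.Agent.Lib.MP_6a3dac_ag.TW.Base

/-!
# From the inertia group to the whole group
-/

set_option autoImplicit false
set_option linter.unusedSectionVars false
set_option linter.unusedVariables false

namespace Pool.Agent.Lib.MP_6a3dac_ag.TW

open Pool.Agent.Lib.MP_6a3dac_ag GI QD W3 IsLocalRing
open scoped Pointwise

section AtP

variable {O L M F I G : Type} [CommRing O]
  [IsDedekindDomain O] [Field L] [Algebra O L] [IsFractionRing O L] [CommRing M]
  [IsDomain M] [Algebra L M] [Algebra O M]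
  [IsScalarTower O L M] {ℳ : ℕ → Submodule L M} [GradedAlgebra ℳ] {x : I → M} [Field F]
  {ι : M →+* F} [Group G] [Finite G] [MulSemiringAction G O] [MulSemiringAction G M]
  [MulSemiringAction G F] [Finite I] {I₀ : G → Set I} {P : Ideal O} [P.IsPrime] {ϖ : O}
  (H : GeoHyp O L M F I G ℳ ι x I₀) (hU : UnifHyp (L := L) (M := M) G P ϖ)

section Unit

variable {D : Subring F} (hu : ∃ w ∈ D, ι (oM O L M ϖ) * w = 1) (hΛ : ∀ c ∈ lamP O L M P, ι c ∈ D)

-- BEGIN G1
include hU hu hΛ in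
/-- TASK G1. **The points of the generic fibre.** `exists_pow_le` (CO6) for `n = d`: `oM ϖ ^ N = a * oM d`. -/
theorem unit_of_ne {d : O} (hd : d ≠ 0) : ∃ w ∈ D, ι (oM O L M d) * w = 1 := by
  obtain ⟨N, hN⟩ := exists_pow_le (M := M) (IsFractionRing.injective O L) hU.bot hd
  obtain ⟨a, ha, hae⟩ := hN _ (Ideal.pow_mem_pow hU.mem N)
  obtain ⟨w, hw, hw1⟩ := hu
  refine ⟨ι a * w ^ N, D.mul_mem (hΛ a ha) (D.pow_mem hw N), ?_⟩
  have h1 := congrArg ι hae
  rw [map_pow, map_pow, map_mul] at h1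
  calc ι (oM O L M d) * (ι a * w ^ N) = (ι a * ι (oM O L M d)) * w ^ N := by ring
    _ = (ι (oM O L M ϖ) * w) ^ N := by rw [← h1, mul_pow]
    _ = 1 := by rw [hw1, one_pow]

include hU hu hΛ in
/-- TASK G1. An element of `L` is a quotient of elements of `O` (`IsFractionRing.div_surjective`). -/
theorem field_mem (l : L) : ι (algebraMap L M l) ∈ D := by
  obtain ⟨a, b, hb, rfl⟩ := IsFractionRing.div_surjective (A := O) l
  have hb0 : b ≠ 0 := nonZeroDivisors.ne_zero hb
  obtain ⟨w, hw, hw1⟩ := unit_of_ne hU hu hΛ hb0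
  have hbL : algebraMap O L b ≠ 0 := fun h =>
    hb0 ((IsFractionRing.injective O L) (by rw [h, map_zero]))
  have h1 : ι (algebraMap L M (algebraMap O L a / algebraMap O L b)) * ι (oM O L M b) =
      ι (oM O L M a) := by
    rw [← map_mul, oM, RingHom.comp_apply, RingHom.comp_apply, ← map_mul, div_mul_cancel₀ _ hbL]
  have h2 : ι (algebraMap L M (algebraMap O L a / algebraMap O L b)) = ι (oM O L M a) * w := by
    rw [← h1, mul_assoc, hw1, mul_one]
  rw [h2]
  exact D.mul_mem (hΛ _ (oM_mem_lamP P a)) hw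

include H hU hu hΛ in
/-- TASK G1. If `g ≠ 1` then `g • c - c ≠ 0` for some `c : O`, a unit of `D`. -/
theorem eq_one_of_inertia (hfaith : ∀ g : G, g ≠ 1 → ∃ c : O, g • c ≠ c) {g : G}
    (hg : InertiaG D g) : g = 1 := by
  by_contra hne
  obtain ⟨c, hc⟩ := hfaith g hne
  obtain ⟨w, hw, hw1⟩ := unit_of_ne hU hu hΛ (sub_ne_zero.mpr hc)
  refine hg.2 (ι (oM O L M c)) (hΛ _ (oM_mem_lamP P c)) w hw ?_
  rw [H.hF, H.hO, ← map_sub, ← map_sub, hw1]
-- END G1

-- BEGIN G2
include H hU in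
/-- TASK G2. `A` from `H.around`; `D = A` by `eq_of_units` (QD/Around.lean): `ι (algebraMap L M l) ∈ A` for all `l` (as
`field_mem`; the inverse of `ι (oM ϖ)` is in `A` by `hA.dom`), so `ι b / ι (x i) ^ δ ∈ A` for all `b ∈ ℳ δ`
(`mem_span_pow`, CO7; `frac_pow_mem`, CO11); `ι (oM ϖ ^ j * x i ^ δ) / ι (x i) ^ δ` is a unit. So `D` is regular. Then
`good_of_trivial` (IN6) with `eq_one_of_inertia`. -/
theorem good_of_unit (hfaith : ∀ g : G, g ≠ 1 → ∃ c : O, g • c ≠ c) {δ r : ℕ} {B : ℕ → Set M}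
    (hdeg : ∀ j, ∀ b ∈ B j, b ∈ ℳ δ) (hpow : ∀ j i, oM O L M ϖ ^ j * x i ^ δ ∈ B j) {i : I}
    {β : ℕ → M} (hD : LocSit ι x B (lamP O L M P) r D i β)
    (hu : ∃ w ∈ D, ι (oM O L M ϖ) * w = 1) : Good G D := by
  obtain ⟨A, hA⟩ := H.around P hU.bot D i hD.loc hD.lam hD.ne hD.coord
  obtain ⟨w, hw, hw1⟩ := hu
  have hϖΛ : oM O L M ϖ ∈ lamP O L M P := oM_mem_lamP P ϖ
  have hwA : w ∈ A := hA.dom _ (hA.lam _ hϖΛ) w hw hw1
  have hLA : ∀ l : L, ι (algebraMap L M l) ∈ A := fun l => field_mem hU ⟨w, hwA, hw1⟩ hA.lam l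
  have hfr : ∀ m ∈ ℳ δ, ι m / ι (x i) ^ δ ∈ A := by
    intro m hm
    have h1 := mem_span_pow H.xdeg H.hgen hm
    clear hm
    induction h1 using Submodule.span_induction with
    | mem t ht => exact frac_pow_mem hD.ne hA.coord ht
    | zero =>
      rw [map_zero, zero_div]
      exact A.zero_mem
    | add a b _ _ ha hb =>
      rw [map_add, add_div]
      exact A.add_mem ha hb
    | smul c b _ hb =>
      rw [Algebra.smul_def, map_mul, mul_div_assoc]
      exact A.mul_mem (hLA c) hb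
  have hDA : D = A := by
    refine eq_of_units hD hA (δ := δ) (fun j _ b hb => hfr b (hdeg j b hb)) ?_
    intro j _
    refine ⟨_, hpow j i, w ^ j, D.pow_mem hw j, ?_⟩
    have h0 : ι (x i) ^ δ ≠ 0 := pow_ne_zero _ hD.ne
    rw [map_mul, map_pow, map_pow, mul_div_assoc, div_self h0, mul_one, ← mul_pow, hw1, one_pow]
  have hreg : IsRegularLocalRing D := by
    rw [hDA]
    exact hA.reg
  exact good_of_trivial (fun g hg => eq_one_of_inertia H hU ⟨w, hw, hw1⟩ hD.lam hfaith hg) hreg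
-- END G2

end Unit

section Dec

variable {D : Subring F} (hD : IsLocalRing D) (hΛ : ∀ c ∈ lamP O L M P, ι c ∈ D)

-- BEGIN G3
include H hD hΛ in
/-- TASK G3. **The decomposition group acts faithfully modulo the inertia group.** `H = (inG G P).subgroupOf (deG G P)`. Its
elements act trivially on `R = fixG (inG G P) D`. Let `g ∈ deG`, `g ∉ inG`; `exists_fix_diff` (RG2b) for the local ring
`(lamP O L M P).map ι` (`isLocalRing_lamP_map`, `inertia_lamP`, L7) gives `c`, fixed by `inG`, with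
`c - g • c` a unit of this ring; so `(g • c - c) * w = 1` with `w ∈ D`, and `w` is fixed by `inG`
(`g • c` is fixed since `inG` is normal in `deG`, `conj_mem_inG`); so `g` is not inert on `R`. The invariants of `H` in
`R` are `R`. -/
theorem good_deG (hreg : IsRegularLocalRing (fixG (inG G P) D)) :
    Good (deG G P) (fixG (inG G P) D) := by
  have hOL : Function.Injective (algebraMap O L) := IsFractionRing.injective O L
  have hin : ∀ g ∈ inG G P, ∀ z ∈ fixG (inG G P) D, g • z = z := fun g hg z hz => hz.2 g hg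
  refine ⟨(inG G P).subgroupOf (deG G P), fun g => ?_, ?_⟩
  · rw [Subgroup.mem_subgroupOf]
    constructor
    · intro hg
      refine ⟨fun z hz => ?_, fun z hz w hw h1 => ?_⟩
      · change (g : G) • z ∈ _
        rw [hin _ hg z hz]
        exact hz
      · change ((g : G) • z - z) * w = 1 at h1
        rw [hin _ hg z hz, sub_self, zero_mul] at h1
        exact zero_ne_one h1
    · intro hI
      by_contra hgn
      have hgd : (g : G) ∈ deG G P := g.2
      have hgD : ∀ z ∈ (lamP O L M P).map ι, (g : G) • z ∈ (lamP O L M P).map ι := by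
        rintro _ ⟨m, hm, rfl⟩
        refine ⟨(g : G) • m, smul_mem_lamP hOL H.hO hgd hm, ?_⟩
        exact (H.hF (g : G) m).symm
      obtain ⟨c, hc, hcu⟩ := exists_fix_diff (isLocalRing_lamP_map H.inj) (inG G P)
        (fun h => (inertia_lamP H.inj H.hO H.hF h).symm) hgD hgn
      have hle : ∀ z ∈ (lamP O L M P).map ι, z ∈ D := by
        rintro _ ⟨m, hm, rfl⟩
        exact hΛ m hm
      have hcR : c ∈ fixG (inG G P) D := ⟨hle c hc.1, hc.2⟩
      obtain ⟨-, w, hw, hw1⟩ := hcu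
      have hgc : ∀ h ∈ inG G P, h • (g : G) • c = (g : G) • c := by
        intro h hh
        have h1 : (g : G)⁻¹ * h * (g : G) ∈ inG G P := by
          have h2 := conj_mem_inG ((deG G P).inv_mem hgd) hh
          rwa [inv_inv] at h2
        have h3 := hc.2 _ h1
        calc h • (g : G) • c = (g : G) • (((g : G)⁻¹ * h * (g : G)) • c) := by
              rw [← mul_smul, ← mul_smul]
              congr 1
              group
          _ = (g : G) • c := by rw [h3]
      have hwR : -w ∈ fixG (inG G P) D := by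
        refine Subring.neg_mem _ ⟨hle w hw, fun h hh => ?_⟩
        have h4 : h • (c - (g : G) • c) = c - (g : G) • c := by
          rw [smul_sub, hc.2 h hh, hgc h hh]
        have h5 : (c - (g : G) • c) * h • w = 1 := by
          have h6 := congrArg (fun y => h • y) hw1
          simp only [smul_mul', smul_one] at h6
          rwa [h4] at h6
        have h7 : c - (g : G) • c ≠ 0 := by
          intro h8
          rw [h8, zero_mul] at hw1
          exact zero_ne_one hw1
        exact mul_left_cancel₀ h7 (h5.trans hw1.symm)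
      refine hI.2 c hcR (-w) hwR ?_
      change ((g : G) • c - c) * -w = 1
      rw [← hw1]
      ring
  · have h1 : fixG ((inG G P).subgroupOf (deG G P)) (fixG (inG G P) D) = fixG (inG G P) D := by
      ext z
      rw [mem_fixG]
      refine ⟨fun h2 => h2.1, fun h2 => ⟨h2, fun g hg => ?_⟩⟩
      exact hin _ (Subgroup.mem_subgroupOf.1 hg) z h2
    rw [h1]
    exact hreg
-- END G3

-- BEGIN G4
include H hD hΛ in
/-- TASK G4. `GPt.isRegular_fixG_of` with `C = inG`, `C' = deG`; `k`, `e` from `exists_inv_unit` for `K = inG`. -/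
theorem regular_deG {T : ℕ → AddSubgroup F} {v : F} (hT : GSys T) (hP : GPt T D v)
    (hst : ∀ g ∈ deG G P, ∀ n, ∀ f ∈ T n, g • f ∈ T n)
    (hreg : IsRegularLocalRing (fixG (inG G P) D)) : IsRegularLocalRing (fixG (deG G P) D) := by
  obtain ⟨k, hk, e, he, heC, heu⟩ := hP.exists_inv_unit hT (K := inG G P)
    (fun g hg => hst g (inG_le_deG P hg))
  refine hP.isRegular_fixG_of hT (C := inG G P) (C' := deG G P) hst (inG_le_deG P) ?_ hk he heC heu
    (good_deG H hD hΛ hreg)
  intro g hg c hc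
  have h1 := conj_mem_inG (g := g⁻¹) ((deG G P).inv_mem hg) hc
  rwa [inv_inv] at h1
-- END G4

-- BEGIN G5
include hU in
omit [IsDomain M] [Algebra O M] [IsScalarTower O L M] in
/-- TASK G5. `e₁` from `exists_e` (CO5) for `N = 1`; `e` is the product of the `h • e₁`, `h ∈ deG`. For `g ∉ deG` the factor
`g • e₁` is in `P`. -/
theorem exists_split_deG : ∃ e : O, e ∉ P ∧ (∀ g ∈ deG G P, g • e = e) ∧
    ∀ g, g ∉ deG G P → g • e ∈ P := by
  classical
  obtain ⟨e₁, he₁, hg₁⟩ := exists_e (G := G) hU.bot 1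
  have hfin : Fintype (deG G P) := Fintype.ofFinite _
  refine ⟨∏ h : deG G P, (h : G) • e₁, ?_, ?_, ?_⟩
  · intro h
    obtain ⟨g, -, hg⟩ := (Ideal.IsPrime.prod_mem_iff).1 h
    exact he₁ (in4_inv g.2 hg)
  · intro g hg
    rw [Finset.smul_prod']
    refine Fintype.prod_equiv (Equiv.mulLeft (⟨g, hg⟩ : deG G P)) _ _ fun h => ?_
    rw [Equiv.coe_mulLeft, Subgroup.coe_mul, mul_smul]
  · intro g hg
    rw [Finset.smul_prod', ← Finset.mul_prod_erase Finset.univ _ (Finset.mem_univ (1 : deG G P))]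
    refine Ideal.mul_mem_right _ _ ?_
    have h1 := hg₁ g hg
    rw [pow_one] at h1
    rwa [Subgroup.coe_one, one_smul]

include H hU hD hΛ in
/-- TASK G5. **The special fibre.** `GPt.isRegular_top` (D5) for `K = deG` and `ι (oM e)`, `e` from `exists_split_deG`. For `c ∈ P`
the element `ι (oM c)` is a nonunit: `n * c = d * ϖ` with `n ∉ P` (a unit of the local ring), `hnu`. -/
theorem regular_top {T : ℕ → AddSubgroup F} {v : F} (hT : GSys T) (hP : GPt T D v)
    (hst : ∀ g : G, ∀ n, ∀ f ∈ T n, g • f ∈ T n)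
    (hT0 : ∀ c : O, ι (oM O L M c) ∈ T 0)
    (hnu : ∀ w ∈ D, ι (oM O L M ϖ) * w ≠ 1)
    (hreg : IsRegularLocalRing (fixG (inG G P) D)) :
    IsRegularLocalRing (fixG (⊤ : Subgroup G) D) := by
  have hOL : Function.Injective (algebraMap O L) := IsFractionRing.injective O L
  obtain ⟨e, heP, hefix, hemem⟩ := exists_split_deG (G := G) hU
  have hmemD : ∀ c : O, ι (oM O L M c) ∈ D := fun c => hΛ _ (oM_mem_lamP P c)
  have hunit : ∀ n : O, n ∉ P → ∃ w ∈ D, ι (oM O L M n) * w = 1 := by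
    intro n hn
    obtain ⟨u, hu, h1⟩ := exists_inv_lamP (M := M) hOL hn
    exact ⟨ι u, hΛ u hu, by rw [← map_mul, h1, map_one]⟩
  have hreg' : IsRegularLocalRing (fixG (deG G P) D) :=
    regular_deG H hD hΛ hT hP (fun g _ => hst g) hreg
  refine GPt.isRegular_top hT hP hst (deG G P) (e := ι (oM O L M e)) (hT0 e) ?_ ?_ ?_ hreg'
  · intro g hg
    rw [H.hF, H.hO, hefix g hg]
  · exact ⟨hmemD e, hunit e heP⟩
  · intro g hg
    rw [H.hF, H.hO]
    refine ⟨hmemD _, fun w hw h1 => ?_⟩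
    obtain ⟨n, hn, d, hd⟩ := hU.unif _ (hemem g hg)
    obtain ⟨u, hu, hu1⟩ := hunit n hn
    refine hnu (ι (oM O L M d) * w * u) (D.mul_mem (D.mul_mem (hmemD d) hw) hu) ?_
    have h2 : ι (oM O L M n) * ι (oM O L M (g • e)) = ι (oM O L M d) * ι (oM O L M ϖ) := by
      rw [← map_mul, ← map_mul, ← map_mul, ← map_mul, hd]
    calc ι (oM O L M ϖ) * (ι (oM O L M d) * w * u)
        = (ι (oM O L M d) * ι (oM O L M ϖ)) * w * u := by ring
      _ = (ι (oM O L M n) * u) * (ι (oM O L M (g • e)) * w) := by rw [← h2]; ring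
      _ = 1 := by rw [hu1, h1, one_mul]
-- END G5

end Dec

end AtP

section Global

variable {R O L M F I G : Type} [CommRing R] [IsDedekindDomain R] [CommRing O]
  [IsDedekindDomain O] [Algebra R O]
  [Field L] [Algebra R L] [Algebra O L] [IsScalarTower R O L] [IsFractionRing O L] [CommRing M]
  [IsDomain M] [Algebra L M] [Algebra R M] [IsScalarTower R L M] [Algebra O M]
  [IsScalarTower O L M] {ℳ : ℕ → Submodule L M} [GradedAlgebra ℳ] {x : I → M} [Field F]
  {ι : M →+* F} [Group G] [Finite G] [MulSemiringAction G O] [MulSemiringAction G M]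
  [MulSemiringAction G F] [Finite I] {I₀ : G → Set I}

-- BEGIN G6
/-- TASK G6. The proof is that of `co16_lam` in GI/Comb.lean (private there). -/
theorem smul_lamP (hG : GalExt R O G) (hO : ∀ (g : G) c, g • oM O L M c = oM O L M (g • c))
    {p : Ideal R} [p.IsPrime] (g : G) {c : M} (hc : c ∈ lamP O L M p) : g • c ∈ lamP O L M p := by
  have hOL : Function.Injective (algebraMap O L) := IsFractionRing.injective O L
  obtain ⟨n, hn, c', hc', l, hl⟩ := hc
  have h1 : algebraMap R M n * (g • c) = oM O L M (g • c') := by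
    have h2 : g • algebraMap R M n = algebraMap R M n := by
      rw [← oM_algebraMap (O := O) (L := L) (M := M) n, hO, hG.fix]
    rw [← hO, ← hc', smul_mul', h2]
  have hn0 : algebraMap R L n ≠ 0 := by
    intro h0
    rw [IsScalarTower.algebraMap_apply R O L] at h0
    have h2 : algebraMap R O n = 0 := hOL (h0.trans (map_zero _).symm)
    have h3 : n = 0 := hG.inj (h2.trans (map_zero _).symm)
    rw [h3] at hn
    exact hn (Ideal.zero_mem p)
  have hnM : algebraMap R M n ≠ 0 := by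
    rw [IsScalarTower.algebraMap_apply R L M]
    intro h0
    exact hn0 ((algebraMap L M).injective (h0.trans (map_zero _).symm))
  refine ⟨n, hn, g • c', h1, algebraMap O L (g • c') / algebraMap R L n, ?_⟩
  refine mul_left_cancel₀ hnM ?_
  rw [h1, oM, RingHom.comp_apply, IsScalarTower.algebraMap_apply R L M, ← map_mul,
    mul_div_cancel₀ _ hn0]

/-- TASK G6. The graded ring of a centre at `p` is stable under `G`: `sysT_stable`, `smul_WSet`, `hC.star`. -/
theorem sysT_stable_top (hG : GalExt R O G) (H : GeoHyp O L M F I G ℳ ι x I₀)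
    {p : Ideal R} [p.IsPrime] {ϖ : O} {δ r : ℕ} {B : ℕ → Set M} (hC : CentG ℳ x G p ϖ δ r B) :
    ∀ (g : G) (n : ℕ), ∀ f ∈ sysT ι (lamP O L M p) (DNF.WSet x B r) n,
      g • f ∈ sysT ι (lamP O L M p) (DNF.WSet x B r) n := by
  intro g
  refine sysT_stable H.hF (fun c hc => smul_lamP hG H.hO g hc) (smul_WSet (H.hstar g) ?_)
  intro j _ b hb
  obtain ⟨c, hc, b', hb', h1⟩ := hC.star g j b hb
  rw [h1]
  exact Submodule.smul_mem _ (⟨c, hc⟩ : lamP O L M p) (Submodule.subset_span hb')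

/-- TASK G6. `GPt.isRegular_of_good` (D6) with `LocSit.gPt`, `gSys_sysT`, `sysT_stable_top`. -/
theorem regular_of_good (hG : GalExt R O G) (H : GeoHyp O L M F I G ℳ ι x I₀)
    {p : Ideal R} [p.IsPrime] {ϖ : O} {δ r : ℕ} {B : ℕ → Set M} (hC : CentG ℳ x G p ϖ δ r B)
    {D : Subring F} {i : I} {β : ℕ → M} (hD : LocSit ι x B (lamP O L M p) r D i β)
    (hg : Good G D) : IsRegularLocalRing (fixG (⊤ : Subgroup G) D) :=
  GPt.isRegular_of_good (gSys_sysT _) (LocSit.gPt hD) (sysT_stable_top hG H hC) hg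
-- END G6

-- BEGIN G7
omit [Finite G] in
/-- TASK G7. An element fixed by `G` lies in `g D` if and only if it lies in `D`. -/
theorem fixG_top_map {D : Subring F} (g : G) :
    fixG (⊤ : Subgroup G) (D.map (MulSemiringAction.toRingHom G F g)) = fixG (⊤ : Subgroup G) D := by
  ext z
  rw [mem_fixG, mem_fixG]
  constructor
  · rintro ⟨⟨y, hy, hyz⟩, hz⟩
    refine ⟨?_, hz⟩
    have h1 : g • y = z := hyz
    have h2 : y = z := by
      have h3 := hz g⁻¹ (Subgroup.mem_top _)
      rw [← h1, inv_smul_smul] at h3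
      rw [h3, h1]
    rw [← h2]
    exact hy
  · rintro ⟨hzD, hz⟩
    exact ⟨⟨z, hzD, hz g (Subgroup.mem_top _)⟩, hz⟩

/-- TASK G7. **The local theorem at the points over `p`.** `D` is a local ring of the model at `p` which contains
`ι (lamP O L M P)` and is also in the situation of the centre `B` at `P`. If `ι (oM ϖ)` is a unit of `D`: `good_of_unit` (G2)
and `regular_of_good`. Otherwise `regular_top` (G5) for the graded ring `sysT ι (lamP O L M p) (WSet x B' r')`. -/
theorem regular_at (hG : GalExt R O G) (H : GeoHyp O L M F I G ℳ ι x I₀)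
    {p : Ideal R} [p.IsPrime] {P : Ideal O} [P.IsPrime] {ϖ : O}
    (hU : UnifHyp (L := L) (M := M) G P ϖ) {ϖ' : O} {δ' r' : ℕ} {B' : ℕ → Set M}
    (hC : CentG ℳ x G p ϖ' δ' r' B') {δ r : ℕ} {B : ℕ → Set M}
    (hdeg : ∀ j, ∀ b ∈ B j, b ∈ ℳ δ) (hpow : ∀ j i, oM O L M ϖ ^ j * x i ^ δ ∈ B j)
    {D : Subring F} {i i' : I} {β β' : ℕ → M} (hD : LocSit ι x B' (lamP O L M p) r' D i' β')
    (hDP : LocSit ι x B (lamP O L M P) r D i β)
    (hreg : IsRegularLocalRing (fixG (inG G P) D)) :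
    IsRegularLocalRing (fixG (⊤ : Subgroup G) D) := by
  by_cases hu : ∃ w ∈ D, ι (oM O L M ϖ) * w = 1
  · exact regular_of_good hG H hC hD (good_of_unit H hU hG.faithful hdeg hpow hDP hu)
  · refine regular_top H hU hDP.loc hDP.lam (gSys_sysT _) (LocSit.gPt hD) (sysT_stable_top hG H hC)
      (fun c => ?_) (fun w hw h => hu ⟨w, hw, h⟩) hreg
    refine mem_sysT.2 ⟨oM O L M c, ?_, rfl⟩
    rw [pow_zero]
    have h1 : (⟨oM O L M c, oM_mem_lamP (R := R) p c⟩ : lamP O L M p) • (1 : M) = oM O L M c := by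
      rw [Subring.smul_def, smul_eq_mul, mul_one]
    have h2 : (1 : M) ∈ Submodule.span (lamP O L M p) (1 : Set M) :=
      Submodule.subset_span (Set.mem_one.2 rfl)
    have h3 := Submodule.smul_mem _ (⟨oM O L M c, oM_mem_lamP (R := R) p c⟩ : lamP O L M p) h2
    rwa [h1] at h3
-- END G7

-- BEGIN G8
/-- TASK G8. **The combination of the centres at the primes over `p`, from the inertia group.** The proof is that of
`exists_centG` (CO16, GI/Comb.lean): `y` from `exists_unif`, `e` from `exists_good_e`, `B' = combB ..`, `g` from `exists_smul_lam`; instead of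
`Good.of_map` at the end use `fixG_top_map` and `regular_at` for the ring `D.map g`; `hreg` gives the regularity of
`fixG (inG G P)`. -/
theorem exists_centG_of_inG (hG : GalExt R O G) (H : GeoHyp O L M F I G ℳ ι x I₀)
    {p : Ideal R} [p.IsPrime] (hp0 : p ≠ ⊥) {P : Ideal O} [P.IsPrime]
    (hP : P.comap (algebraMap R O) = p) {ϖ : O} (hU : UnifHyp (L := L) (M := M) G P ϖ)
    {δ r : ℕ} {B : ℕ → Set M} (hδ : 1 ≤ δ) (hfin : ∀ j, (B j).Finite)
    (hdeg : ∀ j, ∀ b ∈ B j, b ∈ ℳ δ) (hpow : ∀ j i, oM O L M ϖ ^ j * x i ^ δ ∈ B j)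
    (hstab : ∀ g ∈ deG G P, ∀ j, ∀ b ∈ B j, g • b ∈ Submodule.span (lamP O L M P) (B j))
    (hreg : ∀ D i β, LocSit ι x B (lamP O L M P) r D i β →
      IsRegularLocalRing (fixG (inG G P) D)) :
    ∃ (ϖ' : O) (δ' r' : ℕ) (B' : ℕ → Set M), CentG ℳ x G p ϖ' δ' r' B' ∧
      ∀ (D : Subring F) (i : I) (β : ℕ → M), LocSit ι x B' (lamP O L M p) r' D i β →
        IsRegularLocalRing (fixG (⊤ : Subgroup G) D) := by
  have hOL : Function.Injective (algebraMap O L) := IsFractionRing.injective O L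
  obtain ⟨y, hy0, hη, hyP, -⟩ := exists_unif (L := L) (M := M) hG hOL H.hO hp0 hP
  obtain ⟨e, heP, he⟩ := exists_good_e (r := r) hU.bot H.hO H.hgr H.xdeg H.hgen hfin hdeg hU.ϖ0
  have hC : CentG ℳ x G p y δ r (combB G x (oM O L M y) (oM O L M e) δ B) :=
    centG_combB hy0 hη H.hgr H.xdeg hδ hfin hdeg
  refine ⟨y, δ, r, combB G x (oM O L M y) (oM O L M e) δ B, hC, fun D i β hD => ?_⟩
  obtain ⟨g, hg⟩ := exists_smul_lam hG H.hO H.hF hOL hP hD.loc hD.lam
  have hB : ∀ (g : G) (j : ℕ), ∀ b ∈ combB G x (oM O L M y) (oM O L M e) δ B j,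
      g • b ∈ combB G x (oM O L M y) (oM O L M e) δ B j := by
    rintro g j m ⟨h, hm⟩
    refine ⟨g * h, ?_⟩
    rcases hm with ⟨i, rfl⟩ | ⟨b, hb, rfl⟩
    · exact Or.inl ⟨i, smul_smul _ _ _⟩
    · exact Or.inr ⟨b, hb, smul_smul _ _ _⟩
  obtain ⟨i', β', hD'⟩ := LocSit.smul H.hF H.hstar (fun g c hc => smul_lamP hG H.hO g hc) hB hD g
  -- the inverse of `e`
  have he0 : algebraMap O L e ≠ 0 := by
    intro h0
    have h1 : e = 0 := hOL (h0.trans (map_zero _).symm)
    rw [h1] at heP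
    exact heP (Ideal.zero_mem P)
  have hee : oM O L M e * algebraMap L M (algebraMap O L e)⁻¹ = 1 := by
    rw [oM, RingHom.comp_apply, ← map_mul, mul_inv_cancel₀ he0, map_one]
  have he' : algebraMap L M (algebraMap O L e)⁻¹ ∈ lamP O L M P :=
    ⟨e, heP, 1, by
      rw [IsScalarTower.algebraMap_apply O L M, ← map_mul, mul_inv_cancel₀ he0, map_one, map_one],
      _, rfl⟩
  obtain ⟨β'', hD''⟩ := LocSit.compare (lamP_le hP) hD' hg (oM_mem_lamP P ϖ) (oM_mem_lamP P e)
    he' hee (fun j b hb => ⟨1, Or.inr ⟨b, hb, (one_smul G _).symm⟩⟩) hpow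
    (fun j hj b hb => combB_mem hP H.hO H.hstar hη hyP hU.unif hpow hstab he hj hb)
  rw [← fixG_top_map g]
  exact regular_at hG H hU hC hdeg hpow hD' hD'' (hreg _ _ _ hD'')
-- END G8

theorem exists_centG_of_hasC (hG : GalExt R O G) (H : GeoHyp O L M F I G ℳ ι x I₀)
    {p : Ideal R} [p.IsPrime] (hp0 : p ≠ ⊥) {P : Ideal O} [P.IsPrime]
    (hP : P.comap (algebraMap R O) = p) {ϖ : O} (hU : UnifHyp (L := L) (M := M) G P ϖ)
    (hC : HasC ℳ x ι P ϖ (inG G P)) :
    ∃ (ϖ' : O) (δ' r' : ℕ) (B' : ℕ → Set M), CentG ℳ x G p ϖ' δ' r' B' ∧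
      ∀ (D : Subring F) (i : I) (β : ℕ → M), LocSit ι x B' (lamP O L M p) r' D i β →
        IsRegularLocalRing (fixG (⊤ : Subgroup G) D) := by
  have hOL : Function.Injective (algebraMap O L) := IsFractionRing.injective O L
  obtain ⟨r, B, dg, J, hB, hreg⟩ := hC
  obtain ⟨δ, r₁, B₁, hδ, hfin, hdeg, hpow, hstab, hloc⟩ := hB.exists_uniform
    (oM_mem_lamP P ϖ) (oM_deg ℳ ϖ) H.xdeg (fun g hg c hc => smul_mem_lamP hOL H.hO hg hc)
    (fun g hg => by
      obtain ⟨η, hη, η', hη', h1, h2⟩ := smul_unif (M := M) (L := L) hOL H.hO hU.ϖ0 hU.mem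
        hU.unif hg
      exact ⟨η, hη, h1⟩)
    H.hstar ι
  exact exists_centG_of_inG hG H hp0 hP hU hδ hfin hdeg hpow hstab fun D i β hD => by
    obtain ⟨β', hD'⟩ := hloc D i β hD
    exact hreg D i β' hD'

/-- The hypothesis on the inertia group at `P`. -/
def InHyp (G : Type) [Group G] [MulSemiringAction G O] (P : Ideal O) : Prop :=
  Nat.card {g : G // ∀ c : O, g • c - c ∈ P} ≤ 3 ∨ ((2 : O) ∉ P ∧ ∃ a : ℕ,
    Nat.card {g : G // ∀ c : O, g • c - c ∈ P} = 2 ^ a ∨
      Nat.card {g : G // ∀ c : O, g • c - c ∈ P} = 3 * 2 ^ a)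

-- BEGIN G9
/-- TASK G9. **The local hypothesis of the global theorem.** If `UnramG O G p`: the centre and `Good G D` as in the proof of
`exists_centre` (LC6, GI/Loc.lean), and `regular_of_good` (G6). Otherwise `exists_of_not_unram` (LC5) gives `P`, `g ≠ 1`; if
the inertia group has at most three elements: `exists_locP` and `exists_centG` (CO16) as in LC6, and
`regular_of_good`. Otherwise `exists_hasC` (TW/Base.lean; `Nat.card (inG G P)` is the given number by definition) and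
`exists_centG_of_hasC`. -/
theorem exists_centre2 [Module.Finite R O] (hT : TameStab) (hG : GalExt R O G)
    (H : GeoHyp O L M F I G ℳ ι x I₀)
    (hin : ∀ (P : Ideal O) [P.IsPrime], P ≠ ⊥ → InHyp G P)
    (hfin : ∀ (P : Ideal O) [P.IsPrime], P ≠ ⊥ → Finite (O ⧸ P)) {p : Ideal R} [p.IsPrime]
    (hp0 : p ≠ ⊥) :
    ∃ (ϖ : O) (δ r : ℕ) (B : ℕ → Set M), CentG ℳ x G p ϖ δ r B ∧
      (UnramG O G p → ϖ = 1 ∧ r = 0 ∧ B = fun _ => Set.range x) ∧
      ∀ (D : Subring F) (i : I) (β : ℕ → M), LocSit ι x B (lamP O L M p) r D i β →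
        IsRegularLocalRing (fixG (⊤ : Subgroup G) D) := by
  have hOL : Function.Injective (algebraMap O L) := IsFractionRing.injective O L
  have hRL : Function.Injective (algebraMap R L) := by
    rw [IsScalarTower.algebraMap_eq R O L]
    exact hOL.comp hG.inj
  have hne : ∀ (P : Ideal O), P.comap (algebraMap R O) = p → P ≠ ⊥ := by
    rintro P hP rfl
    apply hp0
    rw [← hP, Ideal.comap_bot_of_injective _ hG.inj]
  by_cases hU : UnramG O G p
  · have hC : CentG ℳ x G p (1 : O) 1 0 (fun _ => Set.range x) := by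
      refine ⟨one_ne_zero, le_refl 1, fun _ => Set.finite_range x, ?_, ?_, ?_, ?_⟩
      · rintro j b ⟨k, rfl⟩
        exact H.xdeg k
      · intro j i
        rw [map_one, one_pow, one_mul, pow_one]
        exact ⟨i, rfl⟩
      · intro g
        refine ⟨1, Subring.one_mem _, ?_⟩
        rw [map_one, smul_one, one_mul]
      · rintro g j b ⟨k, rfl⟩
        obtain ⟨k', hk'⟩ := H.hstar g k
        exact ⟨1, Subring.one_mem _, x k', ⟨k', rfl⟩, by rw [hk', one_mul]⟩
    refine ⟨1, 1, 0, fun _ => Set.range x, hC, fun _ => ⟨rfl, rfl, rfl⟩, ?_⟩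
    intro D i β hD
    obtain ⟨P, hP, hPp, hPD⟩ := exists_prime_lam (L := L) (ι := ι) hG hD.loc hD.lam
    obtain ⟨A, hA⟩ := H.around P (hne P hPp) D i hD.loc hPD hD.ne hD.coord
    exact regular_of_good hG H hC hD (good_unram hRL H.hO H.hF hU hD ⟨P, hP, hPp, A, hA⟩)
  · obtain ⟨P, hP, hPp, g, hg1, hgP⟩ := exists_of_not_unram hG hU
    have := hfin P (hne P hPp)
    rcases hin P (hne P hPp) with h3 | ⟨h2, a, ha⟩
    · obtain ⟨ϖ, δ, r, B, hL⟩ := exists_locP hT H (hne P hPp) hG.faithful h3 hg1 hgP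
      obtain ⟨ϖ', δ', r', B', hC, hgood⟩ := exists_centG hG H.hO H.hF H.hgr H.xdeg H.hstar H.hgen
        hp0 hPp hL
      exact ⟨ϖ', δ', r', B', hC, fun h => absurd h hU, fun D i β hD =>
        regular_of_good hG H hC hD (hgood D i β hD)⟩
    · obtain ⟨ϖ, hUn, hC⟩ := exists_hasC (R := R) hT H hG.fix hG.faithful (hne P hPp) h2 (a := a) ha
      obtain ⟨ϖ', δ', r', B', hC', hreg⟩ := exists_centG_of_hasC hG H hp0 hPp hUn hC
      exact ⟨ϖ', δ', r', B', hC', fun h => absurd h hU, hreg⟩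
-- END G9

end Global

end Pool.Agent.Lib.MP_6a3dac_ag.TW
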