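import Pool.Agent.Lib.MP_6a3dac_ag.GI.Asm2
import Pool.Agent.Lib.MP_6a3dac_ag.TW.Abs2
import Pool.Agent.Lib.MP_6a3dac_ag.TW.Glue

/-!
# Regular models of Weil restrictions: the abstract theorem, second version
-/

set_option autoImplicit false
set_option linter.unusedSectionVars false
set_option linter.unusedVariables false

namespace Pool.Agent.Lib.MP_6a3dac_ag.TW

open Pool.Agent.Lib.MP_6a3dac_ag GI QD W3
open CategoryTheory Limits AlgebraicGeometry IsDedekindDomain MvPolynomial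

attribute [local instance] MvPolynomial.gradedAlgebra

variable {R K S N O Φ G : Type} [CommRing R] [IsDedekindDomain R] [Field K] [Algebra R K]
  [IsFractionRing R K] [CommRing S] [IsDedekindDomain S] [Algebra R S] [Module.Finite R S]
  [Field N] [Algebra R N] [Algebra S N] [IsScalarTower R S N] [IsFractionRing S N] [Algebra K N]
  [IsScalarTower R K N] [CommRing O] [Fintype Φ] [Nonempty Φ] {n : ℕ} {ψ : Φ → O →+* N}

theorem exists_model_weil_galois2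
    (𝔞 : HomogeneousIdeal (homogeneousSubmodule (Fin n) O))
    [IsDomain (MultRing ψ 𝔞.toIdeal)] [Group G] [Finite G]
    [MulSemiringAction G S] [MulSemiringAction G N] {π : G → Φ → Φ}
    (hs : ∀ (g : G) φ c, MulSemiringAction.toRingHom G N g (ψ φ c) = ψ (π g φ) c)
    (hmul : ∀ g h φ, π (g * h) φ = π g (π h φ)) (hone : ∀ φ, π 1 φ = φ)
    (hRf : ¬ IsField R) (h : GalExt R S G)
    (hin : ∀ (P : Ideal S) [P.IsPrime], P ≠ ⊥ → InHyp G P)
    (hfin : ∀ (P : Ideal S) [P.IsPrime], P ≠ ⊥ → Finite (S ⧸ P))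
    (hgeo : ∀ (_ : MulSemiringAction G (segAlg ψ 𝔞.toIdeal))
      (_ : MulSemiringAction G (FractionRing (MultRing ψ 𝔞.toIdeal)))
      (_ : GradedAlgebra (segGr ψ 𝔞.toIdeal)),
      (∀ (g : G) (z : segAlg ψ 𝔞.toIdeal), ((g • z : segAlg ψ 𝔞.toIdeal) : MultRing ψ 𝔞.toIdeal) =
        permRing 𝔞.toIdeal (hs g) z) →
      (∀ (g : G) (z : MultRing ψ 𝔞.toIdeal), g • fracι (ψ := ψ) 𝔞.toIdeal z =
        fracι (ψ := ψ) 𝔞.toIdeal (permRing 𝔞.toIdeal (hs g) z)) →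
      GeoHyp S N (segAlg ψ 𝔞.toIdeal) (FractionRing (MultRing ψ 𝔞.toIdeal)) (Φ → Fin n) G
        (segGr ψ 𝔞.toIdeal) (segι 𝔞 (fracι 𝔞.toIdeal)) (xS ψ 𝔞.toIdeal) (cstI π n))
    (A₀ : Subalgebra K (MultRing ψ 𝔞.toIdeal))
    (hA₀ : ∀ z, z ∈ A₀ ↔ z ∈ segAlg ψ 𝔞.toIdeal ∧ ∀ g, permRing 𝔞.toIdeal (hs g) z = z)
    (𝒜 : ℕ → Submodule K A₀) (hgr : GradedAlgebra 𝒜)
    (h𝒜 : ∀ k a, a ∈ 𝒜 k ↔
      (a : MultRing ψ 𝔞.toIdeal) ∈ multGr ψ 𝔞.toIdeal (Fintype.card Φ * k)) :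
    ∃ (Y : Scheme.{0}) (g : Y ⟶ Spec (CommRingCat.of R)),
      IsProper g ∧ Flat g ∧ (∀ y : Y, IsRegularLocalRing (Y.presheaf.stalk y)) ∧
      ∃ e : pullback g (Spec.map (CommRingCat.ofHom (algebraMap R K))) ≅ Proj 𝒜,
        e.hom ≫ projTo K 𝒜 =
          pullback.snd g (Spec.map (CommRingCat.ofHom (algebraMap R K))) := by
  let a0 : MulSemiringAction G (MultRing ψ 𝔞.toIdeal) := multAction 𝔞.toIdeal hs hmul hone
  let a1 : MulSemiringAction G (segAlg ψ 𝔞.toIdeal) := segAction 𝔞.toIdeal hs hmul hone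
  let a2 : MulSemiringAction G (FractionRing (MultRing ψ 𝔞.toIdeal)) :=
    IsFractionRing.mulSemiringAction G (MultRing ψ 𝔞.toIdeal)
      (FractionRing (MultRing ψ 𝔞.toIdeal))
  let a3 : GradedAlgebra (segGr ψ 𝔞.toIdeal) := segGradedAlgebra ψ 𝔞.toIdeal 𝔞.2
  have H := hgeo a1 a2 a3 (fun g z => rfl) (fun g z => by
    exact IsFractionRing.ringEquivOfRingEquiv_algebraMap _ _)
  let j : A₀ →ₐ[R] segAlg ψ 𝔞.toIdeal :=
    { toFun := fun z => ⟨z, ((hA₀ _).mp z.2).1⟩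
      map_one' := rfl
      map_mul' := fun _ _ => rfl
      map_zero' := rfl
      map_add' := fun _ _ => rfl
      commutes' := fun _ => rfl }
  have hj : Function.Injective j := fun a b hab =>
    Subtype.ext (congrArg (fun z : segAlg ψ 𝔞.toIdeal => (z : MultRing ψ 𝔞.toIdeal)) hab)
  refine exists_model_of_localG2 𝒜 (segGr ψ 𝔞.toIdeal) hRf h j hj h𝒜 H.hgr ?_ ?_ H.hO
    (segι 𝔞 (fracι 𝔞.toIdeal)) H.inj H.hF (xS ψ 𝔞.toIdeal) H.xdeg H.hstar H.hgen ?_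
  · intro m hm
    refine ⟨⟨m, (hA₀ _).mpr ⟨m.2, fun g => ?_⟩⟩, rfl⟩
    exact congrArg Subtype.val (hm g)
  · intro g a
    apply Subtype.ext
    exact ((hA₀ _).mp a.2).2 g
  · intro p
    obtain ⟨ϖ, δ, r, B, h1, h2, h3⟩ := exists_centre2 tameStab h H hin hfin p.ne_bot
    exact ⟨ϖ, δ, r, B, h1, h2, fun D i β hD => ⟨h3 D i β hD, sysT_stable_top h H h1⟩⟩

end Pool.Agent.Lib.MP_6a3dac_ag.TW
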