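import Pool.Agent.Lib.MP_6a3dac_ag.TW.Step

/-!
# Centres with generators of the same degree
-/

set_option autoImplicit false
set_option linter.unusedSectionVars false
set_option linter.unusedVariables false

namespace Pool.Agent.Lib.MP_6a3dac_ag.TW

open Pool.Agent.Lib.MP_6a3dac_ag GI QD IsLocalRing
open scoped Pointwise

-- BEGIN W1
/-- TASK W1. **The positions.** `δ = ∏ j ∈ Icc 1 r, dg j`, `e j = δ / dg j`, `pos j = J j * e j`, `r' = ∑ pos j`. If `j < l` then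
`J j * dg l < J l * dg j`, multiply by `e j * e l` and divide by `δ`: `pos j < pos l` (`e j * dg j = δ`). -/
theorem exists_pos (r : ℕ) (dg J : ℕ → ℕ) (hd : ∀ j, 1 ≤ dg j) (hJ : ∀ j ∈ Finset.Icc 1 r, 1 ≤ J j)
    (hs : ∀ j ∈ Finset.Icc 1 r, ∀ l ∈ Finset.Icc 1 r, j < l → J j * dg l < J l * dg j) :
    ∃ (δ r' : ℕ) (e : ℕ → ℕ), 1 ≤ δ ∧ (∀ j ∈ Finset.Icc 1 r, 1 ≤ e j ∧ dg j * e j = δ ∧
      J j * e j ∈ Finset.Icc 1 r') ∧
      ∀ j ∈ Finset.Icc 1 r, ∀ l ∈ Finset.Icc 1 r, J j * e j = J l * e l → j = l := by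
  obtain ⟨δ, hδ⟩ : ∃ δ, δ = ∏ j ∈ Finset.Icc 1 r, dg j := ⟨_, rfl⟩
  have hδ1 : 1 ≤ δ := by
    rw [hδ]
    exact Nat.one_le_iff_ne_zero.2 (Finset.prod_ne_zero_iff.2 fun j _ =>
      Nat.one_le_iff_ne_zero.1 (hd j))
  have he : ∀ j ∈ Finset.Icc 1 r, dg j * (δ / dg j) = δ := by
    intro j hj
    apply Nat.mul_div_cancel'
    rw [hδ]
    exact Finset.dvd_prod_of_mem dg hj
  have he1 : ∀ j ∈ Finset.Icc 1 r, 1 ≤ δ / dg j := by
    intro j hj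
    rw [Nat.one_le_iff_ne_zero]
    intro h
    have h1 := he j hj
    rw [h, mul_zero] at h1
    omega
  have hlt : ∀ j ∈ Finset.Icc 1 r, ∀ l ∈ Finset.Icc 1 r, j < l →
      J j * (δ / dg j) < J l * (δ / dg l) := by
    intro j hj l hl hjl
    have h1 := hs j hj l hl hjl
    have h2 : 0 < (δ / dg j) * (δ / dg l) := Nat.mul_pos (he1 j hj) (he1 l hl)
    have h3 := Nat.mul_lt_mul_of_pos_right h1 h2
    have h4 : J j * dg l * ((δ / dg j) * (δ / dg l)) = J j * (δ / dg j) * δ := by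
      calc J j * dg l * ((δ / dg j) * (δ / dg l)) = J j * (δ / dg j) * (dg l * (δ / dg l)) := by
            ring
        _ = _ := by rw [he l hl]
    have h5 : J l * dg j * ((δ / dg j) * (δ / dg l)) = J l * (δ / dg l) * δ := by
      calc J l * dg j * ((δ / dg j) * (δ / dg l)) = J l * (δ / dg l) * (dg j * (δ / dg j)) := by
            ring
        _ = _ := by rw [he j hj]
    rw [h4, h5] at h3
    exact Nat.lt_of_mul_lt_mul_right h3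
  refine ⟨δ, ∑ j ∈ Finset.Icc 1 r, J j * (δ / dg j), fun j => δ / dg j, hδ1,
    fun j hj => ⟨he1 j hj, he j hj, ?_⟩, fun j hj l hl h => ?_⟩
  · rw [Finset.mem_Icc]
    refine ⟨Nat.mul_pos (hJ j hj) (he1 j hj), ?_⟩
    exact Finset.single_le_sum (f := fun j => J j * (δ / dg j)) (fun _ _ => Nat.zero_le _) hj
  · rcases lt_trichotomy j l with h1 | h1 | h1
    · exact absurd h (hlt j hj l hl h1).ne
    · exact h1
    · exact absurd h (hlt l hl j hj h1).ne'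
-- END W1

variable {L M F I G : Type} [Field L] [CommRing M] [Algebra L M] [Field F] [Group G]
  [MulSemiringAction G M]

/-- The new sets: powers of the given sets at the positions `pos j`, trivial sets otherwise. -/
def convB (x : I → M) (ϖ : M) (B : ℕ → Set M) (δ r : ℕ) (e pos : ℕ → ℕ) (l : ℕ) : Set M :=
  {b | (∃ j ∈ Finset.Icc 1 r, pos j = l ∧ b ∈ (B j) ^ e j) ∨
    ((∀ j ∈ Finset.Icc 1 r, pos j ≠ l) ∧ ∃ k, b = x k ^ δ ∨ b = ϖ ^ l * x k ^ δ)}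

variable {ℳ : ℕ → Submodule L M} [GradedAlgebra ℳ] {x : I → M} {ι : M →+* F} {Λ : Subring M}
  {ϖ : M} {Dp : Subgroup G} {r : ℕ} {B : ℕ → Set M} {dg J : ℕ → ℕ} {δ r' : ℕ} {e : ℕ → ℕ}

section

variable (hB : CSet ℳ x Λ ϖ Dp r B dg J)
  (he : ∀ j ∈ Finset.Icc 1 r, 1 ≤ e j ∧ dg j * e j = δ ∧ J j * e j ∈ Finset.Icc 1 r')

-- BEGIN W2
omit [GradedAlgebra ℳ] in
theorem w2_pow_deg [SetLike.GradedMonoid ℳ] {S : Set M} {d : ℕ} (hS : ∀ b ∈ S, b ∈ ℳ d) (n : ℕ) :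
    ∀ b ∈ S ^ n, b ∈ ℳ (d * n) := by
  induction n with
  | zero =>
    intro b hb
    rw [pow_zero, Set.mem_one] at hb
    rw [hb, Nat.mul_zero]
    exact SetLike.one_mem_graded ℳ
  | succ n ih =>
    intro b hb
    rw [pow_succ, Set.mem_mul] at hb
    obtain ⟨u, hu, v, hv, rfl⟩ := hb
    have h := SetLike.mul_mem_graded (ih u hu) (hS v hv)
    rwa [Nat.mul_succ]

theorem w2_pow_deg' {y : M} {d : ℕ} (hy : y ∈ ℳ d) (n : ℕ) : y ^ n ∈ ℳ (d * n) :=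
  w2_pow_deg (S := {y}) (fun b hb => by rw [Set.mem_singleton_iff.1 hb]; exact hy) n _
    (Set.pow_mem_pow (Set.mem_singleton y))

theorem w2_finite_pow {S : Set M} (hS : S.Finite) (n : ℕ) : (S ^ n).Finite := by
  induction n with
  | zero =>
    rw [pow_zero]
    exact Set.finite_one
  | succ n ih =>
    rw [pow_succ]
    exact ih.mul hS

include hB in
/-- TASK W2. The sets `(B j) ^ e j` are finite (`Set.Finite.pow`), `I` is finite. -/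
theorem finite_convB [Finite I] (l : ℕ) :
    (convB x ϖ B δ r e (fun j => J j * e j) l).Finite := by
  have h1 : (⋃ j ∈ Finset.Icc 1 r, (B j) ^ e j).Finite :=
    Set.Finite.biUnion (Finset.finite_toSet _) fun j _ => w2_finite_pow (hB.fin j) _
  have h2 : (Set.range fun k => x k ^ δ).Finite := Set.finite_range _
  have h3 : (Set.range fun k => ϖ ^ l * x k ^ δ).Finite := Set.finite_range _
  refine ((h1.union h2).union h3).subset fun b hb => ?_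
  rcases hb with ⟨j, hj, -, hb⟩ | ⟨-, k, hb | hb⟩
  · exact Or.inl (Or.inl (Set.mem_biUnion hj hb))
  · exact Or.inl (Or.inr ⟨k, hb.symm⟩)
  · exact Or.inr ⟨k, hb.symm⟩

include hB he in
/-- TASK W2. The elements of `(B j) ^ e j` have degree `dg j * e j = δ` (induction). -/
theorem convB_deg (hϖ : ϖ ∈ ℳ 0) (hx : ∀ k, x k ∈ ℳ 1) (l : ℕ) :
    ∀ b ∈ convB x ϖ B δ r e (fun j => J j * e j) l, b ∈ ℳ δ := by
  intro b hb
  have hxk : ∀ k, x k ^ δ ∈ ℳ δ := by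
    intro k
    have h := w2_pow_deg' (hx k) δ
    rwa [Nat.one_mul] at h
  rcases hb with ⟨j, hj, -, hb⟩ | ⟨-, k, hb | hb⟩
  · have h := w2_pow_deg (hB.deg j) (e j) b hb
    rwa [(he j hj).2.1] at h
  · rw [hb]
    exact hxk k
  · rw [hb]
    have h := SetLike.mul_mem_graded (w2_pow_deg' hϖ l) (hxk k)
    rwa [Nat.zero_mul, Nat.zero_add] at h

include hB he in
/-- TASK W2. `ϖ ^ (J j * e j) * x i ^ δ = (ϖ ^ J j * x i ^ dg j) ^ e j`. -/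
theorem pow_mem_convB (l : ℕ) (i : I) :
    ϖ ^ l * x i ^ δ ∈ convB x ϖ B δ r e (fun j => J j * e j) l := by
  by_cases h : ∃ j ∈ Finset.Icc 1 r, J j * e j = l
  · obtain ⟨j, hj, hl⟩ := h
    refine Or.inl ⟨j, hj, hl, ?_⟩
    have h1 : ϖ ^ l * x i ^ δ = (ϖ ^ J j * x i ^ dg j) ^ e j := by
      rw [mul_pow, ← pow_mul, ← pow_mul, hl, (he j hj).2.1]
    rw [h1]
    exact Set.pow_mem_pow (hB.pow j i)
  · refine Or.inr ⟨fun j hj hl => h ⟨j, hj, hl⟩, i, Or.inr rfl⟩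

include hB in
/-- TASK W2. For `b ∈ (B j) ^ e j`: `smul_mem_span_pow` (T2). -/
theorem convB_stab (hΛ : ∀ g ∈ Dp, ∀ c ∈ Λ, g • c ∈ Λ) (hϖ : ∀ g ∈ Dp, ∃ η ∈ Λ, g • ϖ = η * ϖ)
    (hx : ∀ (g : G) l, ∃ l', g • x l = x l') {g : G} (hg : g ∈ Dp) (l : ℕ) :
    ∀ b ∈ convB x ϖ B δ r e (fun j => J j * e j) l,
      g • b ∈ Submodule.span Λ (convB x ϖ B δ r e (fun j => J j * e j) l) := by
  intro b hb
  rcases hb with ⟨j, hj, hl, hb⟩ | ⟨hn, k, hb | hb⟩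
  · have h1 : g • b ∈ Submodule.span Λ ((B j) ^ e j) :=
      smul_mem_span_pow (hΛ g hg) (hB.stab g hg j) (Submodule.subset_span hb)
    exact Submodule.span_mono (fun c hc => Or.inl ⟨j, hj, hl, hc⟩) h1
  · obtain ⟨k', hk'⟩ := hx g k
    refine Submodule.subset_span (Or.inr ⟨hn, k', Or.inl ?_⟩)
    rw [hb, smul_pow', hk']
  · obtain ⟨k', hk'⟩ := hx g k
    obtain ⟨η, hη, hη'⟩ := hϖ g hg
    have h1 : g • b = (⟨η, hη⟩ : Λ) ^ l • (ϖ ^ l * x k' ^ δ) := by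
      rw [hb, smul_mul', smul_pow', smul_pow', hk', hη', mul_pow, mul_assoc]
      rfl
    rw [h1]
    exact Submodule.smul_mem _ _ (Submodule.subset_span (Or.inr ⟨hn, k', Or.inr rfl⟩))
-- END W2

variable {D : Subring F} {i : I} {β : ℕ → M}

-- BEGIN W3
theorem w3_pow {S : Set M} {b₁ : M} {R' : Subring F} (hR : ∀ b ∈ S, ι b / ι b₁ ∈ R') (n : ℕ) :
    ∀ c ∈ S ^ n, ι c / ι b₁ ^ n ∈ R' := by
  induction n with
  | zero =>
    intro c hc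
    rw [pow_zero, Set.mem_one] at hc
    rw [hc, map_one, pow_zero, div_one]
    exact R'.one_mem
  | succ n ih =>
    intro c hc
    rw [pow_succ, Set.mem_mul] at hc
    obtain ⟨a, ha, b, hb, rfl⟩ := hc
    rw [map_mul, pow_succ, mul_div_mul_comm]
    exact R'.mul_mem (ih a ha) (hR b hb)

/-- TASK W3. **Powers of ideals.** `β₁ = b₁ q` with `b₁ ∈ S`, `q ∈ S ^ n` (`e = n + 1`, `pow_succ'`, `Set.mem_mul`); take `β' = b₁`. For `b ∈ S`: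
`ι b / ι b₁ = ι (b q) / ι β₁ ∈ D`. Last claim: if `R'` contains the `ι b / ι b₁`, `b ∈ S`, then it contains the
`ι c / ι b₁ ^ e` for all `c ∈ S ^ e` (induction), in particular `ι β₁ / ι b₁ ^ e`, whose inverse
`ι (b₁ ^ e) / ι β₁` lies in `D`; so it contains all `ι c / ι β₁`. -/
theorem exists_root {S : Set M} {e : ℕ} (he : 1 ≤ e) {β₁ : M} (hβ : β₁ ∈ S ^ e) (hβ0 : ι β₁ ≠ 0)
    (hr : ∀ c ∈ S ^ e, ι c / ι β₁ ∈ D) :
    ∃ β' ∈ S, ι β' ≠ 0 ∧ (∀ b ∈ S, ι b / ι β' ∈ D) ∧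
      ∀ R' : Subring F, R' ≤ D → (∀ a ∈ R', ∀ b ∈ D, a * b = 1 → b ∈ R') →
        (∀ b ∈ S, ι b / ι β' ∈ R') → ∀ c ∈ S ^ e, ι c / ι β₁ ∈ R' := by
  obtain ⟨n, rfl⟩ : ∃ n, e = n + 1 := ⟨e - 1, by omega⟩
  have hβ2 := hβ
  rw [pow_succ', Set.mem_mul] at hβ2
  obtain ⟨b₁, hb₁, q, hq, hbq⟩ := hβ2
  have h0 : ι b₁ ≠ 0 ∧ ι q ≠ 0 := by
    rw [← hbq, map_mul] at hβ0
    exact ⟨left_ne_zero_of_mul hβ0, right_ne_zero_of_mul hβ0⟩
  refine ⟨b₁, hb₁, h0.1, fun b hb => ?_, fun R' hR hdom hRb c hc => ?_⟩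
  · have h1 : b * q ∈ S ^ (n + 1) := by
      rw [pow_succ']
      exact Set.mul_mem_mul hb hq
    have h2 := hr _ h1
    rw [← hbq, map_mul, map_mul, mul_div_mul_right _ _ h0.2] at h2
    exact h2
  · have h1 := w3_pow hRb (n + 1)
    have h2 : ι (b₁ ^ (n + 1)) / ι β₁ ∈ D := hr _ (Set.pow_mem_pow hb₁)
    have h3 : ι β₁ / ι b₁ ^ (n + 1) * (ι (b₁ ^ (n + 1)) / ι β₁) = 1 := by
      rw [map_pow]
      have := h0.1
      field_simp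
    have h4 := hdom _ (h1 β₁ hβ) _ h2 h3
    have h5 : ι c / ι β₁ = ι c / ι b₁ ^ (n + 1) * (ι (b₁ ^ (n + 1)) / ι β₁) := by
      rw [map_pow]
      have := h0.1
      field_simp
    rw [h5]
    exact R'.mul_mem (h1 c hc) h4
-- END W3

-- BEGIN W4
/-- TASK W4. **Trivial ideals.** `a = ι β₁ / ι (x i) ^ δ` lies in `R'`, and its inverse
`ι (x i ^ δ) / ι β₁` lies in `D` (`x i ^ δ` is an element of the set), so in `R'`;
`ι b / ι β₁ = (ι b / ι (x i) ^ δ) a⁻¹`. -/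
theorem triv_mem {l : ℕ} (hϖ : ϖ ∈ Λ) (hne : ι (x i) ≠ 0) {β₁ : M}
    (hβ : ∃ k, β₁ = x k ^ δ ∨ β₁ = ϖ ^ l * x k ^ δ) (hβ0 : ι β₁ ≠ 0)
    (hr : ∀ b, (∃ k, b = x k ^ δ ∨ b = ϖ ^ l * x k ^ δ) → ι b / ι β₁ ∈ D) {R' : Subring F}
    (hR : R' ≤ D) (hdom : ∀ a ∈ R', ∀ b ∈ D, a * b = 1 → b ∈ R') (hΛ : ∀ c ∈ Λ, ι c ∈ R')
    (hx : ∀ k, ι (x k) / ι (x i) ∈ R') {b : M} (hb : ∃ k, b = x k ^ δ ∨ b = ϖ ^ l * x k ^ δ) :
    ι b / ι β₁ ∈ R' := by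
  have key : ∀ b : M, (∃ k, b = x k ^ δ ∨ b = ϖ ^ l * x k ^ δ) → ι b / ι (x i) ^ δ ∈ R' := by
    rintro b ⟨k, rfl | rfl⟩
    · rw [map_pow, ← div_pow]
      exact R'.pow_mem (hx k) δ
    · rw [map_mul, map_pow, map_pow, mul_div_assoc, ← div_pow]
      exact R'.mul_mem (R'.pow_mem (hΛ ϖ hϖ) l) (R'.pow_mem (hx k) δ)
  have hxi : ι (x i) ^ δ ≠ 0 := pow_ne_zero δ hne
  have h1 : ι β₁ / ι (x i) ^ δ ∈ R' := key β₁ hβ
  have h2 : ι (x i ^ δ) / ι β₁ ∈ D := hr (x i ^ δ) ⟨i, Or.inl rfl⟩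
  have h3 : ι (x i ^ δ) / ι β₁ ∈ R' := by
    refine hdom _ h1 _ h2 ?_
    rw [map_pow]
    field_simp
  have h4 : ι b / ι β₁ = ι b / ι (x i) ^ δ * (ι (x i ^ δ) / ι β₁) := by
    rw [map_pow]
    field_simp
  rw [h4]
  exact R'.mul_mem (key b hb) h3
-- END W4

-- BEGIN W5
omit he in
theorem w5_convB
    (hinj : ∀ j ∈ Finset.Icc 1 r, ∀ l ∈ Finset.Icc 1 r, J j * e j = J l * e l → j = l)
    {j : ℕ} (hj : j ∈ Finset.Icc 1 r) :
    convB x ϖ B δ r e (fun j => J j * e j) (J j * e j) = (B j) ^ e j := by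
  ext b
  constructor
  · rintro (⟨j', hj', h1, hb⟩ | ⟨h1, -⟩)
    · have h2 := hinj j' hj' j hj h1
      subst h2
      exact hb
    · exact absurd rfl (h1 j hj)
  · intro hb
    exact Or.inl ⟨j, hj, rfl, hb⟩

include he in
/-- TASK W5. **Comparison.** `β' j` from `exists_root` for `S = B j`, `β₁ = β (J j * e j)` (for `j ∈ Icc 1 r`; the set
`convB` at this position is `(B j) ^ e j` by `hinj`). `gen`: `hD.gen`; at the positions `J j * e j` the last claim of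
`exists_root`, at the other positions `triv_mem`. -/
theorem LocSit.of_convB (hϖ : ϖ ∈ Λ)
    (hinj : ∀ j ∈ Finset.Icc 1 r, ∀ l ∈ Finset.Icc 1 r, J j * e j = J l * e l → j = l)
    (hD : LocSit ι x (convB x ϖ B δ r e fun j => J j * e j) Λ r' D i β) :
    ∃ β' : ℕ → M, LocSit ι x B Λ r D i β' := by
  classical
  have h0 : ∀ j, ∃ β' : M, j ∈ Finset.Icc 1 r → (β' ∈ B j ∧ ι β' ≠ 0 ∧ (∀ b ∈ B j, ι b / ι β' ∈ D) ∧
      ∀ R' : Subring F, R' ≤ D → (∀ a ∈ R', ∀ b ∈ D, a * b = 1 → b ∈ R') →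
        (∀ b ∈ B j, ι b / ι β' ∈ R') → ∀ c ∈ B j ^ e j, ι c / ι (β (J j * e j)) ∈ R') := by
    intro j
    by_cases hj : j ∈ Finset.Icc 1 r
    · obtain ⟨h1, h2, h3⟩ := he j hj
      have h4 := w5_convB (x := x) (ϖ := ϖ) (B := B) (δ := δ) hinj hj
      have h5 := hD.β_mem _ h3
      rw [h4] at h5
      have h6 := hD.ratio _ h3
      rw [h4] at h6
      obtain ⟨β', h7, h8, h9, h10⟩ := exists_root h1 h5 (hD.β_ne _ h3) h6
      exact ⟨β', fun _ => ⟨h7, h8, h9, h10⟩⟩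
    · exact ⟨0, fun h => absurd h hj⟩
  choose β' hβ' using h0
  refine ⟨β', hD.loc, hD.lam, hD.ne, hD.coord, fun j hj => (hβ' j hj).1, fun j hj => (hβ' j hj).2.1,
    fun j hj => (hβ' j hj).2.2.1, ?_⟩
  intro R' hR hdom hΛ hx hb
  refine hD.gen R' hR hdom hΛ hx ?_
  intro l hl b hbl
  by_cases hlj : ∃ j ∈ Finset.Icc 1 r, J j * e j = l
  · obtain ⟨j, hj, rfl⟩ := hlj
    rw [w5_convB (x := x) (ϖ := ϖ) (B := B) (δ := δ) hinj hj] at hbl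
    exact (hβ' j hj).2.2.2 R' hR hdom (hb j hj) b hbl
  · have hne : ∀ j ∈ Finset.Icc 1 r, J j * e j ≠ l := fun j hj h => hlj ⟨j, hj, h⟩
    have key : ∀ b, b ∈ convB x ϖ B δ r e (fun j => J j * e j) l →
        ∃ k, b = x k ^ δ ∨ b = ϖ ^ l * x k ^ δ := by
      rintro b (⟨j, hj, h1, -⟩ | ⟨-, h1⟩)
      · exact absurd h1 (hne j hj)
      · exact h1
    exact triv_mem hϖ hD.ne (key _ (hD.β_mem l hl)) (hD.β_ne l hl)
      (fun b hb => hD.ratio l hl b (Or.inr ⟨hne, hb⟩)) hR hdom hΛ hx (key b hbl)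
-- END W5

end

/-- **Centres with generators of the same degree.** -/
theorem CSet.exists_uniform [Finite I] (hB : CSet ℳ x Λ ϖ Dp r B dg J) (hϖΛ : ϖ ∈ Λ)
    (hϖ0 : ϖ ∈ ℳ 0) (hx1 : ∀ k, x k ∈ ℳ 1)
    (hΛ : ∀ g ∈ Dp, ∀ c ∈ Λ, g • c ∈ Λ) (hϖ : ∀ g ∈ Dp, ∃ η ∈ Λ, g • ϖ = η * ϖ)
    (hx : ∀ (g : G) l, ∃ l', g • x l = x l') (ι : M →+* F) :
    ∃ (δ r' : ℕ) (B' : ℕ → Set M), 1 ≤ δ ∧ (∀ j, (B' j).Finite) ∧ (∀ j, ∀ b ∈ B' j, b ∈ ℳ δ) ∧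
      (∀ j i, ϖ ^ j * x i ^ δ ∈ B' j) ∧
      (∀ g ∈ Dp, ∀ j, ∀ b ∈ B' j, g • b ∈ Submodule.span Λ (B' j)) ∧
      ∀ D i β, LocSit ι x B' Λ r' D i β → ∃ β' : ℕ → M, LocSit ι x B Λ r D i β' := by
  obtain ⟨δ, r', e, hδ, he, hinj⟩ := exists_pos r dg J hB.dpos hB.Jpos hB.slope
  exact ⟨δ, r', convB x ϖ B δ r e fun j => J j * e j, hδ, finite_convB hB,
    convB_deg hB he hϖ0 hx1, pow_mem_convB hB he, fun g hg => convB_stab hB hΛ hϖ hx hg,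
    fun D i β hD => LocSit.of_convB he hϖΛ hinj hD⟩

end Pool.Agent.Lib.MP_6a3dac_ag.TW
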