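import Pool.Agent.Lib.MP_6a3dac_ag.TW.Chain
import Pool.Agent.Lib.MP_6a3dac_ag.TW.Conv
import Pool.Agent.Lib.MP_6a3dac_ag.GI.Loc

/-!
# The bottom of the tower
-/

set_option autoImplicit false
set_option linter.unusedSectionVars false
set_option linter.unusedVariables false

namespace Pool.Agent.Lib.MP_6a3dac_ag.TW

open Pool.Agent.Lib.MP_6a3dac_ag GI QD W3 IsLocalRing
open scoped Pointwise

section Field

variable {F G : Type} [Field F] [Group G] [Finite G] [MulSemiringAction G F]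

-- BEGIN B1
/-- TASK B1. `hD.isRegular_fixG` for `K = zpowers τ`; `Good K D` by `good_of_principal` (IN6, GI/Inert.lean) for the
group `↥(zpowers τ)` and its element `⟨τ, _⟩` (which generates it; `Subgroup.orderOf_mk`; the hypothesis `hI` is
clear). -/
theorem regular_fixG_of_principal {T : ℕ → AddSubgroup F} {D : Subring F} {v : F} (hT : GSys T)
    (hD : GPt T D v) {τ : G} (hτ : orderOf τ = 2 ∨ orderOf τ = 3)
    (hst : ∀ g ∈ Subgroup.zpowers τ, ∀ n, ∀ f ∈ T n, g • f ∈ T n) (hreg : IsRegularLocalRing D)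
    (hpr : (∀ z ∈ D, τ • z ∈ D) → Principal (act τ) D) :
    IsRegularLocalRing (fixG (Subgroup.zpowers τ) D) := by
  have hmem : τ ∈ Subgroup.zpowers τ := Subgroup.mem_zpowers τ
  refine hD.isRegular_fixG hT hst ?_
  have hord : orderOf (⟨τ, hmem⟩ : Subgroup.zpowers τ) = orderOf τ := Subgroup.orderOf_mk τ hmem
  refine good_of_principal (τ := (⟨τ, hmem⟩ : Subgroup.zpowers τ)) ?_ ?_ hreg ?_
  · rwa [hord]
  · intro g _
    obtain ⟨k, hk⟩ := Subgroup.mem_zpowers_iff.mp g.2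
    refine Subgroup.mem_zpowers_iff.mpr ⟨k, Subtype.ext ?_⟩
    rw [← hk]
    rfl
  · intro h
    exact hpr h
-- END B1

-- BEGIN B2
omit [Field F] [MulSemiringAction G F] in
/-- TASK B2. A group of order three is cyclic (`isCyclic_of_prime_card`, or `exists_gen` LC4). -/
theorem exists_zpowers_three {C : Subgroup G} (hC : Nat.card C = 3) :
    ∃ τ : G, orderOf τ = 3 ∧ C = Subgroup.zpowers τ := by
  haveI : Fact (Nat.Prime 3) := ⟨Nat.prime_three⟩
  have hcyc : IsCyclic C := isCyclic_of_prime_card hC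
  obtain ⟨g, hg⟩ := hcyc.exists_generator
  refine ⟨(g : G), ?_, ?_⟩
  · rw [Subgroup.orderOf_coe, orderOf_eq_card_of_forall_mem_zpowers hg, hC]
  · ext y
    constructor
    · intro hy
      obtain ⟨k, hk⟩ := Subgroup.mem_zpowers_iff.1 (hg ⟨y, hy⟩)
      refine Subgroup.mem_zpowers_iff.2 ⟨k, ?_⟩
      have h1 := congrArg (Subtype.val : C → G) hk
      simpa using h1
    · intro hy
      obtain ⟨k, rfl⟩ := Subgroup.mem_zpowers_iff.1 hy
      exact C.zpow_mem g.2 k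

omit [Field F] [MulSemiringAction G F] in
/-- TASK B2. `g * τ * g⁻¹` is an element of `zpowers τ` of order three, so `τ` or `τ * τ` (see the proof of
`comm_of_three`, IN5). -/
theorem comm_of_norm {τ g : G} (hτ : orderOf τ = 3) (h : g * τ * g⁻¹ ∈ Subgroup.zpowers τ) :
    g * τ = τ * g ∨ g * τ = τ * (τ * g) := by
  rw [← mem_powers_iff_mem_zpowers, Submonoid.mem_powers_iff] at h
  obtain ⟨k, hk0⟩ := h
  have hk := hk0.symm
  have h1 : τ ^ 3 = 1 := by rw [← hτ]; exact pow_orderOf_eq_one τ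
  have hne : τ ≠ 1 := by
    rintro rfl
    rw [orderOf_one] at hτ
    exact absurd hτ (by norm_num)
  have h3 : g * τ = (g * τ * g⁻¹) * g := by group
  have h4 : τ ^ k = τ ^ (k % 3) := by
    conv_lhs => rw [← Nat.div_add_mod k 3, pow_add, pow_mul, h1, one_pow, one_mul]
  rw [h4] at hk
  have h5 : k % 3 < 3 := Nat.mod_lt _ (by norm_num)
  generalize k % 3 = m at hk h5
  interval_cases m
  · exfalso
    apply hne
    have h2 : τ = g⁻¹ * (g * τ * g⁻¹) * g := by group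
    rw [h2, hk]
    group
  · left
    rw [h3, hk, pow_one]
  · right
    rw [h3, hk, pow_two, mul_assoc]
-- END B2

end Field

variable {O L M F I G : Type} [CommRing O]
  [IsDedekindDomain O] [Field L] [Algebra O L] [IsFractionRing O L] [CommRing M]
  [IsDomain M] [Algebra L M] [Algebra O M]
  [IsScalarTower O L M] {ℳ : ℕ → Submodule L M} [GradedAlgebra ℳ] {x : I → M} [Field F]
  {ι : M →+* F} [Group G] [Finite G] [MulSemiringAction G O] [MulSemiringAction G M]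
  [MulSemiringAction G F] [Finite I] {I₀ : G → Set I}

/-- The centre at `P` for the subgroup `C` of the inertia group. -/
def HasC (ℳ : ℕ → Submodule L M) (x : I → M) (ι : M →+* F) (P : Ideal O) [P.IsPrime] (ϖ : O)
    (C : Subgroup G) : Prop :=
  ∃ (r : ℕ) (B : ℕ → Set M) (dg J : ℕ → ℕ),
    CSet ℳ x (lamP O L M P) (oM O L M ϖ) (deG G P) r B dg J ∧
    ∀ D i β, LocSit ι x B (lamP O L M P) r D i β → IsRegularLocalRing (fixG C D)

-- BEGIN B3
/-- TASK B3. The graded ring of a centre is stable under the decomposition group: `sysT_stable`, `smul_WSet`,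
`smul_mem_lamP` (IN4). -/
theorem sysT_stable_deG (H : GeoHyp O L M F I G ℳ ι x I₀) {P : Ideal O} [P.IsPrime] {r : ℕ}
    {B : ℕ → Set M}
    (hB : ∀ g ∈ deG G P, ∀ j, ∀ b ∈ B j, g • b ∈ Submodule.span (lamP O L M P) (B j)) :
    ∀ g ∈ deG G P, ∀ n, ∀ f ∈ sysT ι (lamP O L M P) (DNF.WSet x B r) n,
      g • f ∈ sysT ι (lamP O L M P) (DNF.WSet x B r) n := by
  intro g hg
  exact sysT_stable H.hF
    (fun c hc => smul_mem_lamP (IsFractionRing.injective O L) H.hO hg hc)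
    (smul_WSet (H.hstar g) fun j _ => hB g hg j)

/-- TASK B3. **A uniformizer.** `exists_common_unif` (CO3) for `S = {P}`. -/
theorem exists_unifHyp (H : GeoHyp O L M F I G ℳ ι x I₀) {P : Ideal O} [P.IsPrime] (hP0 : P ≠ ⊥) :
    ∃ ϖ : O, UnifHyp (L := L) (M := M) G P ϖ := by
  obtain ⟨y, hy0, h⟩ := exists_common_unif (S := ({P} : Set (Ideal O))) (Set.finite_singleton P)
    (by
      intro Q hQ
      rw [Set.mem_singleton_iff] at hQ
      subst hQ
      infer_instance)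
    (by
      intro Q hQ
      rw [Set.mem_singleton_iff] at hQ
      subst hQ
      exact hP0)
  obtain ⟨h1, h2⟩ := h P rfl
  exact ⟨y, H.hO, hP0, hy0, h1, h2⟩
-- END B3

-- BEGIN B4
/-- TASK B4. **The trivial group.** `r = 0`, `B j` the set of the `oM ϖ ^ j * x k`, `dg j = 1`, `J j = j`
(`g • oM ϖ = η oM ϖ` by `smul_unif`). For `D` take `A` from `H.around`; `hD.gen` for `R' = A` (`r = 0`) gives `D = A`, regular,
and `fixG C D = D` since `C` is trivial. -/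
theorem hasC_one (H : GeoHyp O L M F I G ℳ ι x I₀) {P : Ideal O} [P.IsPrime] (hP0 : P ≠ ⊥)
    {ϖ : O} (hU : UnifHyp (L := L) (M := M) G P ϖ) {C : Subgroup G} (hC : Nat.card C = 1) :
    HasC ℳ x ι P ϖ C := by
  have hϖ : oM O L M ϖ ∈ ℳ 0 := by
    show algebraMap L M (algebraMap O L ϖ) ∈ ℳ 0
    exact SetLike.algebraMap_mem_graded ℳ _
  have hpow : ∀ n : ℕ, oM O L M ϖ ^ n ∈ ℳ 0 := by
    intro n
    have h1 := SetLike.pow_mem_graded n hϖ
    rwa [smul_zero] at h1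
  refine ⟨0, fun j => Set.range fun k => oM O L M ϖ ^ j * x k, fun _ => 1, fun j => j,
    ⟨fun j => Set.finite_range _, fun _ => le_rfl, ?_, ?_, ?_, ?_, ?_⟩, ?_⟩
  · rintro j _ ⟨k, rfl⟩
    have h1 := SetLike.mul_mem_graded (hpow j) (H.xdeg k)
    rwa [zero_add] at h1
  · intro j k
    exact ⟨k, by simp⟩
  · rintro g hg j _ ⟨k, rfl⟩
    obtain ⟨η, hη, η', -, h1, -⟩ := smul_unif (M := M) (IsFractionRing.injective O L) hU.hO hU.ϖ0
      hU.mem hU.unif (g := g) hg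
    obtain ⟨k', hk'⟩ := H.hstar g k
    have h2 : g • (oM O L M ϖ ^ j * x k) =
        (⟨η ^ j, (lamP O L M P).pow_mem hη j⟩ : lamP O L M P) • (oM O L M ϖ ^ j * x k') := by
      rw [Subring.smul_def, smul_eq_mul]
      show g • (oM O L M ϖ ^ j * x k) = η ^ j * (oM O L M ϖ ^ j * x k')
      rw [smul_mul', smul_pow', h1, hk', mul_pow, mul_assoc]
    show g • (oM O L M ϖ ^ j * x k) ∈ _
    rw [h2]
    exact Submodule.smul_mem _ _ (Submodule.subset_span ⟨k', rfl⟩)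
  · intro j hj
    rw [Finset.mem_Icc] at hj
    omega
  · intro j hj
    rw [Finset.mem_Icc] at hj
    omega
  · intro D i β hD
    obtain ⟨A, hA⟩ := H.around P hP0 D i hD.loc hD.lam hD.ne hD.coord
    have hDA : D = A := by
      refine le_antisymm (hD.gen A hA.le hA.dom hA.lam hA.coord fun j hj => ?_) hA.le
      rw [Finset.mem_Icc] at hj
      omega
    have hfix : fixG C D = D := by
      ext z
      constructor
      · intro hz
        exact hz.1
      · intro hz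
        refine ⟨hz, fun h hh => ?_⟩
        have h1 : C = ⊥ := Subgroup.eq_bot_of_card_eq C hC
        rw [h1, Subgroup.mem_bot] at hh
        rw [hh, one_smul]
    rw [hfix, hDA]
    exact hA.reg
-- END B4

-- BEGIN B5
/-- TASK B5. As `lc2_ghyp` (GI/Loc.lean), with `comm_of_norm` (B2). -/
theorem ghyp_of_norm (H : GeoHyp O L M F I G ℳ ι x I₀) {P : Ideal O} [P.IsPrime] {ϖ : O}
    (hU : UnifHyp (L := L) (M := M) G P ϖ) {τ g : G}
    (hτ : orderOf τ = 3) (hnorm : g * τ * g⁻¹ ∈ Subgroup.zpowers τ) (hg : g ∈ deG G P) :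
    GHyp (lamP O L M P) (act τ) (act (X := M) g) (oM O L M ϖ) := by
  have hOL : Function.Injective (algebraMap O L) := IsFractionRing.injective O L
  refine ⟨fun c hc => smul_mem_lamP hOL H.hO hg hc,
    smul_unif hOL H.hO hU.ϖ0 hU.mem hU.unif hg, ?_⟩
  rcases comm_of_norm hτ hnorm with h | h
  · left
    intro m
    change g • τ • m = τ • g • m
    rw [← mul_smul, ← mul_smul, h]
  · right
    intro m
    change g • τ • m = τ • τ • g • m
    rw [← mul_smul, ← mul_smul, ← mul_smul, h, mul_assoc]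

/-- TASK B5. **Order three, wild.** As `locP_wild` (LC2, GI/Loc.lean) with `dg j = 4`, `J j = j`, `r = 5 n + 4`: `GHyp` from
`ghyp_of_norm`; the regularity of `fixG (zpowers τ) D` from `local_wild` by `regular_fixG_of_principal` (B1),
`LocSit.gPt` (T4), `gSys_sysT` and `sysT_stable_deG` (`zpowers τ ≤ inG G P ≤ deG G P`). -/
theorem hasC_wild (H : GeoHyp O L M F I G ℳ ι x I₀) {P : Ideal O} [P.IsPrime] (hP0 : P ≠ ⊥)
    [Finite (O ⧸ P)] {τ : G} (hτ : orderOf τ = 3) (hne : ∃ c : O, τ • c ≠ c)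
    (hτP : τ ∈ inG G P) (hnorm : ∀ g ∈ deG G P, g * τ * g⁻¹ ∈ Subgroup.zpowers τ)
    (h3 : ∀ c ∈ lamP O L M P, (3 : M) * c ≠ 1) :
    ∃ ϖ : O, UnifHyp (L := L) (M := M) G P ϖ ∧ HasC ℳ x ι P ϖ (Subgroup.zpowers τ) := by
  have hOL : Function.Injective (algebraMap O L) := IsFractionRing.injective O L
  obtain ⟨ϖ, s, hR, hϖP, hunif⟩ := exists_ram_three (M := M) (L := L) (σ := act τ) hOL
    (fun c => lc2_cube hτ c) hne hP0 hτP (τ := act τ) (fun c => H.hO τ c)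
  have hϖM : oM O L M ϖ ≠ 0 := lc1_oM hOL hR.ϖ0
  have h3' : ∃ a ∈ lamP O L M P, (3 : M) = a * oM O L M ϖ := by
    have h3m : (3 : M) ∈ lamP O L M P := by
      have := natCast_mem (lamP O L M P) 3
      exact_mod_cast this
    rcases hR.dvr 3 h3m with ⟨c, hc, h1⟩ | ⟨c, hc, h1⟩
    · exact absurd h1 (h3 c hc)
    · exact ⟨c, hc, by rw [h1]; ring⟩
  have hs := two_le_of_three hR (fun m => lc2_cube hτ m) hOL h3'
  obtain ⟨n, rfl⟩ : ∃ n, s = n + 1 := ⟨s - 1, by omega⟩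
  have hn : 1 ≤ n := by omega
  obtain ⟨ε, c, κ, l, μ, hC⟩ := exists_cst hR hn (fun m => lc2_cube hτ m) hOL h3'
  have hW := centW (ℳ := ℳ) hC hR.ϖ0 (fun m => lc2_cube hτ m) H.xdeg
    (fun k m hm => H.hgr τ k m hm) (fun l => H.hstar τ l)
  have hU : UnifHyp (L := L) (M := M) G P ϖ := ⟨H.hO, hP0, hR.ϖ0, hϖP, hunif⟩
  have hstab : ∀ g ∈ deG G P, ∀ j,
      ∀ b ∈ BW x (act τ) (oM O L M ϖ) (1 + oM O L M ϖ ^ n * κ) c n j,
      g • b ∈ Submodule.span (lamP O L M P)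
        (BW x (act τ) (oM O L M ϖ) (1 + oM O L M ϖ ^ n * κ) c n j) := by
    intro g hg j b hb
    exact mapS_BW hC hϖM (ghyp_of_norm H hU hτ (hnorm g hg) hg) (fun k => H.hstar g k)
      (fun l => H.hstar τ l) (fun m => lc2_cube hτ m) j b hb
  refine ⟨ϖ, hU, 5 * n + 4, BW x (act τ) (oM O L M ϖ) (1 + oM O L M ϖ ^ n * κ) c n,
    fun _ => 4, fun j => j, ⟨hW.fin, fun j => by norm_num, hW.deg, hW.pow, hstab, ?_, ?_⟩, ?_⟩
  · intro j hj
    exact (Finset.mem_Icc.1 hj).1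
  · intro j _ l _ hjl
    exact Nat.mul_lt_mul_of_pos_right hjl (by norm_num)
  · intro D i β hD
    have h := local_wild (I₀ := I₀ τ) (τF := act τ) hC H.inj (fun m => lc2_cube hτ m)
      (fun z => lc2_cube hτ z) (fun m => H.hF τ m) (fun l => H.hstar τ l) (H.fix₀ τ)
      (H.seg3 τ hτ) (H.around P hP0)
      (fun D i hi hD hc h0 hk h1 h2 => H.str3 P hP0 τ hτ hτP ϖ n hR hn hϖP hunif D i hi hD hc h0
        hk h1 h2) D i β hD
    have hle : Subgroup.zpowers τ ≤ deG G P :=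
      (Subgroup.zpowers_le.2 hτP).trans (inG_le_deG P)
    exact regular_fixG_of_principal (gSys_sysT _) (LocSit.gPt hD) (Or.inr hτ)
      (fun g hg => sysT_stable_deG H hstab g (hle hg)) h.1 h.2
-- END B5

-- BEGIN B6
/-- TASK B6. **Order three, tame.** As `locP_tame` (LC3, GI/Loc.lean), in the same way as B5, with `dg j = 3`, `J j = j`,
`r = 3`. -/
theorem hasC_tame (hT : TameStab) (H : GeoHyp O L M F I G ℳ ι x I₀) {P : Ideal O} [P.IsPrime]
    (hP0 : P ≠ ⊥) [Finite (O ⧸ P)] {τ : G} (hτ : orderOf τ = 3) (hne : ∃ c : O, τ • c ≠ c)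
    (hτP : τ ∈ inG G P) (hnorm : ∀ g ∈ deG G P, g * τ * g⁻¹ ∈ Subgroup.zpowers τ)
    (h3 : ∃ c ∈ lamP O L M P, (3 : M) * c = 1) :
    ∃ ϖ : O, UnifHyp (L := L) (M := M) G P ϖ ∧ HasC ℳ x ι P ϖ (Subgroup.zpowers τ) := by
  have hOL : Function.Injective (algebraMap O L) := IsFractionRing.injective O L
  obtain ⟨ϖ, s, hR, hϖP, hunif⟩ := exists_ram_three (M := M) (L := L) (σ := act τ) hOL
    (fun c => lc2_cube hτ c) hne hP0 hτP (τ := act τ) (fun c => H.hO τ c)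
  have hϖM : oM O L M ϖ ≠ 0 := lc1_oM hOL hR.ϖ0
  obtain rfl : s = 1 := Ram.eq_one3 hR hϖM (fun m => lc2_cube hτ m) h3
  obtain ⟨η, η', hTL⟩ := Ram.exists_tlam hR hϖM (fun m => lc2_cube hτ m) h3
  have hW := cent_tB (ℳ := ℳ) (x := x) hTL hR.ϖ0 (fun m => lc2_cube hτ m)
    (fun k m hm => H.hgr τ k m hm) H.xdeg (fun l => H.hstar τ l)
  have hU : UnifHyp (L := L) (M := M) G P ϖ := ⟨H.hO, hP0, hR.ϖ0, hϖP, hunif⟩
  have hstab : ∀ g ∈ deG G P, ∀ j, ∀ b ∈ tB x (act τ) η' (oM O L M ϖ) j,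
      g • b ∈ Submodule.span (lamP O L M P) (tB x (act τ) η' (oM O L M ϖ) j) := by
    intro g hg j b hb
    exact hT hTL hϖM (fun m => lc2_cube hτ m) (ghyp_of_norm H hU hτ (hnorm g hg) hg)
      (fun k => H.hstar g k) (fun l => H.hstar τ l) j b hb
  have hle : Subgroup.zpowers τ ≤ deG G P := by
    rw [Subgroup.zpowers_le]
    exact inG_le_deG P hτP
  refine ⟨ϖ, hU, 3, tB x (act τ) η' (oM O L M ϖ), fun _ => 3, fun j => j,
    ⟨hW.fin, fun _ => by norm_num, hW.deg, hW.pow, hstab, fun j hj => (Finset.mem_Icc.1 hj).1,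
      fun j _ l _ hjl => by omega⟩, ?_⟩
  intro D i β hD
  obtain ⟨A, hA⟩ := H.around P hP0 D i hD.loc hD.lam hD.ne hD.coord
  have h := local_tame3 (τF := act τ) H.inj (fun m => lc2_cube hτ m) (fun m => H.hF τ m)
    (fun z => lc2_cube hτ z) (fun l => H.hstar τ l) hTL
    (fun i => by
      obtain ⟨a, b, c, ha, h1⟩ := H.seg3 τ hτ i
      refine ⟨a, b, c, H.fix₀ τ a ha, ?_⟩
      rw [← mul_assoc]
      exact h1) hD hA
  exact regular_fixG_of_principal (gSys_sysT _) (LocSit.gPt hD) (Or.inr hτ)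
    (fun g hg => sysT_stable_deG H hstab g (hle hg)) h.1 h.2
-- END B6

theorem hasC_three (hT : TameStab) (H : GeoHyp O L M F I G ℳ ι x I₀) {P : Ideal O} [P.IsPrime]
    (hP0 : P ≠ ⊥) [Finite (O ⧸ P)] (hfaith : ∀ g : G, g ≠ 1 → ∃ c : O, g • c ≠ c)
    {C : Subgroup G} (hC : Nat.card C = 3) (hCP : C ≤ inG G P)
    (hnorm : ∀ g ∈ deG G P, ∀ c ∈ C, g * c * g⁻¹ ∈ C) :
    ∃ ϖ : O, UnifHyp (L := L) (M := M) G P ϖ ∧ HasC ℳ x ι P ϖ C := by
  obtain ⟨τ, hτ, rfl⟩ := exists_zpowers_three hC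
  have hτm : τ ∈ Subgroup.zpowers τ := Subgroup.mem_zpowers τ
  have hτ1 : τ ≠ 1 := by
    rintro rfl
    rw [orderOf_one] at hτ
    omega
  by_cases h : ∃ c ∈ lamP O L M P, (3 : M) * c = 1
  · exact hasC_tame hT H hP0 hτ (hfaith τ hτ1) (hCP hτm) (fun g hg => hnorm g hg τ hτm) h
  · push Not at h
    exact hasC_wild H hP0 hτ (hfaith τ hτ1) (hCP hτm) (fun g hg => hnorm g hg τ hτm) h

section Tower

variable {R : Type} [CommRing R] [IsNoetherianRing R] [Algebra R O] [Module.Finite R O]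
  [Algebra R L] [IsScalarTower R O L] [Algebra R M] [IsScalarTower R L M]

-- BEGIN B7
/-- TASK B7. **The hypotheses of the step.** `Λst`: `smul_mem_lamP`; `ϖst`: `smul_unif`; `two`: the inverse of `2` in the local
ring (`exists_inv_lamP`), fixed by `C'` since it is unique; `noeth`, `finΛ`: L4; `odd`: L6 (`hnorm` for `g ∈ C'`, `C' ≤ deG`). -/
theorem stepHyp_of (H : GeoHyp O L M F I G ℳ ι x I₀)
    (hR : ∀ (g : G) (a : R), g • algebraMap R O a = algebraMap R O a)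
    (hfaith : ∀ g : G, g ≠ 1 → ∃ c : O, g • c ≠ c) {P : Ideal O} [P.IsPrime] {ϖ : O}
    (hU : UnifHyp (L := L) (M := M) G P ϖ) (h2 : (2 : O) ∉ P) {C C' : Subgroup G}
    (hle : C ≤ C') (hC' : C' ≤ inG G P) (hnorm : ∀ g ∈ deG G P, ∀ c ∈ C, g * c * g⁻¹ ∈ C)
    (hnorm' : ∀ g ∈ deG G P, ∀ c ∈ C', g * c * g⁻¹ ∈ C')
    (hidx : ∀ g ∈ C', ∀ h ∈ C', g ∉ C → h ∉ C → g⁻¹ * h ∈ C) (hne : ∃ τ ∈ C', τ ∉ C) :
    StepHyp ℳ x ι (lamP O L M P) (oM O L M ϖ) (deG G P) C C' := by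
  have hOL : Function.Injective (algebraMap O L) := IsFractionRing.injective O L
  have hle' : C' ≤ deG G P := hC'.trans (inG_le_deG P)
  have hCP : ∀ g ∈ C', ∀ c ∈ P, g • c ∈ P := fun g hg => mem_deG.1 (hle' hg)
  refine
    { inj := H.inj
      hF := H.hF
      Mst := H.hgr
      xdeg := H.xdeg
      xst := H.hstar
      Λdeg := ?_
      Λst := fun g hg c hc => smul_mem_lamP hOL H.hO (mem_deG.1 hg) hc
      ϖΛ := oM_mem_lamP P ϖ
      ϖst := ?_
      le := hle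
      le' := hle'
      norm := hnorm
      norm' := hnorm'
      idx := hidx
      ne := hne
      two := ?_
      noeth := isNoetherianRing_lamFix H.hO hCP hR
      finΛ := exists_finite_lam H.hO hCP hR
      odd := ?_ }
  · intro c hc
    obtain ⟨n, hn, c', hc', l, rfl⟩ := mem_lamP.1 hc
    exact SetLike.algebraMap_mem_graded ℳ l
  · intro g hg
    obtain ⟨η, hη, η', hη', h1, h3⟩ := smul_unif (M := M) hOL hU.hO hU.ϖ0 hU.mem hU.unif
      (mem_deG.1 hg)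
    exact ⟨η, hη, h1⟩
  · obtain ⟨u, hu, h1⟩ := exists_inv_lamP (M := M) hOL h2
    rw [map_ofNat] at h1
    refine ⟨u, ⟨hu, fun g hg => ?_⟩, h1⟩
    have h3 : (2 : M) * (g • u) = 1 := by
      have h4 : g • ((2 : M) * u) = 2 * (g • u) := by
        rw [two_mul, smul_add, two_mul]
      rw [← h4, h1, smul_one]
    calc g • u = (2 * u) * (g • u) := by rw [h1, one_mul]
      _ = u * (2 * (g • u)) := by ring
      _ = u := by rw [h3, mul_one]
  · obtain ⟨τ, hτ, hτC⟩ := hne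
    exact exists_odd H.hO hfaith hU.bot hle hidx (fun g hg => hnorm g (hle' hg)) hτ hτC hU.mem
-- END B7

theorem hasC_step (H : GeoHyp O L M F I G ℳ ι x I₀)
    (hR : ∀ (g : G) (a : R), g • algebraMap R O a = algebraMap R O a)
    (hfaith : ∀ g : G, g ≠ 1 → ∃ c : O, g • c ≠ c) {P : Ideal O} [P.IsPrime] {ϖ : O}
    (hU : UnifHyp (L := L) (M := M) G P ϖ) (h2 : (2 : O) ∉ P) {C C' : Subgroup G}
    (hle : C ≤ C') (hC' : C' ≤ inG G P) (hnorm : ∀ g ∈ deG G P, ∀ c ∈ C, g * c * g⁻¹ ∈ C)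
    (hnorm' : ∀ g ∈ deG G P, ∀ c ∈ C', g * c * g⁻¹ ∈ C')
    (hidx : ∀ g ∈ C', ∀ h ∈ C', g ∉ C → h ∉ C → g⁻¹ * h ∈ C) (hC : HasC ℳ x ι P ϖ C) :
    HasC ℳ x ι P ϖ C' := by
  by_cases hne : ∃ τ ∈ C', τ ∉ C
  · obtain ⟨r, B, dg, J, hB, hreg⟩ := hC
    exact (stepHyp_of H hR hfaith hU h2 hle hC' hnorm hnorm' hidx hne).exists_cset hB hreg
  · push Not at hne
    have h : C = C' := le_antisymm hle hne
    rwa [← h]

/-- **The centre for the inertia group.** -/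
theorem exists_hasC (hT : TameStab) (H : GeoHyp O L M F I G ℳ ι x I₀)
    (hR : ∀ (g : G) (a : R), g • algebraMap R O a = algebraMap R O a)
    (hfaith : ∀ g : G, g ≠ 1 → ∃ c : O, g • c ≠ c) {P : Ideal O} [P.IsPrime] (hP0 : P ≠ ⊥)
    [Finite (O ⧸ P)] (h2 : (2 : O) ∉ P) {a : ℕ}
    (hcard : Nat.card (inG G P) = 2 ^ a ∨ Nat.card (inG G P) = 3 * 2 ^ a) :
    ∃ ϖ : O, UnifHyp (L := L) (M := M) G P ϖ ∧ HasC ℳ x ι P ϖ (inG G P) := by
  obtain ⟨ϖ₀, hU₀⟩ := exists_unifHyp H hP0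
  obtain ⟨K, h0, ha, hle, hin, hnorm, hidx⟩ := exists_chain hU₀ hfaith h2 hcard
  obtain ⟨ϖ, hU, hC⟩ : ∃ ϖ : O, UnifHyp (L := L) (M := M) G P ϖ ∧ HasC ℳ x ι P ϖ (K 0) := by
    rcases h0 with h | h
    · exact ⟨ϖ₀, hU₀, hasC_one H hP0 hU₀ h⟩
    · exact hasC_three hT H hP0 hfaith h (hin 0) (hnorm 0)
  have hall : ∀ j, HasC ℳ x ι P ϖ (K j) := by
    intro j
    induction j with
    | zero => exact hC
    | succ j ih =>
      exact hasC_step H hR hfaith hU h2 (hle j) (hin (j + 1)) (hnorm j) (hnorm (j + 1)) (hidx j) ih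
  exact ⟨ϖ, hU, ha ▸ hall a⟩

end Tower

end Pool.Agent.Lib.MP_6a3dac_ag.TW
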