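import Pool.Agent.Lib.MP_6a3dac_ag.TW.Lam

/-!
# The chain of subgroups of the inertia group
-/

set_option autoImplicit false
set_option linter.unusedSectionVars false
set_option linter.unusedVariables false

namespace Pool.Agent.Lib.MP_6a3dac_ag.TW

open Pool.Agent.Lib.MP_6a3dac_ag GI QD

section Groups

variable {O G : Type} [CommRing O] [Group G] [MulSemiringAction G O]

/-- The inertia group of `P`. -/
def inG (G : Type) [Group G] [MulSemiringAction G O] (P : Ideal O) : Subgroup G where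
  carrier := {g | ∀ c : O, g • c - c ∈ P}
  mul_mem' := by
    intro a b ha hb c
    have h1 := P.add_mem (ha (b • c)) (hb c)
    rw [mul_smul]
    have h2 : a • b • c - b • c + (b • c - c) = a • b • c - c := by ring
    rwa [h2] at h1
  one_mem' := by
    intro c
    rw [one_smul, sub_self]
    exact P.zero_mem
  inv_mem' := by
    intro a ha c
    have h1 := P.neg_mem (ha (a⁻¹ • c))
    rw [smul_inv_smul, neg_sub] at h1
    exact h1

theorem mem_inG {P : Ideal O} {g : G} : g ∈ inG G P ↔ ∀ c : O, g • c - c ∈ P := Iff.rfl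

/-- The decomposition group of `P`. -/
def deG (G : Type) [Group G] [Finite G] [MulSemiringAction G O] (P : Ideal O) : Subgroup G where
  carrier := {g | ∀ c ∈ P, g • c ∈ P}
  mul_mem' := by
    intro a b ha hb c hc
    rw [mul_smul]
    exact ha _ (hb c hc)
  one_mem' := by
    intro c hc
    rw [one_smul]
    exact hc
  inv_mem' := by
    intro a ha c hc
    apply in4_inv ha
    rwa [smul_inv_smul]

theorem mem_deG [Finite G] {P : Ideal O} {g : G} : g ∈ deG G P ↔ ∀ c ∈ P, g • c ∈ P := Iff.rfl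

theorem inG_le_deG [Finite G] (P : Ideal O) : inG G P ≤ deG G P := by
  intro g hg c hc
  have h := P.add_mem (hg c) hc
  rwa [sub_add_cancel] at h

theorem conj_mem_inG [Finite G] {P : Ideal O} {g c : G} (hg : g ∈ deG G P) (hc : c ∈ inG G P) :
    g * c * g⁻¹ ∈ inG G P := by
  intro z
  have h1 := hg _ (hc (g⁻¹ • z))
  rw [smul_sub, smul_inv_smul] at h1
  rwa [mul_smul, mul_smul]

end Groups

variable {O L M G : Type} [CommRing O] [IsDedekindDomain O]
  [Field L] [Algebra O L] [IsFractionRing O L] [CommRing M]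
  [IsDomain M] [Algebra L M] [Algebra O M]
  [IsScalarTower O L M] [Group G] [Finite G] [MulSemiringAction G O] [MulSemiringAction G M]
  {P : Ideal O} [P.IsPrime] {ϖ : O}

/-- The hypotheses on the uniformizer `ϖ` of the local ring at `P`. -/
structure UnifHyp (G : Type) [Group G] [MulSemiringAction G O] [MulSemiringAction G M]
    (P : Ideal O) (ϖ : O) : Prop where
  hO : ∀ (g : G) c, g • oM O L M c = oM O L M (g • c)
  bot : P ≠ ⊥
  ϖ0 : ϖ ≠ 0
  mem : ϖ ∈ P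
  unif : ∀ c ∈ P, ∃ n, n ∉ P ∧ ∃ d, n * c = d * ϖ

/-- The congruence modulo `ϖ` in the local ring at `P`. -/
def Cg (O L M : Type) [CommRing O] [Field L] [Algebra O L] [CommRing M] [Algebra L M]
    [Algebra O M] [IsScalarTower O L M] (P : Ideal O) [P.IsPrime] (ϖ : O) (a b : M) : Prop :=
  ∃ d ∈ lamP O L M P, a - b = d * oM O L M ϖ

/-- The element `g` multiplies `ϖ` by an element `η` with `η ^ m` congruent to `1`. -/
def ChG (O L M : Type) [CommRing O] [Field L] [Algebra O L] [CommRing M] [Algebra L M]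
    [Algebra O M] [IsScalarTower O L M] {G : Type} [Group G] [MulSemiringAction G M] (P : Ideal O)
    [P.IsPrime] (ϖ : O) (m : ℕ) (g : G) : Prop :=
  ∃ η ∈ lamP O L M P, g • oM O L M ϖ = η * oM O L M ϖ ∧ Cg O L M P ϖ (η ^ m) 1

variable (hU : UnifHyp (L := L) (M := M) G P ϖ)

section Cong

-- BEGIN C1
/-- TASK C1. -/
theorem Cg.mul {a b a' b' : M} (ha : a ∈ lamP O L M P) (hb' : b' ∈ lamP O L M P)
    (h : Cg O L M P ϖ a b) (h' : Cg O L M P ϖ a' b') : Cg O L M P ϖ (a * a') (b * b') := by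
  obtain ⟨d, hd, h1⟩ := h
  obtain ⟨d', hd', h2⟩ := h'
  refine ⟨a * d' + d * b', Subring.add_mem _ (Subring.mul_mem _ ha hd') (Subring.mul_mem _ hd hb'),
    ?_⟩
  calc a * a' - b * b' = a * (a' - b') + (a - b) * b' := by ring
    _ = (a * d' + d * b') * oM O L M ϖ := by rw [h1, h2]; ring

/-- TASK C1. -/
theorem Cg.trans {a b c : M} (h : Cg O L M P ϖ a b) (h' : Cg O L M P ϖ b c) : Cg O L M P ϖ a c := by
  obtain ⟨d, hd, h1⟩ := h
  obtain ⟨d', hd', h2⟩ := h'
  refine ⟨d + d', Subring.add_mem _ hd hd', ?_⟩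
  calc a - c = (a - b) + (b - c) := by ring
    _ = (d + d') * oM O L M ϖ := by rw [h1, h2]; ring

/-- TASK C1. -/
theorem Cg.symm {a b : M} (h : Cg O L M P ϖ a b) : Cg O L M P ϖ b a := by
  obtain ⟨d, hd, h1⟩ := h
  refine ⟨-d, Subring.neg_mem _ hd, ?_⟩
  calc b - a = -(a - b) := by ring
    _ = -d * oM O L M ϖ := by rw [h1]; ring

/-- TASK C1. -/
theorem Cg.pow {a b : M} (ha : a ∈ lamP O L M P) (hb : b ∈ lamP O L M P) (h : Cg O L M P ϖ a b)
    (n : ℕ) : Cg O L M P ϖ (a ^ n) (b ^ n) := by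
  induction n with
  | zero => exact ⟨0, Subring.zero_mem _, by rw [pow_zero, pow_zero, sub_self, zero_mul]⟩
  | succ n ih =>
    rw [pow_succ, pow_succ]
    exact Cg.mul (Subring.pow_mem _ ha n) hb ih h

include hU in
/-- TASK C1. `g • (d * oM ϖ) = (g • d) * η * oM ϖ` (`smul_unif`, `smul_mem_lamP`, IN4). -/
theorem Cg.smul {a b : M} {g : G} (hg : g ∈ deG G P) (h : Cg O L M P ϖ a b) :
    Cg O L M P ϖ (g • a) (g • b) := by
  obtain ⟨d, hd, h1⟩ := h
  have hOL : Function.Injective (algebraMap O L) := IsFractionRing.injective O L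
  obtain ⟨η, hη, η', hη', h2, h3⟩ := smul_unif (L := L) (M := M) hOL hU.hO hU.ϖ0 hU.mem hU.unif hg
  refine ⟨g • d * η, Subring.mul_mem _ (smul_mem_lamP hOL hU.hO hg hd) hη, ?_⟩
  rw [← smul_sub, h1, smul_mul', h2, mul_assoc]

include hU in
/-- TASK C1. `oM n * a = oM c` with `n ∉ P`; `oM (n * g • n) * (g • a - a) = oM (n * (g • c - c) - c * (g • n - n))` is the image
of an element of `P`, so a multiple of `oM ϖ` (`hU.unif`), and `n`, `g • n` are units (`exists_inv_lamP`). -/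
theorem Cg.of_inG {a : M} (ha : a ∈ lamP O L M P) {g : G} (hg : g ∈ inG G P) :
    Cg O L M P ϖ (g • a) a := by
  have hOL : Function.Injective (algebraMap O L) := IsFractionRing.injective O L
  obtain ⟨n, hn, c, hc0, l, hl⟩ := mem_lamP.1 ha
  have hc : oM O L M n * a = oM O L M c := by
    rw [← hc0, ← oM_algebraMap (O := O) (L := L) (M := M) n]
    rfl
  have hgd : g ∈ deG G P := inG_le_deG P hg
  have hgn : g • n ∉ P := by
    intro h
    exact hn (in4_inv hgd h)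
  have h1 : n * (g • c - c) - c * (g • n - n) ∈ P :=
    P.sub_mem (P.mul_mem_left _ (hg c)) (P.mul_mem_left _ (hg n))
  obtain ⟨m, hm, d, hd⟩ := hU.unif _ h1
  obtain ⟨u, hu, hu1⟩ := exists_inv_lamP (L := L) (M := M) hOL hn
  obtain ⟨u', hu', hu1'⟩ := exists_inv_lamP (L := L) (M := M) hOL hgn
  obtain ⟨w, hw, hw1⟩ := exists_inv_lamP (L := L) (M := M) hOL hm
  refine ⟨u * u' * w * oM O L M d, Subring.mul_mem _ (Subring.mul_mem _ (Subring.mul_mem _ hu hu') hw)
    (oM_mem_lamP P d), ?_⟩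
  have h2 : oM O L M (g • n) * (g • a) = oM O L M (g • c) := by
    rw [← hU.hO, ← hU.hO, ← smul_mul', hc]
  have h3 := congrArg (oM O L M) hd
  simp only [map_mul, map_sub] at h3
  calc g • a - a
      = (oM O L M n * u) * (oM O L M (g • n) * u') * (oM O L M m * w) * (g • a - a) := by
        rw [hu1, hu1', hw1]; ring
    _ = u * u' * w * (oM O L M m * (oM O L M n * (oM O L M (g • n) * (g • a)) -
          oM O L M (g • n) * (oM O L M n * a))) := by ring
    _ = u * u' * w * (oM O L M m * (oM O L M n * (oM O L M (g • c) - oM O L M c) -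
          oM O L M c * (oM O L M (g • n) - oM O L M n))) := by rw [h2, hc]; ring
    _ = u * u' * w * oM O L M d * oM O L M ϖ := by rw [h3]; ring
-- END C1

-- BEGIN C2
private theorem c2_num {c : M} (hc : c ∈ lamP O L M P) :
    ∃ n, n ∉ P ∧ ∃ d : O, oM O L M n * c = oM O L M d := by
  obtain ⟨n, hn, d, hd, -⟩ := mem_lamP.1 hc
  refine ⟨n, hn, d, ?_⟩
  rw [← hd, ← oM_algebraMap (O := O) (L := L)]
  rfl

include hU in
/-- TASK C2. **The local ring is a discrete valuation ring.** `oM n * c = oM d` with `n ∉ P`: if `d ∉ P` then `c` is a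
unit, otherwise `d` is a multiple of `ϖ` up to a unit. -/
theorem lam_dvr {c : M} (hc : c ∈ lamP O L M P) : (∃ c' ∈ lamP O L M P, c * c' = 1) ∨
    Cg O L M P ϖ c 0 := by
  have hOL : Function.Injective (algebraMap O L) := IsFractionRing.injective O L
  obtain ⟨n, hn, d, hd⟩ := c2_num hc
  by_cases hdP : d ∈ P
  · right
    obtain ⟨m, hm, d', hd'⟩ := hU.unif d hdP
    obtain ⟨u, hu, hu1⟩ := exists_inv_lamP (M := M) hOL hn
    obtain ⟨v, hv, hv1⟩ := exists_inv_lamP (M := M) hOL hm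
    refine ⟨u * v * oM O L M d', Subring.mul_mem _ (Subring.mul_mem _ hu hv) (oM_mem_lamP P d'), ?_⟩
    have h1 := congrArg (oM O L M) hd'
    rw [map_mul, map_mul] at h1
    linear_combination (-c) * hu1 + u * hd - u * oM O L M d * hv1 + u * v * h1
  · left
    obtain ⟨u, hu, hu1⟩ := exists_inv_lamP (M := M) hOL hdP
    refine ⟨oM O L M n * u, Subring.mul_mem _ (oM_mem_lamP P n) hu, ?_⟩
    linear_combination u * hd + hu1

include hU in
/-- TASK C2. `oM ϖ * c = 1`, `oM n * c = oM d`, `n ∉ P`, would give `oM n = oM (ϖ * d)`, `n ∈ P`. -/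
theorem lam_nonunit {c : M} (hc : c ∈ lamP O L M P) : oM O L M ϖ * c ≠ 1 := by
  intro h
  have hOL : Function.Injective (algebraMap O L) := IsFractionRing.injective O L
  obtain ⟨n, hn, d, hd⟩ := c2_num hc
  have h1 : oM O L M n = oM O L M (ϖ * d) := by
    rw [map_mul]
    linear_combination (-oM O L M n) * h + oM O L M ϖ * hd
  rw [in4_inj (M := M) hOL h1] at hn
  exact hn (P.mul_mem_right _ hU.mem)

include hU in
/-- TASK C2. An element which is divisible by all powers of `ϖ` is zero: if `c = oM d`, `d ≠ 0`, use `exists_pow_le` (CO6)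
for `n = d`: `ϖ ^ N` is a multiple of `oM d`, which is a multiple of `ϖ ^ (N + 1)`; contradiction to `lam_nonunit`. -/
theorem eq_zero_of_pow {d : O} (h : ∀ n : ℕ, ∃ c ∈ lamP O L M P, oM O L M d = c * oM O L M ϖ ^ n) :
    d = 0 := by
  have hOL : Function.Injective (algebraMap O L) := IsFractionRing.injective O L
  by_contra hd
  obtain ⟨N, hN⟩ := exists_pow_le (L := L) (M := M) hOL hU.bot hd
  obtain ⟨a, ha, ha1⟩ := hN (ϖ ^ N) (Ideal.pow_mem_pow hU.mem N)
  obtain ⟨c, hc, hc1⟩ := h (N + 1)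
  have h3 : oM O L M ϖ ≠ 0 := by
    intro h
    exact hU.ϖ0 (in4_inj (M := M) hOL (by rw [h, map_zero]))
  apply lam_nonunit hU (Subring.mul_mem _ ha hc)
  apply mul_left_cancel₀ (pow_ne_zero N h3)
  rw [map_pow] at ha1
  rw [pow_succ] at hc1
  linear_combination (-a) * hc1 - ha1

include hU in
/-- TASK C2. `a ^ 2 ≡ 1` implies `a ≡ 1` or `a ≡ - 1`: `(a - 1) (a + 1) ≡ 0`; if `a - 1` is a unit then
`a + 1 ≡ 0` (`lam_dvr`). -/
theorem Cg.sq_eq {a : M} (ha : a ∈ lamP O L M P) (h : Cg O L M P ϖ (a ^ 2) 1) :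
    Cg O L M P ϖ a 1 ∨ Cg O L M P ϖ a (-1) := by
  obtain ⟨d, hd, hd1⟩ := h
  rcases lam_dvr hU (Subring.sub_mem _ ha (Subring.one_mem _)) with ⟨c', hc', h1⟩ | ⟨e, he, he1⟩
  · right
    refine ⟨d * c', Subring.mul_mem _ hd hc', ?_⟩
    linear_combination c' * hd1 - (a + 1) * h1
  · left
    refine ⟨e, he, ?_⟩
    linear_combination he1
-- END C2

-- BEGIN C3
omit [IsDedekindDomain O] [IsFractionRing O L] [Finite G] [P.IsPrime] in
/-- TASK C3. `η = 1`. -/
theorem ChG.one [P.IsPrime] (m : ℕ) : ChG O L M P ϖ m (1 : G) := by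
  refine ⟨1, Subring.one_mem _, ?_, 0, Subring.zero_mem _, ?_⟩
  · rw [one_smul, one_mul]
  · rw [one_pow, sub_self, zero_mul]

include hU in
/-- TASK C3. `(g * h) • oM ϖ = (g • η_h) * η_g * oM ϖ`, and `(g • η_h) ^ m = g • (η_h ^ m) ≡ 1` (`Cg.smul`). -/
theorem ChG.mul {m : ℕ} {g h : G} (hg : g ∈ deG G P) (hg' : ChG O L M P ϖ m g)
    (hh' : ChG O L M P ϖ m h) : ChG O L M P ϖ m (g * h) := by
  obtain ⟨a, ha, ha1, ha2⟩ := hg'
  obtain ⟨b, hb, hb1, hb2⟩ := hh'
  have hOL : Function.Injective (algebraMap O L) := IsFractionRing.injective O L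
  have hgb : g • b ∈ lamP O L M P := smul_mem_lamP hOL hU.hO hg hb
  refine ⟨(g • b) * a, Subring.mul_mem _ hgb ha, ?_, ?_⟩
  · rw [mul_smul, hb1, smul_mul', ha1, mul_assoc]
  · have h1 : Cg O L M P ϖ (g • b ^ m) (g • 1) := Cg.smul hU hg hb2
    rw [smul_one, smul_pow'] at h1
    have h2 := Cg.mul (Subring.pow_mem _ hgb m) (Subring.one_mem _) h1 ha2
    rw [mul_one] at h2
    rw [mul_pow]
    exact h2

include hU in
/-- TASK C3. `g⁻¹ = g ^ (orderOf g - 1)` and `ChG.mul`, `ChG.one` (`deG` is a subgroup). -/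
theorem ChG.inv {m : ℕ} {g : G} (hg : g ∈ deG G P) (hg' : ChG O L M P ϖ m g) :
    ChG O L M P ϖ m g⁻¹ := by
  have h1 : ∀ k : ℕ, ChG O L M P ϖ m (g ^ k) := by
    intro k
    induction k with
    | zero =>
      rw [pow_zero]
      exact ChG.one m
    | succ k ih =>
      rw [pow_succ']
      exact ChG.mul hU hg hg' ih
  have h2 : g⁻¹ = g ^ (orderOf g - 1) := by
    rw [inv_eq_iff_mul_eq_one, ← pow_succ', Nat.sub_add_cancel (orderOf_pos g), pow_orderOf_eq_one]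
  rw [h2]
  exact h1 _

include hU in
/-- TASK C3. Let `g⁻¹ • oM ϖ = η oM ϖ`, then `g • oM ϖ = η' oM ϖ` with `(g • η) * η' = 1`. For `c ∈ inG` with
`c • oM ϖ = θ oM ϖ`: `(g * c * g⁻¹) • oM ϖ = (g • c • η) * (g • θ) * (g • oM ϖ)`, the coefficient is
`(g • c • η) * (g • θ) * η' ≡ (g • η) * (g • θ) * η' = g • θ` (`Cg.of_inG`, `Cg.smul`). -/
theorem ChG.conj {m : ℕ} {g c : G} (hg : g ∈ deG G P) (hc : c ∈ inG G P) (h : ChG O L M P ϖ m c) :
    ChG O L M P ϖ m (g * c * g⁻¹) := by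
  obtain ⟨t, ht, ht1, ht2⟩ := h
  have hOL : Function.Injective (algebraMap O L) := IsFractionRing.injective O L
  obtain ⟨γ, hγ, γ', hγ', h1, h2⟩ := smul_unif (M := M) hOL hU.hO hU.ϖ0 hU.mem hU.unif
    (mem_deG.1 hg)
  have hgi : g⁻¹ ∈ deG G P := (deG G P).inv_mem hg
  have hη : g⁻¹ • γ' ∈ lamP O L M P := smul_mem_lamP hOL hU.hO hgi hγ'
  have hη1 : g⁻¹ • oM O L M ϖ = (g⁻¹ • γ') * oM O L M ϖ := by
    have h3 : oM O L M ϖ = (g⁻¹ • γ) * g⁻¹ • oM O L M ϖ := by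
      rw [← smul_mul', ← h1, inv_smul_smul]
    have h4 : (g⁻¹ • γ') * (g⁻¹ • γ) = 1 := by
      rw [← smul_mul', mul_comm, h2, smul_one]
    calc g⁻¹ • oM O L M ϖ = ((g⁻¹ • γ') * (g⁻¹ • γ)) * g⁻¹ • oM O L M ϖ := by rw [h4, one_mul]
      _ = (g⁻¹ • γ') * ((g⁻¹ • γ) * g⁻¹ • oM O L M ϖ) := mul_assoc _ _ _
      _ = (g⁻¹ • γ') * oM O L M ϖ := by rw [← h3]
  have hcd : c ∈ deG G P := inG_le_deG P hc
  have hcη : c • g⁻¹ • γ' ∈ lamP O L M P := smul_mem_lamP hOL hU.hO hcd hη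
  have hgcη : g • c • g⁻¹ • γ' ∈ lamP O L M P := smul_mem_lamP hOL hU.hO hg hcη
  have hgt : g • t ∈ lamP O L M P := smul_mem_lamP hOL hU.hO hg ht
  have hz : (g • c • g⁻¹ • γ') * ((g • t) * γ) ∈ lamP O L M P :=
    Subring.mul_mem _ hgcη (Subring.mul_mem _ hgt hγ)
  refine ⟨(g • c • g⁻¹ • γ') * ((g • t) * γ), hz, ?_, ?_⟩
  · rw [mul_smul, mul_smul, hη1, smul_mul', ht1, smul_mul', smul_mul', h1]
    ring
  · have h5 : Cg O L M P ϖ (g • c • g⁻¹ • γ') (g • g⁻¹ • γ') :=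
      Cg.smul hU hg (Cg.of_inG hU hη hc)
    rw [smul_inv_smul] at h5
    have h6 : Cg O L M P ϖ ((g • t) * γ) ((g • t) * γ) := by
      refine ⟨0, Subring.zero_mem _, ?_⟩
      rw [sub_self, zero_mul]
    have h7 := Cg.mul hgcη (Subring.mul_mem _ hgt hγ) h5 h6
    have h8 : γ' * ((g • t) * γ) = g • t := by
      calc γ' * ((g • t) * γ) = (γ * γ') * (g • t) := by ring
        _ = g • t := by rw [h2, one_mul]
    rw [h8] at h7
    have h9 := Cg.pow hz hgt h7 m
    have h10 : Cg O L M P ϖ (g • t ^ m) (g • 1) := Cg.smul hU hg ht2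
    rw [smul_one, smul_pow'] at h10
    exact Cg.trans h9 h10
-- END C3

-- BEGIN C4
include hU in
theorem c4_ne : oM O L M ϖ ≠ 0 := by
  have hinj : Function.Injective (oM O L M) := in4_inj (IsFractionRing.injective O L)
  intro h
  exact hU.ϖ0 (hinj (h.trans (map_zero _).symm))

include hU in
theorem c4_cancel {a b : M} (h : a * oM O L M ϖ = b * oM O L M ϖ) : a = b :=
  mul_right_cancel₀ (c4_ne hU) h

include hU in
theorem c4_smul_mem {g : G} (hg : g ∈ deG G P) {c : M} (hc : c ∈ lamP O L M P) :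
    g • c ∈ lamP O L M P :=
  smul_mem_lamP (IsFractionRing.injective O L) hU.hO hg hc

include hU in
/-- TASK C4. Let `g⁻¹`, `h` have the coefficients `η`, `θ` (`ChG.inv`); by `Cg.sq_eq` `η ^ m ≡ - 1` and `θ ^ m ≡ - 1`
(if `η ^ m ≡ 1` then `ChG m g⁻¹` and `ChG m g` by `ChG.inv`); the coefficient of `g⁻¹ * h` is
`(g⁻¹ • θ) * η`, and `(g⁻¹ • θ) ^ m ≡ θ ^ m` (`Cg.of_inG`). -/
theorem ChG.index {m : ℕ} {g h : G} (hg : g ∈ inG G P) (hh : h ∈ inG G P)
    (hg2 : ChG O L M P ϖ (2 * m) g) (hh2 : ChG O L M P ϖ (2 * m) h)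
    (hg' : ¬ ChG O L M P ϖ m g) (hh' : ¬ ChG O L M P ϖ m h) : ChG O L M P ϖ m (g⁻¹ * h) := by
  have hgd : g ∈ deG G P := inG_le_deG P hg
  have hgi : g⁻¹ ∈ inG G P := (inG G P).inv_mem hg
  have hgid : g⁻¹ ∈ deG G P := inG_le_deG P hgi
  have hneg : (-1 : M) ∈ lamP O L M P := (lamP O L M P).neg_mem (lamP O L M P).one_mem
  obtain ⟨η, hη, e1, c1⟩ := ChG.inv hU hgd hg2
  obtain ⟨θ, hθ, e2, c2⟩ := hh2
  have d1 : Cg O L M P ϖ (η ^ m) (-1) := by
    rw [mul_comm, pow_mul] at c1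
    rcases Cg.sq_eq hU ((lamP O L M P).pow_mem hη m) c1 with h1 | h1
    · exfalso
      apply hg'
      have h2 := ChG.inv hU hgid (m := m) ⟨η, hη, e1, h1⟩
      rwa [inv_inv] at h2
    · exact h1
  have d2 : Cg O L M P ϖ (θ ^ m) (-1) := by
    rw [mul_comm, pow_mul] at c2
    rcases Cg.sq_eq hU ((lamP O L M P).pow_mem hθ m) c2 with h1 | h1
    · exact absurd ⟨θ, hθ, e2, h1⟩ hh'
    · exact h1
  have hgθ : g⁻¹ • θ ∈ lamP O L M P := c4_smul_mem hU hgid hθ
  have d3 : Cg O L M P ϖ ((g⁻¹ • θ) ^ m) (-1) :=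
    (Cg.pow hgθ hθ (Cg.of_inG hU hθ hgi) m).trans d2
  refine ⟨(g⁻¹ • θ) * η, (lamP O L M P).mul_mem hgθ hη, ?_, ?_⟩
  · rw [mul_smul, e2, smul_mul', e1, mul_assoc]
  · rw [mul_pow]
    have h3 := Cg.mul ((lamP O L M P).pow_mem hgθ m) hneg d3 d1
    rwa [neg_mul_neg, one_mul] at h3

include hU in
theorem c4_pow {η : M} (hη : η ∈ lamP O L M P) {g : G} (hg : g ∈ inG G P)
    (e : g • oM O L M ϖ = η * oM O L M ϖ) (k : ℕ) :
    ∃ θ ∈ lamP O L M P, g ^ k • oM O L M ϖ = θ * oM O L M ϖ ∧ Cg O L M P ϖ θ (η ^ k) := by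
  induction k with
  | zero =>
    refine ⟨1, (lamP O L M P).one_mem, ?_, 0, (lamP O L M P).zero_mem, ?_⟩
    · rw [pow_zero, one_smul, one_mul]
    · rw [pow_zero, sub_self, zero_mul]
  | succ k ih =>
    obtain ⟨θ, hθ, e1, c1⟩ := ih
    have hgθ : g • θ ∈ lamP O L M P := c4_smul_mem hU (inG_le_deG P hg) hθ
    refine ⟨(g • θ) * η, (lamP O L M P).mul_mem hgθ hη, ?_, ?_⟩
    · rw [pow_succ', mul_smul, e1, smul_mul', e, mul_assoc]
    · rw [pow_succ]
      refine Cg.mul hgθ hη ((Cg.of_inG hU hθ hg).trans c1) ⟨0, (lamP O L M P).zero_mem, ?_⟩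
      rw [sub_self, zero_mul]

include hU in
/-- TASK C4. By induction on `k` the coefficient of `g ^ k` is congruent to `η ^ k` (`Cg.of_inG`: `g • θ ≡ θ`); for
`k = n` it is `1` (cancel `oM ϖ`). -/
theorem ChG.of_pow_eq_one {n : ℕ} {g : G} (hg : g ∈ inG G P) (hn : g ^ n = 1) :
    ChG O L M P ϖ n g := by
  obtain ⟨η, hη, -, -, e, -⟩ := smul_unif (M := M) (IsFractionRing.injective O L) hU.hO hU.ϖ0
    hU.mem hU.unif (inG_le_deG P hg)
  obtain ⟨θ, hθ, e1, c1⟩ := c4_pow hU hη hg e n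
  refine ⟨η, hη, e, ?_⟩
  have h1 : θ = 1 := by
    apply c4_cancel hU
    rw [← e1, hn, one_smul, one_mul]
  rw [h1] at c1
  exact c1.symm
-- END C4

-- BEGIN C5
include hU in
/-- TASK C5. **There is no wild inertia of order two if `2` is a unit.** `η ≡ 1` (`η ^ 3 ≡ 1`, and `η ^ 2 ≡ 1` by
`ChG.of_pow_eq_one`, the coefficient `η` is unique). Let `c : O`, `d = c - g • c`, so `g • d = - d`. By induction on `n` `oM d` is
a multiple of `oM ϖ ^ n`: if `oM d = u * oM ϖ ^ n` then `g • oM d = (g • u) * η ^ n * oM ϖ ^ n` and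
`(g • u) * η ^ n ≡ u`, so `- oM d - oM d` is a multiple of `oM ϖ ^ (n + 1)` and `2` is a unit (`exists_inv_lamP`). So
`d = 0` by `eq_zero_of_pow`. -/
theorem eq_one_of_sq (h2 : (2 : O) ∉ P) {g : G} (hg : g ∈ inG G P) (hgg : g * g = 1)
    (h3 : ChG O L M P ϖ 3 g) : ∀ c : O, g • c = c := by
  intro c
  obtain ⟨η, hη, e1, c1⟩ := h3
  obtain ⟨η', hη', e2, c2⟩ := ChG.of_pow_eq_one hU (n := 2) hg (by rw [pow_two, hgg])
  have hηη : η' = η := c4_cancel hU (e2.symm.trans e1)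
  rw [hηη] at c2
  have hone := (lamP O L M P).one_mem
  have hrefl : ∀ a : M, Cg O L M P ϖ a a := fun a =>
    ⟨0, (lamP O L M P).zero_mem, by rw [sub_self, zero_mul]⟩
  have c3 : Cg O L M P ϖ η 1 := by
    have h4 := Cg.mul ((lamP O L M P).pow_mem hη 2) hη c2 (hrefl η)
    rw [one_mul, ← pow_succ] at h4
    exact h4.symm.trans c1
  obtain ⟨d, hd⟩ : ∃ d : O, d = c - g • c := ⟨_, rfl⟩
  have hgd : g • d = - d := by
    rw [hd, smul_sub, ← mul_smul, hgg, one_smul, neg_sub]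
  obtain ⟨w, hw, hw1⟩ := exists_inv_lamP (L := L) (M := M) (IsFractionRing.injective O L) h2
  have key : ∀ n : ℕ, ∃ u ∈ lamP O L M P, oM O L M d = u * oM O L M ϖ ^ n := by
    intro n
    induction n with
    | zero =>
      refine ⟨oM O L M d, ?_, by rw [pow_zero, mul_one]⟩
      exact oM_mem_lamP (R := O) (L := L) (M := M) P d
    | succ n ih =>
      obtain ⟨u, hu, eu⟩ := ih
      have h4 : g • oM O L M d = (g • u) * η ^ n * oM O L M ϖ ^ n := by
        rw [eu, smul_mul', smul_pow', e1, mul_pow, mul_assoc]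
      have h5 : g • oM O L M d = - oM O L M d := by
        rw [hU.hO, hgd, map_neg]
      have hgu : g • u ∈ lamP O L M P := c4_smul_mem hU (inG_le_deG P hg) hu
      have h6 : Cg O L M P ϖ ((g • u) * η ^ n) u := by
        have h7 := Cg.mul hgu (b' := 1) hone (Cg.of_inG hU hu hg) (by
          have h8 := Cg.pow hη hone c3 n
          rwa [one_pow] at h8)
        rwa [mul_one] at h7
      obtain ⟨t, ht, et⟩ := h6
      refine ⟨- (w * t), (lamP O L M P).neg_mem ((lamP O L M P).mul_mem hw ht), ?_⟩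
      have h8 : (g • u) * η ^ n = u + t * oM O L M ϖ := by
        rw [← et]
        ring
      rw [h5, h8] at h4
      have h9 : oM O L M (2 : O) = 2 := map_ofNat _ 2
      rw [h9] at hw1
      calc oM O L M d = (2 * w) * oM O L M d := by rw [hw1, one_mul]
        _ = w * (oM O L M d - (- oM O L M d)) := by ring
        _ = w * (oM O L M d - (u + t * oM O L M ϖ) * oM O L M ϖ ^ n) := by rw [h4]
        _ = w * (u * oM O L M ϖ ^ n - (u + t * oM O L M ϖ) * oM O L M ϖ ^ n) := by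
          rw [← eu]
        _ = - (w * t) * oM O L M ϖ ^ (n + 1) := by
          rw [pow_succ]
          ring
  have h0 := eq_zero_of_pow hU key
  rw [hd, sub_eq_zero] at h0
  exact h0.symm
-- END C5

end Cong

-- BEGIN C6
include hU in
/-- TASK C6. The set of the `g ∈ inG G P` with `ChG m g` is a subgroup. -/
theorem exists_chS (m : ℕ) : ∃ K : Subgroup G, ∀ g, g ∈ K ↔ g ∈ inG G P ∧ ChG O L M P ϖ m g := by
  refine ⟨{ carrier := {g | g ∈ inG G P ∧ ChG O L M P ϖ m g}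
            mul_mem' := ?_
            one_mem' := ⟨(inG G P).one_mem, ChG.one m⟩
            inv_mem' := ?_ }, fun g => Iff.rfl⟩
  · rintro a b ⟨ha, ha'⟩ ⟨hb, hb'⟩
    exact ⟨(inG G P).mul_mem ha hb, ChG.mul hU (inG_le_deG P ha) ha' hb'⟩
  · rintro a ⟨ha, ha'⟩
    exact ⟨(inG G P).inv_mem ha, ChG.inv hU (inG_le_deG P ha) ha'⟩

include hU in
/-- TASK C6. **The chain.** `K j` is the subgroup of `exists_chS` for `m = 3 * 2 ^ j`. The order of `K 0`
divides `3 * 2 ^ a`, and it is odd: otherwise there is an element of order two in `K 0`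
(`exists_prime_orderOf_dvd_card`), which is trivial by `eq_one_of_sq` and `hfaith`. So it divides `3`. `K a = inG`:
`g ^ (3 * 2 ^ a) = 1` for `g ∈ inG` (`Subgroup.orderOf_dvd_natCard`, `ChG.of_pow_eq_one`). -/
theorem exists_chain (hfaith : ∀ g : G, g ≠ 1 → ∃ c : O, g • c ≠ c) (h2 : (2 : O) ∉ P) {a : ℕ}
    (hcard : Nat.card (inG G P) = 2 ^ a ∨ Nat.card (inG G P) = 3 * 2 ^ a) :
    ∃ K : ℕ → Subgroup G, (Nat.card (K 0) = 1 ∨ Nat.card (K 0) = 3) ∧ K a = inG G P ∧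
      (∀ j, K j ≤ K (j + 1)) ∧ (∀ j, K j ≤ inG G P) ∧
      (∀ j, ∀ g ∈ deG G P, ∀ c ∈ K j, g * c * g⁻¹ ∈ K j) ∧
      ∀ j, ∀ g ∈ K (j + 1), ∀ h ∈ K (j + 1), g ∉ K j → h ∉ K j → g⁻¹ * h ∈ K j := by
  choose K hK using fun j : ℕ => exists_chS hU (3 * 2 ^ j)
  have hdvd : Nat.card (inG G P) ∣ 3 * 2 ^ a := by
    rcases hcard with h | h
    · rw [h]
      exact Dvd.intro_left 3 rfl
    · rw [h]
  have hle : ∀ j, K j ≤ inG G P := fun j g hg => ((hK j g).1 hg).1
  refine ⟨K, ?_, ?_, ?_, hle, ?_, ?_⟩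
  · have h3 : Nat.card (K 0) ∣ 3 * 2 ^ a := (Subgroup.card_dvd_of_le (hle 0)).trans hdvd
    have hodd : ¬ 2 ∣ Nat.card (K 0) := by
      intro h
      obtain ⟨x, hx⟩ := exists_prime_orderOf_dvd_card' 2 h
      have hx2 : (x : G) * x = 1 := by
        have h4 : x ^ 2 = 1 := by
          rw [← hx]
          exact pow_orderOf_eq_one x
        have h5 := congrArg Subtype.val h4
        rw [Subgroup.coe_pow, pow_two] at h5
        exact h5
      have hx1 : (x : G) ≠ 1 := by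
        intro h4
        have h5 : x = 1 := Subtype.ext h4
        rw [h5, orderOf_one] at hx
        omega
      obtain ⟨c, hc⟩ := hfaith x hx1
      obtain ⟨h6, h7⟩ := (hK 0 x).1 x.2
      rw [pow_zero, mul_one] at h7
      exact hc (eq_one_of_sq hU h2 h6 hx2 h7 c)
    have hcop : Nat.Coprime (Nat.card (K 0)) (2 ^ a) :=
      Nat.Coprime.pow_right a ((Nat.Prime.coprime_iff_not_dvd Nat.prime_two).2 hodd).symm
    have h4 : Nat.card (K 0) ∣ 3 := hcop.dvd_of_dvd_mul_right h3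
    exact (Nat.dvd_prime Nat.prime_three).1 h4
  · refine le_antisymm (hle a) fun g hg => (hK a g).2 ⟨hg, ?_⟩
    refine ChG.of_pow_eq_one hU hg ?_
    exact orderOf_dvd_iff_pow_eq_one.1 ((Subgroup.orderOf_dvd_natCard _ hg).trans hdvd)
  · intro j g hg
    obtain ⟨h3, η, hη, e, c⟩ := (hK j g).1 hg
    refine (hK (j + 1) g).2 ⟨h3, η, hη, e, ?_⟩
    have h4 := Cg.pow ((lamP O L M P).pow_mem hη _) (lamP O L M P).one_mem c 2
    rw [one_pow, ← pow_mul] at h4
    have h5 : 3 * 2 ^ j * 2 = 3 * 2 ^ (j + 1) := by rw [pow_succ]; ring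
    rwa [h5] at h4
  · intro j g hg c hc
    obtain ⟨h3, h4⟩ := (hK j c).1 hc
    exact (hK j _).2 ⟨conj_mem_inG hg h3, ChG.conj hU hg h3 h4⟩
  · intro j g hg h hh hg' hh'
    obtain ⟨h3, h4⟩ := (hK (j + 1) g).1 hg
    obtain ⟨h5, h6⟩ := (hK (j + 1) h).1 hh
    have h7 : 3 * 2 ^ (j + 1) = 2 * (3 * 2 ^ j) := by rw [pow_succ]; ring
    rw [h7] at h4 h6
    refine (hK j _).2 ⟨(inG G P).mul_mem ((inG G P).inv_mem h3) h5, ?_⟩
    exact ChG.index hU h3 h5 h4 h6 (fun h8 => hg' ((hK j g).2 ⟨h3, h8⟩))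
      fun h8 => hh' ((hK j h).2 ⟨h5, h8⟩)
-- END C6

end Pool.Agent.Lib.MP_6a3dac_ag.TW
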