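import Pool.Agent.Lib.MP_6a3dac_ag.TW.Chain
import Pool.Agent.Lib.MP_6a3dac_ag.GI.Num

/-!
# Inertia groups in the normal closure of a cubic extension
-/

set_option autoImplicit false
set_option linter.unusedSectionVars false
set_option linter.unusedVariables false

namespace Pool.Agent.Lib.MP_6a3dac_ag.TW

open Pool.Agent.Lib.MP_6a3dac_ag GI QD NumberField

section Local

variable {O L M G : Type} [CommRing O] [IsDedekindDomain O]
  [Field L] [Algebra O L] [IsFractionRing O L] [CommRing M]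
  [IsDomain M] [Algebra L M] [Algebra O M]
  [IsScalarTower O L M] [Group G] [Finite G] [MulSemiringAction G O] [MulSemiringAction G M]
  {P : Ideal O} [P.IsPrime] {ϖ : O} (hU : UnifHyp (L := L) (M := M) G P ϖ)

-- BEGIN K1
include hU in
theorem k1_step {g : G} (hg : g ∈ inG G P) {η : M} (hη : η ∈ lamP O L M P)
    (e : g • oM O L M ϖ = η * oM O L M ϖ) (hc : Cg O L M P ϖ η 1) {x : M} {n : ℕ}
    (hx : ∃ u ∈ lamP O L M P, x = u * oM O L M ϖ ^ n) :
    ∃ t ∈ lamP O L M P, g • x - x = t * oM O L M ϖ ^ (n + 1) := by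
  obtain ⟨u, hu, eu⟩ := hx
  have hone := (lamP O L M P).one_mem
  have hgu : g • u ∈ lamP O L M P :=
    smul_mem_lamP (IsFractionRing.injective O L) hU.hO (inG_le_deG P hg) hu
  have h6 : Cg O L M P ϖ ((g • u) * η ^ n) u := by
    have h7 := Cg.mul hgu (b' := 1) hone (Cg.of_inG hU hu hg) (by
      have h8 := Cg.pow hη hone hc n
      rwa [one_pow] at h8)
    rwa [mul_one] at h7
  obtain ⟨t, ht, et⟩ := h6
  refine ⟨t, ht, ?_⟩
  rw [eu, smul_mul', smul_pow', e, mul_pow, pow_succ]
  linear_combination oM O L M ϖ ^ n * et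

include hU in
/-- TASK K1. **There is no wild inertia of order three if `3` is a unit.** The model is `eq_one_of_sq` (C5). Let
`g • oM ϖ = η * oM ϖ`, `η ≡ 1`. For `u` in the local ring and all `n` the element `g • (u ϖ ^ n) - u ϖ ^ n` is a multiple of
`ϖ ^ (n + 1)`. Let `N c = g • c - c`; from `g ^ 3 = 1`: `3 N c + 3 N (N c) + N (N (N c)) = 0`, so if `N c` is a multiple of
`ϖ ^ n` then of `ϖ ^ (n + 1)` (`3` is a unit). So `N c = 0` for `c : O` by `eq_zero_of_pow` (C2). -/
theorem eq_one_of_cube (h3 : (3 : O) ∉ P) {g : G} (hg : g ∈ inG G P) (hgg : g * g * g = 1)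
    (h1 : ChG O L M P ϖ 1 g) : ∀ c : O, g • c = c := by
  intro c
  obtain ⟨η, hη, e1, c1⟩ := h1
  rw [pow_one] at c1
  obtain ⟨w, hw, hw1⟩ := exists_inv_lamP (L := L) (M := M) (IsFractionRing.injective O L) h3
  have h9 : oM O L M (3 : O) = 3 := map_ofNat _ 3
  rw [h9] at hw1
  have hcub : ∀ x : M, g • g • g • x = x := by
    intro x
    rw [← mul_smul, ← mul_smul, hgg, one_smul]
  have key : ∀ n : ℕ, ∃ u ∈ lamP O L M P, oM O L M (g • c - c) = u * oM O L M ϖ ^ n := by
    intro n
    induction n with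
    | zero =>
      refine ⟨oM O L M (g • c - c), ?_, by rw [pow_zero, mul_one]⟩
      exact oM_mem_lamP (R := O) (L := L) (M := M) P _
    | succ n ih =>
      obtain ⟨t, ht, et⟩ := k1_step hU hg hη e1 c1 ih
      obtain ⟨s, hs, es⟩ := k1_step hU hg hη e1 c1 ⟨t, ht, et⟩
      refine ⟨w * (- (3 * t) - s * oM O L M ϖ), ?_, ?_⟩
      · have h3m : (3 : M) ∈ lamP O L M P := by
          rw [← h9]
          exact oM_mem_lamP (R := O) (L := L) (M := M) P _
        exact Subring.mul_mem _ hw (Subring.sub_mem _ (Subring.neg_mem _ (Subring.mul_mem _ h3m ht))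
          (Subring.mul_mem _ hs (oM_mem_lamP (R := O) (L := L) (M := M) P _)))
      · have hx : oM O L M (g • c - c) = g • oM O L M c - oM O L M c := by
          rw [map_sub, hU.hO]
        rw [hx] at et es ⊢
        simp only [smul_sub] at et es
        rw [hcub] at es
        rw [pow_succ, pow_succ] at es
        rw [pow_succ] at et ⊢
        linear_combination (- (g • oM O L M c - oM O L M c)) * hw1 - 3 * w * et - w * es
  have h0 := eq_zero_of_pow hU key
  rwa [sub_eq_zero] at h0
-- END K1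

-- BEGIN K2
include hU in
/-- TASK K2. The coefficient of `h * g * h⁻¹` is congruent to that of `g` (`Cg.of_inG`; compare `ChG.conj`), and this
element is `g⁻¹`; so the coefficient `η` of `g` satisfies `η ^ 2 ≡ 1`, and `η ^ 3 ≡ 1` by `ChG.of_pow_eq_one`; so
`η ≡ 1`, `ChG 1 g`. -/
theorem ChG.one_of_dihedral {g h : G} (hg : g ∈ inG G P) (hh : h ∈ inG G P) (hggg : g * g * g = 1)
    (hgh : h * g * h⁻¹ = g⁻¹) : ChG O L M P ϖ 1 g := by
  have hOL : Function.Injective (algebraMap O L) := IsFractionRing.injective O L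
  have hϖM : oM O L M ϖ ≠ 0 := by
    intro h0
    apply hU.ϖ0
    apply in4_inj (L := L) (M := M) hOL
    rw [h0, map_zero]
  have hg3 : g ^ 3 = 1 := by rw [pow_succ, pow_two, hggg]
  obtain ⟨η, hη, hgη, hη3⟩ := ChG.of_pow_eq_one (L := L) (M := M) hU hg hg3
  obtain ⟨θ, hθ, θ', hθ', hhθ, hθθ⟩ := smul_unif hOL hU.hO hU.ϖ0 hU.mem hU.unif (inG_le_deG P hh)
  have hhη : h • η ∈ lamP O L M P := smul_mem_lamP hOL hU.hO (inG_le_deG P hh) hη
  have hghη : g • h • η ∈ lamP O L M P := smul_mem_lamP hOL hU.hO (inG_le_deG P hg) hhη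
  have hgθ : g • θ ∈ lamP O L M P := smul_mem_lamP hOL hU.hO (inG_le_deG P hg) hθ
  have e1 : g * (h * g) = h := by
    have e2 : h * g = g⁻¹ * h := by rw [← hgh, inv_mul_cancel_right]
    rw [e2, mul_inv_cancel_left]
  have e3 : g • h • η * (g • θ * η) = θ := by
    have h1 : h • oM O L M ϖ = (g * (h * g)) • oM O L M ϖ := by rw [e1]
    rw [mul_smul, mul_smul, hgη, smul_mul', hhθ, smul_mul', smul_mul', hgη] at h1
    apply mul_right_cancel₀ hϖM
    rw [h1]
    ring
  have c1 : Cg O L M P ϖ (g • h • η) η :=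
    Cg.trans (Cg.of_inG hU hhη hg) (Cg.of_inG hU hη hh)
  have c2 : Cg O L M P ϖ (g • θ) θ := Cg.of_inG hU hθ hg
  have crefl : ∀ a : M, Cg O L M P ϖ a a := fun a =>
    ⟨0, (lamP O L M P).zero_mem, by rw [sub_self, zero_mul]⟩
  have c3 : Cg O L M P ϖ (g • h • η * (g • θ * η)) (η * (θ * η)) :=
    Cg.mul hghη ((lamP O L M P).mul_mem hθ hη) c1 (Cg.mul hgθ hη c2 (crefl η))
  rw [e3] at c3
  have c4 : Cg O L M P ϖ (θ * θ') (η * (θ * η) * θ') := Cg.mul hθ hθ' c3 (crefl θ')
  rw [hθθ] at c4
  have e4 : η * (θ * η) * θ' = η ^ 2 := by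
    calc η * (θ * η) * θ' = η ^ 2 * (θ * θ') := by ring
      _ = η ^ 2 := by rw [hθθ, mul_one]
  rw [e4] at c4
  have c5 : Cg O L M P ϖ (1 * η) (η ^ 2 * η) :=
    Cg.mul (lamP O L M P).one_mem hη c4 (crefl η)
  have e5 : η ^ 2 * η = η ^ 3 := by ring
  rw [e5, one_mul] at c5
  refine ⟨η, hη, hgη, ?_⟩
  rw [pow_one]
  exact Cg.trans c5 hη3
-- END K2

end Local

section Perm

-- BEGIN K3
/-- TASK K3. `Fin 3`: `g` a cycle of length three, `h` a transposition (`decide`). Transport along
`Finite.equivFinOfCardEq`, or `Equiv.Perm` congruence. -/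
theorem exists_perm_three {Φ : Type} [Finite Φ] (hΦ : Nat.card Φ = 3) :
    ∃ g h : Equiv.Perm Φ, g ≠ 1 ∧ g * g * g = 1 ∧ h * g * h⁻¹ = g⁻¹ := by
  have h0 : ∃ g h : Equiv.Perm (Fin 3), g ≠ 1 ∧ g * g * g = 1 ∧ h * g * h⁻¹ = g⁻¹ := by
    refine ⟨finRotate 3, Equiv.swap 0 1, ?_, ?_, ?_⟩ <;> decide
  obtain ⟨g, h, h1, h2, h3⟩ := h0
  let e : Φ ≃ Fin 3 := Finite.equivFinOfCardEq hΦ
  let F : Equiv.Perm (Fin 3) ≃* Equiv.Perm Φ := e.symm.permCongrHom
  refine ⟨F g, F h, ?_, ?_, ?_⟩
  · intro hcon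
    apply h1
    apply F.injective
    rw [hcon, map_one]
  · rw [← map_mul, ← map_mul, h2, map_one]
  · rw [← map_inv, ← map_mul, ← map_mul, h3, map_inv]

/-- TASK K3. **A group of permutations of at most three elements with more than three elements contains two such
elements.** `f` is injective, so `Nat.card H ≤ Nat.card (Perm Φ) = (Nat.card Φ)!` (`Nat.card_perm`), and `Nat.card H > 3`
divides it (`Subgroup.card_subgroup_dvd_card` for the range), so `Nat.card Φ = 3`, `Nat.card H = 6` and `f` is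
bijective on `H`. -/
theorem exists_dihedral {Φ G : Type} [Finite Φ] [Group G] [Finite G] (f : G →* Equiv.Perm Φ)
    (hf : Function.Injective f) (hΦ : Nat.card Φ ≤ 3) (H : Subgroup G) (hH : 3 < Nat.card H) :
    ∃ g ∈ H, ∃ h ∈ H, g ≠ 1 ∧ g * g * g = 1 ∧ h * g * h⁻¹ = g⁻¹ := by
  have hcard : Nat.card (H.map f) = Nat.card H :=
    (Nat.card_congr (H.equivMapOfInjective f hf).toEquiv).symm
  have hdvd : Nat.card H ∣ (Nat.card Φ).factorial := by
    rw [← hcard, ← Nat.card_perm]
    exact Subgroup.card_subgroup_dvd_card _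
  have h3 : Nat.card Φ = 3 := by
    have hle := Nat.le_of_dvd (Nat.factorial_pos _) hdvd
    have h4 : Nat.card Φ = 0 ∨ Nat.card Φ = 1 ∨ Nat.card Φ = 2 ∨ Nat.card Φ = 3 := by omega
    rcases h4 with h | h | h | h
    · rw [h] at hle
      have : Nat.factorial 0 = 1 := rfl
      omega
    · rw [h] at hle
      have : Nat.factorial 1 = 1 := rfl
      omega
    · rw [h] at hle
      have : Nat.factorial 2 = 2 := rfl
      omega
    · exact h
  have h6 : Nat.card H = 6 := by
    rw [h3] at hdvd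
    have h5 : Nat.factorial 3 = 6 := rfl
    rw [h5] at hdvd
    have hle := Nat.le_of_dvd (by norm_num) hdvd
    have h7 : Nat.card H = 4 ∨ Nat.card H = 5 ∨ Nat.card H = 6 := by omega
    rcases h7 with h | h | h
    · rw [h] at hdvd
      norm_num at hdvd
    · rw [h] at hdvd
      norm_num at hdvd
    · exact h
  have htop : H.map f = ⊤ := by
    apply Subgroup.eq_top_of_card_eq
    rw [hcard, Nat.card_perm, h3, h6]
    rfl
  obtain ⟨g', h', h1, h2, h4⟩ := exists_perm_three h3
  have hg' : g' ∈ H.map f := by rw [htop]; exact Subgroup.mem_top _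
  have hh' : h' ∈ H.map f := by rw [htop]; exact Subgroup.mem_top _
  obtain ⟨g, hg, rfl⟩ := Subgroup.mem_map.1 hg'
  obtain ⟨h, hh, rfl⟩ := Subgroup.mem_map.1 hh'
  refine ⟨g, hg, h, hh, ?_, ?_, ?_⟩
  · intro hcon
    apply h1
    rw [hcon, map_one]
  · apply hf
    rw [map_mul, map_mul, map_one]
    exact h2
  · apply hf
    rw [map_mul, map_mul, map_inv, map_inv]
    exact h4
-- END K3

end Perm

section Field

variable (E L N : Type) [Field E] [NumberField E] [Field L] [NumberField L] [Field N]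
  [NumberField N] [Algebra E L] [Algebra E N]

-- BEGIN K4
/-- TASK K4. The action of `N ≃ₐ[E] N` on the embeddings, as a homomorphism to the permutations. -/
theorem exists_embHom : ∃ f : (N ≃ₐ[E] N) →* Equiv.Perm (L →ₐ[E] N),
    ∀ g φ, f g φ = (g : N →ₐ[E] N).comp φ := by
  refine ⟨
    { toFun := fun g =>
        { toFun := fun φ => (g : N →ₐ[E] N).comp φ
          invFun := fun φ => (g⁻¹ : N ≃ₐ[E] N).toAlgHom.comp φ
          left_inv := ?_
          right_inv := ?_ }
      map_one' := ?_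
      map_mul' := ?_ }, fun g φ => rfl⟩
  · intro φ
    ext y
    exact AlgEquiv.symm_apply_apply g (φ y)
  · intro φ
    ext y
    exact AlgEquiv.apply_symm_apply g (φ y)
  · ext φ y
    rfl
  · intro g h
    ext φ y
    rfl

/-- TASK K4. **The action is faithful if `N` is the normal closure of `L`.** `N` is generated by the roots in `N` of the
minimal polynomials of the elements `x` of `L` (`IsNormalClosure.adjoin_rootSet`), and these are the images of `x` under
the embeddings (`Algebra.IsAlgebraic.range_eval_eq_rootSet_minpoly_of_splits`, `IsNormalClosure.splits`). -/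
theorem eq_one_of_comp [IsNormalClosure E L N] {g : N ≃ₐ[E] N}
    (hg : ∀ φ : L →ₐ[E] N, (g : N →ₐ[E] N).comp φ = φ) : g = 1 := by
  have hfin : FiniteDimensional E L := Module.Finite.of_restrictScalars_finite ℚ E L
  have halg : Algebra.IsAlgebraic E L := Algebra.IsAlgebraic.of_finite E L
  have h1 : (⨆ x : L, IntermediateField.adjoin E ((minpoly E x).rootSet N)) ≤
      IntermediateField.fixedField (Subgroup.zpowers g) := by
    refine iSup_le fun x => ?_
    rw [IntermediateField.adjoin_le_iff]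
    intro y hy
    rw [← Algebra.IsAlgebraic.range_eval_eq_rootSet_minpoly_of_splits N
      (IsNormalClosure.splits (F := E) (K := L) (L := N)) x] at hy
    obtain ⟨φ, rfl⟩ := hy
    change _ ∈ IntermediateField.fixedField (Subgroup.zpowers g)
    rw [IntermediateField.mem_fixedField_iff]
    intro f hf
    have h2 : ∀ f ∈ Subgroup.zpowers g, f ∈ MulAction.stabilizer (N ≃ₐ[E] N) (φ x) := by
      intro f hf
      have h3 : Subgroup.zpowers g ≤ MulAction.stabilizer (N ≃ₐ[E] N) (φ x) := by
        rw [Subgroup.zpowers_le, MulAction.mem_stabilizer_iff]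
        exact AlgHom.congr_fun (hg φ) x
      exact h3 hf
    exact MulAction.mem_stabilizer_iff.1 (h2 f hf)
  rw [IsNormalClosure.adjoin_rootSet (F := E) (K := L) (L := N)] at h1
  ext y
  have h2 : y ∈ IntermediateField.fixedField (Subgroup.zpowers g) := h1 IntermediateField.mem_top
  rw [IntermediateField.mem_fixedField_iff] at h2
  exact h2 g (Subgroup.mem_zpowers g)

/-- TASK K4. The number of embeddings is at most the degree (`AlgHom.card_le` or
`AlgHom.natCard_of_splits`). `Module.finrank E L` is not zero here. -/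
theorem card_emb_le : Nat.card (L →ₐ[E] N) ≤ Module.finrank E L := by
  have hfin : FiniteDimensional E L := Module.Finite.of_restrictScalars_finite ℚ E L
  have h1 : Nat.card (L →ₐ[E] AlgebraicClosure N) = Module.finrank E L := by
    refine AlgHom.natCard_of_splits E L (AlgebraicClosure N) fun x => ?_
    exact IsAlgClosed.splits _
  rw [← h1]
  refine Nat.card_le_card_of_injective
    (fun φ => (IsScalarTower.toAlgHom E N (AlgebraicClosure N)).comp φ) ?_
  intro φ ψ h
  ext y
  have h2 := AlgHom.congr_fun h y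
  exact (algebraMap N (AlgebraicClosure N)).injective h2
-- END K4

end Field

end Pool.Agent.Lib.MP_6a3dac_ag.TW
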