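import Pool.Agent.Lib.MP_6a3dac_ag.TW.Sys

/-!
# Towers of invariants
-/

set_option autoImplicit false
set_option linter.unusedSectionVars false
set_option linter.unusedVariables false

namespace Pool.Agent.Lib.MP_6a3dac_ag.TW

open Pool.Agent.Lib.MP_6a3dac_ag GI IsLocalRing
open scoped Pointwise

variable {F : Type} [Field F] {G : Type} [Group G] [Finite G] [MulSemiringAction G F]

-- BEGIN D1
/-- TASK D1. A unit of `D` which is fixed by `C` has a fixed inverse. -/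
theorem isU_fixG_iff {C : Subgroup G} {D : Subring F} {z : F} (hz : z ∈ fixG C D) :
    IsU (fixG C D) z ↔ IsU D z := by
  constructor
  · rintro ⟨-, w, hw, h⟩
    exact ⟨hz.1, w, hw.1, h⟩
  · rintro ⟨-, w, hw, h⟩
    refine ⟨hz, w, ⟨hw, fun g hg => ?_⟩, h⟩
    have h1 : z * (g • w) = 1 := by
      rw [← hz.2 g hg, ← smul_mul', h, smul_one]
    calc g • w = (z * w) * (g • w) := by rw [h, one_mul]
      _ = w * (z * (g • w)) := by ring
      _ = w := by rw [h1, mul_one]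

/-- TASK D1. -/
theorem isN_fixG_iff {C : Subgroup G} {D : Subring F} {z : F} (hz : z ∈ fixG C D) :
    IsN (fixG C D) z ↔ IsN D z := by
  constructor
  · intro h
    rcases isU_or_isN hz.1 with h1 | h1
    · exact absurd h ((isU_fixG_iff hz).2 h1).not_isN
    · exact h1
  · intro h
    exact ⟨hz, fun w hw => h.2 w hw.1⟩

/-- TASK D1. The nonunits of `fixG C D` are nonunits of `D` (`isU_fixG_iff`, `isUnit_iff_isU`, `IsN.add`). -/
theorem isLocalRing_fixG {C : Subgroup G} {D : Subring F} (hD : IsLocalRing D) :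
    IsLocalRing (fixG C D) := by
  have h0 : ∀ a : fixG C D, a ∈ nonunits (fixG C D) → IsN D (a : F) := by
    intro a ha
    rcases isU_or_isN a.2.1 with h1 | h1
    · exact absurd ((isUnit_iff_isU a).2 ((isU_fixG_iff a.2).2 h1)) ha
    · exact h1
  refine IsLocalRing.of_nonunits_add fun a b ha hb hab => ?_
  have h1 := (h0 a ha).add hD (h0 b hb)
  have h2 := (isUnit_iff_isU (a + b)).1 hab
  rw [Subring.coe_add] at h2
  exact ((isU_fixG_iff (a + b).2).1 h2).not_isN h1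

/-- TASK D1. -/
theorem fixG_fixG {C C' : Subgroup G} (h : C ≤ C') (D : Subring F) :
    fixG C' (fixG C D) = fixG C' D := by
  ext z
  constructor
  · rintro ⟨⟨h1, -⟩, h3⟩
    exact ⟨h1, h3⟩
  · rintro ⟨h1, h3⟩
    exact ⟨⟨h1, fun g hg => h3 g (h hg)⟩, h3⟩
-- END D1

/-- The elements of degree `k n` which are fixed by `C`. -/
def invT (T : ℕ → AddSubgroup F) (C : Subgroup G) (k : ℕ) : ℕ → AddSubgroup F := fun n =>
  { carrier := {f | f ∈ T (k * n) ∧ ∀ g ∈ C, g • f = f}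
    add_mem' := by
      rintro a b ⟨ha, ha'⟩ ⟨hb, hb'⟩
      exact ⟨(T _).add_mem ha hb, fun g hg => by rw [smul_add, ha' g hg, hb' g hg]⟩
    zero_mem' := ⟨(T _).zero_mem, fun g _ => smul_zero g⟩
    neg_mem' := by
      rintro a ⟨ha, ha'⟩
      exact ⟨(T _).neg_mem ha, fun g hg => by rw [smul_neg, ha' g hg]⟩ }

theorem mem_invT {T : ℕ → AddSubgroup F} {C : Subgroup G} {k n : ℕ} {f : F} :
    f ∈ invT T C k n ↔ f ∈ T (k * n) ∧ ∀ g ∈ C, g • f = f := Iff.rfl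

section

variable {T : ℕ → AddSubgroup F} {D : Subring F} {v : F} (hT : GSys T) (hD : GPt T D v)
  {C C' : Subgroup G}

-- BEGIN D2
private theorem d2_pow {R : Subring F} {z : F} (hz : IsU R z) (n : ℕ) : IsU R (z ^ n) := by
  induction n with
  | zero =>
    rw [pow_zero]
    exact isU_one R
  | succ n ih =>
    rw [pow_succ]
    exact ih.mul hz

private theorem d2_inv {R : Subring F} {z : F} (hz : IsU R z) : IsU R z⁻¹ :=
  ⟨hz.inv_mem, z, hz.1, inv_mul_cancel₀ hz.ne_zero⟩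

private theorem d2_smul_div (g : G) (f e : F) (n : ℕ) (hf : g • f = f) (he : g • e = e) :
    g • (f / e ^ n) = f / e ^ n := by
  rw [div_eq_mul_inv, smul_mul', smul_inv'', smul_pow', hf, he]

include hT in
/-- TASK D2. -/
theorem gSys_invT (C : Subgroup G) (k : ℕ) : GSys (invT T C k) := by
  refine ⟨⟨by rw [mul_zero]; exact hT.one, fun g _ => smul_one g⟩, ?_⟩
  rintro m n a b ⟨ha, ha'⟩ ⟨hb, hb'⟩
  refine ⟨?_, fun g hg => by rw [smul_mul', ha' g hg, hb' g hg]⟩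
  rw [mul_add]
  exact hT.mul ha hb

include hT hD in
/-- TASK D2. `ratio`: `f / e ^ n = (f / v ^ (k n)) / (e / v ^ k) ^ n`. `frac`: for `z` take `n ≥ 1`, `f`, `h` of
`hD.exists_inv` (with `K = C`); then `f h ^ (k - 1)` and `h ^ k` lie in `invT T C k n`, and
`h ^ k / e ^ n = (h / v ^ n) ^ k / (e / v ^ k) ^ n` is a unit (`isU_fixG_iff`). -/
theorem GPt.inv (hC : ∀ g ∈ C, ∀ n, ∀ f ∈ T n, g • f ∈ T n) {k : ℕ} (hk : 1 ≤ k) {e : F}
    (he : e ∈ T k) (heC : ∀ g ∈ C, g • e = e) (heu : IsU D (e / v ^ k)) :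
    GPt (invT T C k) (fixG C D) e := by
  have he0 : e ≠ 0 := by
    rintro rfl
    exact heu.ne_zero (zero_div _)
  have hv0 := hD.ne
  have hratio : ∀ n, ∀ f ∈ invT T C k n, f / e ^ n ∈ fixG C D := by
    rintro n f ⟨hf, hf'⟩
    refine ⟨?_, fun g hg => d2_smul_div g f e n (hf' g hg) (heC g hg)⟩
    have h1 : f / e ^ n = f / v ^ (k * n) * ((e / v ^ k)⁻¹) ^ n := by
      rw [inv_div, div_pow, ← pow_mul]
      field_simp
    rw [h1]
    exact D.mul_mem (hD.ratio _ f hf) (D.pow_mem heu.inv_mem n)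
  refine ⟨isLocalRing_fixG hD.loc, he0, ⟨by rw [mul_one]; exact he, heC⟩, hratio, ?_⟩
  intro z hz
  obtain ⟨n, hn, f, hf, h, hh, hfC, hhC, hhu, hzh⟩ := hD.exists_inv hT hC hz
  have hk1 : k = (k - 1) + 1 := by omega
  have hh' : h ^ k ∈ invT T C k n := by
    refine ⟨?_, fun g hg => by rw [smul_pow', hhC g hg]⟩
    rw [mul_comm k n]
    exact hT.pow hh k
  have hf' : f * h ^ (k - 1) ∈ invT T C k n := by
    refine ⟨?_, fun g hg => by rw [smul_mul', smul_pow', hfC g hg, hhC g hg]⟩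
    have h2 : k * n = n + n * (k - 1) := by
      conv_lhs => rw [hk1]
      ring
    rw [h2]
    exact hT.mul hf (hT.pow hh (k - 1))
  refine ⟨n, f * h ^ (k - 1), hf', h ^ k, hh', ?_, ?_⟩
  · rw [isU_fixG_iff (hratio n _ hh')]
    have h3 : h ^ k / e ^ n = (h / v ^ n) ^ k * ((e / v ^ k)⁻¹) ^ n := by
      rw [inv_div, div_pow, div_pow, ← pow_mul, ← pow_mul, mul_comm k n]
      field_simp
    rw [h3]
    exact (d2_pow hhu k).mul (d2_pow (d2_inv heu) n)
  · rw [← hzh]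
    conv_lhs => rw [hk1, pow_succ]
    ring

/-- TASK D2. For `c ∈ C`, `g ∈ C'`: `c • g • f = g • (g⁻¹ * c * g) • f = g • f`. -/
theorem invT_stable (hC' : ∀ g ∈ C', ∀ n, ∀ f ∈ T n, g • f ∈ T n)
    (hnorm : ∀ g ∈ C', ∀ c ∈ C, g⁻¹ * c * g ∈ C) (k : ℕ) :
    ∀ g ∈ C', ∀ n, ∀ f ∈ invT T C k n, g • f ∈ invT T C k n := by
  rintro g hg n f ⟨hf, hf'⟩
  refine ⟨hC' g hg _ f hf, fun c hc => ?_⟩
  have h1 := hf' _ (hnorm g hg c hc)
  calc c • g • f = g • (g⁻¹ * c * g) • f := by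
        rw [smul_smul, smul_smul]
        congr 1
        group
    _ = g • f := by rw [h1]
-- END D2

include hT hD in
/-- **Regularity in a tower.** -/
theorem GPt.isRegular_fixG_of (hC' : ∀ g ∈ C', ∀ n, ∀ f ∈ T n, g • f ∈ T n) (hle : C ≤ C')
    (hnorm : ∀ g ∈ C', ∀ c ∈ C, g⁻¹ * c * g ∈ C) {k : ℕ} (hk : 1 ≤ k) {e : F}
    (he : e ∈ T k) (heC : ∀ g ∈ C, g • e = e) (heu : IsU D (e / v ^ k))
    (hgood : Good C' (fixG C D)) : IsRegularLocalRing (fixG C' D) := by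
  have h1 := (hD.inv hT (fun g hg => hC' g (hle hg)) hk he heC heu).isRegular_fixG
    (gSys_invT hT C k) (invT_stable hC' hnorm k) hgood
  rwa [fixG_fixG hle] at h1

end

section Top

variable {B D : Subring F}

-- BEGIN D3
/-- TASK D3. **Galois coordinates for a subgroup `K` which need not stabilize `D`.** As `SemiLoc.exists_coord` (RG4b)
with `H = K` and `c_v = e` for all `v`: `φ g = ∏ v ∈ t, ∏ h ∈ s, (g • e - h • v • e)`, where `t` is the set of
elements not in `K` and `s` the set of elements of `K`. `φ g = 0` for `g ∉ K` (factor `v = g`, `h = 1`), and the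
factors of `φ 1` are `e - (h * v) • e` with `h * v ∉ K`: a unit minus a nonunit of `D`. -/
theorem exists_coord_of_split (hD : IsLocalRing D) (hBD : B ≤ D) (hB : ∀ g : G, ∀ b ∈ B, g • b ∈ B)
    (K : Subgroup G) {e : F} (he : e ∈ fixG K B) (heu : IsU D e) (hes : ∀ g, g ∉ K → IsN D (g • e)) :
    ∃ (J : Type) (_ : Fintype J) (x y : J → F), (∀ i, x i ∈ fixG K B) ∧ (∀ i, y i ∈ fixG K B) ∧
      (∀ g : G, g ∉ K → ∑ i, x i * (g • y i) = 0) ∧ IsU D (∑ i, x i * y i) := by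
  classical
  have := Fintype.ofFinite G
  obtain ⟨s, hs⟩ : ∃ s : Finset G, ∀ g, g ∈ s ↔ g ∈ K :=
    ⟨Finset.univ.filter (· ∈ K), fun g => by simp⟩
  obtain ⟨t, ht⟩ : ∃ t : Finset G, ∀ g, g ∈ t ↔ g ∉ K :=
    ⟨Finset.univ.filter (· ∉ K), fun g => by simp⟩
  have hBil : Bil (fixG K B) (fun g : G => ∏ v ∈ t, ∏ h ∈ s, (g • e - h • v • e)) := by
    refine Bil.prod t (fun v (g : G) => ∏ h ∈ s, (g • e - h • v • e)) fun v hv => ?_
    obtain ⟨n, a, ha, hsum⟩ := exists_coeff K s hs B (v • e)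
      (fun h' _ => hB _ _ (hB _ _ he.1))
    have h1 : (fun g : G => ∏ h ∈ s, (g • e - h • v • e)) =
        fun g : G => ∑ k ∈ Finset.range n, a k * (g • e) ^ k := by
      funext g
      have h2 := hsum 1 (g • e)
      simp only [one_smul] at h2
      exact h2.symm
    rw [h1]
    exact Bil.sum (Finset.range n) (fun k (g : G) => a k * (g • e) ^ k) fun k _ =>
      (Bil.const (ha k)).mul ((Bil.act he).pow k)
  obtain ⟨J, hJ, x, y, hx, hy, hxy⟩ := hBil
  refine ⟨J, hJ, x, y, hx, hy, fun g hg => ?_, ?_⟩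
  · rw [← hxy g]
    refine Finset.prod_eq_zero ((ht g).2 hg) (Finset.prod_eq_zero ((hs 1).2 K.one_mem) ?_)
    rw [one_smul, sub_self]
  · have h1 := hxy 1
    simp only [one_smul] at h1
    rw [← h1]
    refine IsU.prod _ _ fun v hv => IsU.prod _ _ fun h' hh' => ?_
    have hvH := (ht v).1 hv
    have hhH := (hs h').1 hh'
    rw [← mul_smul]
    exact heu.sub hD (hes _ fun hcon => hvH ((K.mul_mem_cancel_left hhH).1 hcon))
-- END D3

-- BEGIN D4
theorem d4_fix {h : G} {z w : F} (hz : h • z = z) (hzw : z * w = 1) : h • w = w := by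
  have h1 : z * (h • w) = 1 := by
    have h2 := congrArg (fun t => h • t) hzw
    simp only [smul_mul', smul_one] at h2
    rwa [hz] at h2
  exact mul_left_cancel₀ (left_ne_zero_of_mul_eq_one hzw) (h1.trans hzw.symm)

theorem d4_isUnit (hBD : B ≤ D) (hdom : ∀ a ∈ fixG (⊤ : Subgroup G) B, IsU D a → a⁻¹ ∈ B)
    (z : fixG (⊤ : Subgroup G) B) : IsUnit z ↔ IsU D (z : F) := by
  constructor
  · intro hz
    obtain ⟨w, hw⟩ := hz.exists_right_inv
    exact ⟨hBD z.2.1, (w : F), hBD w.2.1, congrArg Subtype.val hw⟩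
  · intro hz
    have hw : (z : F)⁻¹ ∈ B := hdom z z.2 hz
    have hzw : (z : F) * (z : F)⁻¹ = 1 := mul_inv_cancel₀ hz.ne_zero
    have hfix : ∀ g ∈ (⊤ : Subgroup G), g • (z : F)⁻¹ = (z : F)⁻¹ :=
      fun g hg => d4_fix (z.2.2 g hg) hzw
    exact IsUnit.of_mul_eq_one (⟨(z : F)⁻¹, hw, hfix⟩ : fixG (⊤ : Subgroup G) B) (Subtype.ext hzw)

theorem d4_isLocal (hD : IsLocalRing D) (hBD : B ≤ D)
    (hdom : ∀ a ∈ fixG (⊤ : Subgroup G) B, IsU D a → a⁻¹ ∈ B) :
    IsLocalRing (fixG (⊤ : Subgroup G) B) := by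
  refine IsLocalRing.of_nonunits_add ?_
  intro a b ha hb
  rw [mem_nonunits_iff, d4_isUnit hBD hdom] at ha hb ⊢
  have ha' : IsN D (a : F) := (isU_or_isN (hBD a.2.1)).resolve_left ha
  have hb' : IsN D (b : F) := (isU_or_isN (hBD b.2.1)).resolve_left hb
  intro hu
  exact hu.not_isN (ha'.add hD hb')

theorem d4_trG_zero (H : Subgroup G) : trG H (0 : F) = 0 := by
  have h1 := trG_add (F := F) H 0 0
  rw [add_zero] at h1
  exact left_eq_add.1 h1

theorem d4_trG_fix (hB : ∀ g : G, ∀ b ∈ B, g • b ∈ B) (H : Subgroup G) {c : F}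
    (hc : c ∈ fixG H B) : trG H c ∈ fixG (⊤ : Subgroup G) B :=
  ⟨trG_mem hB H hc.1, fun g _ => smul_trG H hc.2 g⟩

/-- The trace of a nonunit times `e` is a nonunit. -/
theorem d4_isN_trG (hD : IsLocalRing D) (hBD : B ≤ D) (hB : ∀ g : G, ∀ b ∈ B, g • b ∈ B)
    (K : Subgroup G) {c e : F} (hc : c ∈ fixG K B) (hc' : IsN D c) (he : e ∈ fixG K B)
    (hes : ∀ g, g ∉ K → IsN D (g • e)) : IsN D (trG K (c * e)) := by
  unfold trG
  apply IsN.sum hD
  intro u _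
  rw [smul_mul']
  by_cases hg : (Quotient.out u : G) ∈ K
  · rw [hc.2 _ hg, he.2 _ hg]
    exact hc'.mul_right (hBD he.1)
  · exact (hes _ hg).mul_left (hBD (hB _ c hc.1))

theorem d4_pure (hD : IsLocalRing D) (hBD : B ≤ D) (hB : ∀ g : G, ∀ b ∈ B, g • b ∈ B)
    (hdom : ∀ a ∈ fixG (⊤ : Subgroup G) B, IsU D a → a⁻¹ ∈ B) (H : Subgroup G)
    (hloc : ∀ z ∈ fixG H D, ∃ q ∈ fixG H B, IsU D q ∧ z * q ∈ B)
    {J : Type} [Fintype J] (x y : J → F)
    (hx : ∀ i, x i ∈ fixG H B) (hy : ∀ i, y i ∈ fixG H B)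
    (hxy : ∀ g : G, g ∉ H → ∑ i, x i * (g • y i) = 0) (hxy' : IsU D (∑ i, x i * y i))
    (φ : fixG (⊤ : Subgroup G) B →+* fixG H D) (hφ : ∀ a, (φ a : F) = a)
    (I : Ideal (fixG (⊤ : Subgroup G) B)) : (I.map φ).comap φ = I := by
  have key : ∀ z ∈ I.map φ, ∃ q ∈ fixG H B, IsU D q ∧
      ∀ y ∈ fixG H B, ∃ a ∈ I, (a : F) = trG H (y * ((z : F) * q)) := by
    intro z hz
    rw [Ideal.map] at hz
    induction hz using Submodule.span_induction with
    | mem z hz =>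
      obtain ⟨a, ha, rfl⟩ := hz
      refine ⟨1, (fixG H B).one_mem, isU_one D, fun y hy => ?_⟩
      refine ⟨a * ⟨trG H y, d4_trG_fix hB H hy⟩, I.mul_mem_right _ ha, ?_⟩
      rw [hφ, mul_one, mul_comm y, trG_mul H (fun g => a.2.2 g trivial)]
      rfl
    | zero =>
      refine ⟨1, (fixG H B).one_mem, isU_one D, fun y hy => ⟨0, I.zero_mem, ?_⟩⟩
      have h1 : y * (((0 : fixG H D) : F) * 1) = 0 := by
        rw [show ((0 : fixG H D) : F) = 0 from rfl]; ring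
      rw [h1, d4_trG_zero]
      rfl
    | add z₁ z₂ _ _ h₁ h₂ =>
      obtain ⟨q₁, hq₁, hu₁, H₁⟩ := h₁
      obtain ⟨q₂, hq₂, hu₂, H₂⟩ := h₂
      refine ⟨q₁ * q₂, mul_mem hq₁ hq₂, hu₁.mul hu₂, fun y hy => ?_⟩
      obtain ⟨a₁, ha₁, e₁⟩ := H₁ (y * q₂) (mul_mem hy hq₂)
      obtain ⟨a₂, ha₂, e₂⟩ := H₂ (y * q₁) (mul_mem hy hq₁)
      refine ⟨a₁ + a₂, I.add_mem ha₁ ha₂, ?_⟩
      have h1 : ((a₁ + a₂ : fixG (⊤ : Subgroup G) B) : F) = a₁ + a₂ := rfl
      rw [h1, e₁, e₂, ← trG_add]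
      congr 1
      rw [show ((z₁ + z₂ : fixG H D) : F) = z₁ + z₂ from rfl]
      ring
    | smul c z _ hz =>
      obtain ⟨q, hq, hu, Hz⟩ := hz
      obtain ⟨q', hq', hu', hm'⟩ := hloc c c.2
      have hcq : (c : F) * q' ∈ fixG H B :=
        ⟨hm', fun g hg => by rw [smul_mul', c.2.2 g hg, hq'.2 g hg]⟩
      refine ⟨q * q', mul_mem hq hq', hu.mul hu', fun y hy => ?_⟩
      obtain ⟨a, ha, e⟩ := Hz (y * (c * q')) (mul_mem hy hcq)
      refine ⟨a, ha, ?_⟩
      rw [e]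
      congr 1
      rw [show ((c • z : fixG H D) : F) = c * z from rfl]
      ring
  refine le_antisymm (fun a ha => ?_) Ideal.le_comap_map
  obtain ⟨q, hq, hu, Hq⟩ := key _ (Ideal.mem_comap.1 ha)
  have h1 : IsU D (∑ i, x i * trG H (y i * q)) := by
    rw [sum_mul_trG H x y (fun i => (hy i).2) hxy hq.2]
    exact hu.mul hxy'
  obtain ⟨i, -, hi⟩ := exists_isU_of_sum hD Finset.univ _
    (fun i _ => mul_mem (hBD (hx i).1) (hBD (d4_trG_fix hB H (mul_mem (hy i) hq)).1)) h1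
  have h2 : IsU D (trG H (y i * q)) :=
    hi.right (hBD (hx i).1) (hBD (d4_trG_fix hB H (mul_mem (hy i) hq)).1)
  have h3 : IsUnit (⟨trG H (y i * q), d4_trG_fix hB H (mul_mem (hy i) hq)⟩ :
      fixG (⊤ : Subgroup G) B) := (d4_isUnit hBD hdom _).2 h2
  obtain ⟨b, hb, e⟩ := Hq (y i) (hy i)
  rw [← Ideal.mul_unit_mem_iff_mem I h3]
  have h4 : a * ⟨trG H (y i * q), d4_trG_fix hB H (mul_mem (hy i) hq)⟩ = b := by
    apply Subtype.ext
    rw [e, hφ]
    change (a : F) * trG H (y i * q) = _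
    rw [← trG_mul H (fun g => a.2.2 g trivial)]
    congr 1
    ring
  rw [h4]
  exact hb

theorem d4_max (hD : IsLocalRing D) (hBD : B ≤ D) (hB : ∀ g : G, ∀ b ∈ B, g • b ∈ B)
    (hdom : ∀ a ∈ fixG (⊤ : Subgroup G) B, IsU D a → a⁻¹ ∈ B) (H : Subgroup G)
    (hloc : ∀ z ∈ fixG H D, ∃ q ∈ fixG H B, IsU D q ∧ z * q ∈ B)
    {J : Type} [Fintype J] (x y : J → F)
    (hx : ∀ i, x i ∈ fixG H B) (hy : ∀ i, y i ∈ fixG H B)
    (hxy : ∀ g : G, g ∉ H → ∑ i, x i * (g • y i) = 0) (hxy' : IsU D (∑ i, x i * y i)) {e : F}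
    (he : e ∈ fixG H B) (he' : IsU D e) (hes : ∀ g, g ∉ H → IsN D (g • e))
    [IsLocalRing (fixG (⊤ : Subgroup G) B)] [IsLocalRing (fixG H D)]
    (φ : fixG (⊤ : Subgroup G) B →+* fixG H D) (hφ : ∀ a, (φ a : F) = a) :
    (maximalIdeal (fixG (⊤ : Subgroup G) B)).map φ = maximalIdeal (fixG H D) := by
  refine le_antisymm ?_ ?_
  · rw [Ideal.map_le_iff_le_comap]
    intro a ha
    rw [Ideal.mem_comap, mem_maximalIdeal, mem_nonunits_iff, isUnit_fixG_iff, hφ]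
    rw [mem_maximalIdeal, mem_nonunits_iff, d4_isUnit hBD hdom] at ha
    exact ha
  · intro z hz
    rw [mem_maximalIdeal, mem_nonunits_iff, isUnit_fixG_iff] at hz
    have hzN : IsN D (z : F) := (isU_or_isN z.2.1).resolve_left hz
    obtain ⟨q, hq', hu, hzq⟩ := hloc z z.2
    have hb : (z : F) * q ∈ fixG H B :=
      ⟨hzq, fun g hg => by rw [smul_mul', z.2.2 g hg, hq'.2 g hg]⟩
    have hbN : IsN D ((z : F) * q) := hzN.mul_right hu.1
    have hle : ∀ {c : F}, c ∈ fixG H B → c ∈ fixG H D := fun hc => ⟨hBD hc.1, hc.2⟩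
    have hδ : ∑ i, x i * y i ∈ fixG H B := sum_mem fun i _ => mul_mem (hx i) (hy i)
    have hfix : ∀ i, trG H (y i * ((z : F) * q * e)) ∈ fixG (⊤ : Subgroup G) B := fun i =>
      d4_trG_fix hB H (mul_mem (hy i) (mul_mem hb he))
    have hmax : ∀ i, (⟨_, hfix i⟩ : fixG (⊤ : Subgroup G) B) ∈
        maximalIdeal (fixG (⊤ : Subgroup G) B) := by
      intro i
      rw [mem_maximalIdeal, mem_nonunits_iff, d4_isUnit hBD hdom]
      intro h1
      refine h1.not_isN ?_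
      change IsN D (trG H (y i * ((z : F) * q * e)))
      rw [← mul_assoc]
      exact d4_isN_trG hD hBD hB H (mul_mem (hy i) hb) (hbN.mul_left (hBD (hy i).1)) he hes
    have h2 : ∑ i, (⟨x i, hle (hx i)⟩ : fixG H D) * φ ⟨_, hfix i⟩ ∈
        (maximalIdeal (fixG (⊤ : Subgroup G) B)).map φ :=
      sum_mem fun i _ => Ideal.mul_mem_left _ _ (Ideal.mem_map_of_mem φ (hmax i))
    have hw : IsUnit (⟨q * (e * ∑ i, x i * y i),
        mul_mem (hle hq') (mul_mem (hle he) (hle hδ))⟩ : fixG H D) :=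
      (isUnit_fixG_iff H _).2 (hu.mul (he'.mul hxy'))
    rw [← Ideal.mul_unit_mem_iff_mem _ hw]
    have h3 : ((∑ i, (⟨x i, hle (hx i)⟩ : fixG H D) * φ ⟨_, hfix i⟩ : fixG H D) : F) =
        ∑ i, x i * trG H (y i * ((z : F) * q * e)) := by
      rw [AddSubmonoidClass.coe_finsetSum]
      refine Finset.sum_congr rfl fun i _ => ?_
      change x i * (φ ⟨_, hfix i⟩ : F) = _
      rw [hφ]
    have h5 : z * ⟨q * (e * ∑ i, x i * y i),
        mul_mem (hle hq') (mul_mem (hle he) (hle hδ))⟩ =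
        ∑ i, (⟨x i, hle (hx i)⟩ : fixG H D) * φ ⟨_, hfix i⟩ := by
      apply Subtype.ext
      rw [h3, sum_mul_trG H x y (fun i => (hy i).2) hxy (mul_mem hb he).2]
      change (z : F) * (q * (e * ∑ i, x i * y i)) = _
      ring
    rw [h5]
    exact h2

/-- TASK D4. **Regularity for a split extension.** The proof is that of `SemiLoc.isRegular` (RG5f) with
`H = K`: coordinates from `exists_coord_of_split`; `pure` (RG5d) and `map_maximalIdeal` (RG5e) are the same proofs,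
where `fix_loc` is replaced by the hypothesis `hloc` (in RG5e: `trG K (y_i * (b * e))` is a nonunit of `D`
since each term `g • (y_i b e)` is a nonunit: if `g ∈ K` it is `y_i b e` itself, `b` a nonunit; if `g ∉ K`
then `g • e` is a nonunit). `fixG ⊤ B` is local and its units are the elements which are units of `D`
(RG5c, these only use `hdom`); write auxiliary lemmas. -/
theorem isRegular_of_split (hD : IsLocalRing D) (hBD : B ≤ D) (hB : ∀ g : G, ∀ b ∈ B, g • b ∈ B)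
    (hdom : ∀ a ∈ fixG (⊤ : Subgroup G) B, IsU D a → a⁻¹ ∈ B) (K : Subgroup G)
    (hloc : ∀ z ∈ fixG K D, ∃ q ∈ fixG K B, IsU D q ∧ z * q ∈ B) {e : F} (he : e ∈ fixG K B)
    (heu : IsU D e) (hes : ∀ g, g ∉ K → IsN D (g • e)) (hreg : IsRegularLocalRing (fixG K D)) :
    IsRegularLocalRing (fixG (⊤ : Subgroup G) B) := by
  obtain ⟨J, hJ, x, y, hx, hy, hxy, hxy'⟩ := exists_coord_of_split hD hBD hB K he heu hes
  have hloc1 : IsLocalRing (fixG (⊤ : Subgroup G) B) := d4_isLocal hD hBD hdom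
  have hloc' : IsLocalRing (fixG K D) := hreg.toIsLocalRing
  let φ : fixG (⊤ : Subgroup G) B →+* fixG K D :=
    Subring.inclusion fun z hz => ⟨hBD hz.1, fun g _ => hz.2 g (Subgroup.mem_top g)⟩
  have hφ : ∀ a, (φ a : F) = a := fun a => rfl
  exact isRegularLocalRing_of_comap_map φ
    (fun I => d4_pure hD hBD hB hdom K hloc x y hx hy hxy hxy' φ hφ I)
    (d4_max hD hBD hB hdom K hloc x y hx hy hxy hxy' he heu hes φ hφ) hreg
-- END D4

end Top

section

variable {T : ℕ → AddSubgroup F} {D : Subring F} {v : F} (hT : GSys T) (hD : GPt T D v)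

-- BEGIN D5
include hT hD in
theorem d5_le : midK T (⊤ : Subgroup G) D v hT hD ≤ D := by
  rintro z ⟨n, f, hf, s, hs, -, hsu, h1⟩
  have hv : v ^ n ≠ 0 := pow_ne_zero n hD.ne
  have hs0 : s ≠ 0 := by
    rintro rfl
    exact hsu.ne_zero (zero_div _)
  have h2 : z = (f / v ^ n) * (s / v ^ n)⁻¹ := by
    rw [← h1]
    field_simp
  rw [h2]
  exact D.mul_mem (hD.ratio n f hf) hsu.inv_mem

include hT hD in
theorem d5_stab (hG : ∀ g : G, ∀ n, ∀ f ∈ T n, g • f ∈ T n) :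
    ∀ g : G, ∀ b ∈ midK T (⊤ : Subgroup G) D v hT hD, g • b ∈ midK T (⊤ : Subgroup G) D v hT hD := by
  rintro g b ⟨n, f, hf, s, hs, hsG, hsu, h1⟩
  refine ⟨n, g • f, hG g n f hf, s, hs, hsG, hsu, ?_⟩
  rw [← h1, smul_mul', hsG g (Subgroup.mem_top g)]

include hT hD in
theorem d5_dom : ∀ a ∈ fixG (⊤ : Subgroup G) (midK T (⊤ : Subgroup G) D v hT hD), IsU D a →
    a⁻¹ ∈ midK T (⊤ : Subgroup G) D v hT hD := by
  rintro a ⟨⟨n, f, hf, s, hs, hsG, hsu, h1⟩, haG⟩ hu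
  have ha0 := hu.ne_zero
  refine ⟨n, s, hs, f, hf, fun g hg => ?_, ?_, ?_⟩
  · rw [← h1, smul_mul', haG g hg, hsG g hg]
  · rw [← h1, mul_div_assoc]
    exact hu.mul hsu
  · rw [← h1, inv_mul_cancel_left₀ ha0]

include hT hD in
theorem d5_fix (hG : ∀ g : G, ∀ n, ∀ f ∈ T n, g • f ∈ T n) :
    fixG (⊤ : Subgroup G) (midK T (⊤ : Subgroup G) D v hT hD) = fixG (⊤ : Subgroup G) D := by
  ext z
  constructor
  · rintro ⟨h1, h2⟩
    exact ⟨d5_le hT hD h1, h2⟩
  · intro hz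
    obtain ⟨n, -, f, hf, h, hh, -, hhK, hu, h1⟩ := hD.exists_inv hT (fun g _ => hG g) hz
    exact ⟨⟨n, f, hf, h, hh, hhK, hu, h1⟩, hz.2⟩

theorem d5_smul_pow (g : G) (x : F) (n : ℕ) (hx : g • x = x) : g • x ^ n = x ^ n := by
  rw [smul_pow', hx]

theorem d5_smul_div (g : G) (x y : F) (hx : g • x = x) (hy : g • y = y) : g • (x / y) = x / y := by
  have h1 : g • (x / y) = (g • x) / (g • y) := map_div₀ (MulSemiringAction.toRingHom G F g) x y
  rw [h1, hx, hy]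

include hT hD in
theorem d5_loc (hG : ∀ g : G, ∀ n, ∀ f ∈ T n, g • f ∈ T n) (K : Subgroup G) : ∀ z ∈ fixG K D,
    ∃ q ∈ fixG K (midK T (⊤ : Subgroup G) D v hT hD), IsU D q ∧
      z * q ∈ midK T (⊤ : Subgroup G) D v hT hD := by
  intro z hz
  obtain ⟨n, hn, f, hf, h, hh, hfK, hhK, hu, h1⟩ := hD.exists_inv hT (fun g _ => hG g) hz
  obtain ⟨m, hm, s, hs, hsG, hsu⟩ := hD.exists_inv_unit hT (K := (⊤ : Subgroup G)) (fun g _ => hG g)
  have hv : v ≠ 0 := hD.ne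
  have hs0 : s ≠ 0 := by
    rintro rfl
    exact hsu.ne_zero (zero_div _)
  have hh0 : h ≠ 0 := by
    rintro rfl
    exact hu.ne_zero (zero_div _)
  have hsn : s ^ n ∈ T (n * m) := by
    rw [mul_comm]
    exact hT.pow hs n
  have hsnG : ∀ g ∈ (⊤ : Subgroup G), g • s ^ n = s ^ n := fun g hg => d5_smul_pow g s n (hsG g hg)
  have hsnu : IsU D (s ^ n / v ^ (n * m)) := by
    rw [mul_comm n m]
    exact hD.isU_pow hT hsu n
  have hq : h ^ m / s ^ n ∈ midK T (⊤ : Subgroup G) D v hT hD := by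
    refine ⟨n * m, h ^ m, hT.pow hh m, s ^ n, hsn, hsnG, hsnu, ?_⟩
    exact div_mul_cancel₀ _ (pow_ne_zero n hs0)
  refine ⟨h ^ m / s ^ n, ⟨hq, fun g hg => ?_⟩, ?_, ?_⟩
  · exact d5_smul_div g _ _ (d5_smul_pow g h m (hhK g hg)) (hsnG g (Subgroup.mem_top g))
  · have h2 : h ^ m / s ^ n = (h ^ m / v ^ (n * m)) * (s ^ n / v ^ (n * m))⁻¹ := by
      field_simp
    rw [h2]
    have h3 : IsU D (h ^ m / v ^ (n * m)) := hD.isU_pow hT hu m
    refine h3.mul ⟨hsnu.inv_mem, _, hsnu.1, inv_mul_cancel₀ hsnu.ne_zero⟩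
  · obtain ⟨p, rfl⟩ : ∃ p, m = p + 1 := ⟨m - 1, by omega⟩
    refine ⟨n * (p + 1), f * h ^ p, ?_, s ^ n, hsn, hsnG, hsnu, ?_⟩
    · have h2 := hT.mul hf (hT.pow hh p)
      have h3 : n + n * p = n * (p + 1) := by ring
      rwa [h3] at h2
    · rw [mul_assoc, div_mul_cancel₀ _ (pow_ne_zero n hs0), pow_succ', ← mul_assoc, h1]

include hT hD in
/-- TASK D5. Apply `isRegular_of_split` with `B = midK T ⊤ D v` (`⊤ : Subgroup G`; `le`: `z = (f / v ^ n) / (s / v ^ n)`;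
`hdom` as in `inv_mem_midK`); `hloc`: `hD.exists_inv` for `K` gives `n ≥ 1`, `f`, `h` fixed by `K` with
`z h = f`, and `s ∈ T m`, `m ≥ 1`, fixed by `G` (`exists_inv_unit`); `q = h ^ m / s ^ n`.
`fixG ⊤ (midK T ⊤ D v) = fixG ⊤ D` by `hD.exists_inv` for `⊤`. -/
theorem GPt.isRegular_top (hG : ∀ g : G, ∀ n, ∀ f ∈ T n, g • f ∈ T n) (K : Subgroup G) {e : F}
    (he : e ∈ T 0) (heK : ∀ g ∈ K, g • e = e) (heu : IsU D e) (hes : ∀ g, g ∉ K → IsN D (g • e))
    (hreg : IsRegularLocalRing (fixG K D)) : IsRegularLocalRing (fixG (⊤ : Subgroup G) D) := by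
  have he' : e ∈ fixG K (midK T (⊤ : Subgroup G) D v hT hD) := by
    refine ⟨⟨0, e, he, 1, hT.one, fun g _ => smul_one g, ?_, mul_one e⟩, heK⟩
    rw [pow_zero, div_one]
    exact isU_one D
  have h1 := isRegular_of_split hD.loc (d5_le hT hD) (d5_stab hT hD hG) (d5_dom hT hD) K
    (d5_loc hT hD hG K) he' heu hes hreg
  rwa [d5_fix hT hD hG] at h1
-- END D5

-- BEGIN D6
include hT hD in
/-- TASK D6. If `Good G D` then the ring of invariants is regular: as `isRegular_fixG` for the whole group. Apply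
`SemiLoc.isRegular` to `midK T ⊤ D v` with the group `G`; or transport `Good G D` to `Good (⊤ : Subgroup G) D`
(the subgroup `H.subgroupOf ⊤`) and use `hD.isRegular_fixG`. -/
theorem GPt.isRegular_of_good (hG : ∀ g : G, ∀ n, ∀ f ∈ T n, g • f ∈ T n) (hgood : Good G D) :
    IsRegularLocalRing (fixG (⊤ : Subgroup G) D) := by
  refine hD.isRegular_fixG hT (K := (⊤ : Subgroup G)) (fun g _ => hG g) ?_
  obtain ⟨H, hH, hreg⟩ := hgood
  refine ⟨H.subgroupOf ⊤, fun g => ?_, ?_⟩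
  · rw [Subgroup.mem_subgroupOf, hH]
    rfl
  · have h1 : fixG (H.subgroupOf (⊤ : Subgroup G)) D = fixG H D := by
      ext z
      constructor
      · rintro ⟨h2, h3⟩
        exact ⟨h2, fun h hh => h3 ⟨h, Subgroup.mem_top h⟩ hh⟩
      · rintro ⟨h2, h3⟩
        exact ⟨h2, fun h hh => h3 h hh⟩
    rw [h1]
    exact hreg
-- END D6

end

end Pool.Agent.Lib.MP_6a3dac_ag.TW
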