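import Pool.Agent.Lib.MP_6a3dac_ag.TW.Asm
import Pool.Agent.Lib.MP_6a3dac_ag.TW.Cubic
import Pool.Agent.Lib.MP_6a3dac_ag.GI.Fin

/-!
# The theorem on Weil restrictions, second version
-/

set_option autoImplicit false
set_option linter.unusedSectionVars false
set_option linter.unusedVariables false

namespace Pool.Agent.Lib.MP_6a3dac_ag.TW

open Pool.Agent.Lib.MP_6a3dac_ag GI QD
open CategoryTheory Limits AlgebraicGeometry NumberField MvPolynomial

attribute [local instance] MvPolynomial.gradedAlgebra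

section Group

variable (E L N : Type) [Field E] [NumberField E] [Field L] [NumberField L] [Field N]
  [NumberField N] [Algebra E L] [Algebra E N]

/-- The inertia group of a prime in the normal closure of a cubic extension. -/
theorem inHyp_of_cubic [IsGalois E N] [IsNormalClosure E L N] (h3 : Module.finrank E L ≤ 3)
    (P : Ideal (𝓞 N)) [P.IsPrime] (hP0 : P ≠ ⊥) : InHyp (N ≃ₐ[E] N) P := by
  by_cases hle : Nat.card (inG (N ≃ₐ[E] N) P) ≤ 3
  · exact Or.inl hle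
  push Not at hle
  obtain ⟨f, hf⟩ := exists_embHom E L N
  have hinj : Function.Injective f := by
    rw [injective_iff_map_eq_one]
    intro g hg
    refine eq_one_of_comp E L N fun φ => ?_
    rw [← hf, hg]
    rfl
  have hΦ : Nat.card (L →ₐ[E] N) ≤ 3 := (card_emb_le E L N).trans h3
  obtain ⟨g, hgH, h, hhH, hg1, hg3, hgh⟩ := exists_dihedral f hinj hΦ _ hle
  -- `3 ∈ P`
  have hG := galExt_of_isGalois E N
  have h3P : (3 : 𝓞 N) ∈ P := by
    by_contra h3P
    obtain ⟨y, hy0, hy⟩ := exists_common_unif (O := 𝓞 N) (S := {P}) (Set.finite_singleton P)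
      (fun P' h' => by rw [Set.mem_singleton_iff.1 h']; infer_instance)
      (fun P' h' => by rw [Set.mem_singleton_iff.1 h']; exact hP0)
    obtain ⟨hyP, hyu⟩ := hy P rfl
    have hU : UnifHyp (L := N) (M := N) (N ≃ₐ[E] N) P y :=
      ⟨fun g c => rfl, hP0, hy0, hyP, hyu⟩
    have h1 := ChG.one_of_dihedral hU hgH hhH hg3 hgh
    obtain ⟨c, hc⟩ := hG.faithful g hg1
    exact hc (eq_one_of_cube hU h3P hgH hg3 h1 c)
  have h2P : (2 : 𝓞 N) ∉ P := by
    intro h2P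
    have h1 := P.sub_mem h3P h2P
    have h2 : (3 : 𝓞 N) - 2 = 1 := by norm_num
    rw [h2] at h1
    exact (Ideal.ne_top_iff_one P).1 (inferInstance : P.IsPrime).ne_top h1
  -- the order is six
  have hcard : Nat.card (inG (N ≃ₐ[E] N) P) ∣ Nat.card (Equiv.Perm (L →ₐ[E] N)) := by
    have e : Nat.card (inG (N ≃ₐ[E] N) P) = Nat.card ((inG (N ≃ₐ[E] N) P).map f) :=
      Nat.card_congr ((inG (N ≃ₐ[E] N) P).equivMapOfInjective f hinj).toEquiv
    rw [e]
    exact Subgroup.card_subgroup_dvd_card _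
  have h6 : Nat.card (Equiv.Perm (L →ₐ[E] N)) ∣ 6 := by
    rw [Nat.card_perm]
    exact Nat.factorial_dvd_factorial hΦ
  have h7 := hcard.trans h6
  have h8 : Nat.card (inG (N ≃ₐ[E] N) P) = 6 := by
    have h9 := Nat.le_of_dvd (by norm_num) h7
    obtain ⟨n, hn⟩ : ∃ n, n = Nat.card (inG (N ≃ₐ[E] N) P) := ⟨_, rfl⟩
    rw [← hn] at hle h7 h9 ⊢
    interval_cases n <;> omega
  exact Or.inr ⟨h2P, 1, Or.inr h8⟩

end Group

theorem exists_model_weilRestriction2 (E L N : Type) [Field E] [NumberField E] [Field L]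
    [NumberField L] [Field N] [NumberField N] [Algebra E L] [Algebra E N] [IsGalois E N]
    [Nonempty (L →ₐ[E] N)]
    (hin : (IsNormalClosure E L N ∧ Module.finrank E L ≤ 3) ∨
      ∀ (P : Ideal (𝓞 N)) [P.IsPrime], P ≠ ⊥ → Nat.card (inertiaAt E P) ≤ 3 ∨
        ((2 : 𝓞 N) ∉ P ∧ ∃ a : ℕ, Nat.card (inertiaAt E P) = 2 ^ a ∨
          Nat.card (inertiaAt E P) = 3 * 2 ^ a)) (n : ℕ)
    (𝔞 : HomIdeal (𝓞 L) n) (hflat : Flat (hProjTo 𝔞))
    (hreg : ∀ y : hProj 𝔞, IsRegularLocalRing ((hProj 𝔞).presheaf.stalk y))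
    (hgeom : GeomDomain 𝔞)
    (hsm : ∀ (P : Ideal (𝓞 N)) [P.IsPrime], P ≠ ⊥ → ∀ φ : L →ₐ[E] N, BadAt 𝔞 P φ →
      (∀ ψ : L →ₐ[E] N, BadAt 𝔞 P ψ → ψ = φ) ∧ Nat.card (inertiaAt E P) = 1) :
    ∃ (Y : Scheme.{0}) (g : Y ⟶ Spec (CommRingCat.of (𝓞 E))),
      IsProper g ∧ Flat g ∧ (∀ y : Y, IsRegularLocalRing (Y.presheaf.stalk y)) ∧
      ∃ e : pullback g (Spec.map (CommRingCat.ofHom (algebraMap (𝓞 E) E))) ≅
          (embData E L N).scheme 𝔞,
        e.hom ≫ (embData E L N).toBase 𝔞 =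
          pullback.snd g (Spec.map (CommRingCat.ofHom (algebraMap (𝓞 E) E))) := by
  have hf : Fintype (L →ₐ[E] N) := Fintype.ofFinite _
  have hdom : IsDomain ((embData E L N).MRing 𝔞) :=
    W3.isDomain_multRing (𝔟 := 𝔞.toHom.toIdeal) hgeom _ fun φ =>
      (φ : L →+* N).injective.comp (IsFractionRing.injective (𝓞 L) L)
  have hin' : ∀ (P : Ideal (𝓞 N)) [P.IsPrime], P ≠ ⊥ → InHyp (N ≃ₐ[E] N) P := by
    rcases hin with ⟨h1, h2⟩ | h
    · exact fun P _ hP => inHyp_of_cubic E L N h2 P hP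
    · exact fun P _ hP => h P hP
  refine exists_model_weil_galois2 (R := 𝓞 E) (S := 𝓞 N) (O := 𝓞 L) (N := N) (G := N ≃ₐ[E] N)
    (ψ := (embData E L N).ψ) (π := (embData E L N).π) 𝔞.toHom
    (fun g φ c => rfl) (fun g h φ => rfl) (fun φ => rfl) (RingOfIntegers.not_isField E)
    (GI.galExt_of_isGalois E N) hin' (fun P _ hP => GI.finite_quotient N hP)
    (fun a1 a2 a3 hM hF => ?_)
    ((embData E L N).inv 𝔞) (fun z => (embData E L N).mem_inv_iff 𝔞 z) ((embData E L N).gr 𝔞)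
    ((embData E L N).grAlgebra 𝔞) (fun k a => (embData E L N).mem_gr_iff 𝔞 k a)
  refine GI.geoHyp_weil (R := 𝓞 E) (S := 𝓞 N) (O := 𝓞 L) (N := N) (G := N ≃ₐ[E] N)
    (ψ := (embData E L N).ψ) (π := (embData E L N).π) 𝔞.toHom
    (GI.galExt_of_isGalois E N) (f := fun φ => RingOfIntegers.mapRingHom (φ : L →+* N))
    (fun φ => ?_) (fun φ c => ?_) hflat hreg
    (fun g φ c => rfl) (fun g h φ => rfl) (fun φ => rfl) (fun g c => rfl) (fun φ c => rfl)
    (fun P _ hP => oneBad_of (hsm P hP)) (GI.fracι 𝔞.toHom.toIdeal)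
    (IsFractionRing.injective ((embData E L N).MRing 𝔞)
      (FractionRing ((embData E L N).MRing 𝔞))) hM hF
  · intro a b hab
    apply RingOfIntegers.ext
    exact (φ : L →+* N).injective (congrArg (fun z : 𝓞 N => (z : N)) hab)
  · apply RingOfIntegers.ext
    change φ (algebraMap (𝓞 L) L (algebraMap (𝓞 E) (𝓞 L) c)) =
      algebraMap (𝓞 N) N (algebraMap (𝓞 E) (𝓞 N) c)
    rw [← IsScalarTower.algebraMap_apply (𝓞 E) (𝓞 L) L,
      ← IsScalarTower.algebraMap_apply (𝓞 E) (𝓞 N) N, IsScalarTower.algebraMap_apply (𝓞 E) E L,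
      IsScalarTower.algebraMap_apply (𝓞 E) E N, φ.commutes]

end Pool.Agent.Lib.MP_6a3dac_ag.TW
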