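import Pool.Agent.Lib.MP_6a3dac_ag.TW.Sgn
import Pool.Agent.Lib.MP_6a3dac_ag.GI.Inert
import Pool.Agent.Lib.MP_6a3dac_ag.GI.Comb

/-!
# The discrete valuation ring at a prime and the action of a group on it
-/

set_option autoImplicit false
set_option linter.unusedSectionVars false
set_option linter.unusedVariables false

namespace Pool.Agent.Lib.MP_6a3dac_ag.TW

open Pool.Agent.Lib.MP_6a3dac_ag GI QD
open scoped Pointwise

section Noeth

variable {X : Type} [CommRing X]

-- BEGIN L1
/-- TASK L1. Let `𝔟` be an ideal of `B`; its preimage in `A` is finitely generated, by `t`; then `𝔟` is generated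
by the image of `t`: for `b ∈ 𝔟`, `a * b` is in the preimage, `b = u * (a * b)`. (`Subring.inclusion hAB`.) -/
theorem isNoetherianRing_of_loc (A B : Subring X) (hAB : A ≤ B) (hA : IsNoetherianRing A)
    (h : ∀ b ∈ B, ∃ a ∈ A, ∃ u ∈ B, a * u = 1 ∧ a * b ∈ A) : IsNoetherianRing B := by
  rw [isNoetherianRing_iff_ideal_fg]
  intro I
  have h1 : (I.comap (Subring.inclusion hAB)).FG :=
    (isNoetherianRing_iff_ideal_fg A).1 hA _
  have h2 : I = (I.comap (Subring.inclusion hAB)).map (Subring.inclusion hAB) := by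
    apply le_antisymm
    · intro b hb
      obtain ⟨a, ha, u, hu, hau, hab⟩ := h b b.2
      have h3 : (⟨u, hu⟩ : B) * Subring.inclusion hAB ⟨a * b, hab⟩ = b := by
        apply Subtype.ext
        change u * (a * (b : X)) = b
        rw [← mul_assoc, mul_comm u a, hau, one_mul]
      have h4 : Subring.inclusion hAB ⟨a * b, hab⟩ ∈ I := by
        have h5 : Subring.inclusion hAB ⟨a * b, hab⟩ = (⟨a, hAB ha⟩ : B) * b := rfl
        rw [h5]
        exact I.mul_mem_left _ hb
      rw [← h3]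
      exact Ideal.mul_mem_left _ _ (Ideal.mem_map_of_mem _ (Ideal.mem_comap.2 h4))
    · exact Ideal.map_comap_le
  rw [h2]
  exact h1.map _
-- END L1

end Noeth

variable {R O L M G : Type} [CommRing R] [IsNoetherianRing R] [CommRing O]
  [IsDedekindDomain O] [Algebra R O] [Module.Finite R O]
  [Field L] [Algebra R L] [Algebra O L] [IsScalarTower R O L] [IsFractionRing O L] [CommRing M]
  [IsDomain M] [Algebra L M] [Algebra R M] [IsScalarTower R L M] [Algebra O M]
  [IsScalarTower O L M] [Group G] [Finite G] [MulSemiringAction G O] [MulSemiringAction G M]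

/-- The image of the ring of the elements of `O` fixed by `C`. -/
def oFix (O L M : Type) [CommRing O] [Field L] [Algebra O L] [CommRing M] [Algebra L M]
    {G : Type} [Group G] [MulSemiringAction G O] (C : Subgroup G) : Subring M where
  carrier := {m | ∃ c : O, (∀ g ∈ C, g • c = c) ∧ oM O L M c = m}
  mul_mem' := by
    rintro _ _ ⟨a, ha, rfl⟩ ⟨b, hb, rfl⟩
    exact ⟨a * b, fun g hg => by rw [smul_mul', ha g hg, hb g hg], map_mul _ _ _⟩
  one_mem' := ⟨1, fun g _ => smul_one g, map_one _⟩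
  add_mem' := by
    rintro _ _ ⟨a, ha, rfl⟩ ⟨b, hb, rfl⟩
    exact ⟨a + b, fun g hg => by rw [smul_add, ha g hg, hb g hg], map_add _ _ _⟩
  zero_mem' := ⟨0, fun g _ => smul_zero g, map_zero _⟩
  neg_mem' := by
    rintro _ ⟨a, ha, rfl⟩
    exact ⟨-a, fun g hg => by rw [smul_neg, ha g hg], map_neg _ _⟩

theorem mem_oFix {C : Subgroup G} {m : M} :
    m ∈ oFix O L M C ↔ ∃ c : O, (∀ g ∈ C, g • c = c) ∧ oM O L M c = m := Iff.rfl

-- BEGIN L2
/-- TASK L2. The elements of `O` fixed by `C` form a subalgebra of the finite `R`-algebra `O` (`hR`), a finite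
`R`-module since `R` is noetherian, so it is a noetherian ring (`isNoetherian_of_isNoetherianRing_of_finite`,
`isNoetherian_of_tower`), and `oFix` is its image (`isNoetherianRing_of_surjective`). -/
theorem isNoetherianRing_oFix (hR : ∀ (g : G) (a : R), g • algebraMap R O a = algebraMap R O a)
    (C : Subgroup G) : IsNoetherianRing (oFix O L M C) := by
  let S : Subalgebra R O :=
    { carrier := {c | ∀ g ∈ C, g • c = c}
      mul_mem' := fun {a b} ha hb g hg => by rw [smul_mul', ha g hg, hb g hg]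
      add_mem' := fun {a b} ha hb g hg => by rw [smul_add, ha g hg, hb g hg]
      algebraMap_mem' := fun a g _ => hR g a }
  haveI h1 : IsNoetherian R O := isNoetherian_of_isNoetherianRing_of_finite R O
  haveI h2 : IsNoetherian R (Subalgebra.toSubmodule S) := inferInstance
  haveI h3 : IsNoetherian R S := h2
  haveI h4 : IsNoetherianRing S := isNoetherian_of_tower R h3
  let f : S →+* oFix O L M C :=
    { toFun := fun c => ⟨oM O L M c.1, c.1, c.2, rfl⟩
      map_one' := Subtype.ext (map_one _)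
      map_mul' := fun a b => Subtype.ext (map_mul (oM O L M) a.1 b.1)
      map_zero' := Subtype.ext (map_zero _)
      map_add' := fun a b => Subtype.ext (map_add (oM O L M) a.1 b.1) }
  refine isNoetherianRing_of_surjective S (oFix O L M C) f ?_
  rintro ⟨_, c, hc, rfl⟩
  exact ⟨⟨c, hc⟩, rfl⟩
-- END L2

section Prime

variable {P : Ideal O} [P.IsPrime] {C : Subgroup G}
  (hO : ∀ (g : G) c, g • oM O L M c = oM O L M (g • c))
  (hC : ∀ g ∈ C, ∀ c ∈ P, g • c ∈ P)

-- BEGIN L3
omit [IsNoetherianRing R] [Module.Finite R O] [CommRing R] [Algebra R O] [Algebra R L]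
  [IsScalarTower R O L] [Algebra R M] [IsScalarTower R L M] in
include hO hC in
/-- TASK L3. **Invariant denominators.** `oM n * c = oM c'` with `n ∉ P` (`mem_lamP`); multiply with the product of
the `g • n`, `g ∈ C`, `g ≠ 1` (`g • n ∉ P` by `in4_inv`). The last claim: `oM` is injective. -/
theorem exists_inv_denom {c : M} (hc : c ∈ lamP O L M P) : ∃ n : O, n ∉ P ∧ (∀ g ∈ C, g • n = n) ∧
    ∃ c' : O, oM O L M n * c = oM O L M c' ∧ ((∀ g ∈ C, g • c = c) → ∀ g ∈ C, g • c' = c') := by
  classical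
  have : Fintype C := Fintype.ofFinite C
  obtain ⟨n₀, hn₀, c₀, hc₀, l, hl⟩ := hc
  have hinj : Function.Injective (oM O L M) :=
    (FaithfulSMul.algebraMap_injective L M).comp (IsFractionRing.injective O L)
  have halg : algebraMap O M n₀ = oM O L M n₀ := IsScalarTower.algebraMap_apply O L M n₀
  have hfix : ∀ g ∈ C, g • (∏ h : C, (h : G) • n₀) = ∏ h : C, (h : G) • n₀ := by
    intro g hg
    rw [Finset.smul_prod']
    refine Fintype.prod_equiv (Equiv.mulLeft (⟨g, hg⟩ : C)) _ _ fun h => ?_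
    change g • (h : G) • n₀ = (((⟨g, hg⟩ : C) * h : C) : G) • n₀
    rw [Subgroup.coe_mul, mul_smul]
  have hnP : (∏ h : C, (h : G) • n₀) ∉ P := by
    intro hmem
    obtain ⟨h, -, hh⟩ := (Ideal.IsPrime.prod_mem_iff).1 hmem
    exact hn₀ (in4_inv (hC h h.2) hh)
  obtain ⟨N', hN'⟩ : n₀ ∣ ∏ h : C, (h : G) • n₀ := by
    have h1 := Finset.dvd_prod_of_mem (fun h : C => (h : G) • n₀) (Finset.mem_univ (1 : C))
    simpa using h1
  refine ⟨∏ h : C, (h : G) • n₀, hnP, hfix, N' * c₀, ?_, ?_⟩
  · rw [hN', map_mul, map_mul, ← hc₀, halg]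
    ring
  · intro hcf g hg
    apply hinj
    have h1 : oM O L M (∏ h : C, (h : G) • n₀) * c = oM O L M (N' * c₀) := by
      rw [hN', map_mul, map_mul, ← hc₀, halg]
      ring
    rw [← hO, ← h1, smul_mul', hO, hfix g hg, hcf g hg]
-- END L3

-- BEGIN L4
include hO hC in
theorem l4_denom {c : M} (hc : c ∈ lamP O L M P) : ∃ n : O, (∀ g ∈ C, g • n = n) ∧
    (∃ u ∈ lamFix (lamP O L M P) C, oM O L M n * u = 1) ∧
    ∃ c' : O, oM O L M n * c = oM O L M c' ∧ ((∀ g ∈ C, g • c = c) → ∀ g ∈ C, g • c' = c') := by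
  obtain ⟨n, hn, hnf, c', hc', hcf⟩ := exists_inv_denom hO hC hc
  obtain ⟨u, hu, hnu⟩ := exists_inv_lamP (L := L) (M := M) (IsFractionRing.injective O L) hn
  refine ⟨n, hnf, ⟨u, ⟨hu, fun g hg => ?_⟩, hnu⟩, c', hc', hcf⟩
  have h1 : oM O L M n * (g • u) = 1 := by
    have h2 : g • (oM O L M n * u) = 1 := by rw [hnu, smul_one]
    rwa [smul_mul', hO, hnf g hg] at h2
  calc g • u = (oM O L M n * u) * (g • u) := by rw [hnu, one_mul]
    _ = u * (oM O L M n * (g • u)) := by ring
    _ = u := by rw [h1, mul_one]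

include hO hC in
/-- TASK L4. `isNoetherianRing_of_loc` for `A = oFix O L M C`, `exists_inv_denom`; the inverse of `oM n` is in
`lamP O L M P` (`exists_inv_lamP`), and fixed by `C` since it is unique. -/
theorem isNoetherianRing_lamFix (hR : ∀ (g : G) (a : R), g • algebraMap R O a = algebraMap R O a) :
    IsNoetherianRing (lamFix (lamP O L M P) C) := by
  refine isNoetherianRing_of_loc (oFix O L M C) _ ?_ (isNoetherianRing_oFix hR C) ?_
  · rintro _ ⟨c, hc, rfl⟩
    exact ⟨oM_mem_lamP P c, fun g hg => by rw [hO, hc g hg]⟩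
  · rintro b ⟨hb, hbf⟩
    obtain ⟨n, hnf, ⟨u, hu, hnu⟩, c', hc', hcf⟩ := l4_denom hO hC hb
    exact ⟨oM O L M n, ⟨n, hnf, rfl⟩, u, hu, hnu, c', hcf hbf, hc'.symm⟩

include hO hC in
/-- TASK L4. `S₀` is the image of a finite set of generators of the `R`-module `O`; for `c ∈ lamP O L M P` take
`n`, `c'` from `exists_inv_denom`, `c = u * oM c'` with `u ∈ lamFix`, and `oM c'` is a linear combination of
elements of `S₀` with coefficients `algebraMap R M a ∈ lamFix`. -/
theorem exists_finite_lam (hR : ∀ (g : G) (a : R), g • algebraMap R O a = algebraMap R O a) :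
    ∃ S₀ : Set M, S₀.Finite ∧ (∀ c ∈ S₀, c ∈ lamP O L M P) ∧
      ∀ c ∈ lamP O L M P, c ∈ Submodule.span (lamFix (lamP O L M P) C) S₀ := by
  obtain ⟨S, hS⟩ := (Module.Finite.fg_top : (⊤ : Submodule R O).FG)
  have halg : ∀ r : R, algebraMap R M r ∈ lamFix (lamP O L M P) C := by
    intro r
    rw [← oM_algebraMap (O := O) (L := L) (M := M) r]
    exact ⟨oM_mem_lamP P _, fun g _ => by rw [hO, hR]⟩
  have hspan : ∀ c' : O, oM O L M c' ∈
      Submodule.span (lamFix (lamP O L M P) C) (oM O L M '' (S : Set O)) := by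
    intro c'
    have hc' : c' ∈ Submodule.span R (S : Set O) := by
      rw [hS]
      exact Submodule.mem_top
    induction hc' using Submodule.span_induction with
    | mem x hx => exact Submodule.subset_span ⟨x, hx, rfl⟩
    | zero =>
      rw [map_zero]
      exact Submodule.zero_mem _
    | add x y _ _ hx hy =>
      rw [map_add]
      exact Submodule.add_mem _ hx hy
    | smul r x _ hx =>
      have h1 : oM O L M (r • x) =
          (⟨algebraMap R M r, halg r⟩ : lamFix (lamP O L M P) C) • oM O L M x := by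
        rw [Algebra.smul_def, map_mul, oM_algebraMap]
        rfl
      rw [h1]
      exact Submodule.smul_mem _ _ hx
  refine ⟨oM O L M '' (S : Set O), S.finite_toSet.image _, ?_, ?_⟩
  · rintro _ ⟨x, -, rfl⟩
    exact oM_mem_lamP P x
  · intro c hc
    obtain ⟨n, hnf, ⟨u, hu, hnu⟩, c', hc', -⟩ := l4_denom hO hC hc
    have h1 : c = (⟨u, hu⟩ : lamFix (lamP O L M P) C) • oM O L M c' := by
      change c = u * oM O L M c'
      rw [← hc']
      calc c = (oM O L M n * u) * c := by rw [hnu, one_mul]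
        _ = u * (oM O L M n * c) := by ring
    rw [h1]
    exact Submodule.smul_mem _ _ (hspan c')
-- END L4

-- BEGIN L5
/-- TASK L5. **Independence of automorphisms.** Let `c ↦ ∑ g ∈ C, g • c` be the trace; suppose
`τ • (∑ g • c) = ∑ g • c` for all `c`. The homomorphisms `c ↦ g • c`, `c ↦ (τ * g) • c`, `g ∈ C`, of the monoid `O` to `O` are
different (`hfaith`, `τ ∉ C`), so linearly independent (`linearIndependent_monoidHom`), a contradiction. -/
theorem exists_trace_ne (hfaith : ∀ g : G, g ≠ 1 → ∃ c : O, g • c ≠ c) {C : Subgroup G} {τ : G}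
    (hτ : τ ∉ C) : ∃ t : O, (∀ g ∈ C, g • t = t) ∧ τ • t ≠ t := by
  classical
  by_contra hcon
  push Not at hcon
  have : Fintype G := Fintype.ofFinite G
  obtain ⟨F, hF1, hF0⟩ : ∃ F : G → O, (∀ g, g ∈ C → F g = 1) ∧ ∀ g, g ∉ C → F g = 0 :=
    ⟨fun g => if g ∈ C then 1 else 0, fun g hg => if_pos hg, fun g hg => if_neg hg⟩
  have hinj : Function.Injective (fun g : G => ((MulSemiringAction.toRingHom G O g : O →+* O) : O →* O)) := by
    intro a b hab
    by_contra hne
    have h1 : b⁻¹ * a ≠ 1 := fun h => hne (inv_mul_eq_one.1 h).symm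
    obtain ⟨c, hc⟩ := hfaith _ h1
    apply hc
    have h2 : a • c = b • c := DFunLike.congr_fun hab c
    rw [mul_smul, h2, inv_smul_smul]
  have hli := (linearIndependent_monoidHom O O).comp _ hinj
  have key : ∀ c : O, ∑ g : G, F g * (g • c) = ∑ g : G, F (τ⁻¹ * g) * (g • c) := by
    intro c
    have hfix : ∀ h ∈ C, h • (∑ g : G, F g * (g • c)) = ∑ g : G, F g * (g • c) := by
      intro h hh
      rw [Finset.smul_sum]
      refine Fintype.sum_equiv (Equiv.mulLeft h) _ _ (fun g => ?_)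
      rw [Equiv.coe_mulLeft]
      by_cases hg : g ∈ C
      · rw [hF1 g hg, hF1 _ (C.mul_mem hh hg), one_mul, one_mul, mul_smul]
      · have : h * g ∉ C := fun h' => hg ((C.mul_mem_cancel_left hh).1 h')
        rw [hF0 g hg, hF0 _ this, zero_mul, zero_mul, smul_zero]
    have h3 := hcon _ hfix
    rw [← h3, Finset.smul_sum]
    refine Fintype.sum_equiv (Equiv.mulLeft τ) _ _ (fun g => ?_)
    rw [Equiv.coe_mulLeft, inv_mul_cancel_left]
    by_cases hg : g ∈ C
    · rw [hF1 g hg, one_mul, one_mul, mul_smul]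
    · rw [hF0 g hg, zero_mul, zero_mul, smul_zero]
  have h4 := Fintype.linearIndependent_iff.1 hli
    (fun g => F g - F (τ⁻¹ * g)) (by
      funext c
      rw [Finset.sum_apply]
      have := key c
      simp only [Pi.smul_apply, Function.comp_apply, smul_eq_mul, Pi.zero_apply, sub_mul,
        Finset.sum_sub_distrib]
      rw [sub_eq_zero]
      exact this) 1
  have h5 : τ⁻¹ * 1 ∉ C := fun h => hτ (by rw [mul_one] at h; exact C.inv_mem_iff.1 h)
  rw [hF1 1 C.one_mem, hF0 _ h5, sub_zero] at h4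
  exact one_ne_zero h4
-- END L5

-- BEGIN L6
include hO in
/-- TASK L6. **An odd constant.** `t` from `exists_trace_ne`, `c = oM (t - τ • t)`; `τ • τ • t = t` since `τ * τ ∈ C`
(`hidx` for `τ⁻¹`, `τ`), `τ • t` is fixed by `C` (`hnorm`), and every `g ∈ C'`, `g ∉ C` acts on elements fixed by `C` as `τ`
(`τ⁻¹ * g ∈ C`). `N`, `c₀` from `exists_pow_le` (CO6) for `n = t - τ • t ≠ 0`, applied to `ϖ ^ N ∈ P ^ N`. -/
theorem exists_odd (hfaith : ∀ g : G, g ≠ 1 → ∃ c : O, g • c ≠ c) (hP0 : P ≠ ⊥) {C C' : Subgroup G}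
    (hle : C ≤ C') (hidx : ∀ g ∈ C', ∀ h ∈ C', g ∉ C → h ∉ C → g⁻¹ * h ∈ C)
    (hnorm : ∀ g ∈ C', ∀ c ∈ C, g * c * g⁻¹ ∈ C) {τ : G} (hτ : τ ∈ C') (hτC : τ ∉ C) {ϖ : O}
    (hϖ : ϖ ∈ P) :
    ∃ c ∈ lamP O L M P, (∀ g ∈ C, g • c = c) ∧ SgO C C' c ∧
      ∃ N : ℕ, ∃ c₀ ∈ lamP O L M P, oM O L M ϖ ^ N = c₀ * c := by
  classical
  obtain ⟨t, htC, htτ⟩ := exists_trace_ne hfaith hτC
  have hOL : Function.Injective (algebraMap O L) := IsFractionRing.injective O L
  -- τ • t is fixed by C
  have hτt : ∀ g ∈ C, g • (τ • t) = τ • t := by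
    intro g hg
    have h1 : τ⁻¹ * g * τ ∈ C := by
      have := hnorm τ⁻¹ (C'.inv_mem hτ) g hg
      simpa using this
    have h2 : g * τ = τ * (τ⁻¹ * g * τ) := by group
    rw [← mul_smul, h2, mul_smul, htC _ h1]
  -- every g in C' outside C acts on t as τ
  have hgt : ∀ g ∈ C', g ∉ C → g • t = τ • t := by
    intro g hg hgC
    have h1 : τ⁻¹ * g ∈ C := hidx τ hτ g hg hτC hgC
    have h2 : g = τ * (τ⁻¹ * g) := by group
    rw [h2, mul_smul, htC _ h1]
  have hgτt : ∀ g ∈ C', g ∉ C → g • (τ • t) = t := by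
    intro g hg hgC
    have hgi : g⁻¹ ∉ C := fun h => hgC (by simpa using C.inv_mem h)
    have h1 : g * τ ∈ C := by
      have := hidx g⁻¹ (C'.inv_mem hg) τ hτ hgi hτC
      simpa using this
    rw [← mul_smul, htC _ h1]
  have hne : t - τ • t ≠ 0 := fun h => htτ (sub_eq_zero.mp h).symm
  obtain ⟨N, hN⟩ := exists_pow_le (M := M) hOL hP0 hne
  obtain ⟨a, ha, haN⟩ := hN (ϖ ^ N) (Ideal.pow_mem_pow hϖ N)
  refine ⟨oM O L M (t - τ • t), oM_mem_lamP P _, fun g hg => ?_, fun g hg hgC => ?_, N, a, ha, ?_⟩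
  · rw [hO, smul_sub, htC g hg, hτt g hg]
  · rw [hO, smul_sub, hgt g hg hgC, hgτt g hg hgC, ← map_neg, neg_sub]
  · rw [← map_pow, haN]
-- END L6

end Prime

section Inertia

variable {F : Type} [Field F] [MulSemiringAction G F] {ι : M →+* F}

-- BEGIN L7
theorem l7_mem {m : M} {P : Ideal O} [P.IsPrime] (h : m ∈ lamP O L M P) :
    ∃ n : O, n ∉ P ∧ ∃ c : O, oM O L M n * m = oM O L M c := by
  obtain ⟨n, hn, c, hc, -⟩ := mem_lamP.1 h
  refine ⟨n, hn, c, ?_⟩
  rw [← hc, ← oM_algebraMap (O := O) (L := L)]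
  rfl

/-- TASK L7. **The inertia group of the local ring at `P`.** `→`: `sub_mem_of_inertia` (IN7) for
`D = (lamP O L M P).map ι`. `←`: `g` maps `P` to `P`, so it maps the ring to itself (`smul_mem_lamP`); for
`oM n * z = oM c` (`n ∉ P`) `oM (n * g • n) * (g • z - z) = oM (n * (g • c - c) - c * (g • n - n))`, and this element is in `oM P`; if
`(g • z - z) * w = 1` then `oM n₁ = oM p₁ * w` with `n₁ ∉ P`, `p₁ ∈ P`; write `w` as a fraction. -/
theorem inertia_lamP (hι : Function.Injective ι) (hO : ∀ (g : G) c, g • oM O L M c = oM O L M (g • c))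
    (hF : ∀ (g : G) m, g • ι m = ι (g • m)) {P : Ideal O} [P.IsPrime] (g : G) :
    InertiaG ((lamP O L M P).map ι) g ↔ ∀ c : O, g • c - c ∈ P := by
  have hOL : Function.Injective (algebraMap O L) := IsFractionRing.injective O L
  have hinj : Function.Injective (oM O L M) := in4_inj hOL
  constructor
  · rintro ⟨-, h2⟩ c
    by_contra hc
    obtain ⟨u, hu, hu1⟩ := exists_inv_lamP (M := M) hOL hc
    apply h2 (ι (oM O L M c)) (Subring.mem_map.2 ⟨_, oM_mem_lamP P c, rfl⟩) (ι u)
      (Subring.mem_map.2 ⟨u, hu, rfl⟩)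
    rw [hF, hO, ← map_sub, ← map_sub, ← map_mul, hu1, map_one]
  · intro h
    have hg : ∀ c ∈ P, g • c ∈ P := by
      intro c hc
      have h1 := P.add_mem (h c) hc
      rwa [sub_add_cancel] at h1
    constructor
    · intro z hz
      obtain ⟨m, hm, rfl⟩ := Subring.mem_map.1 hz
      rw [hF]
      exact Subring.mem_map.2 ⟨_, smul_mem_lamP hOL hO hg hm, rfl⟩
    · intro z hz w hw he
      obtain ⟨m, hm, rfl⟩ := Subring.mem_map.1 hz
      obtain ⟨m', hm', rfl⟩ := Subring.mem_map.1 hw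
      have he' : (g • m - m) * m' = 1 := by
        apply hι
        rw [map_mul, map_sub, ← hF, he, map_one]
      obtain ⟨n, hn, c, hc⟩ := l7_mem hm
      obtain ⟨n', hn', c', hc'⟩ := l7_mem hm'
      have hgn : g • n ∉ P := fun h3 => hn (in4_inv hg h3)
      have h4 : oM O L M (g • n) * (g • m) = oM O L M (g • c) := by
        rw [← hO, ← hO, ← smul_mul', hc]
      have h5 : n * (g • n) * n' = (n * (g • c - c) - c * (g • n - n)) * c' := by
        apply hinj
        simp only [map_mul, map_sub]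
        rw [← h4, ← hc, ← hc']
        linear_combination (-(oM O L M n * oM O L M (g • n) * oM O L M n')) * he'
      have h6 : n * (g • n) * n' ∈ P := by
        rw [h5]
        exact P.mul_mem_right _ (P.sub_mem (P.mul_mem_left _ (h c)) (P.mul_mem_left _ (h n)))
      rcases (inferInstance : P.IsPrime).mem_or_mem h6 with h7 | h7
      · rcases (inferInstance : P.IsPrime).mem_or_mem h7 with h8 | h8
        · exact hn h8
        · exact hgn h8
      · exact hn' h7

theorem l7_unit {P : Ideal O} [P.IsPrime] {m : M} {n c : O} (hc : c ∉ P)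
    (h : oM O L M n * m = oM O L M c) : ∃ u ∈ lamP O L M P, m * u = 1 := by
  obtain ⟨u, hu, hu1⟩ := exists_inv_lamP (M := M) (IsFractionRing.injective O L) hc
  refine ⟨oM O L M n * u, Subring.mul_mem _ (oM_mem_lamP P n) hu, ?_⟩
  linear_combination u * h + hu1

/-- TASK L7. The elements of `O` outside `P` are units. -/
theorem isLocalRing_lamP_map (hι : Function.Injective ι) {P : Ideal O} [P.IsPrime] :
    IsLocalRing ((lamP O L M P).map ι) := by
  have hU : ∀ (z : (lamP O L M P).map ι) (m : M), ι m = z.1 →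
      (∃ u ∈ lamP O L M P, m * u = 1) → IsUnit z := by
    rintro z m hz ⟨u, hu, hu1⟩
    refine IsUnit.of_mul_eq_one ⟨ι u, Subring.mem_map.2 ⟨u, hu, rfl⟩⟩ ?_
    apply Subtype.ext
    change z.1 * ι u = 1
    rw [← hz, ← map_mul, hu1, map_one]
  refine IsLocalRing.of_isUnit_or_isUnit_one_sub_self fun z => ?_
  obtain ⟨m, hm, hz⟩ := Subring.mem_map.1 z.2
  obtain ⟨n, hn, c, hc⟩ := l7_mem hm
  by_cases hcP : c ∈ P
  · right
    apply hU (1 - z) (1 - m)
    · rw [map_sub, map_one, hz]
      rfl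
    · apply l7_unit (n := n) (c := n - c)
      · intro h
        apply hn
        have h1 := P.add_mem h hcP
        rwa [sub_add_cancel] at h1
      · rw [mul_sub, hc, mul_one, map_sub]
  · left
    exact hU z m hz (l7_unit hcP hc)
-- END L7

end Inertia

end Pool.Agent.Lib.MP_6a3dac_ag.TW
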