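import Pool.Agent.Lib.MP_6a3dac_ag.TW.Sys

/-!
# The graded ring of a blow-up
-/

set_option autoImplicit false
set_option linter.unusedSectionVars false
set_option linter.unusedVariables false

namespace Pool.Agent.Lib.MP_6a3dac_ag.TW

open Pool.Agent.Lib.MP_6a3dac_ag GI IsLocalRing
open scoped Pointwise

variable {F : Type} [Field F]

/-- `D` is the local ring of a blow-up of `D₀` generated by the elements of `S`. -/
structure BlowGen (D₀ D : Subring F) (S : Set F) : Prop where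
  le : D₀ ≤ D
  loc : IsLocalRing D
  mem : ∀ z ∈ S, z ∈ D
  dom : ∀ a ∈ D₀, ∀ b ∈ D, a * b = 1 → b ∈ D₀
  gen : ∀ R' : Subring F, R' ≤ D → (∀ a ∈ R', ∀ b ∈ D, a * b = 1 → b ∈ R') → D₀ ≤ R' →
    (∀ z ∈ S, z ∈ R') → D ≤ R'

/-- The graded ring of the blow-up of the ideal generated by `J`: degree `n` elements times `n`-fold products
of elements of `J`. -/
def mulT (T : ℕ → AddSubgroup F) (J : Set F) : ℕ → AddSubgroup F := fun n =>
  AddSubgroup.closure {z | ∃ t ∈ T n, ∃ y ∈ J ^ n, z = t * y}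

section

variable {T : ℕ → AddSubgroup F} {J : Set F} {D₀ D : Subring F} {v j₀ : F} (hT : GSys T)
  (hD₀ : GPt T D₀ v)

theorem mul_mem_mulT {n : ℕ} {t y : F} (ht : t ∈ T n) (hy : y ∈ J ^ n) : t * y ∈ mulT T J n :=
  AddSubgroup.subset_closure ⟨t, ht, y, hy, rfl⟩

-- BEGIN M1
include hT in
theorem m1_mul {m n : ℕ} {a b : F} (ha : a ∈ mulT T J m) (hb : b ∈ mulT T J n) :
    a * b ∈ mulT T J (m + n) := by
  unfold mulT at ha hb
  induction ha using AddSubgroup.closure_induction with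
  | mem x hx =>
    obtain ⟨t, ht, y, hy, rfl⟩ := hx
    induction hb using AddSubgroup.closure_induction with
    | mem x' hx' =>
      obtain ⟨t', ht', y', hy', rfl⟩ := hx'
      have h1 : t * y * (t' * y') = (t * t') * (y * y') := by ring
      rw [h1]
      refine mul_mem_mulT (hT.mul ht ht') ?_
      rw [pow_add]
      exact Set.mul_mem_mul hy hy'
    | zero =>
      rw [mul_zero]
      exact (mulT T J (m + n)).zero_mem
    | add x' y' _ _ hx' hy' =>
      rw [mul_add]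
      exact (mulT T J (m + n)).add_mem hx' hy'
    | neg x' _ hx' =>
      rw [mul_neg]
      exact (mulT T J (m + n)).neg_mem hx'
  | zero =>
    rw [zero_mul]
    exact (mulT T J (m + n)).zero_mem
  | add x y _ _ hx hy =>
    rw [add_mul]
    exact (mulT T J (m + n)).add_mem hx hy
  | neg x _ hx =>
    rw [neg_mul]
    exact (mulT T J (m + n)).neg_mem hx

include hT in
/-- TASK M1. `AddSubgroup.closure_induction` twice; `(t y) (t' y') = (t t') (y y')` and `J ^ m * J ^ n = J ^ (m + n)`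
(`pow_add`, `Set.mul_mem_mul`). -/
theorem gSys_mulT : GSys (mulT T J) := by
  refine ⟨?_, fun ha hb => m1_mul hT ha hb⟩
  have h1 : (1 : F) * 1 ∈ mulT T J 0 := mul_mem_mulT hT.one (by
    rw [pow_zero]
    exact Set.mem_one.2 rfl)
  rwa [mul_one] at h1

theorem m1_smul_pow {G : Type} [Group G] [MulSemiringAction G F] {g : G}
    (hJ : ∀ y ∈ J, g • y ∈ J ∨ -(g • y) ∈ J) :
    ∀ (n : ℕ) (y : F), y ∈ J ^ n → g • y ∈ J ^ n ∨ -(g • y) ∈ J ^ n := by
  intro n
  induction n with
  | zero =>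
    intro y hy
    rw [pow_zero, Set.mem_one] at hy
    rw [hy, smul_one, pow_zero]
    exact Or.inl (Set.mem_one.2 rfl)
  | succ n ih =>
    intro y hy
    rw [pow_succ, Set.mem_mul] at hy
    obtain ⟨a, ha, b, hb, rfl⟩ := hy
    rw [pow_succ, smul_mul']
    rcases ih a ha with h1 | h1 <;> rcases hJ b hb with h2 | h2
    · exact Or.inl (Set.mul_mem_mul h1 h2)
    · refine Or.inr ?_
      rw [← mul_neg]
      exact Set.mul_mem_mul h1 h2
    · refine Or.inr ?_
      rw [← neg_mul]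
      exact Set.mul_mem_mul h1 h2
    · refine Or.inl ?_
      rw [← neg_mul_neg]
      exact Set.mul_mem_mul h1 h2

/-- TASK M1. For `y ∈ J ^ n` one of `g • y`, `- (g • y)` is in `J ^ n` (induction on `n`, `pow_succ`, `Set.mem_mul`). -/
theorem smul_mem_mulT {G : Type} [Group G] [MulSemiringAction G F] {g : G}
    (hg : ∀ n, ∀ f ∈ T n, g • f ∈ T n) (hJ : ∀ y ∈ J, g • y ∈ J ∨ -(g • y) ∈ J) :
    ∀ n, ∀ f ∈ mulT T J n, g • f ∈ mulT T J n := by
  intro n f hf
  unfold mulT at hf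
  induction hf using AddSubgroup.closure_induction with
  | mem x hx =>
    obtain ⟨t, ht, y, hy, rfl⟩ := hx
    rw [smul_mul']
    rcases m1_smul_pow hJ n y hy with h1 | h1
    · exact mul_mem_mulT (hg n t ht) h1
    · rw [← neg_mul_neg]
      exact mul_mem_mulT ((T n).neg_mem (hg n t ht)) h1
  | zero =>
    rw [smul_zero]
    exact (mulT T J n).zero_mem
  | add x y _ _ hx hy =>
    rw [smul_add]
    exact (mulT T J n).add_mem hx hy
  | neg x _ hx =>
    rw [smul_neg]
    exact (mulT T J n).neg_mem hx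

include hT in
theorem m1_pow_mem {d : ℕ} (hJ : ∀ y ∈ J, y ∈ T d) : ∀ (n : ℕ) (y : F), y ∈ J ^ n → y ∈ T (d * n) := by
  intro n
  induction n with
  | zero =>
    intro y hy
    rw [pow_zero, Set.mem_one] at hy
    rw [hy, mul_zero]
    exact hT.one
  | succ n ih =>
    intro y hy
    rw [pow_succ, Set.mem_mul] at hy
    obtain ⟨a, ha, b, hb, rfl⟩ := hy
    have h1 := hT.mul (ih a ha) (hJ b hb)
    rwa [← Nat.mul_succ] at h1

include hT in
/-- TASK M1. -/
theorem mulT_le {d : ℕ} (hJ : ∀ y ∈ J, y ∈ T d) {n : ℕ} {f : F} (hf : f ∈ mulT T J n) :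
    f ∈ T (n + d * n) := by
  unfold mulT at hf
  induction hf using AddSubgroup.closure_induction with
  | mem x hx =>
    obtain ⟨t, ht, y, hy, rfl⟩ := hx
    exact hT.mul ht (m1_pow_mem hT hJ n y hy)
  | zero => exact (T (n + d * n)).zero_mem
  | add x y _ _ hx hy => exact (T (n + d * n)).add_mem hx hy
  | neg x _ hx => exact (T (n + d * n)).neg_mem hx
-- END M1

-- BEGIN M2
theorem m2_pow_div {n : ℕ} {y : F} (hy : y ∈ J ^ n) (hS : ∀ z ∈ {z | ∃ y ∈ J, z = y / j₀}, z ∈ D) :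
    y / j₀ ^ n ∈ D := by
  induction n generalizing y with
  | zero =>
    rw [pow_zero] at hy
    rw [Set.mem_one.1 hy, pow_zero, div_one]
    exact D.one_mem
  | succ n ih =>
    rw [pow_succ] at hy
    obtain ⟨a, ha, b, hb, rfl⟩ := Set.mem_mul.1 hy
    have h1 : a * b / j₀ ^ (n + 1) = (a / j₀ ^ n) * (b / j₀) := by
      rw [pow_succ, mul_div_mul_comm]
    rw [h1]
    exact D.mul_mem (ih ha) (hS _ ⟨b, hb, rfl⟩)

include hT hD₀ in
/-- TASK M2. **The points of the blow-up.** `ratio`: `t y / (v j₀) ^ n = (t / v ^ n) (y / j₀ ^ n)`, and `y / j₀ ^ n` is a product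
of elements of `J / j₀`. `frac`: the set `R'` of the `z ∈ D` such that `z h = f` for some `n` and `f, h ∈ mulT T J n` with
`IsU D (h / (v j₀) ^ n)` is a subring of `D` (`gSys_mulT`), it is closed under inverses of units of `D`
(`f / (v j₀) ^ n = z (h / (v j₀) ^ n)` is a unit if `z` is), contains `D₀` (multiply `f`, `h` of `hD₀.frac` by `j₀ ^ n`;
units of `D₀` are units of `D`) and the `y / j₀` (`f = v y`, `h = v j₀`, `n = 1`); use `hB.gen`. -/
theorem GPt.mulT (hB : BlowGen D₀ D {z | ∃ y ∈ J, z = y / j₀}) (hj : j₀ ∈ J) (hj0 : j₀ ≠ 0) :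
    GPt (mulT T J) D (v * j₀) := by
  have hG := gSys_mulT (J := J) hT
  have hvj : v * j₀ ≠ 0 := mul_ne_zero hD₀.ne hj0
  have hmem : v * j₀ ∈ TW.mulT T J 1 :=
    mul_mem_mulT hD₀.mem (by rw [pow_one]; exact hj)
  have hratio : ∀ n, ∀ f ∈ TW.mulT T J n, f / (v * j₀) ^ n ∈ D := by
    intro n f hf
    unfold TW.mulT at hf
    induction hf using AddSubgroup.closure_induction with
    | mem x hx =>
      obtain ⟨t, ht, y, hy, rfl⟩ := hx
      rw [mul_pow, mul_div_mul_comm]
      exact D.mul_mem (hB.le (hD₀.ratio n t ht)) (m2_pow_div hy hB.mem)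
    | zero =>
      rw [zero_div]
      exact D.zero_mem
    | add x y _ _ hx hy =>
      rw [add_div]
      exact D.add_mem hx hy
    | neg x _ hx =>
      rw [neg_div]
      exact D.neg_mem hx
  refine ⟨hB.loc, hvj, hmem, hratio, ?_⟩
  have hprod : ∀ {m n : ℕ} {a b : F}, IsU D (a / (v * j₀) ^ m) → IsU D (b / (v * j₀) ^ n) →
      IsU D (a * b / (v * j₀) ^ (m + n)) := by
    intro m n a b ha hb
    rw [pow_add, mul_div_mul_comm]
    exact ha.mul hb
  have hone : IsU D ((1 : F) / (v * j₀) ^ 0) := by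
    rw [pow_zero, div_one]
    exact isU_one D
  let R' : Subring F :=
    { carrier := {z | z ∈ D ∧ ∃ n, ∃ f ∈ TW.mulT T J n, ∃ h ∈ TW.mulT T J n,
        IsU D (h / (v * j₀) ^ n) ∧ z * h = f}
      mul_mem' := by
        rintro a b ⟨ha, n, f, hf, h, hh, hu, he⟩ ⟨hb, n', f', hf', h', hh', hu', he'⟩
        refine ⟨D.mul_mem ha hb, n + n', f * f', hG.mul hf hf', h * h', hG.mul hh hh',
          hprod hu hu', ?_⟩
        rw [← he, ← he']
        ring
      one_mem' := ⟨D.one_mem, 0, 1, hG.one, 1, hG.one, hone, one_mul 1⟩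
      add_mem' := by
        rintro a b ⟨ha, n, f, hf, h, hh, hu, he⟩ ⟨hb, n', f', hf', h', hh', hu', he'⟩
        refine ⟨D.add_mem ha hb, n + n', f * h' + h * f',
          (TW.mulT T J (n + n')).add_mem (hG.mul hf hh') (hG.mul hh hf'), h * h', hG.mul hh hh',
          hprod hu hu', ?_⟩
        rw [← he, ← he']
        ring
      zero_mem' := ⟨D.zero_mem, 0, 0, (TW.mulT T J 0).zero_mem, 1, hG.one, hone, zero_mul 1⟩
      neg_mem' := by
        rintro a ⟨ha, n, f, hf, h, hh, hu, he⟩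
        exact ⟨D.neg_mem ha, n, -f, (TW.mulT T J n).neg_mem hf, h, hh, hu, by rw [← he, neg_mul]⟩ }
  have hle : D ≤ R' := by
    refine hB.gen R' (fun z hz => hz.1) ?_ ?_ ?_
    · rintro a ⟨ha, n, f, hf, h, hh, hu, he⟩ b hb hab
      refine ⟨hb, n, h, hh, f, hf, ?_, ?_⟩
      · rw [← he, mul_div_assoc]
        exact IsU.mul ⟨ha, b, hb, hab⟩ hu
      · rw [← he, ← mul_assoc, mul_comm b a, hab, one_mul]
    · intro z hz
      obtain ⟨n, f, hf, h, hh, hu, he⟩ := hD₀.frac z hz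
      have hjn : j₀ ^ n ∈ J ^ n := Set.pow_mem_pow hj
      refine ⟨hB.le hz, n, f * j₀ ^ n, mul_mem_mulT hf hjn, h * j₀ ^ n, mul_mem_mulT hh hjn, ?_, ?_⟩
      · rw [mul_pow, mul_div_mul_right _ _ (pow_ne_zero n hj0)]
        obtain ⟨h1, w, hw, h2⟩ := hu
        exact ⟨hB.le h1, w, hB.le hw, h2⟩
      · rw [← he]
        ring
    · rintro z hz
      refine ⟨hB.mem z hz, 1, ?_⟩
      obtain ⟨y, hy, rfl⟩ := hz
      refine ⟨v * y, mul_mem_mulT hD₀.mem (by rw [pow_one]; exact hy), v * j₀, hmem, ?_, ?_⟩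
      · rw [pow_one, div_self hvj]
        exact isU_one D
      · field_simp
  intro z hz
  exact (hle hz).2
-- END M2

end

end Pool.Agent.Lib.MP_6a3dac_ag.TW
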