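import Pool.Agent.Lib.MP_6a3dac_ag.Mg.G072

/-!
# Regular local rings are integrally closed
-/

set_option autoImplicit false
set_option linter.unusedSectionVars false
set_option linter.unusedVariables false

namespace Pool.Agent.Lib.MP_6a3dac_ag.TW

open Pool.Agent.Lib.MP_6a3dac_ag IsLocalRing

/-- `a / b` is almost integral. -/
def Alm {A : Type} [CommRing A] (b a : A) : Prop := ∃ d : A, d ≠ 0 ∧ ∀ n : ℕ, b ^ n ∣ d * a ^ n

section

variable {A : Type} [CommRing A] [IsDomain A]

-- BEGIN N1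
/-- TASK N1. (`d` for `c * a` is the same `d`.) -/
theorem Alm.mul_left {b a : A} (h : Alm b a) (c : A) : Alm b (c * a) := by
  obtain ⟨d, hd, hn⟩ := h
  refine ⟨d, hd, fun n => ?_⟩
  rw [mul_pow, mul_left_comm]
  exact (hn n).mul_left _

/-- TASK N1. Take the product `d₁ d₂` and expand `(a₁ + a₂) ^ n` (`add_pow`): each term
`d₁ d₂ a₁ ^ i a₂ ^ (n - i)` is divisible by `b ^ i b ^ (n - i)`. -/
theorem Alm.add {b a₁ a₂ : A} (h₁ : Alm b a₁) (h₂ : Alm b a₂) : Alm b (a₁ + a₂) := by
  obtain ⟨d₁, hd₁, hn₁⟩ := h₁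
  obtain ⟨d₂, hd₂, hn₂⟩ := h₂
  refine ⟨d₁ * d₂, mul_ne_zero hd₁ hd₂, fun n => ?_⟩
  rw [add_pow, Finset.mul_sum]
  refine Finset.dvd_sum fun i hi => ?_
  have hi' : i ≤ n := Nat.lt_succ_iff.1 (Finset.mem_range.1 hi)
  have h3 : b ^ n = b ^ i * b ^ (n - i) := by
    rw [← pow_add, Nat.add_sub_cancel' hi']
  have h4 : d₁ * d₂ * (a₁ ^ i * a₂ ^ (n - i) * (n.choose i : A)) =
      (d₁ * a₁ ^ i) * (d₂ * a₂ ^ (n - i)) * (n.choose i : A) := by ring
  rw [h3, h4]
  exact (mul_dvd_mul (hn₁ i) (hn₂ (n - i))).mul_right _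

/-- TASK N1. `d = 1`. -/
theorem alm_of_dvd {b a : A} (h : b ∣ a) : Alm b a := by
  refine ⟨1, one_ne_zero, fun n => ?_⟩
  rw [one_mul]
  exact pow_dvd_pow_of_dvd h n
-- END N1

-- BEGIN N2
/-- TASK N2. The same `d`: from `d x ^ n e ^ n = b ^ n f` we get `x ^ n ∣ f` (`x` is prime and does not divide
`b ^ n`; `Prime.pow_dvd_of_dvd_mul_left`), cancel `x ^ n`. -/
theorem Alm.of_mul {x b e : A} (hx : Prime x) (hb : ¬ x ∣ b) (h : Alm b (x * e)) : Alm b e := by
  obtain ⟨d, hd, hn⟩ := h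
  refine ⟨d, hd, fun n => ?_⟩
  obtain ⟨f, hf⟩ := hn n
  have hbn : ¬ x ∣ b ^ n := fun h1 => hb (hx.dvd_of_dvd_pow h1)
  have h2 : x ^ n ∣ b ^ n * f := ⟨d * e ^ n, by rw [← hf, mul_pow]; ring⟩
  have h3 : x ^ n ∣ f := hx.pow_dvd_of_dvd_mul_left n hbn h2
  obtain ⟨g, rfl⟩ := h3
  refine ⟨g, ?_⟩
  have hxn : x ^ n ≠ 0 := pow_ne_zero n hx.ne_zero
  apply mul_left_cancel₀ hxn
  calc x ^ n * (d * e ^ n) = d * (x * e) ^ n := by rw [mul_pow]; ring
    _ = b ^ n * (x ^ n * g) := hf
    _ = x ^ n * (b ^ n * g) := by ring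

/-- Auxiliary: powers of a prime dividing a nonzero element. -/
theorem n2_factor [IsNoetherianRing A] {x d : A} (hx : Prime x) (hd : d ≠ 0) :
    ∃ (k : ℕ) (d' : A), ¬ x ∣ d' ∧ d = x ^ k * d' := by
  exact WfDvdMonoid.max_power_factor hd hx.irreducible

/-- TASK N2. Write `d = x ^ k d'` with `¬ x ∣ d'` (`exists_eq_pow_mul_and_not_dvd` or
`WfDvdMonoid.max_power_factor`). If `¬ x ∣ a` then for
`n = k + 1`: `x ^ (k + 1) ∣ (x b) ^ n ∣ x ^ k d' a ^ n`, so `x ∣ d' a ^ n`, a contradiction. -/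
theorem Alm.dvd {x b a : A} [IsNoetherianRing A] (hx : Prime x) (h : Alm (x * b) a) : x ∣ a := by
  obtain ⟨d, hd, hn⟩ := h
  obtain ⟨k, d', hd', rfl⟩ := n2_factor hx hd
  by_contra ha
  obtain ⟨f, hf⟩ := hn (k + 1)
  have hxk : x ^ k ≠ 0 := pow_ne_zero k hx.ne_zero
  have h1 : x ∣ d' * a ^ (k + 1) := by
    refine ⟨b ^ (k + 1) * f, ?_⟩
    apply mul_left_cancel₀ hxk
    calc x ^ k * (d' * a ^ (k + 1)) = x ^ k * d' * a ^ (k + 1) := by ring
      _ = (x * b) ^ (k + 1) * f := hf
      _ = x ^ k * (x * (b ^ (k + 1) * f)) := by rw [mul_pow, pow_succ]; ring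
  rcases hx.dvd_or_dvd h1 with h2 | h2
  · exact hd' h2
  · exact ha (hx.dvd_of_dvd_pow h2)

/-- TASK N2. Cancel `x ^ n`. -/
theorem Alm.cancel {x b a : A} (hx : x ≠ 0) (h : Alm (x * b) (x * a)) : Alm b a := by
  obtain ⟨d, hd, hn⟩ := h
  refine ⟨d, hd, fun n => ?_⟩
  obtain ⟨f, hf⟩ := hn n
  refine ⟨f, ?_⟩
  have hxn : x ^ n ≠ 0 := pow_ne_zero n hx
  apply mul_left_cancel₀ hxn
  calc x ^ n * (d * a ^ n) = d * (x * a) ^ n := by rw [mul_pow]; ring
    _ = (x * b) ^ n * f := hf
    _ = x ^ n * (b ^ n * f) := by rw [mul_pow]; ring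
-- END N2

-- BEGIN N3
/-- TASK N3. As in `Alm.dvd`: `d = x ^ k d'` with `¬ x ∣ d'`, and `b ^ n ∣ d' a ^ n` since `x` is prime and does
not divide `b`; reduce modulo `x`. -/
theorem Alm.quotient {x b a : A} [IsNoetherianRing A] (hx : Prime x) (hb : ¬ x ∣ b) (h : Alm b a) :
    Alm (Ideal.Quotient.mk (Ideal.span {x}) b) (Ideal.Quotient.mk (Ideal.span {x}) a) := by
  obtain ⟨d, hd, hn⟩ := h
  obtain ⟨k, d', hd', rfl⟩ : ∃ (k : ℕ) (d' : A), ¬ x ∣ d' ∧ d = x ^ k * d' :=
    WfDvdMonoid.max_power_factor hd hx.irreducible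
  refine ⟨Ideal.Quotient.mk (Ideal.span {x}) d', ?_, fun n => ?_⟩
  · rw [Ne, Ideal.Quotient.eq_zero_iff_mem, Ideal.mem_span_singleton]
    exact hd'
  · obtain ⟨f, hf⟩ := hn n
    have hbn : ¬ x ∣ b ^ n := fun h1 => hb (hx.dvd_of_dvd_pow h1)
    have h2 : x ^ k ∣ b ^ n * f := ⟨d' * a ^ n, by rw [← hf]; ring⟩
    obtain ⟨g, rfl⟩ := hx.pow_dvd_of_dvd_mul_left k hbn h2
    have hxk : x ^ k ≠ 0 := pow_ne_zero k hx.ne_zero
    have h3 : d' * a ^ n = b ^ n * g := by
      apply mul_left_cancel₀ hxk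
      calc x ^ k * (d' * a ^ n) = x ^ k * d' * a ^ n := by ring
        _ = b ^ n * (x ^ k * g) := hf
        _ = x ^ k * (b ^ n * g) := by ring
    rw [← map_pow, ← map_pow, ← map_mul, h3, map_mul]
    exact Dvd.intro _ rfl
-- END N3

end

-- BEGIN N4
/-- TASK N4. **Regular local rings are completely integrally closed.** Induction on `m` (for all rings). If the
maximal ideal is zero (`spanFinrank = 0`, or `ringKrullDim A = 0`) then `A` is a field. Otherwise there is
`x` in the maximal ideal, not in its square (Nakayama), `A ⧸ (x)` is regular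
(`isRegularLocalRing_quotient`, a domain by `isDomain_aux`, so `x` is prime) with smaller `spanFinrank`
(`spanFinrank_quotient_add_one_le`). Step 1: if `¬ x ∣ b` then the ideal `N` of all `a` with `Alm b a`
(`Alm.add`, `Alm.mul_left`) satisfies `N = (b) + x N`: for `a ∈ N`, by `Alm.quotient` and the induction hypothesis
`a = b c + x e`, and `x e = a - b c ∈ N`, so `e ∈ N` by `Alm.of_mul`; by Nakayama (`N` finitely
generated) `N = (b)`. Step 2: in general `b = x ^ k b'` with `¬ x ∣ b'`; induction on `k` with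
`Alm.dvd`, `Alm.cancel`. -/
theorem dvd_of_alm_aux (m : ℕ) : ∀ (A : Type) [CommRing A] [IsRegularLocalRing A],
    (maximalIdeal A).spanFinrank ≤ m → ∀ a b : A, b ≠ 0 → Alm b a → b ∣ a := by
  classical
  induction m with
  | zero =>
    intro A _ _ h a b hb _
    have hfg : (maximalIdeal A).FG := Ideal.fg_of_isNoetherianRing _
    have h0 : maximalIdeal A = ⊥ := by
      obtain ⟨s, hs1, hs2⟩ := Submodule.FG.exists_span_finset_card_eq_spanFinrank hfg
      have : s = ∅ := Finset.card_eq_zero.mp (by omega)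
      rw [← hs2, this]
      simp
    have hf : IsField A := IsLocalRing.isField_iff_maximalIdeal_eq.mpr h0
    obtain ⟨c, hc⟩ := hf.mul_inv_cancel hb
    exact ⟨c * a, by rw [← mul_assoc, hc, one_mul]⟩
  | succ m ih =>
    intro A _ hA h
    have hdomA : IsDomain A := isDomain_aux _ A le_rfl
    by_cases hle : (maximalIdeal A).spanFinrank ≤ m
    · exact ih A hle
    have hd : (maximalIdeal A).spanFinrank = m + 1 := by omega
    have hm2 : ¬ maximalIdeal A ≤ maximalIdeal A ^ 2 := by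
      intro hle2
      have h0 : maximalIdeal A = ⊥ := by
        apply Submodule.eq_bot_of_le_smul_of_le_jacobson_bot (maximalIdeal A) _
          (Ideal.fg_of_isNoetherianRing _) _ (IsLocalRing.maximalIdeal_le_jacobson _)
        rwa [smul_eq_mul, ← pow_two]
      rw [h0] at hd
      simp at hd
    obtain ⟨x, hx, hx2⟩ := SetLike.not_le_iff_exists.1 hm2
    have hreg := isRegularLocalRing_quotient hA hx hx2
    have hgens : (maximalIdeal (A ⧸ Ideal.span {x})).spanFinrank ≤ m := by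
      have h1 := spanFinrank_quotient_add_one_le hx hx2
      omega
    have hdom : IsDomain (A ⧸ Ideal.span {x}) := isDomain_aux _ (A ⧸ Ideal.span {x}) le_rfl
    have hprime : (Ideal.span {x}).IsPrime := (Ideal.Quotient.isDomain_iff_prime _).mp hdom
    have hx0 : x ≠ 0 := fun h0 => hx2 (h0 ▸ Ideal.zero_mem _)
    have hxp : Prime x := (Ideal.span_singleton_prime hx0).1 hprime
    have step1 : ∀ b a : A, ¬ x ∣ b → Alm b a → b ∣ a := by
      intro b a hb ha
      let N : Ideal A :=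
        { carrier := {a | Alm b a}
          add_mem' := fun h₁ h₂ => Alm.add h₁ h₂
          zero_mem' := alm_of_dvd (dvd_zero b)
          smul_mem' := fun c a ha => Alm.mul_left ha c }
      have hN : N ≤ Ideal.span {b} := by
        apply Submodule.le_of_le_smul_of_le_jacobson_bot (I := maximalIdeal A)
          (N := Ideal.span {b}) (N' := N) (Ideal.fg_of_isNoetherianRing _)
          (IsLocalRing.maximalIdeal_le_jacobson _)
        intro a ha
        have h1 : Alm (Ideal.Quotient.mk (Ideal.span {x}) b)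
            (Ideal.Quotient.mk (Ideal.span {x}) a) := Alm.quotient hxp hb ha
        have h2 : Ideal.Quotient.mk (Ideal.span {x}) b ≠ 0 := by
          intro h0
          exact hb (Ideal.mem_span_singleton.1 (Ideal.Quotient.eq_zero_iff_mem.1 h0))
        obtain ⟨c', hc'⟩ := ih (A ⧸ Ideal.span {x}) hgens _ _ h2 h1
        obtain ⟨c, rfl⟩ := Ideal.Quotient.mk_surjective c'
        rw [← map_mul, Ideal.Quotient.eq, Ideal.mem_span_singleton] at hc'
        obtain ⟨e, he⟩ := hc'
        have hxe : Alm b (x * e) := by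
          rw [← he, sub_eq_add_neg]
          exact Alm.add ha (alm_of_dvd ⟨-c, by ring⟩)
        have hee : e ∈ N := Alm.of_mul hxp hb hxe
        have hae : a = b * c + x * e := by rw [← he]; ring
        rw [hae]
        exact Submodule.add_mem_sup (Ideal.mem_span_singleton.2 ⟨c, rfl⟩)
          (Submodule.smul_mem_smul hx hee)
      exact Ideal.mem_span_singleton.1 (hN ha)
    have step2 : ∀ k : ℕ, ∀ b a : A, ¬ x ∣ b → Alm (x ^ k * b) a → x ^ k * b ∣ a := by
      intro k
      induction k with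
      | zero =>
        intro b a hb ha
        rw [pow_zero, one_mul] at ha ⊢
        exact step1 b a hb ha
      | succ k ihk =>
        intro b a hb ha
        have h1 : x ^ (k + 1) * b = x * (x ^ k * b) := by ring
        rw [h1] at ha ⊢
        obtain ⟨a', rfl⟩ := Alm.dvd hxp ha
        exact mul_dvd_mul_left x (ihk b a' hb (Alm.cancel hx0 ha))
    intro a b hb ha
    obtain ⟨k, b', hb', rfl⟩ := WfDvdMonoid.max_power_factor hb hxp.irreducible
    exact step2 k b' a hb' ha
-- END N4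

theorem dvd_of_alm {A : Type} [CommRing A] [IsRegularLocalRing A] {a b : A} (hb : b ≠ 0)
    (h : Alm b a) : b ∣ a := dvd_of_alm_aux _ A le_rfl a b hb h

-- BEGIN N5
private theorem n5_aux {F : Type} [Field F] (A : Subring F) {z b : F} (hb : b ∈ A) (hz : z * b ∈ A)
    (hint : IsIntegral A z) : ∃ m : ℕ, ∀ n : ℕ, b ^ m * z ^ n ∈ A := by
  obtain ⟨p, hp, hp0⟩ := hint
  refine ⟨p.natDegree, ?_⟩
  intro n
  induction n using Nat.strong_induction_on with
  | _ n ih =>
    rcases lt_or_ge n p.natDegree with hn | hn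
    · -- small powers
      have e : b ^ p.natDegree * z ^ n = b ^ (p.natDegree - n) * (z * b) ^ n := by
        have : b ^ p.natDegree = b ^ (p.natDegree - n) * b ^ n := by
          rw [← pow_add, Nat.sub_add_cancel hn.le]
        rw [this, mul_pow]
        ring
      rw [e]
      exact A.mul_mem (A.pow_mem hb _) (A.pow_mem hz _)
    · -- large powers: use the equation
      have h1 : z ^ p.natDegree = - ∑ i ∈ Finset.range p.natDegree, (p.coeff i : F) * z ^ i := by
        rw [Polynomial.eval₂_eq_sum_range, Finset.sum_range_succ] at hp0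
        have h2 : (algebraMap A F) (p.coeff p.natDegree) = 1 := by
          rw [Polynomial.Monic.coeff_natDegree hp, map_one]
        rw [h2, one_mul] at hp0
        have h3 := eq_neg_of_add_eq_zero_right hp0
        exact h3
      have h2 : b ^ p.natDegree * z ^ n = - ∑ i ∈ Finset.range p.natDegree,
          (p.coeff i : F) * (b ^ p.natDegree * z ^ (i + (n - p.natDegree))) := by
        have e : z ^ n = z ^ p.natDegree * z ^ (n - p.natDegree) := by
          rw [← pow_add, Nat.add_sub_cancel' hn]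
        rw [e, h1, neg_mul, mul_neg, Finset.sum_mul, Finset.mul_sum]
        congr 1
        refine Finset.sum_congr rfl fun i _ => ?_
        rw [pow_add]
        ring
      rw [h2]
      refine A.neg_mem (A.sum_mem fun i hi => A.mul_mem (p.coeff i).2 (ih _ ?_))
      have := Finset.mem_range.1 hi
      omega

/-- TASK N5. **Regular local rings are integrally closed.** Let `z ^ m = ∑ i < m, c_i z ^ i` with `c_i ∈ A`. All
`z ^ n` are combinations of `1, z, .., z ^ (m - 1)` with coefficients in `A` (`n` by induction), so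
`b ^ m z ^ n ∈ A` and `b ^ n ∣ b ^ m a ^ n` in `A` for all `n` (`a = z b`), `Alm b a`; so `b ∣ a` in `A` and
`z ∈ A`. -/
theorem mem_of_isIntegral {F : Type} [Field F] (A : Subring F) [IsRegularLocalRing A] {z a b : F}
    (ha : a ∈ A) (hb : b ∈ A) (hb0 : b ≠ 0) (hz : z * b = a) (hint : IsIntegral A z) : z ∈ A := by
  obtain ⟨m, hm⟩ := n5_aux A hb (by rw [hz]; exact ha) hint
  have halm : Alm (⟨b, hb⟩ : A) ⟨a, ha⟩ := by
    refine ⟨⟨b, hb⟩ ^ m, ?_, ?_⟩
    · intro h0
      have h1 := congrArg (fun x : A => (x : F)) h0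
      have h2 : b ^ m = 0 := h1
      exact pow_ne_zero m hb0 h2
    · intro n
      refine ⟨⟨b ^ m * z ^ n, hm n⟩, ?_⟩
      apply Subtype.ext
      change b ^ m * a ^ n = b ^ n * (b ^ m * z ^ n)
      rw [← hz, mul_pow]
      ring
  have hb' : (⟨b, hb⟩ : A) ≠ 0 := by
    intro h0
    exact hb0 (congrArg (fun x : A => (x : F)) h0)
  obtain ⟨c, hc⟩ := dvd_of_alm hb' halm
  have h1 : a = b * (c : F) := congrArg (fun x : A => (x : F)) hc
  have h2 : z = (c : F) := by
    rw [← hz, mul_comm z b] at h1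
    exact mul_left_cancel₀ hb0 h1
  rw [h2]
  exact c.2
-- END N5

end Pool.Agent.Lib.MP_6a3dac_ag.TW
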