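import Mathlib

/-!
# Even and odd elements
-/

set_option autoImplicit false
set_option linter.unusedSectionVars false
set_option linter.unusedVariables false

namespace Pool.Agent.Lib.MP_6a3dac_ag.TW

variable {X : Type} [CommRing X] {G : Type} [Group G] [MulSemiringAction G X]

/-- Even elements: fixed by the elements of `C'` outside `C`. -/
def SgE (C C' : Subgroup G) (f : X) : Prop := ∀ g ∈ C', g ∉ C → g • f = f

/-- Odd elements: the elements of `C'` outside `C` act as `-1`. -/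
def SgO (C C' : Subgroup G) (f : X) : Prop := ∀ g ∈ C', g ∉ C → g • f = -f

/-- The products of an even and an odd element of `E`. -/
def prJ (C C' : Subgroup G) (E : Set X) : Set X :=
  {y | ∃ e ∈ E, ∃ e' ∈ E, SgE C C' e ∧ SgO C C' e' ∧ y = e * e'}

/-- The elements of `Λ` fixed by `C`. -/
def lamFix (Λ : Subring X) (C : Subgroup G) : Subring X where
  carrier := {c | c ∈ Λ ∧ ∀ g ∈ C, g • c = c}
  mul_mem' := by
    rintro a b ⟨ha, ha'⟩ ⟨hb, hb'⟩
    exact ⟨Λ.mul_mem ha hb, fun g hg => by rw [smul_mul', ha' g hg, hb' g hg]⟩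
  one_mem' := ⟨Λ.one_mem, fun g _ => smul_one g⟩
  add_mem' := by
    rintro a b ⟨ha, ha'⟩ ⟨hb, hb'⟩
    exact ⟨Λ.add_mem ha hb, fun g hg => by rw [smul_add, ha' g hg, hb' g hg]⟩
  zero_mem' := ⟨Λ.zero_mem, fun g _ => smul_zero g⟩
  neg_mem' := by
    rintro a ⟨ha, ha'⟩
    exact ⟨Λ.neg_mem ha, fun g hg => by rw [smul_neg, ha' g hg]⟩

theorem mem_lamFix {Λ : Subring X} {C : Subgroup G} {c : X} :
    c ∈ lamFix Λ C ↔ c ∈ Λ ∧ ∀ g ∈ C, g • c = c := Iff.rfl

end Pool.Agent.Lib.MP_6a3dac_ag.TW
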