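import Pool.Agent.Lib.MP_6a3dac_ag.TW.Nrm
import Pool.Agent.Lib.MP_6a3dac_ag.TW.Sgn
import Pool.Agent.Lib.MP_6a3dac_ag.TW.Desc
import Pool.Agent.Lib.MP_6a3dac_ag.TW.Mul
import Pool.Agent.Lib.MP_6a3dac_ag.QD.Tame
import Pool.Agent.Lib.MP_6a3dac_ag.Mg.G006

/-!
# The tame quadratic step
-/

set_option autoImplicit false
set_option linter.unusedSectionVars false
set_option linter.unusedVariables false

namespace Pool.Agent.Lib.MP_6a3dac_ag.TW

open Pool.Agent.Lib.MP_6a3dac_ag GI IsLocalRing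
open scoped Pointwise

variable {F : Type} [Field F] {G : Type} [Group G] [MulSemiringAction G F]

/-- The hypotheses of the tame quadratic step: `C` has index two in `C'`, the invariants of `C` in `D₀` are
regular, `E` generates the invariants of `C` of degrees `k m`, and `D` is the local ring of the blow-up of the
ideal generated by the products of an even and an odd element of `E`. -/
structure QuadHyp (T : ℕ → AddSubgroup F) (C C' : Subgroup G) (D₀ D : Subring F) (v : F) (k : ℕ)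
    (E : Set F) (Λ₁ : Subring F) (j₀ : F) : Prop where
  sys : GSys T
  pt : GPt T D₀ v
  stab : ∀ g ∈ C', ∀ n, ∀ f ∈ T n, g • f ∈ T n
  le : C ≤ C'
  idx : ∀ g ∈ C', ∀ h ∈ C', g ∉ C → h ∉ C → g⁻¹ * h ∈ C
  kpos : 1 ≤ k
  E_mem : ∀ e ∈ E, e ∈ T k
  E_fix : ∀ e ∈ E, ∀ g ∈ C, g • e = e
  E_sgn : ∀ e ∈ E, SgE C C' e ∨ SgO C C' e
  lam_le : Λ₁ ≤ D₀
  lam_fix : ∀ c ∈ Λ₁, ∀ g ∈ C', g • c = c
  two : ∃ w ∈ Λ₁, 2 * w = 1
  ver : ∀ m, 1 ≤ m → ∀ f ∈ T (k * m), (∀ g ∈ C, g • f = f) → f ∈ Submodule.span Λ₁ (E ^ m)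
  reg : IsRegularLocalRing (fixG C D₀)
  blow : BlowGen D₀ D {z | ∃ y ∈ prJ C C' E, z = y / j₀}
  j_mem : j₀ ∈ prJ C C' E
  j_ne : j₀ ≠ 0

section Group

variable {C C' : Subgroup G} (hle : C ≤ C')
  (hidx : ∀ g ∈ C', ∀ h ∈ C', g ∉ C → h ∉ C → g⁻¹ * h ∈ C)

-- BEGIN Q1
include hle hidx in
/-- TASK Q1. Clear if `g ∈ C`. Otherwise suppose `h = g⁻¹ * c * g ∉ C`; then `g` and `g * h = c * g` are not in `C`
(`c * g ∈ C` implies `g ∈ C`); apply `hidx` to `h⁻¹`.. e.g. `g⁻¹, h⁻¹ ∉ C`, so `g * h⁻¹ ∈ C`, that is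
`g * h⁻¹ = c⁻¹ * ..`; find the contradiction with `hidx`. -/
theorem conj_mem_of_idx {g : G} (hg : g ∈ C') {c : G} (hc : c ∈ C) : g⁻¹ * c * g ∈ C := by
  by_cases hgC : g ∈ C
  · exact C.mul_mem (C.mul_mem (C.inv_mem hgC) hc) hgC
  · have h1 : c * g ∉ C := fun h2 => hgC ((C.mul_mem_cancel_left hc).1 h2)
    rw [mul_assoc]
    exact hidx g hg (c * g) (C'.mul_mem (hle hc) hg) hgC h1

include hle hidx in
/-- TASK Q1. `τ * τ ∈ C` by `hidx` for `τ⁻¹`, `τ`. -/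
theorem smul_smul_of_idx {τ : G} (hτ : τ ∈ C') (hτC : τ ∉ C) {f : F} (hf : ∀ g ∈ C, g • f = f) :
    τ • τ • f = f := by
  have h1 : τ⁻¹ ∉ C := fun h2 => hτC (C.inv_mem_iff.1 h2)
  have h2 := hidx τ⁻¹ (C'.inv_mem hτ) τ hτ h1 hτC
  rw [inv_inv] at h2
  rw [smul_smul]
  exact hf _ h2

include hle hidx in
/-- TASK Q1. `g = τ * (τ⁻¹ * g)` with `τ⁻¹ * g ∈ C` by `hidx`. -/
theorem smul_eq_of_idx {τ g : G} (hτ : τ ∈ C') (hτC : τ ∉ C) (hg : g ∈ C') (hgC : g ∉ C) {f : F}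
    (hf : ∀ g ∈ C, g • f = f) : g • f = τ • f := by
  have h1 := hf _ (hidx τ hτ g hg hτC hgC)
  have h2 : g = τ * (τ⁻¹ * g) := by group
  rw [h2, mul_smul, h1]

include hle hidx in
/-- TASK Q1. `c • τ • f = τ • (τ⁻¹ * c * τ) • f`. -/
theorem fix_smul_of_idx {τ : G} (hτ : τ ∈ C') {f : F} (hf : ∀ g ∈ C, g • f = f) :
    ∀ g ∈ C, g • τ • f = τ • f := by
  intro c hc
  have h1 := hf _ (conj_mem_of_idx hle hidx hτ hc)
  have h2 : c * τ = τ * (τ⁻¹ * c * τ) := by group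
  rw [smul_smul, h2, mul_smul, h1]
-- END Q1

end Group

section Smallest

variable {A D : Subring F} {S : Set F}

/-- The smallest dominated subring of `D` which contains `A` and `S`. -/
def blowR (A D : Subring F) (S : Set F) : Subring F :=
  sInf {R' | R' ≤ D ∧ (∀ a ∈ R', ∀ b ∈ D, a * b = 1 → b ∈ R') ∧ A ≤ R' ∧ ∀ z ∈ S, z ∈ R'}

-- BEGIN Q2
theorem q2_le (hAD : A ≤ D) (hS : ∀ z ∈ S, z ∈ D) : blowR A D S ≤ D :=
  sInf_le ⟨le_rfl, fun _ _ _ hb _ => hb, hAD, hS⟩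

theorem q2_dom : ∀ a ∈ blowR A D S, ∀ b ∈ D, a * b = 1 → b ∈ blowR A D S := by
  intro a ha b hb hab
  unfold blowR at ha ⊢
  rw [Subring.mem_sInf] at ha ⊢
  intro R' hR'
  exact hR'.2.1 a (ha R' hR') b hb hab

/-- TASK Q2. `blowR A D S` is a local ring (its units are the elements which are units of `D`), dominated by `D`. -/
theorem blowGen_blowR (hD : IsLocalRing D) (hAD : A ≤ D) (hdom : ∀ a ∈ A, ∀ b ∈ D, a * b = 1 → b ∈ A)
    (hS : ∀ z ∈ S, z ∈ D) : BlowGen A (blowR A D S) S := by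
  have hle : blowR A D S ≤ D := q2_le hAD hS
  have hu : ∀ x : F, ∀ hx : x ∈ blowR A D S, IsUnit (⟨x, hle hx⟩ : D) →
      IsUnit (⟨x, hx⟩ : blowR A D S) := by
    intro x hx h1
    obtain ⟨w, hw⟩ := h1.exists_right_inv
    have hw' : x * (w : F) = 1 := congrArg (fun z : D => (z : F)) hw
    exact IsUnit.of_mul_eq_one (⟨w, q2_dom x hx w w.2 hw'⟩ : blowR A D S) (Subtype.ext hw')
  refine ⟨?_, ?_, ?_, ?_, ?_⟩
  · exact le_sInf fun R' hR' => hR'.2.2.1
  · have hnt : Nontrivial (blowR A D S) := inferInstance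
    refine IsLocalRing.of_isUnit_or_isUnit_one_sub_self fun a => ?_
    rcases IsLocalRing.isUnit_or_isUnit_one_sub_self (⟨a, hle a.2⟩ : D) with h1 | h1
    · left
      exact hu a a.2 h1
    · right
      exact hu (1 - a : blowR A D S) (1 - a : blowR A D S).2 h1
  · intro z hz
    unfold blowR
    rw [Subring.mem_sInf]
    exact fun R' hR' => hR'.2.2.2 z hz
  · intro a ha b hb hab
    exact hdom a ha b (hle hb) hab
  · intro R' h1 h2 h3 h4
    refine sInf_le ⟨h1.trans hle, fun a ha b hb hab => ?_, h3, h4⟩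
    exact h2 a ha b (q2_dom a (h1 ha) b hb hab) hab

/-- TASK Q2. -/
theorem blowR_le (hAD : A ≤ D) (hS : ∀ z ∈ S, z ∈ D) : blowR A D S ≤ D := q2_le hAD hS

/-- TASK Q2. -/
theorem blowR_dom (hAD : A ≤ D) (hS : ∀ z ∈ S, z ∈ D) : ∀ a ∈ blowR A D S, ∀ b ∈ D, a * b = 1 →
    b ∈ blowR A D S := q2_dom

/-- TASK Q2. -/
theorem blowR_min {R' : Subring F} (h1 : R' ≤ D) (h2 : ∀ a ∈ R', ∀ b ∈ D, a * b = 1 → b ∈ R')
    (h3 : A ≤ R') (h4 : ∀ z ∈ S, z ∈ R') : blowR A D S ≤ R' := sInf_le ⟨h1, h2, h3, h4⟩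
-- END Q2

-- BEGIN Q3
/-- Auxiliary: `A` and the same ring inside `D`. -/
def q3_equiv (hAD : A ≤ D) : A ≃+* (A.comap D.subtype) where
  toFun a := ⟨⟨a, hAD a.2⟩, a.2⟩
  invFun x := ⟨x.1.1, x.2⟩
  left_inv _ := rfl
  right_inv _ := rfl
  map_mul' _ _ := rfl
  map_add' _ _ := rfl

/-- Auxiliary: the involution on the copy of `A`. -/
def q3_tau (hAD : A ≤ D) (τF : F →+* F) (hτA : ∀ z ∈ A, τF z ∈ A) :
    (A.comap D.subtype) →+* (A.comap D.subtype) where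
  toFun x := ⟨⟨τF x.1.1, hAD (hτA _ x.2)⟩, hτA _ x.2⟩
  map_one' := Subtype.ext (Subtype.ext (map_one τF))
  map_mul' x y := Subtype.ext (Subtype.ext (map_mul τF x.1.1 y.1.1))
  map_zero' := Subtype.ext (Subtype.ext (map_zero τF))
  map_add' x y := Subtype.ext (Subtype.ext (map_add τF x.1.1 y.1.1))

/-- TASK Q3. **The blow-up of the fixed locus of a tame involution**, inside a field. This is `local_tame_type`
(QD/Tame.lean) for the local ring `↥D` and its subring `A.comap D.subtype` (isomorphic to `A`, regular by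
`IsRegularLocalRing.of_ringEquiv`), `τA` the restriction of `τF`. `Dom` (QWDom.lean) is `hdom`; `b` is given; for `hbd` note
that the set of multiples of `b` is an ideal. For `hgen` map a subring of `↥D` to `F`
(`Subring.map D.subtype`). At the end `τ` is the restriction of `τF` to `D`. -/
theorem tame_blow (hreg : IsRegularLocalRing A) (hD : IsLocalRing D) (hAD : A ≤ D)
    (hdom : ∀ a ∈ A, ∀ b ∈ D, a * b = 1 → b ∈ A) (τF : F →+* F) (hττ : ∀ z ∈ D, τF (τF z) = z)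
    (hτA : ∀ z ∈ A, τF z ∈ A) (hτD : ∀ z ∈ D, τF z ∈ D)
    (htriv : ∀ z ∈ A, ∀ w ∈ A, (τF z - z) * w ≠ 1) (h2 : ∃ w ∈ A, 2 * w = 1) (b : A)
    (hb0 : (b : F) ≠ 0) (hbm : b ∈ Ideal.span {z : A | ∃ a ∈ A, (z : F) = τF a - a})
    (hbd : ∀ a ∈ A, ∃ q ∈ D, τF a - a = b * q)
    (hgen : ∀ R' : Subring F, R' ≤ D → (∀ a ∈ R', ∀ c ∈ D, a * c = 1 → c ∈ R') → A ≤ R' →
      (∀ a ∈ A, ∀ q ∈ D, τF a - a = b * q → q ∈ R') → D ≤ R') :
    IsRegularLocalRing D ∧ ∃ y ∈ D, τF y - y ≠ 0 ∧ ∀ w ∈ D, ∃ c ∈ D, τF w - w = c * (τF y - y) := by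
  have hreg' : IsRegularLocalRing (A.comap D.subtype) :=
    IsRegularLocalRing.of_ringEquiv (q3_equiv hAD)
  have key := QD.local_tame_type (D := D) (A := A.comap D.subtype) (τA := q3_tau hAD τF hτA)
    (fun a ha c hac => hdom a.1 ha c.1 c.2 (congrArg (fun z : D => (z : F)) hac))
    (fun a => Subtype.ext (Subtype.ext (hττ _ a.1.2)))
    (by
      obtain ⟨w, hw, h3⟩ := h2
      exact IsUnit.of_mul_eq_one (⟨⟨w, hAD hw⟩, hw⟩ : A.comap D.subtype)
        (Subtype.ext (Subtype.ext h3)))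
    (by
      intro a
      rw [IsLocalRing.mem_maximalIdeal, mem_nonunits_iff]
      intro h3
      obtain ⟨w, hw⟩ := h3.exists_right_inv
      exact htriv a.1.1 a.2 w.1.1 w.2
        (congrArg (fun z : A.comap D.subtype => ((z : D) : F)) hw))
    (q3_equiv hAD b) (fun h0 => hb0 (congrArg (fun z : D => (z : F)) h0))
    (by
      have h3 : q3_equiv hAD b ∈ (Ideal.span {z : A | ∃ a ∈ A, (z : F) = τF a - a}).map
          (q3_equiv hAD) := Ideal.mem_map_of_mem _ hbm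
      rw [Ideal.map_span] at h3
      refine Ideal.span_mono ?_ h3
      rintro _ ⟨z, ⟨a, ha, hz⟩, rfl⟩
      exact ⟨⟨⟨a, hAD ha⟩, ha⟩, Subtype.ext (Subtype.ext hz.symm)⟩)
    (by
      intro y hy
      have h3 : Ideal.span (Set.range fun a => q3_tau hAD τF hτA a - a) ≤
          (Ideal.span {((q3_equiv hAD b : A.comap D.subtype) : D)}).comap
            (A.comap D.subtype).subtype := by
        rw [Ideal.span_le]
        rintro _ ⟨a, rfl⟩
        obtain ⟨q, hq, h4⟩ := hbd a.1.1 a.2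
        exact Ideal.mem_span_singleton.2 ⟨⟨q, hq⟩, Subtype.ext h4⟩
      exact Ideal.mem_span_singleton.1 (h3 hy))
    (by
      intro R' h3 h4 h5
      have h6 := hgen (R'.map D.subtype) (by
          rintro _ ⟨r, hr, rfl⟩
          exact r.2) (by
          rintro _ ⟨r, hr, rfl⟩ c hc hrc
          exact ⟨⟨c, hc⟩, h3 r hr ⟨c, hc⟩ (Subtype.ext hrc), rfl⟩) (by
          intro a ha
          exact ⟨⟨a, hAD ha⟩, h4 ha, rfl⟩) (by
          intro a ha q hq h7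
          exact ⟨⟨q, hq⟩, h5 _ (Ideal.subset_span ⟨⟨⟨a, hAD ha⟩, ha⟩, rfl⟩) ⟨q, hq⟩
            (Subtype.ext h7.symm), rfl⟩)
      rw [eq_top_iff]
      intro x _
      obtain ⟨r, hr, h7⟩ := h6 x.2
      have h8 : r = x := Subtype.ext h7
      rw [← h8]
      exact hr)
  refine ⟨key.1, ?_⟩
  obtain ⟨y, hy0, hy⟩ := key.2 ((τF.comp D.subtype).codRestrict D fun x => hτD x x.2)
    (fun d => Subtype.ext (hττ d d.2)) (fun a => rfl)
  refine ⟨y, y.2, fun h3 => hy0 (Subtype.ext h3), fun w hw => ?_⟩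
  obtain ⟨c, hc⟩ := hy ⟨w, hw⟩
  exact ⟨c, c.2, congrArg (fun z : D => (z : F)) hc⟩
-- END Q3

end Smallest

section Integral

variable [Finite G]

-- BEGIN Q4
/-- The subring of all `b` with `g • b ∈ D₀` for all `g ∈ C`. -/
private def q4_sub (C : Subgroup G) (D₀ : Subring F) : Subring F where
  carrier := {b | ∀ g ∈ C, g • b ∈ D₀}
  mul_mem' := by
    intro a b ha hb g hg
    rw [smul_mul']
    exact D₀.mul_mem (ha g hg) (hb g hg)
  one_mem' := by
    intro g _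
    rw [smul_one]
    exact D₀.one_mem
  add_mem' := by
    intro a b ha hb g hg
    rw [smul_add]
    exact D₀.add_mem (ha g hg) (hb g hg)
  zero_mem' := by
    intro g _
    rw [smul_zero]
    exact D₀.zero_mem
  neg_mem' := by
    intro a ha g hg
    rw [smul_neg]
    exact D₀.neg_mem (ha g hg)

/-- The action of `C` on this subring. -/
@[reducible] private def q4_act (C : Subgroup G) (D₀ : Subring F) :
    MulSemiringAction C (q4_sub C D₀) where
  smul c b := ⟨(c : G) • (b : F), fun g hg => by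
    rw [← mul_smul]
    exact b.2 _ (C.mul_mem hg c.2)⟩
  one_smul b := Subtype.ext (one_smul G (b : F))
  mul_smul c d b := Subtype.ext (mul_smul (c : G) (d : G) (b : F))
  smul_zero c := Subtype.ext (smul_zero (c : G))
  smul_add c a b := Subtype.ext (smul_add (c : G) (a : F) (b : F))
  smul_one c := Subtype.ext (smul_one (c : G))
  smul_mul c a b := Subtype.ext (smul_mul' (c : G) (a : F) (b : F))

/-- TASK Q4. Let `B'` be the subring of all `b ∈ F` with `g • b ∈ D₀` for all `g ∈ C` (a subring of `D₀`, stable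
under `C`); `fixG C D₀` is the ring of invariants of `C` in `B'`, so `B'` is integral over it
(`Algebra.IsInvariant.isIntegral`, see `isIntegral_of_group` in GI/Int.lean), and `w ∈ B'`. Or: use the monic
polynomial `∏ g ∈ C, (X - g • w)`. -/
theorem isIntegral_of_smul_mem {C : Subgroup G} {D₀ : Subring F} {w : F}
    (hw : ∀ g ∈ C, g • w ∈ D₀) : IsIntegral (fixG C D₀) w := by
  have hle : fixG C D₀ ≤ q4_sub C D₀ := by
    intro z hz g hg
    rw [hz.2 g hg]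
    exact hz.1
  let : Algebra (fixG C D₀) (q4_sub C D₀) := (Subring.inclusion hle).toAlgebra
  have : IsScalarTower (fixG C D₀) (q4_sub C D₀) F := IsScalarTower.of_algebraMap_eq fun _ => rfl
  let : MulSemiringAction C (q4_sub C D₀) := q4_act C D₀
  have : Algebra.IsInvariant (fixG C D₀) (q4_sub C D₀) C := by
    refine ⟨fun b hb => ?_⟩
    have h1 : ∀ h ∈ C, h • (b : F) = b := fun h hh => congrArg Subtype.val (hb ⟨h, hh⟩)
    have h2 : (b : F) ∈ D₀ := by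
      have := b.2 1 C.one_mem
      rwa [one_smul] at this
    exact ⟨⟨b, h2, h1⟩, Subtype.ext rfl⟩
  have hint : Algebra.IsIntegral (fixG C D₀) (q4_sub C D₀) := Algebra.IsInvariant.isIntegral _ _ C
  have h := hint.isIntegral (⟨w, hw⟩ : q4_sub C D₀)
  exact h.algebraMap (B := F)
-- END Q4

end Integral

variable [Finite G] {T : ℕ → AddSubgroup F} {C C' : Subgroup G} {D₀ D : Subring F} {v : F} {k : ℕ}
  {E : Set F} {Λ₁ : Subring F} {j₀ : F} (h : QuadHyp T C C' D₀ D v k E Λ₁ j₀)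

section Basic

-- BEGIN Q5
include h in
/-- TASK Q5. -/
theorem QuadHyp.stabC : ∀ g ∈ C, ∀ n, ∀ f ∈ T n, g • f ∈ T n := fun g hg => h.stab g (h.le hg)

include h in
/-- TASK Q5. Induction on `m`, `pow_succ`, `Set.mem_mul`. -/
theorem QuadHyp.pow_mem {m : ℕ} {y : F} (hy : y ∈ E ^ m) : y ∈ T (k * m) ∧ ∀ g ∈ C, g • y = y := by
  induction m generalizing y with
  | zero =>
    rw [pow_zero, Set.mem_one] at hy
    subst hy
    exact ⟨by rw [Nat.mul_zero]; exact h.sys.one, fun g _ => smul_one g⟩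
  | succ m ih =>
    rw [pow_succ, Set.mem_mul] at hy
    obtain ⟨y', hy', e, he, rfl⟩ := hy
    obtain ⟨h1, h2⟩ := ih hy'
    refine ⟨?_, fun g hg => ?_⟩
    · rw [Nat.mul_succ]
      exact h.sys.mul h1 (h.E_mem e he)
    · rw [smul_mul', h2 g hg, h.E_fix e he g hg]

include h in
private theorem q5_span {n : ℕ} {x : F} (hx : x ∈ Submodule.span Λ₁ (E ^ n)) :
    x / v ^ (k * n) ∈ D₀ ∧ (IsU D₀ (x / v ^ (k * n)) → ∃ y ∈ E ^ n, IsU D₀ (y / v ^ (k * n))) := by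
  induction hx using Submodule.span_induction with
  | mem x hx =>
    exact ⟨h.pt.ratio _ x (QuadHyp.pow_mem h hx).1, fun hu => ⟨x, hx, hu⟩⟩
  | zero =>
    rw [zero_div]
    exact ⟨D₀.zero_mem, fun hu => absurd rfl hu.ne_zero⟩
  | add x y _ _ hx hy =>
    rw [add_div]
    refine ⟨D₀.add_mem hx.1 hy.1, fun hu => ?_⟩
    rcases isU_or_isN hx.1 with h1 | h1
    · exact hx.2 h1
    · apply hy.2
      have h2 := IsU.sub h.pt.loc hu h1
      rwa [add_sub_cancel_left] at h2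
  | smul c x _ hx =>
    have e : (c • x) / v ^ (k * n) = (c : F) * (x / v ^ (k * n)) := by
      rw [Subring.smul_def, smul_eq_mul, mul_div_assoc]
    rw [e]
    have hc : (c : F) ∈ D₀ := h.lam_le c.2
    exact ⟨D₀.mul_mem hc hx.1, fun hu => hx.2 (hu.right hc hx.1)⟩

include h in
/-- TASK Q5. **An element of `E` which does not vanish.** By `exists_inv_unit` (for `C`) there are `n ≥ 1`, `f ∈ T n` fixed by `C`,
`IsU D₀ (f / v ^ n)`; `f ^ k ∈ T (k n)` is in the `Λ₁`-span of `E ^ n` (`h.ver`), so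
`f ^ k / v ^ (k n) = ∑ λ_i (y_i / v ^ (k n))` is a unit and some `y_i / v ^ (k n)`, `y_i ∈ E ^ n`, is a unit
(`exists_isU_of_sum`, `IsU.right`; `h.lam_le`); `y_i` is a product of `n ≥ 1` elements of `E`
(`Set.mem_mul` for `pow_succ`), `isU_mul`. -/
theorem QuadHyp.exists_e : ∃ e ∈ E, IsU D₀ (e / v ^ k) := by
  obtain ⟨n, hn, f, hf, hfC, hfu⟩ := h.pt.exists_inv_unit h.sys (QuadHyp.stabC h)
  have h1 : f ^ k ∈ T (k * n) := by
    rw [Nat.mul_comm]
    exact h.sys.pow hf k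
  have h2 : ∀ g ∈ C, g • f ^ k = f ^ k := fun g hg => by rw [smul_pow', hfC g hg]
  have h3 : IsU D₀ (f ^ k / v ^ (k * n)) := by
    rw [Nat.mul_comm]
    exact h.pt.isU_pow h.sys hfu k
  obtain ⟨y, hy, hyu⟩ := (q5_span h (h.ver n hn _ h1 h2)).2 h3
  obtain ⟨m, rfl⟩ : ∃ m, n = m + 1 := ⟨n - 1, by omega⟩
  rw [pow_succ, Set.mem_mul] at hy
  obtain ⟨y', hy', e, he, rfl⟩ := hy
  rw [Nat.mul_succ] at hyu
  exact ⟨e, he, ((h.pt.isU_mul h.sys (QuadHyp.pow_mem h hy').1 (h.E_mem e he)).1 hyu).2⟩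
-- END Q5

variable {e₀ : F} (he₀ : e₀ ∈ E) (heu : IsU D₀ (e₀ / v ^ k))

/-- The elements of `E` of sign opposite to that of `e₀`. -/
def Opp (C C' : Subgroup G) (e₀ e : F) : Prop :=
  (SgE C C' e ∧ SgO C C' e₀) ∨ (SgO C C' e ∧ SgE C C' e₀)

-- BEGIN Q6
include h he₀ heu in
/-- TASK Q6. -/
theorem QuadHyp.e_ne : e₀ ≠ 0 := by
  intro h0
  apply heu.ne_zero
  rw [h0, zero_div]

include h he₀ heu in
/-- TASK Q6. For `f ∈ T (k m)` the quotient `f / e₀ ^ m = (f / v ^ (k m)) / (e₀ / v ^ k) ^ m` lies in `D₀`; it is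
fixed by `C` if `f` is. -/
theorem QuadHyp.div_mem {m : ℕ} {f : F} (hf : f ∈ T (k * m)) : f / e₀ ^ m ∈ D₀ := by
  have h1 := GPt.isU_pow h.sys h.pt heu m
  have h2 := h.pt.ratio (k * m) f hf
  have h3 : f / e₀ ^ m = (f / v ^ (k * m)) * (e₀ ^ m / v ^ (k * m))⁻¹ := by
    have hv : v ^ (k * m) ≠ 0 := pow_ne_zero _ h.pt.ne
    have he : e₀ ^ m ≠ 0 := pow_ne_zero _ (QuadHyp.e_ne h he₀ heu)
    field_simp
  rw [h3]
  exact D₀.mul_mem h2 h1.inv_mem

include h he₀ heu in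
/-- TASK Q6. -/
theorem QuadHyp.div_fix {m : ℕ} {f : F} (hf : f ∈ T (k * m)) (hfC : ∀ g ∈ C, g • f = f) :
    f / e₀ ^ m ∈ fixG C D₀ := by
  refine ⟨QuadHyp.div_mem h he₀ heu hf, fun g hg => ?_⟩
  rw [div_eq_mul_inv, smul_mul', smul_inv'', smul_pow', hfC g hg, h.E_fix e₀ he₀ g hg]

include h he₀ heu in
/-- TASK Q6. **Fractions.** `exists_inv` for `C` gives `n ≥ 1`, `f`, `f'`; take `m = n`, `f f' ^ (k - 1)`, `f' ^ k`. -/
theorem QuadHyp.frac {z : F} (hz : z ∈ fixG C D₀) : ∃ m, 1 ≤ m ∧ ∃ f ∈ T (k * m), ∃ f' ∈ T (k * m),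
    (∀ g ∈ C, g • f = f) ∧ (∀ g ∈ C, g • f' = f') ∧ IsU (fixG C D₀) (f' / e₀ ^ m) ∧
      z * (f' / e₀ ^ m) = f / e₀ ^ m := by
  obtain ⟨n, hn, f, hf, f', hf', hfC, hfC', hu, hz'⟩ :=
    GPt.exists_inv h.sys h.pt (K := C) h.stabC hz
  have hk := h.kpos
  have hidx1 : k * n = n + n * (k - 1) := by
    obtain ⟨k', rfl⟩ : ∃ k', k = k' + 1 := ⟨k - 1, by omega⟩
    rw [Nat.add_sub_cancel]
    ring
  have hm1 : f * f' ^ (k - 1) ∈ T (k * n) := by
    rw [hidx1]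
    exact h.sys.mul hf (GSys.pow h.sys hf' (k - 1))
  have hm2 : f' ^ k ∈ T (k * n) := by
    rw [mul_comm k n]
    exact GSys.pow h.sys hf' k
  have hfix2 : ∀ g ∈ C, g • f' ^ k = f' ^ k := fun g hg => by rw [smul_pow', hfC' g hg]
  have hfix1 : ∀ g ∈ C, g • (f * f' ^ (k - 1)) = f * f' ^ (k - 1) := fun g hg => by
    rw [smul_mul', smul_pow', hfC' g hg, hfC g hg]
  have he : e₀ ≠ 0 := QuadHyp.e_ne h he₀ heu
  have hen : e₀ ^ n ≠ 0 := pow_ne_zero _ he
  have hu1 : IsU D₀ (e₀ ^ n / v ^ (k * n)) := GPt.isU_pow h.sys h.pt heu n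
  have hu2 : IsU D₀ (f' ^ k / v ^ (k * n)) := by
    rw [mul_comm k n]
    exact GPt.isU_pow h.sys h.pt hu k
  have hv : v ^ (k * n) ≠ 0 := pow_ne_zero _ h.pt.ne
  have hf0 : f' ^ k ≠ 0 := by
    intro h0
    apply hu2.ne_zero
    rw [h0, zero_div]
  refine ⟨n, hn, f * f' ^ (k - 1), hm1, f' ^ k, hm2, hfix1, hfix2, ⟨?_, (f' ^ k / e₀ ^ n)⁻¹, ?_, ?_⟩,
    ?_⟩
  · exact QuadHyp.div_fix h he₀ heu hm2 hfix2
  · refine ⟨?_, fun g hg => ?_⟩
    · have h3 : (f' ^ k / e₀ ^ n)⁻¹ = (e₀ ^ n / v ^ (k * n)) * (f' ^ k / v ^ (k * n))⁻¹ := by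
        field_simp
      rw [h3]
      exact D₀.mul_mem hu1.1 hu2.inv_mem
    · rw [smul_inv'', (QuadHyp.div_fix h he₀ heu hm2 hfix2).2 g hg]
  · exact mul_inv_cancel₀ (div_ne_zero hf0 hen)
  · rw [← hz', mul_div_assoc', mul_assoc]
    congr 2
    rw [← pow_succ', Nat.sub_add_cancel hk]
-- END Q6

/-- The ideal generated by the `e / e₀`, `e` of opposite sign. -/
def J0 (C C' : Subgroup G) (D₀ : Subring F) (E : Set F) (e₀ : F) : Ideal (fixG C D₀) :=
  Ideal.span {a | ∃ e ∈ E, Opp C C' e₀ e ∧ (a : F) = e / e₀}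

variable {τ : G} (hτ : τ ∈ C') (hτC : τ ∉ C)

-- BEGIN Q7
/-- The elements of the ring of invariants which `τ` moves by an element of the ideal. -/
private def q7_ring (C C' : Subgroup G) (D₀ : Subring F) (E : Set F) (e₀ : F) (τ : G) : Subring F where
  carrier := {y | y ∈ fixG C D₀ ∧ τ • y ∈ fixG C D₀ ∧ ∃ b ∈ J0 C C' D₀ E e₀, (b : F) = τ • y - y}
  mul_mem' := by
    rintro y z ⟨hy, hy', b, hb, hb'⟩ ⟨hz, hz', b₂, hb₂, hb₂'⟩
    refine ⟨(fixG C D₀).mul_mem hy hz, ?_, b * ⟨τ • z, hz'⟩ + ⟨y, hy⟩ * b₂,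
      Ideal.add_mem _ (Ideal.mul_mem_right _ _ hb) (Ideal.mul_mem_left _ _ hb₂), ?_⟩
    · rw [smul_mul']
      exact (fixG C D₀).mul_mem hy' hz'
    · change (b : F) * (τ • z) + y * (b₂ : F) = τ • (y * z) - y * z
      rw [hb', hb₂', smul_mul']
      ring
  one_mem' := by
    refine ⟨(fixG C D₀).one_mem, ?_, 0, Ideal.zero_mem _, ?_⟩
    · rw [smul_one]
      exact (fixG C D₀).one_mem
    · rw [smul_one, sub_self]
      rfl
  add_mem' := by
    rintro y z ⟨hy, hy', b, hb, hb'⟩ ⟨hz, hz', b₂, hb₂, hb₂'⟩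
    refine ⟨(fixG C D₀).add_mem hy hz, ?_, b + b₂, Ideal.add_mem _ hb hb₂, ?_⟩
    · rw [smul_add]
      exact (fixG C D₀).add_mem hy' hz'
    · change (b : F) + (b₂ : F) = τ • (y + z) - (y + z)
      rw [hb', hb₂', smul_add]
      ring
  zero_mem' := by
    refine ⟨(fixG C D₀).zero_mem, ?_, 0, Ideal.zero_mem _, ?_⟩
    · rw [smul_zero]
      exact (fixG C D₀).zero_mem
    · rw [smul_zero, sub_self]
      rfl
  neg_mem' := by
    rintro y ⟨hy, hy', b, hb, hb'⟩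
    refine ⟨(fixG C D₀).neg_mem hy, ?_, -b, (Ideal.neg_mem_iff _).2 hb, ?_⟩
    · rw [smul_neg]
      exact (fixG C D₀).neg_mem hy'
    · change -(b : F) = τ • (-y) - (-y)
      rw [hb', smul_neg]
      ring

include h hτ in
private theorem q7_lam {c : F} (hc : c ∈ Λ₁) : c ∈ q7_ring C C' D₀ E e₀ τ := by
  have h1 : c ∈ fixG C D₀ := ⟨h.lam_le hc, fun g hg => h.lam_fix c hc g (h.le hg)⟩
  have h2 : τ • c = c := h.lam_fix c hc τ hτ
  refine ⟨h1, by rw [h2]; exact h1, 0, Ideal.zero_mem _, ?_⟩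
  rw [h2, sub_self]
  rfl

include h he₀ heu hτ hτC in
private theorem q7_gen {e : F} (he : e ∈ E) : e / e₀ ∈ q7_ring C C' D₀ E e₀ τ := by
  have h1 : e / e₀ ∈ fixG C D₀ := by
    have h2 := h.div_fix he₀ heu (m := 1) (f := e) (by rw [mul_one]; exact h.E_mem e he)
      (h.E_fix e he)
    rwa [pow_one] at h2
  have hs : τ • (e / e₀) = (τ • e) / (τ • e₀) := by
    rw [div_eq_mul_inv, smul_mul', smul_inv'', ← div_eq_mul_inv]
  have hsame : τ • (e / e₀) = e / e₀ → e / e₀ ∈ q7_ring C C' D₀ E e₀ τ := by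
    intro h3
    refine ⟨h1, by rw [h3]; exact h1, 0, Ideal.zero_mem _, ?_⟩
    rw [h3, sub_self]
    rfl
  have hopp : τ • (e / e₀) = -(e / e₀) → Opp C C' e₀ e → e / e₀ ∈ q7_ring C C' D₀ E e₀ τ := by
    intro h3 h4
    refine ⟨h1, by rw [h3]; exact (fixG C D₀).neg_mem h1, (-2) * ⟨e / e₀, h1⟩,
      Ideal.mul_mem_left _ _ (Ideal.subset_span ⟨e, he, h4, rfl⟩), ?_⟩
    rw [h3]
    change ((-2 : fixG C D₀) : F) * (e / e₀) = -(e / e₀) - e / e₀
    have h5 : ((-2 : fixG C D₀) : F) = -2 := rfl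
    rw [h5]
    ring
  rcases h.E_sgn e he with h3 | h3 <;> rcases h.E_sgn e₀ he₀ with h4 | h4
  · exact hsame (by rw [hs, h3 τ hτ hτC, h4 τ hτ hτC])
  · exact hopp (by rw [hs, h3 τ hτ hτC, h4 τ hτ hτC, div_neg]) (Or.inl ⟨h3, h4⟩)
  · exact hopp (by rw [hs, h3 τ hτ hτC, h4 τ hτ hτC, neg_div]) (Or.inr ⟨h3, h4⟩)
  · exact hsame (by rw [hs, h3 τ hτ hτC, h4 τ hτ hτC, neg_div_neg_eq])

include h he₀ heu hτ hτC in
private theorem q7_pow {m : ℕ} : ∀ y ∈ E ^ m, y / e₀ ^ m ∈ q7_ring C C' D₀ E e₀ τ := by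
  induction m with
  | zero =>
    intro y hy
    rw [pow_zero, Set.mem_one] at hy
    rw [hy, pow_zero, div_one]
    exact (q7_ring C C' D₀ E e₀ τ).one_mem
  | succ m ih =>
    intro y hy
    rw [pow_succ, Set.mem_mul] at hy
    obtain ⟨a, ha, b, hb, rfl⟩ := hy
    rw [pow_succ, mul_div_mul_comm]
    exact (q7_ring C C' D₀ E e₀ τ).mul_mem (ih a ha) (q7_gen h he₀ heu hτ hτC hb)

include h he₀ heu hτ hτC in
/-- TASK Q7. Let `f ∈ T (k m)`, `m ≥ 1`, be fixed by `C`; then `f / e₀ ^ m`, `τ • (f / e₀ ^ m)` lie in `fixG C D₀` and the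
difference lies in `J0`. The set `R'` of the `y ∈ fixG C D₀` with `τ • y ∈ fixG C D₀`, `τ • y - y ∈ J0` is a subring
(`τ (y z) - y z = (τ y - y) τ z + y (τ z - z)`), contains `Λ₁` (fixed by `C'`) and the `e / e₀`, `e ∈ E`: if `e` and
`e₀` have the same sign then `τ • (e / e₀) = e / e₀`; if they have opposite signs then
`τ • (e / e₀) = - e / e₀` and the difference is `-2 (e / e₀) ∈ J0`. (`E_sgn`; `div_fix` for `m = 1`.) By `h.ver`
`f / e₀ ^ m` is a sum of products of an element of `Λ₁` and of `m` elements `e / e₀`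
(`Submodule.span_induction`). -/
theorem QuadHyp.diff_mem {m : ℕ} (hm : 1 ≤ m) {f : F} (hf : f ∈ T (k * m)) (hfC : ∀ g ∈ C, g • f = f) :
    ∃ b ∈ J0 C C' D₀ E e₀, (b : F) = τ • (f / e₀ ^ m) - f / e₀ ^ m := by
  have h1 : ∀ y ∈ Submodule.span Λ₁ (E ^ m), y / e₀ ^ m ∈ q7_ring C C' D₀ E e₀ τ := by
    intro y hy
    induction hy using Submodule.span_induction with
    | mem y hy => exact q7_pow h he₀ heu hτ hτC y hy
    | zero =>
      rw [zero_div]
      exact (q7_ring C C' D₀ E e₀ τ).zero_mem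
    | add y z _ _ hy hz =>
      rw [add_div]
      exact (q7_ring C C' D₀ E e₀ τ).add_mem hy hz
    | smul c y _ hy =>
      have h2 : (c • y) / e₀ ^ m = (c : F) * (y / e₀ ^ m) := by
        rw [← mul_div_assoc]
        rfl
      rw [h2]
      exact (q7_ring C C' D₀ E e₀ τ).mul_mem (q7_lam h hτ c.2) hy
  exact (h1 f (h.ver m hm f hf hfC)).2.2
-- END Q7

-- BEGIN Q8
include h he₀ heu hτ hτC in
/-- TASK Q8. Let `z = a / a'` with `a = f / e₀ ^ m`, `a' = f' / e₀ ^ m` (`h.frac`), `a'` a unit of `fixG C D₀`; by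
`diff_mem` `τ • a' = a' + b'` with `b' ∈ J0`. It is a unit of `fixG C D₀`: if `InertiaG (fixG C D₀) τ` since
`τ` is an automorphism of this ring (`IsU.smul`), if `J0 ≠ ⊤` since `b'` is in the maximal ideal
(`fixG C D₀` is local, `h.reg`). So `τ • z = τ • a / τ • a'` and
`τ • z - z = ((τ • a - a) a' - a (τ • a' - a')) / (a' τ • a') ∈ J0`. -/
theorem QuadHyp.diff (hor : InertiaG (fixG C D₀) τ ∨ J0 C C' D₀ E e₀ ≠ ⊤) {z : F}
    (hz : z ∈ fixG C D₀) : ∃ b ∈ J0 C C' D₀ E e₀, (b : F) = τ • z - z := by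
  obtain ⟨m, hm, f, hf, f', hf', hfC, hfC', hu, hzf⟩ := h.frac he₀ heu hz
  obtain ⟨b, hb, hbe⟩ := h.diff_mem he₀ heu hτ hτC hm hf hfC
  obtain ⟨b', hb', hbe'⟩ := h.diff_mem he₀ heu hτ hτC hm hf' hfC'
  have hloc : IsLocalRing (fixG C D₀) := by
    have := h.reg
    infer_instance
  obtain ⟨a, ha⟩ : ∃ a : fixG C D₀, (a : F) = f / e₀ ^ m :=
    ⟨⟨f / e₀ ^ m, h.div_fix he₀ heu hf hfC⟩, rfl⟩
  obtain ⟨a', ha'⟩ : ∃ a' : fixG C D₀, (a' : F) = f' / e₀ ^ m :=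
    ⟨⟨f' / e₀ ^ m, h.div_fix he₀ heu hf' hfC'⟩, rfl⟩
  rw [← ha] at hbe hzf
  rw [← ha'] at hbe' hu hzf
  have hτa' : τ • (a' : F) = ((a' + b' : fixG C D₀) : F) := by
    rw [Subring.coe_add, hbe']
    ring
  have hu' : IsU (fixG C D₀) (τ • (a' : F)) := by
    rcases hor with hin | hJ
    · exact IsU.smul hin.1 hu
    · have hbn : IsN (fixG C D₀) (b' : F) := by
        refine ⟨b'.2, fun w hw hbw => hJ ?_⟩
        rw [Ideal.eq_top_iff_one]
        have h1 : (1 : fixG C D₀) = b' * ⟨w, hw⟩ := by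
          apply Subtype.ext
          rw [Subring.coe_mul, Subring.coe_one]
          exact hbw.symm
        rw [h1]
        exact Ideal.mul_mem_right _ _ hb'
      have h2 := hu.sub hloc hbn.neg
      rw [sub_neg_eq_add] at h2
      rw [hτa', Subring.coe_add]
      exact h2
  obtain ⟨-, w, hw, hw1⟩ := hu
  obtain ⟨-, w', hw', hw1'⟩ := hu'
  refine ⟨(b * a' - a * b') * (⟨w, hw⟩ * ⟨w', hw'⟩), Ideal.mul_mem_right _ _
    (Ideal.sub_mem _ (Ideal.mul_mem_right _ _ hb) (Ideal.mul_mem_left _ _ hb')), ?_⟩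
  have hτz : τ • z = τ • (a : F) * w' := by
    rw [← hzf, smul_mul']
    calc τ • z = τ • z * (τ • (a' : F) * w') := by rw [hw1', mul_one]
      _ = τ • z * τ • (a' : F) * w' := by ring
  have hz' : z = a * w := by
    rw [← hzf]
    calc z = z * (a' * w) := by rw [hw1, mul_one]
      _ = z * a' * w := by ring
  rw [hτz, hz']
  push_cast
  rw [hbe, hbe']
  calc (((τ • (a : F) - a) * a' - a * (τ • (a' : F) - a')) * (w * w') : F)
      = τ • (a : F) * w' * (a' * w) - a * w * (τ • (a' : F) * w') := by ring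
    _ = τ • (a : F) * w' - a * w := by rw [hw1, hw1', mul_one, mul_one]

include h he₀ heu hτ hτC in
/-- TASK Q8. If `J0 ≠ ⊤` then `J0` is contained in the maximal ideal and `τ` is inert by `QuadHyp.diff`. -/
theorem QuadHyp.J0_eq_top (hin : ¬ InertiaG (fixG C D₀) τ) : J0 C C' D₀ E e₀ = ⊤ := by
  by_contra hJ
  apply hin
  constructor
  · intro z hz
    obtain ⟨b, -, hb⟩ := h.diff he₀ heu hτ hτC (Or.inr hJ) hz
    have h1 : τ • z = z + b := by
      rw [hb]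
      ring
    rw [h1]
    exact (fixG C D₀).add_mem hz b.2
  · intro z hz w hw h1
    obtain ⟨b, hbJ, hb⟩ := h.diff he₀ heu hτ hτC (Or.inr hJ) hz
    apply hJ
    rw [Ideal.eq_top_iff_one]
    have h2 : (1 : fixG C D₀) = b * ⟨w, hw⟩ := by
      apply Subtype.ext
      rw [Subring.coe_mul, Subring.coe_one, hb]
      exact h1.symm
    rw [h2]
    exact Ideal.mul_mem_right _ _ hbJ
-- END Q8

end Basic

section CaseB

variable {e₀ : F} (he₀ : e₀ ∈ E) (heu : IsU D₀ (e₀ / v ^ k))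

-- BEGIN Q9
/-- A homogeneous generator: the products in `prJ` have degree `2 k`. -/
private theorem q9_mem {T : ℕ → AddSubgroup F} {C C' : Subgroup G} {D₀ D : Subring F} {v : F} {k : ℕ}
    {E : Set F} {Λ₁ : Subring F} {j₀ : F} (h : QuadHyp T C C' D₀ D v k E Λ₁ j₀) {y : F}
    (hy : y ∈ prJ C C' E) : y ∈ T (k * 2) := by
  obtain ⟨e, he, e', he', _, _, rfl⟩ := hy
  have h1 := h.sys.mul (h.E_mem e he) (h.E_mem e' he')
  have h2 : k + k = k * 2 := by ring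
  rwa [h2] at h1

include h he₀ heu in
/-- TASK Q9. **If `J0 = ⊤` nothing is blown up.** Some generator `e / e₀` of `J0` is a unit of `fixG C D₀` (local ring).
`y₁ = e e₀` or `e₀ e` is in `prJ`, and `y₁ / e₀ ^ 2 = e / e₀` is a unit of `D₀`. For `y ∈ prJ`:
`y / e₀ ^ 2 ∈ D₀` (`h.div_mem`, `m = 2`, `E_mem`). `(j₀ / e₀ ^ 2) (y₁ / j₀) = y₁ / e₀ ^ 2` is a unit, both
factors lie in `D`, so `j₀ / e₀ ^ 2` is a unit of `D`, hence of `D₀` (`h.blow.dom`). So
`y / j₀ = (y / e₀ ^ 2) / (j₀ / e₀ ^ 2) ∈ D₀`, and `D ≤ D₀` by `h.blow.gen`. -/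
theorem QuadHyp.eq_of_top (hJ : J0 C C' D₀ E e₀ = ⊤) : D = D₀ := by
  have hreg : IsRegularLocalRing (fixG C D₀) := h.reg
  have hne : e₀ ≠ 0 := h.e_ne he₀ heu
  have hj : j₀ ≠ 0 := h.j_ne
  -- a generator which is a unit
  obtain ⟨a, ⟨e, he, hopp, ha⟩, hau⟩ : ∃ a : fixG C D₀,
      (∃ e ∈ E, Opp C C' e₀ e ∧ (a : F) = e / e₀) ∧ IsUnit a := by
    by_contra hcon
    push Not at hcon
    have h1 : J0 C C' D₀ E e₀ ≤ maximalIdeal (fixG C D₀) := by
      refine Ideal.span_le.2 fun a ha => ?_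
      exact (mem_maximalIdeal a).2 (hcon a ha)
    rw [hJ, top_le_iff] at h1
    exact (maximalIdeal.isMaximal (fixG C D₀)).ne_top h1
  have hU : IsU (fixG C D₀) (e / e₀) := by
    rw [← ha]
    exact (isUnit_iff_isU a).1 hau
  obtain ⟨_, w, hw, hew⟩ := hU
  have hwD : w ∈ D₀ := hw.1
  -- the product with `e₀`
  obtain ⟨y₁, hy₁, hy₁e⟩ : ∃ y₁ ∈ prJ C C' E, y₁ / e₀ ^ 2 = e / e₀ := by
    rcases hopp with ⟨h1, h2⟩ | ⟨h1, h2⟩
    · refine ⟨e * e₀, ⟨e, he, e₀, he₀, h1, h2, rfl⟩, ?_⟩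
      field_simp
    · refine ⟨e₀ * e, ⟨e₀, he₀, e, he, h2, h1, rfl⟩, ?_⟩
      field_simp
  have hdiv : ∀ y ∈ prJ C C' E, y / e₀ ^ 2 ∈ D₀ := fun y hy => h.div_mem he₀ heu (q9_mem h hy)
  have hy₁D : y₁ / j₀ ∈ D := h.blow.mem _ ⟨y₁, hy₁, rfl⟩
  have hmul : (j₀ / e₀ ^ 2) * ((y₁ / j₀) * w) = 1 := by
    have h1 : (j₀ / e₀ ^ 2) * ((y₁ / j₀) * w) = (y₁ / e₀ ^ 2) * w := by
      field_simp
    rw [h1, hy₁e, hew]
  have hinv : (y₁ / j₀) * w ∈ D₀ :=
    h.blow.dom _ (hdiv _ h.j_mem) _ (D.mul_mem hy₁D (h.blow.le hwD)) hmul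
  refine le_antisymm (h.blow.gen D₀ h.blow.le h.blow.dom le_rfl ?_) h.blow.le
  rintro z ⟨y, hy, rfl⟩
  have h2 : y / j₀ = (y / e₀ ^ 2) * ((y₁ / j₀) * w) := by
    calc y / j₀ = (y / j₀) * ((j₀ / e₀ ^ 2) * ((y₁ / j₀) * w)) := by rw [hmul, mul_one]
      _ = (y / e₀ ^ 2) * ((y₁ / j₀) * w) := by field_simp
  rw [h2]
  exact D₀.mul_mem (hdiv y hy) hinv
-- END Q9

end CaseB

section CaseA

variable {e₀ : F} (he₀ : e₀ ∈ E) (heu : IsU D₀ (e₀ / v ^ k)) {τ : G} (hτ : τ ∈ C') (hτC : τ ∉ C)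

/-- The generators of the blow-up. -/
def genJ (C C' : Subgroup G) (E : Set F) (j₀ : F) : Set F := {z | ∃ y ∈ prJ C C' E, z = y / j₀}

/-- The blow-up of the ring of invariants. -/
def R1 (C C' : Subgroup G) (D₀ D : Subring F) (E : Set F) (j₀ : F) : Subring F :=
  blowR (fixG C D₀) D (genJ C C' E j₀)

-- BEGIN Q10
include h in
/-- TASK Q10. `fixG C D₀` is dominated by `D`: `h.blow.dom`, and the inverse of a fixed element is fixed. -/
theorem QuadHyp.fix_dom : fixG C D₀ ≤ D ∧ ∀ a ∈ fixG C D₀, ∀ b ∈ D, a * b = 1 → b ∈ fixG C D₀ := by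
  refine ⟨fun z hz => h.blow.le hz.1, fun a ha b hb hab => ⟨h.blow.dom a ha.1 b hb hab, ?_⟩⟩
  intro g hg
  have h1 : a * (g • b) = 1 := by
    have h2 := congrArg (fun y => g • y) hab
    simp only [smul_mul', smul_one, ha.2 g hg] at h2
    exact h2
  have ha0 : a ≠ 0 := left_ne_zero_of_mul_eq_one hab
  exact mul_left_cancel₀ ha0 (h1.trans hab.symm)

private theorem q10_fix {C : Subgroup G} {a b : F} (ha : ∀ g ∈ C, g • a = a) (hab : a * b = 1) :
    ∀ g ∈ C, g • b = b := by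
  intro g hg
  have h1 : a * (g • b) = 1 := by
    have h2 := congrArg (fun y => g • y) hab
    simp only [smul_mul', smul_one, ha g hg] at h2
    exact h2
  have ha0 : a ≠ 0 := left_ne_zero_of_mul_eq_one hab
  exact mul_left_cancel₀ ha0 (h1.trans hab.symm)

include h in
private theorem q10_prJ {y : F} (hy : y ∈ prJ C C' E) :
    (∀ g ∈ C, g • y = y) ∧ ∀ g ∈ C', g ∉ C → g • y = -y := by
  obtain ⟨e, he, e', he', hE, hO, rfl⟩ := hy
  constructor
  · intro g hg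
    rw [smul_mul', h.E_fix e he g hg, h.E_fix e' he' g hg]
  · intro g hg hgC
    rw [smul_mul', hE g hg hgC, hO g hg hgC, mul_neg]

private theorem q10_div (g : G) (a b : F) : g • (a / b) = (g • a) / (g • b) :=
  map_div₀ (MulSemiringAction.toRingHom G F g) a b

include h in
/-- TASK Q10. The elements `y / j₀` are fixed by all of `C'`: `g • y = - y` for `y ∈ prJ`, `g ∈ C'`, `g ∉ C`. -/
private theorem q10_genJ_fix {z : F} (hz : z ∈ genJ C C' E j₀) : ∀ g ∈ C', g • z = z := by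
  obtain ⟨y, hy, rfl⟩ := hz
  intro g hg
  rw [q10_div]
  by_cases hgC : g ∈ C
  · rw [(q10_prJ h hy).1 g hgC, (q10_prJ h h.j_mem).1 g hgC]
  · rw [(q10_prJ h hy).2 g hg hgC, (q10_prJ h h.j_mem).2 g hg hgC, neg_div_neg_eq]

include h in
/-- TASK Q10. `fixG C D` is one of the rings `R'` in the definition of `blowR`: the elements `y / j₀` are fixed by `C`. -/
theorem QuadHyp.R1_le : R1 C C' D₀ D E j₀ ≤ fixG C D := by
  unfold R1
  refine blowR_min (fun z hz => hz.1) ?_ ?_ ?_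
  · intro a ha b hb hab
    exact ⟨hb, q10_fix ha.2 hab⟩
  · intro z hz
    exact ⟨h.blow.le hz.1, hz.2⟩
  · intro z hz
    exact ⟨h.blow.mem z hz, fun g hg => q10_genJ_fix h hz g (h.le hg)⟩

include h in
/-- TASK Q10. The elements `y / j₀` are fixed by all of `C'`: `g • y = - y` for `y ∈ prJ`, `g ∈ C'`, `g ∉ C`. -/
theorem QuadHyp.genJ_fix {z : F} (hz : z ∈ genJ C C' E j₀) : ∀ g ∈ C', g • z = z :=
  q10_genJ_fix h hz

include h hτ hτC in
/-- TASK Q10. The set of the `z ∈ R1` with `τ • z ∈ R1` and `τ • z - z` a nonunit of `D` is a dominated subring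
containing `fixG C D₀` (`hin`; nonunits of `fixG C D₀` are nonunits of `D`) and `genJ` (fixed by `τ`). -/
theorem QuadHyp.inertia_R1 (hin : InertiaG (fixG C D₀) τ) : InertiaG (R1 C C' D₀ D E j₀) τ := by
  have hfd := h.fix_dom
  have hloc := h.blow.loc
  have hS : ∀ z ∈ genJ C C' E j₀, z ∈ D := fun z hz => h.blow.mem z hz
  have hB : BlowGen (fixG C D₀) (R1 C C' D₀ D E j₀) (genJ C C' E j₀) :=
    blowGen_blowR hloc hfd.1 hfd.2 hS
  have hRD : R1 C C' D₀ D E j₀ ≤ D := blowR_le hfd.1 hS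
  have hRdom : ∀ a ∈ R1 C C' D₀ D E j₀, ∀ b ∈ D, a * b = 1 → b ∈ R1 C C' D₀ D E j₀ :=
    blowR_dom hfd.1 hS
  let R' : Subring F :=
    { carrier := {z | z ∈ R1 C C' D₀ D E j₀ ∧ τ • z ∈ R1 C C' D₀ D E j₀ ∧ IsN D (τ • z - z)}
      mul_mem' := by
        rintro a b ⟨ha, ha', ha''⟩ ⟨hb, hb', hb''⟩
        refine ⟨Subring.mul_mem _ ha hb, ?_, ?_⟩
        · rw [smul_mul']
          exact Subring.mul_mem _ ha' hb'
        · have h1 : τ • (a * b) - a * b = (τ • a - a) * τ • b + a * (τ • b - b) := by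
            rw [smul_mul']
            ring
          rw [h1]
          exact (ha''.mul_right (hRD hb')).add hloc (hb''.mul_left (hRD ha))
      one_mem' := by
        refine ⟨Subring.one_mem _, ?_, ?_⟩
        · rw [smul_one]
          exact Subring.one_mem _
        · rw [smul_one, sub_self]
          exact isN_zero D
      add_mem' := by
        rintro a b ⟨ha, ha', ha''⟩ ⟨hb, hb', hb''⟩
        refine ⟨Subring.add_mem _ ha hb, ?_, ?_⟩
        · rw [smul_add]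
          exact Subring.add_mem _ ha' hb'
        · have h1 : τ • (a + b) - (a + b) = (τ • a - a) + (τ • b - b) := by
            rw [smul_add]
            ring
          rw [h1]
          exact ha''.add hloc hb''
      zero_mem' := by
        refine ⟨Subring.zero_mem _, ?_, ?_⟩
        · rw [smul_zero]
          exact Subring.zero_mem _
        · rw [smul_zero, sub_self]
          exact isN_zero D
      neg_mem' := by
        rintro a ⟨ha, ha', ha''⟩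
        refine ⟨Subring.neg_mem _ ha, ?_, ?_⟩
        · rw [smul_neg]
          exact Subring.neg_mem _ ha'
        · have h1 : τ • (-a) - (-a) = -(τ • a - a) := by
            rw [smul_neg]
            ring
          rw [h1]
          exact ha''.neg }
  have hmem : ∀ z, z ∈ R' ↔ z ∈ R1 C C' D₀ D E j₀ ∧ τ • z ∈ R1 C C' D₀ D E j₀ ∧
      IsN D (τ • z - z) := fun z => Iff.rfl
  have hmain : R1 C C' D₀ D E j₀ ≤ R' := by
    refine blowR_min (fun z hz => hRD hz.1) ?_ ?_ ?_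
    · intro a ha b hb hab
      have hb1 : b ∈ R1 C C' D₀ D E j₀ := hRdom a ha.1 b hb hab
      have hτab : τ • a * τ • b = 1 := by
        rw [← smul_mul', hab, smul_one]
      have haU : IsU D a := ⟨hRD ha.1, b, hb, hab⟩
      have hτaU : IsU D (τ • a) := by
        have h1 := haU.sub hloc ha.2.2.neg
        rw [sub_neg_eq_add, add_sub_cancel] at h1
        exact h1
      obtain ⟨-, w, hw, hw1⟩ := hτaU
      have hτb : τ • b = w :=
        mul_left_cancel₀ (left_ne_zero_of_mul_eq_one hτab) (hτab.trans hw1.symm)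
      have hτbD : τ • b ∈ D := by
        rw [hτb]
        exact hw
      refine ⟨hb1, hRdom (τ • a) ha.2.1 (τ • b) hτbD hτab, ?_⟩
      have h1 : τ • b - b = (b * τ • b) * -(τ • a - a) := by
        calc τ • b - b = τ • b * 1 - b * 1 := by ring
          _ = τ • b * (a * b) - b * (τ • a * τ • b) := by rw [hab, hτab]
          _ = _ := by ring
      rw [h1]
      exact ha.2.2.neg.mul_left (D.mul_mem hb hτbD)
    · intro z hz
      refine ⟨hB.le hz, hB.le (hin.1 z hz), ?_⟩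
      refine ⟨D.sub_mem (hfd.1 (hin.1 z hz)) (hfd.1 hz), fun w hw hw1 => ?_⟩
      have hz' : τ • z - z ∈ fixG C D₀ := Subring.sub_mem _ (hin.1 z hz) hz
      exact hin.2 z hz w (hfd.2 _ hz' w hw hw1) hw1
    · intro z hz
      have h1 : τ • z = z := h.genJ_fix hz τ hτ
      refine ⟨hB.mem z hz, ?_, ?_⟩
      · rw [h1]
        exact hB.mem z hz
      · rw [h1, sub_self]
        exact isN_zero D
  exact ⟨fun z hz => (hmain hz).2.1, fun z hz w hw => (hmain hz).2.2.2 w (hRD hw)⟩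
-- END Q10

-- BEGIN Q11
/-- The generators of opposite sign are anti-invariant. -/
private theorem q11_opp {C C' : Subgroup G} {e₀ e : F} {τ : G} (hτ : τ ∈ C') (hτC : τ ∉ C)
    (hopp : Opp C C' e₀ e) : τ • (e / e₀) = -(e / e₀) := by
  rw [smul_div₀']
  rcases hopp with ⟨h1, h2⟩ | ⟨h1, h2⟩
  · rw [h1 τ hτ hτC, h2 τ hτ hτC, div_neg]
  · rw [h1 τ hτ hτC, h2 τ hτ hτC, neg_div]

/-- Every product in `prJ` has a factor of opposite sign. -/
private theorem q11_split {T : ℕ → AddSubgroup F} {C C' : Subgroup G} {D₀ D : Subring F} {v : F}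
    {k : ℕ} {E : Set F} {Λ₁ : Subring F} {j₀ e₀ : F} (h : QuadHyp T C C' D₀ D v k E Λ₁ j₀)
    (he₀ : e₀ ∈ E) {y : F} (hy : y ∈ prJ C C' E) :
    ∃ e ∈ E, ∃ e' ∈ E, Opp C C' e₀ e ∧ y = e * e' := by
  obtain ⟨e, he, e', he', h1, h2, rfl⟩ := hy
  rcases h.E_sgn e₀ he₀ with h0 | h0
  · exact ⟨e', he', e, he, Or.inr ⟨h2, h0⟩, mul_comm _ _⟩
  · exact ⟨e, he, e', he', Or.inl ⟨h1, h0⟩, rfl⟩

/-- The quotients `e / e₀`. -/
private theorem q11_div {T : ℕ → AddSubgroup F} {C C' : Subgroup G} {D₀ D : Subring F} {v : F}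
    {k : ℕ} {E : Set F} {Λ₁ : Subring F} {j₀ e₀ : F} (h : QuadHyp T C C' D₀ D v k E Λ₁ j₀)
    (he₀ : e₀ ∈ E) (heu : IsU D₀ (e₀ / v ^ k)) {e : F} (he : e ∈ E) : e / e₀ ∈ fixG C D₀ := by
  have h1 : e ∈ T (k * 1) := by
    rw [mul_one]
    exact h.E_mem e he
  have h2 := h.div_fix he₀ heu h1 (h.E_fix e he)
  rwa [pow_one] at h2

/-- One half. -/
private theorem q11_half {T : ℕ → AddSubgroup F} {C C' : Subgroup G} {D₀ D : Subring F} {v : F}
    {k : ℕ} {E : Set F} {Λ₁ : Subring F} {j₀ : F} (h : QuadHyp T C C' D₀ D v k E Λ₁ j₀) :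
    ∃ w ∈ fixG C D₀, 2 * w = 1 := by
  obtain ⟨w, hw, hw2⟩ := h.two
  exact ⟨w, ⟨h.lam_le hw, fun g hg => h.lam_fix w hw g (h.le hg)⟩, hw2⟩

include h he₀ heu hτ hτC in
/-- TASK Q11. The element `j₀ / e₀ ^ 2` of `fixG C D₀` is in the ideal generated by the `τ • a - a`: `j₀ = e e'` with one
of the factors of opposite sign, say `e`; `j₀ / e₀ ^ 2 = (e / e₀) (e' / e₀)` and
`e / e₀ = - (τ • (e / e₀) - e / e₀) w` with `2 w = 1`. -/
theorem QuadHyp.j_mem_span : ∃ b : fixG C D₀, (b : F) = j₀ / e₀ ^ 2 ∧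
    b ∈ Ideal.span {z : fixG C D₀ | ∃ a ∈ fixG C D₀, (z : F) = τ • a - a} := by
  obtain ⟨e, he, e', he', hopp, hj⟩ := q11_split h he₀ h.j_mem
  obtain ⟨w, hw, hw2⟩ := q11_half h
  have ha : e / e₀ ∈ fixG C D₀ := q11_div h he₀ heu he
  have ha' : e' / e₀ ∈ fixG C D₀ := q11_div h he₀ heu he'
  have hτa : τ • (e / e₀) = -(e / e₀) := q11_opp hτ hτC hopp
  have hz : τ • (e / e₀) - e / e₀ ∈ fixG C D₀ := by
    rw [hτa]
    exact (fixG C D₀).sub_mem ((fixG C D₀).neg_mem ha) ha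
  let z : fixG C D₀ := ⟨τ • (e / e₀) - e / e₀, hz⟩
  let c : fixG C D₀ := ⟨-(w * (e' / e₀)), (fixG C D₀).neg_mem ((fixG C D₀).mul_mem hw ha')⟩
  refine ⟨c * z, ?_, Ideal.mul_mem_left _ c (Ideal.subset_span ⟨e / e₀, ha, rfl⟩)⟩
  have h1 : ((c * z : fixG C D₀) : F) = -(w * (e' / e₀)) * (τ • (e / e₀) - e / e₀) := rfl
  rw [h1, hτa, hj]
  have h2 : -(w * (e' / e₀)) * (-(e / e₀) - e / e₀) = (2 * w) * ((e / e₀) * (e' / e₀)) := by ring
  rw [h2, hw2, one_mul, div_mul_div_comm, sq]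

include h he₀ heu hτ hτC in
/-- TASK Q11. For `a ∈ fixG C D₀` the quotient `(τ • a - a) / (j₀ / e₀ ^ 2)` lies in `R1`: by `QuadHyp.diff`
`τ • a - a ∈ J0` is a sum of `c_i (e_i / e₀)` with `e_i` of opposite sign, and `e_i / e₀ = (e_i e₀) / e₀ ^ 2` with
`e_i e₀ ∈ prJ` (or `e₀ e_i`). -/
theorem QuadHyp.quot_mem (hin : InertiaG (fixG C D₀) τ) {a : F} (ha : a ∈ fixG C D₀) :
    ∃ q ∈ R1 C C' D₀ D E j₀, τ • a - a = (j₀ / e₀ ^ 2) * q := by
  have hne : e₀ ≠ 0 := h.e_ne he₀ heu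
  have hj : j₀ ≠ 0 := h.j_ne
  obtain ⟨b, hb, hba⟩ := h.diff he₀ heu hτ hτC (Or.inl hin) ha
  rw [← hba]
  have hA : fixG C D₀ ≤ R1 C C' D₀ D E j₀ := by
    intro x hx
    refine Subring.mem_sInf.2 ?_
    rintro R' ⟨_, _, h3, _⟩
    exact h3 hx
  have hG : ∀ z ∈ genJ C C' E j₀, z ∈ R1 C C' D₀ D E j₀ := by
    intro x hx
    refine Subring.mem_sInf.2 ?_
    rintro R' ⟨_, _, _, h4⟩
    exact h4 x hx
  refine Submodule.span_induction (p := fun (b : fixG C D₀) _ =>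
    ∃ q ∈ R1 C C' D₀ D E j₀, (b : F) = (j₀ / e₀ ^ 2) * q) ?_ ?_ ?_ ?_ hb
  · rintro x ⟨e, he, hopp, hx⟩
    obtain ⟨y₁, hy₁, hy₁e⟩ : ∃ y₁ ∈ prJ C C' E, y₁ / e₀ ^ 2 = e / e₀ := by
      rcases hopp with ⟨h1, h2⟩ | ⟨h1, h2⟩
      · refine ⟨e * e₀, ⟨e, he, e₀, he₀, h1, h2, rfl⟩, ?_⟩
        field_simp
      · refine ⟨e₀ * e, ⟨e₀, he₀, e, he, h2, h1, rfl⟩, ?_⟩
        field_simp
    refine ⟨y₁ / j₀, hG _ ⟨y₁, hy₁, rfl⟩, ?_⟩
    rw [hx, ← hy₁e]
    field_simp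
  · exact ⟨0, (R1 C C' D₀ D E j₀).zero_mem, by rw [mul_zero]; rfl⟩
  · rintro x y _ _ ⟨q, hq, hxq⟩ ⟨q', hq', hyq⟩
    refine ⟨q + q', (R1 C C' D₀ D E j₀).add_mem hq hq', ?_⟩
    rw [mul_add, ← hxq, ← hyq]
    rfl
  · rintro c x _ ⟨q, hq, hxq⟩
    refine ⟨(c : F) * q, (R1 C C' D₀ D E j₀).mul_mem (hA c.2) hq, ?_⟩
    have h1 : ((c • x : fixG C D₀) : F) = (c : F) * (x : F) := rfl
    rw [h1, hxq]
    ring

include h he₀ heu hτ hτC in
/-- TASK Q11. For `hgen` in `tame_blow`: if `q = (τ • a - a) / (j₀ / e₀ ^ 2) ∈ R'` for all `a ∈ fixG C D₀` then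
`y / j₀ ∈ R'` for `y = e e' ∈ prJ`: one factor, say `e`, is of opposite sign; with `a = e / e₀`:
`τ • a - a = - 2 a`, so `a / (j₀ / e₀ ^ 2) ∈ R'` (`2` is a unit), and `y / j₀ = (a / (j₀ / e₀ ^ 2)) (e' / e₀)`. -/
theorem QuadHyp.genJ_mem_of_quot {R' : Subring F} (hA : fixG C D₀ ≤ R')
    (hR : ∀ a ∈ fixG C D₀, ∀ q ∈ R1 C C' D₀ D E j₀, τ • a - a = (j₀ / e₀ ^ 2) * q → q ∈ R')
    (hin : InertiaG (fixG C D₀) τ) {z : F} (hz : z ∈ genJ C C' E j₀) : z ∈ R' := by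
  have hne : e₀ ≠ 0 := h.e_ne he₀ heu
  have hj : j₀ ≠ 0 := h.j_ne
  obtain ⟨y, hy, rfl⟩ := hz
  obtain ⟨e, he, e', he', hopp, rfl⟩ := q11_split h he₀ hy
  obtain ⟨w, hw, hw2⟩ := q11_half h
  have ha : e / e₀ ∈ fixG C D₀ := q11_div h he₀ heu he
  have ha' : e' / e₀ ∈ fixG C D₀ := q11_div h he₀ heu he'
  have hτa : τ • (e / e₀) = -(e / e₀) := q11_opp hτ hτC hopp
  obtain ⟨q, hq, hqa⟩ := h.quot_mem he₀ heu hτ hτC hin ha
  have hqR : q ∈ R' := hR _ ha q hq hqa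
  have h1 : e * e' / j₀ = -(w * q) * (e' / e₀) := by
    have h2 : (j₀ / e₀ ^ 2) * q = -2 * (e / e₀) := by
      rw [← hqa, hτa]
      ring
    have h3 : q = -2 * (e / e₀) * (e₀ ^ 2 / j₀) := by
      rw [← h2]
      field_simp
    rw [h3]
    have h4 : -(w * (-2 * (e / e₀) * (e₀ ^ 2 / j₀))) * (e' / e₀) =
        (2 * w) * ((e / e₀) * (e₀ ^ 2 / j₀) * (e' / e₀)) := by ring
    rw [h4, hw2, one_mul]
    field_simp
  rw [h1]
  exact R'.mul_mem (R'.neg_mem (R'.mul_mem (hA hw) hqR)) (hA ha')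
-- END Q11

include h he₀ heu hτ hτC in
/-- **The blow-up of the ring of invariants is regular.** -/
theorem QuadHyp.regular_R1 (hin : InertiaG (fixG C D₀) τ) :
    IsRegularLocalRing (R1 C C' D₀ D E j₀) ∧ ∃ y ∈ R1 C C' D₀ D E j₀, τ • y - y ≠ 0 ∧
      ∀ w ∈ R1 C C' D₀ D E j₀, ∃ c ∈ R1 C C' D₀ D E j₀, τ • w - w = c * (τ • y - y) := by
  have hfd := h.fix_dom
  have hS : ∀ z ∈ genJ C C' E j₀, z ∈ D := fun z hz => h.blow.mem z hz
  have hB := blowGen_blowR h.blow.loc hfd.1 hfd.2 hS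
  obtain ⟨b, hb, hbm⟩ := h.j_mem_span he₀ heu hτ hτC
  have he0 := h.e_ne he₀ heu
  have hin' := h.inertia_R1 hτ hτC hin
  refine tame_blow (A := fixG C D₀) (D := R1 C C' D₀ D E j₀) h.reg hB.loc hB.le hB.dom
    (MulSemiringAction.toRingHom G F τ) ?_ hin.1 hin'.1 hin.2 ?_ b ?_ hbm ?_ ?_
  · intro z hz
    exact smul_smul_of_idx h.le h.idx hτ hτC (h.R1_le hz).2
  · obtain ⟨w, hw, hw2⟩ := h.two
    exact ⟨w, ⟨h.lam_le hw, fun g hg => h.lam_fix w hw g (h.le hg)⟩, hw2⟩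
  · rw [hb]
    exact div_ne_zero h.j_ne (pow_ne_zero _ he0)
  · intro a ha
    rw [hb]
    exact h.quot_mem he₀ heu hτ hτC hin ha
  · intro R' h1 h2 h3 h4
    refine hB.gen R' h1 h2 h3 fun z hz => ?_
    exact h.genJ_mem_of_quot he₀ heu hτ hτC h3 (fun a ha q hq h5 => h4 a ha q hq (by rw [hb]; exact h5))
      hin hz

-- BEGIN Q12
theorem q12_div_pow_mem {R : Subring F} {J : Set F} {j : F} (hJ : ∀ z ∈ J, z / j ∈ R) :
    ∀ (m : ℕ) (y : F), y ∈ J ^ m → y / j ^ m ∈ R := by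
  intro m
  induction m with
  | zero =>
    intro y hy
    rw [pow_zero, Set.mem_one] at hy
    rw [hy, pow_zero, div_one]
    exact R.one_mem
  | succ m ih =>
    intro y hy
    rw [pow_succ, Set.mem_mul] at hy
    obtain ⟨a, ha, b, hb, rfl⟩ := hy
    rw [pow_succ, mul_div_mul_comm]
    exact R.mul_mem (ih a ha) (hJ b hb)

theorem q12_integral_mono {A B : Subring F} (hAB : A ≤ B) {z : F} (hz : IsIntegral A z) :
    IsIntegral B z :=
  hz.map_of_comp_eq (Subring.inclusion hAB) (RingHom.id F) rfl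

include h he₀ heu in
/-- TASK Q12. Let `u ∈ mulT T prJ (k n)` be fixed by `C` and `N = e₀ ^ n j₀ ^ (k n)`; then `u / N ∈ R1`, if `R1` is regular:
(i) it is integral over `R1`: `u` is a sum of `t y` with `t ∈ T (k n)`, `y ∈ prJ ^ (k n)`
(`AddSubgroup.closure_induction`), `t y / N = (t / e₀ ^ n) (y / j₀ ^ (k n))`, the second factor is in `R1` and the
first is integral over `fixG C D₀ ≤ R1` by `isIntegral_of_smul_mem` (`g • (t / e₀ ^ n) = (g • t) / e₀ ^ n ∈ D₀`).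
(ii) it is a fraction of elements of `fixG C D₀`: `u ∈ T (k (n + 2 k n))` by `mulT_le` (`d = 2 k`), so
`a = u / e₀ ^ (n + 2 k n)` and `b = j₀ ^ (k n) / e₀ ^ (2 k n)` lie in `fixG C D₀` (`h.div_fix`), and `(u / N) b = a`.
Then `mem_of_isIntegral`. -/
theorem QuadHyp.mem_R1 (hreg : IsRegularLocalRing (R1 C C' D₀ D E j₀)) {n : ℕ} {u : F}
    (hu : u ∈ mulT T (prJ C C' E) (k * n)) (huC : ∀ g ∈ C, g • u = u) :
    u / (e₀ ^ n * j₀ ^ (k * n)) ∈ R1 C C' D₀ D E j₀ := by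
  have hreg' := hreg
  have hfd := h.fix_dom
  have hS : ∀ z ∈ genJ C C' E j₀, z ∈ D := fun z hz => h.blow.mem z hz
  have hB := blowGen_blowR h.blow.loc hfd.1 hfd.2 hS
  have hle : fixG C D₀ ≤ R1 C C' D₀ D E j₀ := hB.le
  have hgen : ∀ z ∈ prJ C C' E, z / j₀ ∈ R1 C C' D₀ D E j₀ :=
    fun z hz => hB.mem _ ⟨z, hz, rfl⟩
  have he0 : e₀ ≠ 0 := h.e_ne he₀ heu
  have hj0 : j₀ ≠ 0 := h.j_ne
  have hJT : ∀ y ∈ prJ C C' E, y ∈ T (2 * k) := by
    rintro y ⟨e, he, e', he', -, -, rfl⟩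
    rw [two_mul]
    exact h.sys.mul (h.E_mem e he) (h.E_mem e' he')
  have hJC : ∀ y ∈ prJ C C' E, ∀ g ∈ C, g • y = y := by
    rintro y ⟨e, he, e', he', -, -, rfl⟩ g hg
    rw [smul_mul', h.E_fix e he g hg, h.E_fix e' he' g hg]
  -- the element is integral
  have hint : IsIntegral (R1 C C' D₀ D E j₀) (u / (e₀ ^ n * j₀ ^ (k * n))) := by
    have key : ∀ w ∈ mulT T (prJ C C' E) (k * n),
        IsIntegral (R1 C C' D₀ D E j₀) (w / (e₀ ^ n * j₀ ^ (k * n))) := by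
      intro w hw
      unfold mulT at hw
      induction hw using AddSubgroup.closure_induction with
      | mem w hw =>
        obtain ⟨t, ht, y, hy, rfl⟩ := hw
        rw [mul_div_mul_comm]
        have h1 : IsIntegral (fixG C D₀) (t / e₀ ^ n) := by
          apply isIntegral_of_smul_mem
          intro g hg
          have h2 : g • (t / e₀ ^ n) = (g • t) / e₀ ^ n := by
            rw [div_eq_mul_inv, smul_mul', smul_inv'', smul_pow', h.E_fix e₀ he₀ g hg,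
              ← div_eq_mul_inv]
          rw [h2]
          exact h.div_mem he₀ heu (h.stab g (h.le hg) _ t ht)
        have h3 : y / j₀ ^ (k * n) ∈ R1 C C' D₀ D E j₀ := q12_div_pow_mem hgen _ y hy
        have h4 : IsIntegral (R1 C C' D₀ D E j₀) (y / j₀ ^ (k * n)) :=
          isIntegral_algebraMap (R := R1 C C' D₀ D E j₀) (A := F) (x := ⟨_, h3⟩)
        exact (q12_integral_mono hle h1).mul h4
      | zero =>
        rw [zero_div]
        exact isIntegral_zero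
      | add a b _ _ ha hb =>
        rw [add_div]
        exact ha.add hb
      | neg a _ ha =>
        rw [neg_div]
        exact ha.neg
    exact key u hu
  -- it is a fraction
  have hu' : u ∈ T (k * (n + 2 * k * n)) := by
    have h1 := mulT_le h.sys hJT hu
    have h2 : k * n + 2 * k * (k * n) = k * (n + 2 * k * n) := by ring
    rwa [h2] at h1
  have ha : u / e₀ ^ (n + 2 * k * n) ∈ fixG C D₀ := h.div_fix he₀ heu hu' huC
  have hj : j₀ ^ (k * n) ∈ T (k * (2 * k * n)) := by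
    have h1 := h.sys.pow (hJT j₀ h.j_mem) (k * n)
    have h2 : 2 * k * (k * n) = k * (2 * k * n) := by ring
    rwa [h2] at h1
  have hb : j₀ ^ (k * n) / e₀ ^ (2 * k * n) ∈ fixG C D₀ :=
    h.div_fix he₀ heu hj fun g hg => by rw [smul_pow', hJC j₀ h.j_mem g hg]
  have hb0 : j₀ ^ (k * n) / e₀ ^ (2 * k * n) ≠ 0 :=
    div_ne_zero (pow_ne_zero _ hj0) (pow_ne_zero _ he0)
  have hz : u / (e₀ ^ n * j₀ ^ (k * n)) * (j₀ ^ (k * n) / e₀ ^ (2 * k * n)) =
      u / e₀ ^ (n + 2 * k * n) := by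
    have hA : e₀ ^ n ≠ 0 := pow_ne_zero _ he0
    have hB' : j₀ ^ (k * n) ≠ 0 := pow_ne_zero _ hj0
    have hC' : e₀ ^ (2 * k * n) ≠ 0 := pow_ne_zero _ he0
    rw [pow_add]
    generalize e₀ ^ n = A at *
    generalize j₀ ^ (k * n) = B at *
    generalize e₀ ^ (2 * k * n) = C₁ at *
    field_simp
  exact mem_of_isIntegral (R1 C C' D₀ D E j₀) (hle ha) (hle hb) hb0 hz hint
-- END Q12

-- BEGIN Q13
include h in
/-- TASK Q13. The graded ring of the blow-up: `smul_mem_mulT`, where `g • y = y` for `g ∈ C` and `g • y = - y` for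
`g ∈ C'` not in `C`, `y ∈ prJ`. -/
theorem QuadHyp.mulT_stable : ∀ g ∈ C', ∀ n, ∀ f ∈ mulT T (prJ C C' E) n,
    g • f ∈ mulT T (prJ C C' E) n := by
  intro g hg
  refine smul_mem_mulT (h.stab g hg) ?_
  intro y hy
  obtain ⟨e, he, e', he', hE, hO, hye⟩ := hy
  by_cases hgC : g ∈ C
  · left
    have h1 : g • y = y := by
      rw [hye, smul_mul', h.E_fix e he g hgC, h.E_fix e' he' g hgC]
    rw [h1]
    exact ⟨e, he, e', he', hE, hO, hye⟩
  · right
    have h1 : -(g • y) = y := by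
      rw [hye, smul_mul', hE g hg hgC, hO g hg hgC, mul_neg, neg_neg]
    rw [h1]
    exact ⟨e, he, e', he', hE, hO, hye⟩

include h in
/-- TASK Q13. -/
theorem QuadHyp.pt' : GPt (mulT T (prJ C C' E)) D (v * j₀) :=
  h.pt.mulT h.sys h.blow h.j_mem h.j_ne

include h he₀ heu in
/-- TASK Q13. **The invariants of the blow-up are the blow-up of the invariants.** Let `z ∈ fixG C D`; by `exists_inv` for
`h.pt'` there are `n ≥ 1` and `f`, `f'` in `mulT T prJ n`, fixed by `C`, `z f' = f`, `IsU D (f' / (v j₀) ^ n)`. With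
`N = e₀ ^ n j₀ ^ (k n)`: `x = f f' ^ (k - 1) / N` and `x' = f' ^ k / N` lie in `R1` (`mem_R1`), and
`x' = (f' / (v j₀) ^ n) ^ k (v ^ k / e₀) ^ n` is a unit of `D`, so `x'⁻¹ ∈ R1` (`blowR_dom`); `z = x / x'`. -/
theorem QuadHyp.fix_le (hreg : IsRegularLocalRing (R1 C C' D₀ D E j₀)) :
    fixG C D ≤ R1 C C' D₀ D E j₀ := by
  intro z hz
  have hfd := h.fix_dom
  have hS : ∀ z ∈ genJ C C' E j₀, z ∈ D := fun z hz => h.blow.mem z hz
  have hsys : GSys (mulT T (prJ C C' E)) := gSys_mulT h.sys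
  obtain ⟨n, hn, f, hf, f', hf', hfC, hfC', hu, hzf⟩ := h.pt'.exists_inv hsys
    (K := C) (fun g hg => h.mulT_stable g (h.le hg)) hz
  obtain ⟨l, hl⟩ : ∃ l, k = l + 1 := ⟨k - 1, by have := h.kpos; omega⟩
  have he0 := h.e_ne he₀ heu
  have hj0 := h.j_ne
  have hv0 := h.pt.ne
  have hpw : ∀ i, f' ^ i ∈ mulT T (prJ C C' E) (n * i) := fun i => hsys.pow hf' i
  have hx1 : f * f' ^ l ∈ mulT T (prJ C C' E) (k * n) := by
    have h1 := hsys.mul hf (hpw l)
    have h2 : n + n * l = k * n := by rw [hl]; ring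
    rwa [h2] at h1
  have hx1' : f' ^ k ∈ mulT T (prJ C C' E) (k * n) := by
    have h1 := hpw k
    rwa [mul_comm] at h1
  have hx := h.mem_R1 he₀ heu hreg hx1 (fun g hg => by
    rw [smul_mul', smul_pow', hfC g hg, hfC' g hg])
  have hx' := h.mem_R1 he₀ heu hreg hx1' (fun g hg => by
    rw [smul_pow', hfC' g hg])
  obtain ⟨-, w, hw, hw1⟩ := hu
  have hf'0 : f' ≠ 0 := by
    rintro rfl
    rw [zero_div, zero_mul] at hw1
    exact zero_ne_one hw1
  have hN0 : e₀ ^ n * j₀ ^ (k * n) ≠ 0 := mul_ne_zero (pow_ne_zero _ he0) (pow_ne_zero _ hj0)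
  have hwe : w = (v * j₀) ^ n / f' := by
    rw [eq_div_iff hf'0]
    have h1 : (v * j₀) ^ n ≠ 0 := pow_ne_zero _ (mul_ne_zero hv0 hj0)
    rw [div_mul_eq_mul_div, div_eq_one_iff_eq h1] at hw1
    rw [mul_comm]
    exact hw1
  have hy : (e₀ ^ n * j₀ ^ (k * n)) / f' ^ k ∈ D := by
    have h1 : (e₀ ^ n * j₀ ^ (k * n)) / f' ^ k = w ^ k * (e₀ / v ^ k) ^ n := by
      rw [hwe, div_pow, div_pow, mul_pow, mul_pow, ← pow_mul, ← pow_mul, ← pow_mul, mul_comm n k]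
      have h2 : v ^ (k * n) ≠ 0 := pow_ne_zero _ hv0
      field_simp
    rw [h1]
    exact D.mul_mem (D.pow_mem hw _) (D.pow_mem (h.blow.le heu.1) _)
  have hy' : (e₀ ^ n * j₀ ^ (k * n)) / f' ^ k ∈ R1 C C' D₀ D E j₀ := by
    refine blowR_dom hfd.1 hS _ hx' _ hy ?_
    have h2 : f' ^ k ≠ 0 := pow_ne_zero _ hf'0
    field_simp
  have hz' : z = f * f' ^ l / (e₀ ^ n * j₀ ^ (k * n)) * ((e₀ ^ n * j₀ ^ (k * n)) / f' ^ k) := by
    have h2 : f' ^ l ≠ 0 := pow_ne_zero _ hf'0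
    rw [← hzf, hl, pow_succ]
    rw [hl] at hN0
    field_simp
  rw [hz']
  exact Subring.mul_mem _ hx hy'
-- END Q13

-- BEGIN Q14
include h hτ hτC in
/-- The action of `C'` on the invariants of `C`. -/
theorem q14_smul {z : F} (hz : z ∈ fixG C D) (g : C') :
    ((g : G) ∈ C ∧ g • z = z) ∨ ((g : G) ∉ C ∧ g • z = τ • z) := by
  by_cases hg : (g : G) ∈ C
  · exact Or.inl ⟨hg, hz.2 g hg⟩
  · exact Or.inr ⟨hg, smul_eq_of_idx h.le h.idx hτ hτC g.2 hg hz.2⟩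

include h hτ hτC in
/-- TASK Q14. The group `C'` acts on `R = fixG C D` through `τ`: all `g ∈ C'` are inert (`g ∈ C` acts trivially,
otherwise `g • z = τ • z`, `smul_eq_of_idx`). So `H = ⊤`, and `fixG ⊤ R` is the ring of the elements fixed by `τ`,
regular by `isRegularLocalRing_fixedRing` (QWInv.lean), see the proof of `good_of_principal` (GI/Inert.lean). -/
theorem QuadHyp.good_a {R : Subring F} (hR : R = fixG C D) (hin : InertiaG R τ)
    (hreg : IsRegularLocalRing R)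
    (hpr : ∃ y ∈ R, τ • y - y ≠ 0 ∧ ∀ w ∈ R, ∃ c ∈ R, τ • w - w = c * (τ • y - y)) : Good C' R := by
  have hact : ∀ z ∈ R, ∀ g : C', g • z = z ∨ g • z = τ • z := by
    intro z hz g
    rw [hR] at hz
    rcases q14_smul h hτ hτC hz g with h1 | h1
    · exact Or.inl h1.2
    · exact Or.inr h1.2
  have hine : ∀ g : C', InertiaG R g := by
    intro g
    refine ⟨fun z hz => ?_, fun z hz w hw => ?_⟩
    · rcases hact z hz g with h1 | h1
      · rw [h1]; exact hz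
      · rw [h1]; exact hin.1 z hz
    · rcases hact z hz g with h1 | h1
      · rw [h1, sub_self, zero_mul]
        exact zero_ne_one
      · rw [h1]; exact hin.2 z hz w hw
  refine ⟨⊤, fun g => ⟨fun _ => hine g, fun _ => Subgroup.mem_top g⟩, ?_⟩
  obtain ⟨y, hy, hy0, hyI⟩ := hpr
  have hloc : IsLocalRing R := inferInstance
  let τD : R →+* R := ((MulSemiringAction.toRingHom G F τ).comp R.subtype).codRestrict R
    (fun z => hin.1 _ z.2)
  have hτD : ∀ z : R, ((τD z : R) : F) = τ • (z : F) := fun z => rfl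
  have hy' : τD ⟨y, hy⟩ - ⟨y, hy⟩ ≠ 0 := by
    intro h1
    exact hy0 (congrArg Subtype.val h1)
  have hI' : ∀ z : R, ∃ c, τD z - z = c * (τD ⟨y, hy⟩ - ⟨y, hy⟩) := by
    intro z
    obtain ⟨c, hc, h1⟩ := hyI z z.2
    exact ⟨⟨c, hc⟩, Subtype.ext h1⟩
  have h3 : IsRegularLocalRing (fixedRing τD) := by
    apply isRegularLocalRing_fixedRing hreg _ hy' hI'
    intro z
    apply Subtype.ext
    rw [hτD, hτD]
    have hz : (z : F) ∈ fixG C D := by
      rw [← hR]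
      exact z.2
    exact smul_smul_of_idx h.le h.idx hτ hτC hz.2
  have hfix : ∀ z : F, z ∈ fixG (⊤ : Subgroup C') R ↔ z ∈ R ∧ τ • z = z := by
    intro z
    rw [mem_fixG]
    refine ⟨fun h1 => ⟨h1.1, h1.2 ⟨τ, hτ⟩ (Subgroup.mem_top _)⟩, fun h1 => ⟨h1.1, fun g _ => ?_⟩⟩
    rcases hact z h1.1 g with h2 | h2
    · exact h2
    · rw [h2]; exact h1.2
  let e : fixedRing τD ≃+* fixG (⊤ : Subgroup C') R :=
    { toFun := fun z => ⟨z.1.1, (hfix _).2 ⟨z.1.2, congrArg Subtype.val z.2⟩⟩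
      invFun := fun z => ⟨⟨z.1, ((hfix _).1 z.2).1⟩, Subtype.ext ((hfix _).1 z.2).2⟩
      left_inv := fun z => rfl
      right_inv := fun z => rfl
      map_mul' := fun a b => rfl
      map_add' := fun a b => rfl }
  exact IsRegularLocalRing.of_ringEquiv e

include h hτ hτC in
/-- TASK Q14. If `τ` is not inert: `H = C.subgroupOf C'`; the elements of `C` act trivially on `R`, and if `g ∈ C'`,
`g ∉ C` were inert then `τ` would be (`τ • z = g • z`). `fixG H R = R`. -/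
theorem QuadHyp.good_b {R : Subring F} (hR : R = fixG C D) (hin : ¬ InertiaG R τ)
    (hreg : IsRegularLocalRing R) : Good C' R := by
  have hact : ∀ z ∈ R, ∀ g : C',
      ((g : G) ∈ C ∧ g • z = z) ∨ ((g : G) ∉ C ∧ g • z = τ • z) := by
    intro z hz g
    rw [hR] at hz
    exact q14_smul h hτ hτC hz g
  refine ⟨C.subgroupOf C', fun g => ⟨fun hg => ?_, fun hg => ?_⟩, ?_⟩
  · have hg' : (g : G) ∈ C := Subgroup.mem_subgroupOf.1 hg
    refine ⟨fun z hz => ?_, fun z hz w hw => ?_⟩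
    · rcases hact z hz g with h1 | h1
      · rw [h1.2]; exact hz
      · exact absurd hg' h1.1
    · rcases hact z hz g with h1 | h1
      · rw [h1.2, sub_self, zero_mul]
        exact zero_ne_one
      · exact absurd hg' h1.1
  · by_contra hgC
    have hgC' : (g : G) ∉ C := fun h1 => hgC (Subgroup.mem_subgroupOf.2 h1)
    apply hin
    have heq : ∀ z ∈ R, τ • z = g • z := by
      intro z hz
      rcases hact z hz g with h1 | h1
      · exact absurd h1.1 hgC'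
      · exact h1.2.symm
    refine ⟨fun z hz => ?_, fun z hz w hw => ?_⟩
    · rw [heq z hz]; exact hg.1 z hz
    · rw [heq z hz]; exact hg.2 z hz w hw
  · have hfix : fixG (C.subgroupOf C') R = R := by
      apply le_antisymm
      · intro z hz
        exact hz.1
      · intro z hz
        refine ⟨hz, fun g hg => ?_⟩
        rcases hact z hz g with h1 | h1
        · exact h1.2
        · exact absurd (Subgroup.mem_subgroupOf.1 hg) h1.1
    rw [hfix]
    exact hreg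
-- END Q14

end CaseA

-- BEGIN Q15
include h in
/-- TASK Q15. **The tame quadratic step.** `e₀` from `h.exists_e`. In both cases apply `h.pt'.isRegular_fixG_of`
(`gSys_mulT`, `h.mulT_stable`, `h.le`, `conj_mem_of_idx`) with `k` and `e = e₀ * j₀ ^ k ∈ mulT T prJ k`
(fixed by `C`, and `e / (v j₀) ^ k = e₀ / v ^ k` is a unit of `D`, since it is a unit of `D₀`).
`Good C' (fixG C D)`: if `InertiaG (fixG C D₀) τ` then `R1 = fixG C D` by `R1_le`, `fix_le`, and `good_a` with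
`regular_R1`, `inertia_R1`. Otherwise `J0 = ⊤` (`J0_eq_top`), `D = D₀` (`eq_of_top`), `good_b`. -/
theorem QuadHyp.isRegular (hne : ∃ τ ∈ C', τ ∉ C) : IsRegularLocalRing (fixG C' D) := by
  obtain ⟨τ, hτ, hτC⟩ := hne
  obtain ⟨e₀, he₀, heu⟩ := h.exists_e
  have hnorm : ∀ g ∈ C', ∀ c ∈ C, g⁻¹ * c * g ∈ C := fun g hg c hc =>
    conj_mem_of_idx h.le h.idx hg hc
  have hsys : GSys (mulT T (prJ C C' E)) := gSys_mulT h.sys
  have hjk : j₀ ^ k ∈ (prJ C C' E) ^ k := Set.pow_mem_pow h.j_mem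
  have hmem : e₀ * j₀ ^ k ∈ mulT T (prJ C C' E) k := mul_mem_mulT (h.E_mem e₀ he₀) hjk
  have hjfix : ∀ g ∈ C, g • j₀ = j₀ := by
    obtain ⟨e, he, e', he', -, -, hj⟩ := h.j_mem
    intro g hg
    rw [hj, smul_mul', h.E_fix e he g hg, h.E_fix e' he' g hg]
  have hfix : ∀ g ∈ C, g • (e₀ * j₀ ^ k) = e₀ * j₀ ^ k := by
    intro g hg
    rw [smul_mul', smul_pow', hjfix g hg, h.E_fix e₀ he₀ g hg]
  have hq : e₀ * j₀ ^ k / (v * j₀) ^ k = e₀ / v ^ k := by
    rw [mul_pow, mul_div_mul_right _ _ (pow_ne_zero _ h.j_ne)]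
  have hu : IsU D (e₀ * j₀ ^ k / (v * j₀) ^ k) := by
    rw [hq]
    obtain ⟨w, hw, hw1⟩ := heu.2
    exact ⟨h.blow.le heu.1, w, h.blow.le hw, hw1⟩
  refine h.pt'.isRegular_fixG_of hsys h.mulT_stable h.le hnorm h.kpos hmem hfix hu ?_
  by_cases hin : InertiaG (fixG C D₀) τ
  · obtain ⟨hreg, hpr⟩ := h.regular_R1 he₀ heu hτ hτC hin
    have heq : R1 C C' D₀ D E j₀ = fixG C D := le_antisymm h.R1_le (h.fix_le he₀ heu hreg)
    have hg := h.good_a hτ hτC heq (h.inertia_R1 hτ hτC hin) hreg hpr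
    rwa [heq] at hg
  · have hJ := h.J0_eq_top he₀ heu hτ hτC hin
    have hD : D = D₀ := h.eq_of_top he₀ heu hJ
    have h1 : ¬ InertiaG (fixG C D) τ := by rw [hD]; exact hin
    have h2 : IsRegularLocalRing (fixG C D) := by rw [hD]; exact h.reg
    exact h.good_b hτ hτC rfl h1 h2
-- END Q15

end Pool.Agent.Lib.MP_6a3dac_ag.TW
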