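import Pool.Agent.Lib.MP_6a3dac_ag.TW.Sgn
import Pool.Agent.Lib.MP_6a3dac_ag.GI.Int

/-!
# Veronese generation of rings of invariants
-/

set_option autoImplicit false
set_option linter.unusedSectionVars false
set_option linter.unusedVariables false

namespace Pool.Agent.Lib.MP_6a3dac_ag.TW

open Pool.Agent.Lib.MP_6a3dac_ag GI
open scoped Pointwise

section Comb

-- BEGIN V1
/-- TASK V1. The total degree of a multiset is `∑ y ∈ Y, count y s * c y`; if `count y s < L / c y` for all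
`y ∈ Y` then it is at most `∑ y ∈ Y, (L / c y - 1) * c y ≤ |Y| (L - 1)`, which is `< |Y| L` if `Y` is not empty and `0`
otherwise, in both cases less than `|Y| * L + L`. So some `y` has
`L / c y ≤ count y s`, and `t = replicate (L / c y) y` (`Multiset.le_count_iff_replicate_le`) has degree `L`. -/
theorem exists_replicate {α : Type} [DecidableEq α] (Y : Finset α) (c : α → ℕ) (L : ℕ) (hL : 1 ≤ L)
    (hc : ∀ y ∈ Y, 1 ≤ c y ∧ c y ∣ L) (s : Multiset α) (hs : ∀ y ∈ s, y ∈ Y)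
    (hdeg : Y.card * L + L ≤ (s.map c).sum) : ∃ t ≤ s, (t.map c).sum = L := by
  by_cases hex : ∃ y ∈ Y, L / c y ≤ Multiset.count y s
  · obtain ⟨y, hy, hle⟩ := hex
    refine ⟨Multiset.replicate (L / c y) y, Multiset.le_count_iff_replicate_le.1 hle, ?_⟩
    rw [Multiset.map_replicate, Multiset.sum_replicate, smul_eq_mul]
    exact Nat.div_mul_cancel (hc y hy).2
  · exfalso
    push Not at hex
    have h1 : (s.map c).sum ≤ Y.card * L := by
      rw [Finset.sum_multiset_map_count]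
      have h2 : s.toFinset ⊆ Y := fun y hy => hs y (Multiset.mem_toFinset.1 hy)
      calc ∑ m ∈ s.toFinset, Multiset.count m s • c m ≤ ∑ m ∈ s.toFinset, L := by
            refine Finset.sum_le_sum fun y hy => ?_
            rw [smul_eq_mul]
            calc Multiset.count y s * c y ≤ L / c y * c y :=
                  Nat.mul_le_mul_right _ (hex y (h2 hy)).le
              _ = L := Nat.div_mul_cancel (hc y (h2 hy)).2
        _ = s.toFinset.card * L := by rw [Finset.sum_const, smul_eq_mul]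
        _ ≤ Y.card * L := Nat.mul_le_mul_right _ (Finset.card_le_card h2)
    omega

/-- TASK V1. Induction on `j` with `exists_replicate` (for `s`, then the induction hypothesis for `s - t`). -/
theorem exists_submultiset {α : Type} [DecidableEq α] (Y : Finset α) (c : α → ℕ) (L : ℕ) (hL : 1 ≤ L)
    (hc : ∀ y ∈ Y, 1 ≤ c y ∧ c y ∣ L) (j : ℕ) (s : Multiset α) (hs : ∀ y ∈ s, y ∈ Y)
    (hdeg : Y.card * L + j * L ≤ (s.map c).sum) : ∃ t ≤ s, (t.map c).sum = j * L := by
  induction j generalizing s with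
  | zero => exact ⟨0, Multiset.zero_le s, by simp⟩
  | succ j ih =>
    have h0 : Y.card * L + L ≤ (s.map c).sum := by
      refine le_trans ?_ hdeg
      rw [Nat.succ_mul]
      omega
    obtain ⟨t₁, ht₁, hs₁⟩ := exists_replicate Y c L hL hc s hs h0
    have h1 : (s.map c).sum = (t₁.map c).sum + ((s - t₁).map c).sum := by
      rw [← Multiset.sum_add, ← Multiset.map_add, add_comm t₁, Multiset.sub_add_cancel ht₁]
    have h2 : Y.card * L + j * L ≤ ((s - t₁).map c).sum := by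
      rw [Nat.succ_mul] at hdeg
      omega
    obtain ⟨t₂, ht₂, hs₂⟩ := ih (s - t₁)
      (fun y hy => hs y (Multiset.mem_of_le (Multiset.sub_le_self s t₁) hy)) h2
    refine ⟨t₁ + t₂, ?_, ?_⟩
    · rw [← Multiset.sub_add_cancel ht₁, add_comm t₁]
      exact Multiset.add_le_add_right ht₂
    · rw [Multiset.map_add, Multiset.sum_add, hs₁, hs₂, Nat.succ_mul, Nat.add_comm]
-- END V1

/-- The monomials of degree `k`. -/
def monE {M : Type} [CommRing M] (Y : Finset M) (c : M → ℕ) (k : ℕ) : Set M :=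
  {x | ∃ t : Multiset M, (∀ y ∈ t, y ∈ Y) ∧ (t.map c).sum = k ∧ x = t.prod}

-- BEGIN V2
/-- TASK V2. **Monomials of degree `k m` are products of `m` monomials of degree `k`**, `k = (|Y| + 1) L`. Induction
on `m ≥ 1`; for `m ≥ 2` split off `t` of degree `(|Y| + 1) L` by `exists_submultiset`
(`(|Y| + |Y| + 1) L ≤ 2 k ≤ k m`); `s = t + (s - t)`, `pow_succ`, `Set.mul_mem_mul`. -/
theorem monE_mul {M : Type} [CommRing M] (Y : Finset M) (c : M → ℕ) (L : ℕ) (hL : 1 ≤ L)
    (hc : ∀ y ∈ Y, 1 ≤ c y ∧ c y ∣ L) (m : ℕ) (hm : 1 ≤ m) :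
    monE Y c ((Y.card + 1) * L * m) ⊆ monE Y c ((Y.card + 1) * L) ^ m := by
  classical
  induction m, hm using Nat.le_induction with
  | base => rw [mul_one, pow_one]
  | succ m hm ih =>
    rintro x ⟨s, hs, hsum, rfl⟩
    have hdeg : Y.card * L + (Y.card + 1) * L ≤ (s.map c).sum := by
      rw [hsum]
      have h1 : Y.card * L ≤ (Y.card + 1) * L := Nat.mul_le_mul_right L (Nat.le_succ _)
      have h2 : (Y.card + 1) * L * 1 ≤ (Y.card + 1) * L * m := Nat.mul_le_mul_left _ hm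
      have h3 : (Y.card + 1) * L * (m + 1) = (Y.card + 1) * L * m + (Y.card + 1) * L := by ring
      omega
    obtain ⟨t, hts, htsum⟩ := exists_submultiset Y c L hL hc (Y.card + 1) s hs hdeg
    obtain ⟨u, rfl⟩ := Multiset.le_iff_exists_add.mp hts
    have husum : (u.map c).sum = (Y.card + 1) * L * m := by
      rw [Multiset.map_add, Multiset.sum_add, htsum] at hsum
      have h3 : (Y.card + 1) * L * (m + 1) = (Y.card + 1) * L + (Y.card + 1) * L * m := by ring
      omega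
    rw [pow_succ, add_comm t u, Multiset.prod_add]
    refine Set.mul_mem_mul (ih ⟨u, fun y hy => hs y (Multiset.mem_add.mpr (Or.inr hy)), husum, rfl⟩)
      ⟨t, fun y hy => hs y (Multiset.mem_add.mpr (Or.inl hy)), htsum, rfl⟩

/-- TASK V2. A multiset of degree `k` has at most `k` elements (`1 ≤ c y`), so there are finitely many. -/
theorem finite_monE {M : Type} [CommRing M] (Y : Finset M) (c : M → ℕ) (hc : ∀ y ∈ Y, 1 ≤ c y)
    (k : ℕ) : (monE Y c k).Finite := by
  classical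
  refine (((k • Y.val).powerset.map Multiset.prod).toFinset.finite_toSet).subset ?_
  rintro x ⟨t, ht, hsum, rfl⟩
  have hcard : t.card ≤ k := by
    have h1 := Multiset.card_nsmul_le_sum (s := t.map c) (a := 1) (by
      intro x hx
      obtain ⟨y, hy, rfl⟩ := Multiset.mem_map.mp hx
      exact hc y (ht y hy))
    rw [hsum, Multiset.card_map, smul_eq_mul, mul_one] at h1
    exact h1
  have hle : t ≤ k • Y.val := by
    rw [Multiset.le_iff_count]
    intro y
    by_cases hy : y ∈ t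
    · have h1 : Multiset.count y Y.val = 1 :=
        Multiset.count_eq_one_of_mem Y.nodup (ht y hy)
      rw [Multiset.count_nsmul, h1, mul_one]
      exact (Multiset.count_le_card y t).trans hcard
    · rw [Multiset.count_eq_zero_of_notMem hy]
      exact Nat.zero_le _
  simp only [Finset.mem_coe, Multiset.mem_toFinset, Multiset.mem_map, Multiset.mem_powerset]
  exact ⟨t, hle, rfl⟩
-- END V2

end Comb

variable {L M : Type} [Field L] [CommRing M] [Algebra L M] (ℳ : ℕ → Submodule L M) [GradedAlgebra ℳ]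
  {G : Type} [Group G] [Finite G] [MulSemiringAction G M]

/-- The hypotheses: the graded ring generated over the local ring `Λ` by the finite set `V₀` of elements of degree
`d`, stable under `C'`; `C` has index at most two in `C'`. -/
structure VerHyp (Λ : Subring M) (C C' : Subgroup G) (V₀ : Set M) (d : ℕ) : Prop where
  dpos : 1 ≤ d
  fin : V₀.Finite
  deg : ∀ w ∈ V₀, w ∈ ℳ d
  Λdeg : ∀ c ∈ Λ, c ∈ ℳ 0
  Λst : ∀ g ∈ C', ∀ c ∈ Λ, g • c ∈ Λ
  Vst : ∀ g ∈ C', ∀ w ∈ V₀, g • w ∈ Submodule.span Λ V₀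
  Mst : ∀ g ∈ C', ∀ n, ∀ m ∈ ℳ n, g • m ∈ ℳ n
  le : C ≤ C'
  idx : ∀ g ∈ C', ∀ h ∈ C', g ∉ C → h ∉ C → g⁻¹ * h ∈ C
  two : ∃ w ∈ lamFix Λ C', 2 * w = 1
  noeth : IsNoetherianRing (lamFix Λ C')
  finΛ : ∃ S₀ : Set M, S₀.Finite ∧ (∀ c ∈ S₀, c ∈ Λ) ∧ ∀ c ∈ Λ, c ∈ Submodule.span (lamFix Λ C') S₀

variable {ℳ} {Λ : Subring M} {C C' : Subgroup G} {V₀ : Set M} {d : ℕ} (h : VerHyp ℳ Λ C C' V₀ d)

-- BEGIN V3
include h in
theorem v3_pow_deg (n : ℕ) : ∀ x ∈ V₀ ^ n, x ∈ ℳ (d * n) := by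
  induction n with
  | zero =>
    intro x hx
    rw [pow_zero, Set.mem_one] at hx
    rw [hx, mul_zero]
    exact SetLike.one_mem_graded ℳ
  | succ n ih =>
    intro x hx
    rw [pow_succ] at hx
    obtain ⟨a, ha, b, hb, rfl⟩ := Set.mem_mul.1 hx
    have h1 := SetLike.mul_mem_graded (ih a ha) (h.deg b hb)
    have h2 : d * n + d = d * (n + 1) := by ring
    rw [h2] at h1
    exact h1

include h in
/-- TASK V3. -/
theorem VerHyp.W_deg {n : ℕ} {f : M} (hf : f ∈ Submodule.span Λ (V₀ ^ n)) : f ∈ ℳ (d * n) := by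
  induction hf using Submodule.span_induction with
  | mem x hx => exact v3_pow_deg h n x hx
  | zero => exact (ℳ (d * n)).zero_mem
  | add x y _ _ hx hy => exact (ℳ (d * n)).add_mem hx hy
  | smul c x _ hx =>
    have h1 := SetLike.mul_mem_graded (h.Λdeg c c.2) hx
    rw [zero_add] at h1
    exact h1

include h in
/-- TASK V3. -/
theorem VerHyp.W_mul {m n : ℕ} {f f' : M} (hf : f ∈ Submodule.span Λ (V₀ ^ m))
    (hf' : f' ∈ Submodule.span Λ (V₀ ^ n)) : f * f' ∈ Submodule.span Λ (V₀ ^ (m + n)) := by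
  have h1 := Submodule.mul_mem_mul hf hf'
  rw [Submodule.span_mul_span, ← pow_add] at h1
  exact h1

include h in
theorem v3_pow_smul {g : G} (hg : g ∈ C') (n : ℕ) :
    ∀ x ∈ V₀ ^ n, g • x ∈ Submodule.span Λ (V₀ ^ n) := by
  induction n with
  | zero =>
    intro x hx
    have hx' := hx
    rw [pow_zero, Set.mem_one] at hx'
    have h1 : g • x = x := by rw [hx', smul_one]
    rw [h1]
    exact Submodule.subset_span hx
  | succ n ih =>
    intro x hx
    rw [pow_succ] at hx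
    obtain ⟨a, ha, b, hb, rfl⟩ := Set.mem_mul.1 hx
    rw [smul_mul']
    have h1 : g • b ∈ Submodule.span Λ (V₀ ^ 1) := by
      rw [pow_one]
      exact h.Vst g hg b hb
    exact h.W_mul (ih a ha) h1

include h in
/-- TASK V3. -/
theorem VerHyp.W_smul {g : G} (hg : g ∈ C') {n : ℕ} {f : M} (hf : f ∈ Submodule.span Λ (V₀ ^ n)) :
    g • f ∈ Submodule.span Λ (V₀ ^ n) := by
  induction hf using Submodule.span_induction with
  | mem x hx => exact v3_pow_smul h hg n x hx
  | zero =>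
    rw [smul_zero]
    exact Submodule.zero_mem _
  | add x y _ _ hx hy =>
    rw [smul_add]
    exact Submodule.add_mem _ hx hy
  | smul c x _ hx =>
    have h1 : g • (c • x) = (⟨g • (c : M), h.Λst g hg c c.2⟩ : Λ) • (g • x) := by
      change g • ((c : M) * x) = (g • (c : M)) * (g • x)
      rw [smul_mul']
    rw [h1]
    exact Submodule.smul_mem _ _ hx

include h in
/-- TASK V3. -/
theorem VerHyp.W_zero {f : M} (hf : f ∈ Submodule.span Λ (V₀ ^ 0)) : f ∈ Λ := by
  rw [pow_zero, ← Set.singleton_one, Submodule.mem_span_singleton] at hf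
  obtain ⟨c, rfl⟩ := hf
  have h1 : c • (1 : M) = (c : M) := mul_one (c : M)
  rw [h1]
  exact c.2
-- END V3

/-- The algebra generated by `V₀` and the constants. -/
noncomputable def algT (Λ : Subring M) (C' : Subgroup G) (S₀ V₀ : Set M) :
    Subalgebra (lamFix Λ C') M := Algebra.adjoin (lamFix Λ C') (S₀ ∪ V₀)

-- BEGIN V4
/-- finite sums of elements of the `span Λ (V₀ ^ n)` -/
def v4_P (Λ : Subring M) (V₀ : Set M) (t : M) : Prop :=
  ∃ (N : ℕ) (w : ℕ → M), (∀ n, w n ∈ Submodule.span Λ (V₀ ^ n)) ∧ t = ∑ n ∈ Finset.range N, w n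

theorem v4_single (Λ : Subring M) (V₀ : Set M) {n : ℕ} {x : M}
    (hx : x ∈ Submodule.span Λ (V₀ ^ n)) : v4_P Λ V₀ x := by
  refine ⟨n + 1, fun m => if m = n then x else 0, fun m => ?_, ?_⟩
  · change (if m = n then x else 0) ∈ Submodule.span Λ (V₀ ^ m)
    by_cases hm : m = n
    · subst hm
      rw [if_pos rfl]
      exact hx
    · rw [if_neg hm]
      exact Submodule.zero_mem _
  · rw [Finset.sum_ite_eq', if_pos (Finset.mem_range.2 (Nat.lt_succ_self n))]

theorem v4_add (Λ : Subring M) (V₀ : Set M) {x y : M} (hx : v4_P Λ V₀ x) (hy : v4_P Λ V₀ y) :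
    v4_P Λ V₀ (x + y) := by
  obtain ⟨N, w, hw, rfl⟩ := hx
  obtain ⟨N', w', hw', rfl⟩ := hy
  refine ⟨N + N', fun n => (if n < N then w n else 0) + if n < N' then w' n else 0,
    fun n => ?_, ?_⟩
  · refine Submodule.add_mem _ ?_ ?_
    · split_ifs
      · exact hw n
      · exact Submodule.zero_mem _
    · split_ifs
      · exact hw' n
      · exact Submodule.zero_mem _
  · rw [Finset.sum_add_distrib, ← Finset.sum_filter, ← Finset.sum_filter]
    congr 1
    · refine Finset.sum_congr ?_ fun _ _ => rfl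
      ext n
      simp only [Finset.mem_filter, Finset.mem_range]
      omega
    · refine Finset.sum_congr ?_ fun _ _ => rfl
      ext n
      simp only [Finset.mem_filter, Finset.mem_range]
      omega

theorem v4_zero (Λ : Subring M) (V₀ : Set M) : v4_P Λ V₀ (0 : M) :=
  v4_single Λ V₀ (n := 0) (Submodule.zero_mem _)

theorem v4_sum (Λ : Subring M) (V₀ : Set M) {ι : Type} (s : Finset ι) (x : ι → M)
    (hx : ∀ i ∈ s, v4_P Λ V₀ (x i)) : v4_P Λ V₀ (∑ i ∈ s, x i) := by
  classical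
  induction s using Finset.induction_on with
  | empty =>
    rw [Finset.sum_empty]
    exact v4_zero Λ V₀
  | insert a s ha ih =>
    rw [Finset.sum_insert ha]
    exact v4_add Λ V₀ (hx a (Finset.mem_insert_self a s))
      (ih fun i hi => hx i (Finset.mem_insert_of_mem hi))

theorem v4_const {Λ : Subring M} {V₀ : Set M} {c : M} (hc : c ∈ Λ) :
    c ∈ Submodule.span Λ (V₀ ^ 0) := by
  have h1 : c = (⟨c, hc⟩ : Λ) • (1 : M) := (mul_one c).symm
  rw [h1]
  refine Submodule.smul_mem _ _ (Submodule.subset_span ?_)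
  rw [pow_zero]
  exact Set.mem_one.2 rfl

include h in
theorem v4_mul {x y : M} (hx : v4_P Λ V₀ x) (hy : v4_P Λ V₀ y) : v4_P Λ V₀ (x * y) := by
  obtain ⟨N, w, hw, rfl⟩ := hx
  obtain ⟨N', w', hw', rfl⟩ := hy
  rw [Finset.sum_mul_sum]
  exact v4_sum Λ V₀ _ _ fun i _ => v4_sum Λ V₀ _ _ fun j _ =>
    v4_single Λ V₀ (h.W_mul (hw i) (hw' j))

include h in
/-- TASK V4. The elements of `algT` are finite sums of elements of the `span Λ (V₀ ^ n)`: these sums form a
subalgebra which contains `S₀ ⊆ Λ` (`n = 0`) and `V₀`. -/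
theorem VerHyp.algT_sum {S₀ : Set M} (hS₀ : ∀ c ∈ S₀, c ∈ Λ) {t : M} (ht : t ∈ algT Λ C' S₀ V₀) :
    ∃ (N : ℕ) (w : ℕ → M), (∀ n, w n ∈ Submodule.span Λ (V₀ ^ n)) ∧ t = ∑ n ∈ Finset.range N, w n := by
  change v4_P Λ V₀ t
  unfold algT at ht
  induction ht using Algebra.adjoin_induction with
  | mem x hx =>
    rcases hx with hx | hx
    · exact v4_single Λ V₀ (v4_const (hS₀ x hx))
    · refine v4_single Λ V₀ (n := 1) (Submodule.subset_span ?_)
      rw [pow_one]
      exact hx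
  | algebraMap r => exact v4_single Λ V₀ (v4_const r.2.1)
  | add x y _ _ hx hy => exact v4_add Λ V₀ hx hy
  | mul x y _ _ hx hy => exact v4_mul h hx hy

include h in
/-- TASK V4. Conversely `Λ` and the `span Λ (V₀ ^ n)` are contained in `algT`. -/
theorem VerHyp.W_le_algT {S₀ : Set M} (hS : ∀ c ∈ Λ, c ∈ Submodule.span (lamFix Λ C') S₀) {n : ℕ} {f : M}
    (hf : f ∈ Submodule.span Λ (V₀ ^ n)) : f ∈ algT Λ C' S₀ V₀ := by
  have hΛ : ∀ c ∈ Λ, c ∈ algT Λ C' S₀ V₀ := by
    intro c hc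
    have h1 : Submodule.span (lamFix Λ C') S₀ ≤
        Subalgebra.toSubmodule (algT Λ C' S₀ V₀) :=
      Submodule.span_le.2 fun x hx => Algebra.subset_adjoin (Or.inl hx)
    exact h1 (hS c hc)
  have hV : ∀ n : ℕ, ∀ x ∈ V₀ ^ n, x ∈ algT Λ C' S₀ V₀ := by
    intro n
    induction n with
    | zero =>
      intro x hx
      rw [pow_zero, Set.mem_one] at hx
      rw [hx]
      exact one_mem _
    | succ n ih =>
      intro x hx
      rw [pow_succ] at hx
      obtain ⟨a, ha, b, hb, rfl⟩ := Set.mem_mul.1 hx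
      exact mul_mem (ih a ha) (Algebra.subset_adjoin (Or.inr hb))
  induction hf using Submodule.span_induction with
  | mem x hx => exact hV n x hx
  | zero => exact zero_mem _
  | add x y _ _ hx hy => exact add_mem hx hy
  | smul c x _ hx => exact mul_mem (hΛ c c.2) hx

include h in
/-- TASK V4. -/
theorem VerHyp.smul_algT {S₀ : Set M} (hS₀ : ∀ c ∈ S₀, c ∈ Λ)
    (hS : ∀ c ∈ Λ, c ∈ Submodule.span (lamFix Λ C') S₀) {g : G} (hg : g ∈ C') {t : M}
    (ht : t ∈ algT Λ C' S₀ V₀) : g • t ∈ algT Λ C' S₀ V₀ := by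
  obtain ⟨N, w, hw, rfl⟩ := h.algT_sum hS₀ ht
  rw [Finset.smul_sum]
  exact sum_mem fun n _ => h.W_le_algT hS (h.W_smul hg (hw n))

include h in
/-- TASK V4. The homogeneous components of an invariant are invariant: `∑ (g • w n - w n) = 0` with terms in the
different homogeneous components `ℳ (d n)` (`d ≥ 1`), so all terms are `0` (`DirectSum` decomposition). -/
theorem VerHyp.fix_of_sum {N : ℕ} {w : ℕ → M} (hw : ∀ n, w n ∈ Submodule.span Λ (V₀ ^ n)) {g : G}
    (hg : g ∈ C') (hfix : g • (∑ n ∈ Finset.range N, w n) = ∑ n ∈ Finset.range N, w n) :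
    ∀ n < N, g • w n = w n := by
  intro n hn
  have h0 : ∑ m ∈ Finset.range N, (g • w m - w m) = 0 := by
    rw [Finset.sum_sub_distrib, ← Finset.smul_sum, hfix, sub_self]
  have hdeg : ∀ m, g • w m - w m ∈ ℳ (d * m) := fun m =>
    (ℳ (d * m)).sub_mem (h.W_deg (h.W_smul hg (hw m))) (h.W_deg (hw m))
  have h1 := congrArg (GradedRing.proj ℳ (d * n)) h0
  rw [map_sum, map_zero, Finset.sum_eq_single n] at h1
  · rw [GradedRing.proj_apply, DirectSum.decompose_of_mem_same ℳ (hdeg n)] at h1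
    exact sub_eq_zero.1 h1
  · intro m _ hmn
    rw [GradedRing.proj_apply]
    refine DirectSum.decompose_of_mem_ne ℳ (hdeg m) ?_
    intro he
    exact hmn (Nat.eq_of_mul_eq_mul_left h.dpos he)
  · intro hn'
    exact absurd (Finset.mem_range.2 hn) hn'
-- END V4

-- BEGIN V5
private theorem v5_conj {C C' : Subgroup G} (hle : C ≤ C')
    (hidx : ∀ g ∈ C', ∀ h ∈ C', g ∉ C → h ∉ C → g⁻¹ * h ∈ C) {g : G} (hg : g ∈ C') {c : G}
    (hc : c ∈ C) : g⁻¹ * c * g ∈ C := by
  by_cases hgC : g ∈ C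
  · exact C.mul_mem (C.mul_mem (C.inv_mem hgC) hc) hgC
  · have h1 : c * g ∉ C := by
      intro h2
      apply hgC
      have h3 := C.mul_mem (C.inv_mem hc) h2
      rwa [inv_mul_cancel_left] at h3
    have h4 := hidx g hg (c * g) (C'.mul_mem (hle hc) hg) hgC h1
    rwa [← mul_assoc] at h4

private theorem v5_mul {C C' : Subgroup G}
    (hidx : ∀ g ∈ C', ∀ h ∈ C', g ∉ C → h ∉ C → g⁻¹ * h ∈ C) {g τ : G} (hg : g ∈ C') (hgC : g ∉ C)
    (hτ : τ ∈ C') (hτC : τ ∉ C) : g * τ ∈ C := by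
  have h1 := hidx g⁻¹ (C'.inv_mem hg) τ hτ (fun h2 => hgC (by
    have h3 := C.inv_mem h2
    rwa [inv_inv] at h3)) hτC
  rwa [inv_inv] at h1

include h in
/-- TASK V5. The decomposition into an even and an odd part: if there is `τ ∈ C'` not in `C` then
`f = w (f + τ • f) + w (f - τ • f)` with `2 w = 1`, `w` fixed by `C'`; for `f` fixed by `C` both parts are fixed by `C`
and `τ • τ • f = f` (`τ * τ ∈ C`), and all `g ∈ C'` not in `C` act as `τ` on elements fixed by `C`
(see TASK Q1 in TW/Quad.lean; prove what is needed here). If there is no `τ` take `f = f + 0`. -/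
theorem VerHyp.exists_parts {n : ℕ} {f : M} (hf : f ∈ Submodule.span Λ (V₀ ^ n))
    (hfC : ∀ g ∈ C, g • f = f) : ∃ f₁ f₂ : M, f = f₁ + f₂ ∧ f₁ ∈ Submodule.span Λ (V₀ ^ n) ∧
      f₂ ∈ Submodule.span Λ (V₀ ^ n) ∧ (∀ g ∈ C, g • f₁ = f₁) ∧ (∀ g ∈ C, g • f₂ = f₂) ∧
      SgE C C' f₁ ∧ SgO C C' f₂ := by
  by_cases hne : ∃ τ ∈ C', τ ∉ C
  · obtain ⟨τ, hτ, hτC⟩ := hne
    obtain ⟨w, hw, hw2⟩ := h.two
    have hwΛ : w ∈ Λ := hw.1
    have hwf : ∀ g ∈ C', g • w = w := hw.2
    have hmul : ∀ x ∈ Submodule.span Λ (V₀ ^ n), w * x ∈ Submodule.span Λ (V₀ ^ n) := by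
      intro x hx
      exact Submodule.smul_mem _ (⟨w, hwΛ⟩ : Λ) hx
    have hτf : τ • f ∈ Submodule.span Λ (V₀ ^ n) := h.W_smul hτ hf
    have hCτ : ∀ g ∈ C, g • τ • f = τ • f := by
      intro g hg
      have e : g * τ = τ * (τ⁻¹ * g * τ) := by group
      rw [← mul_smul, e, mul_smul, hfC _ (v5_conj h.le h.idx hτ hg)]
    have hgf : ∀ g ∈ C', g ∉ C → g • f = τ • f := by
      intro g hg hgC
      have e : g = τ * (τ⁻¹ * g) := by group
      rw [e, mul_smul, hfC _ (h.idx τ hτ g hg hτC hgC)]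
    have hgτ : ∀ g ∈ C', g ∉ C → g • τ • f = f := by
      intro g hg hgC
      rw [← mul_smul]
      exact hfC _ (v5_mul h.idx hg hgC hτ hτC)
    refine ⟨w * (f + τ • f), w * (f - τ • f), ?_, hmul _ (Submodule.add_mem _ hf hτf),
      hmul _ (Submodule.sub_mem _ hf hτf), ?_, ?_, ?_, ?_⟩
    · have e : w * (f + τ • f) + w * (f - τ • f) = (2 * w) * f := by ring
      rw [e, hw2, one_mul]
    · intro g hg
      rw [smul_mul', hwf g (h.le hg), smul_add, hfC g hg, hCτ g hg]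
    · intro g hg
      rw [smul_mul', hwf g (h.le hg), smul_sub, hfC g hg, hCτ g hg]
    · intro g hg hgC
      rw [smul_mul', hwf g hg, smul_add, hgf g hg hgC, hgτ g hg hgC, add_comm]
    · intro g hg hgC
      rw [smul_mul', hwf g hg, smul_sub, hgf g hg hgC, hgτ g hg hgC, ← mul_neg, neg_sub]
  · refine ⟨f, 0, (add_zero f).symm, hf, Submodule.zero_mem _, hfC, fun g _ => smul_zero g, ?_, ?_⟩
    · intro g hg hgC
      exact absurd ⟨g, hg, hgC⟩ hne
    · intro g hg hgC
      exact absurd ⟨g, hg, hgC⟩ hne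
-- END V5

-- BEGIN V6
include h in
/-- TASK V6. -/
theorem VerHyp.exists_gens : ∃ Y : Finset M, (∀ y ∈ Y, ∃ n, y ∈ Submodule.span Λ (V₀ ^ n) ∧
    (∀ g ∈ C, g • y = y) ∧ (SgE C C' y ∨ SgO C C' y)) ∧
    ∀ n, ∀ f ∈ Submodule.span Λ (V₀ ^ n), (∀ g ∈ C, g • f = f) →
      f ∈ Algebra.adjoin (lamFix Λ C') (Y : Set M) := by
  classical
  obtain ⟨S₀, hfin, hS₀, hS⟩ := h.finΛ
  haveI := h.noeth
  let A : Subalgebra (lamFix Λ C') M :=
    { carrier := {m | ∀ g ∈ C, g • m = m}
      mul_mem' := fun {a b} ha hb g hg => by rw [smul_mul', ha g hg, hb g hg]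
      add_mem' := fun {a b} ha hb g hg => by rw [smul_add, ha g hg, hb g hg]
      algebraMap_mem' := fun r g hg => r.2.2 g (h.le hg) }
  have hAmem : ∀ m, m ∈ A ↔ ∀ g ∈ C, g • m = m := fun m => Iff.rfl
  have hT : (algT Λ C' S₀ V₀).FG :=
    ⟨(hfin.union h.fin).toFinset, by rw [Set.Finite.coe_toFinset]; rfl⟩
  have hTG : ∀ g : C, ∀ t ∈ algT Λ C' S₀ V₀, g • t ∈ algT Λ C' S₀ V₀ := fun g t ht =>
    h.smul_algT hS₀ hS (h.le g.2) ht
  obtain ⟨X, hX⟩ := fg_comap_of_group (M := M) C A.val Subtype.val_injective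
    (fun m hm => ⟨⟨m, fun g hg => hm ⟨g, hg⟩⟩, rfl⟩) (algT Λ C' S₀ V₀) hTG hT
  have hXT : ∀ x ∈ X, (x : M) ∈ algT Λ C' S₀ V₀ := by
    intro x hx
    have h1 : x ∈ (algT Λ C' S₀ V₀).comap A.val := by
      rw [← hX]
      exact Algebra.subset_adjoin hx
    exact h1
  have hdec : ∀ x : A, ∃ (N : ℕ) (p q : ℕ → M), x ∈ X → ((x : M) = ∑ n ∈ Finset.range N, (p n + q n)) ∧
      ∀ n < N, p n ∈ Submodule.span Λ (V₀ ^ n) ∧ q n ∈ Submodule.span Λ (V₀ ^ n) ∧
        (∀ g ∈ C, g • p n = p n) ∧ (∀ g ∈ C, g • q n = q n) ∧ SgE C C' (p n) ∧ SgO C C' (q n) := by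
    intro x
    by_cases hx : x ∈ X
    · obtain ⟨N, w, hw, hsum⟩ := h.algT_sum hS₀ (hXT x hx)
      have hfix : ∀ n < N, ∀ g ∈ C, g • w n = w n := by
        intro n hn g hg
        refine h.fix_of_sum hw (h.le hg) ?_ n hn
        rw [← hsum]
        exact x.2 g hg
      have hp : ∀ n, ∃ p : M × M, n < N → w n = p.1 + p.2 ∧ p.1 ∈ Submodule.span Λ (V₀ ^ n) ∧
          p.2 ∈ Submodule.span Λ (V₀ ^ n) ∧ (∀ g ∈ C, g • p.1 = p.1) ∧ (∀ g ∈ C, g • p.2 = p.2) ∧
          SgE C C' p.1 ∧ SgO C C' p.2 := by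
        intro n
        by_cases hn : n < N
        · obtain ⟨f₁, f₂, h1, h2, h3, h4, h5, h6, h7⟩ := h.exists_parts (hw n) (hfix n hn)
          exact ⟨(f₁, f₂), fun _ => ⟨h1, h2, h3, h4, h5, h6, h7⟩⟩
        · exact ⟨0, fun h' => absurd h' hn⟩
      choose p hp using hp
      refine ⟨N, fun n => (p n).1, fun n => (p n).2, fun _ => ⟨?_, fun n hn => ?_⟩⟩
      · rw [hsum]
        exact Finset.sum_congr rfl fun n hn => (hp n (Finset.mem_range.1 hn)).1
      · exact (hp n hn).2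
    · exact ⟨0, 0, 0, fun h' => absurd h' hx⟩
  choose N p q hpq using hdec
  let Y : Finset M := X.biUnion fun x => (Finset.range (N x)).biUnion fun n => {p x n, q x n}
  have hYmem : ∀ x ∈ X, ∀ n < N x, p x n ∈ Y ∧ q x n ∈ Y := by
    intro x hx n hn
    constructor
    · exact Finset.mem_biUnion.2 ⟨x, hx, Finset.mem_biUnion.2 ⟨n, Finset.mem_range.2 hn,
        Finset.mem_insert_self _ _⟩⟩
    · exact Finset.mem_biUnion.2 ⟨x, hx, Finset.mem_biUnion.2 ⟨n, Finset.mem_range.2 hn,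
        Finset.mem_insert_of_mem (Finset.mem_singleton_self _)⟩⟩
  refine ⟨Y, ?_, ?_⟩
  · intro y hy
    obtain ⟨x, hx, hy⟩ := Finset.mem_biUnion.1 hy
    obtain ⟨n, hn, hy⟩ := Finset.mem_biUnion.1 hy
    obtain ⟨h1, h2, h3, h4, h5, h6⟩ := (hpq x hx).2 n (Finset.mem_range.1 hn)
    rcases Finset.mem_insert.1 hy with rfl | hy
    · exact ⟨n, h1, h3, Or.inl h5⟩
    · rw [Finset.mem_singleton.1 hy]
      exact ⟨n, h2, h4, Or.inr h6⟩
  · intro n f hf hfC
    have h1 : (⟨f, hfC⟩ : A) ∈ (algT Λ C' S₀ V₀).comap A.val := h.W_le_algT hS hf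
    rw [← hX] at h1
    have h2 : f ∈ (Algebra.adjoin (lamFix Λ C') (X : Set A)).map A.val := ⟨⟨f, hfC⟩, h1, rfl⟩
    rw [AlgHom.map_adjoin] at h2
    refine (Algebra.adjoin_le ?_) h2
    rintro _ ⟨x, hx, rfl⟩
    change (x : M) ∈ Algebra.adjoin (lamFix Λ C') (Y : Set M)
    rw [(hpq x hx).1]
    refine sum_mem fun n hn => add_mem ?_ ?_
    · exact Algebra.subset_adjoin (hYmem x hx n (Finset.mem_range.1 hn)).1
    · exact Algebra.subset_adjoin (hYmem x hx n (Finset.mem_range.1 hn)).2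
-- END V6

-- BEGIN V7
include h in
/-- TASK V7. The constants: `Λ` is contained in a finitely generated module over the noetherian ring `lamFix Λ C'`, so
its submodule `lamFix Λ C` is finitely generated; take `1` and the even and odd parts of the generators
(`exists_parts` for `n = 0`, `V₀ ^ 0 = {1}`, or directly). -/
theorem VerHyp.exists_const : ∃ Q : Finset M, (1 : M) ∈ Q ∧ (∀ q ∈ Q, q ∈ lamFix Λ C ∧
    (SgE C C' q ∨ SgO C C' q)) ∧ ∀ c ∈ lamFix Λ C, c ∈ Submodule.span (lamFix Λ C') (Q : Set M) := by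
  classical
  obtain ⟨S₀, hfin, hS₀, hS⟩ := h.finΛ
  haveI := h.noeth
  let N1 : Submodule (lamFix Λ C') M :=
    { carrier := {c | c ∈ lamFix Λ C}
      add_mem' := fun {a b} ha hb => (lamFix Λ C).add_mem ha hb
      zero_mem' := (lamFix Λ C).zero_mem
      smul_mem' := by
        intro r c hc
        have hr : (r : M) ∈ lamFix Λ C := ⟨r.2.1, fun g hg => r.2.2 g (h.le hg)⟩
        have := (lamFix Λ C).mul_mem hr hc
        rwa [Subring.smul_def, smul_eq_mul] }
  have hle : N1 ≤ Submodule.span (lamFix Λ C') S₀ := fun c hc => hS c hc.1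
  haveI : IsNoetherian (lamFix Λ C') (Submodule.span (lamFix Λ C') S₀) :=
    isNoetherian_span_of_finite _ hfin
  have hfg : N1.FG := isNoetherian_submodule.mp inferInstance N1 hle
  obtain ⟨T, hT⟩ := hfg
  have hsub : ∀ t ∈ T, t ∈ lamFix Λ C := by
    intro t ht
    have : t ∈ N1 := by rw [← hT]; exact Submodule.subset_span ht
    exact this
  have hpart : ∀ t : M, ∃ p : M × M, t ∈ T → (t = p.1 + p.2 ∧ p.1 ∈ lamFix Λ C ∧ p.2 ∈ lamFix Λ C ∧
      SgE C C' p.1 ∧ SgO C C' p.2) := by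
    intro t
    by_cases ht : t ∈ T
    · have ht' := hsub t ht
      have h0 : t ∈ Submodule.span Λ (V₀ ^ 0) := by
        rw [pow_zero]
        have h1 : ((⟨t, ht'.1⟩ : Λ) • (1 : M)) ∈ Submodule.span Λ (1 : Set M) :=
          Submodule.smul_mem _ _ (Submodule.subset_span (Set.mem_one.2 rfl))
        have h2 : ((⟨t, ht'.1⟩ : Λ) • (1 : M)) = t := by
          rw [Subring.smul_def, smul_eq_mul, mul_one]
        rwa [h2] at h1
      obtain ⟨f₁, f₂, hf, hf1, hf2, hc1, hc2, he, ho⟩ := h.exists_parts h0 ht'.2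
      exact ⟨(f₁, f₂), fun _ => ⟨hf, ⟨h.W_zero hf1, hc1⟩, ⟨h.W_zero hf2, hc2⟩, he, ho⟩⟩
    · exact ⟨(0, 0), fun h' => absurd h' ht⟩
  choose p hp using hpart
  refine ⟨insert 1 (T.image (fun t => (p t).1) ∪ T.image (fun t => (p t).2)), ?_, ?_, ?_⟩
  · exact Finset.mem_insert_self _ _
  · intro q hq
    rcases Finset.mem_insert.1 hq with rfl | hq
    · exact ⟨(lamFix Λ C).one_mem, Or.inl (fun g _ _ => smul_one g)⟩
    · rcases Finset.mem_union.1 hq with hq | hq
      · obtain ⟨t, ht, rfl⟩ := Finset.mem_image.1 hq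
        exact ⟨(hp t ht).2.1, Or.inl (hp t ht).2.2.2.1⟩
      · obtain ⟨t, ht, rfl⟩ := Finset.mem_image.1 hq
        exact ⟨(hp t ht).2.2.1, Or.inr (hp t ht).2.2.2.2⟩
  · intro c hc
    have hc' : c ∈ N1 := hc
    rw [← hT] at hc'
    refine (Submodule.span_le.2 ?_) hc'
    intro t ht
    have ht' : t ∈ T := ht
    have he := (hp t ht').1
    have h1 : (p t).1 ∈ Submodule.span (lamFix Λ C')
        ((insert 1 (T.image (fun t => (p t).1) ∪ T.image (fun t => (p t).2)) : Finset M) : Set M) :=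
      Submodule.subset_span (Finset.mem_coe.2 (Finset.mem_insert_of_mem
        (Finset.mem_union_left _ (Finset.mem_image_of_mem _ ht'))))
    have h2 : (p t).2 ∈ Submodule.span (lamFix Λ C')
        ((insert 1 (T.image (fun t => (p t).1) ∪ T.image (fun t => (p t).2)) : Finset M) : Set M) :=
      Submodule.subset_span (Finset.mem_coe.2 (Finset.mem_insert_of_mem
        (Finset.mem_union_right _ (Finset.mem_image_of_mem _ ht'))))
    have h3 := Submodule.add_mem _ h1 h2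
    rw [← he] at h3
    exact h3
-- END V7

-- BEGIN V8
include h in
theorem VerHyp.v8_lam_mul {Y Q : Finset M} {c : M → ℕ}
    (hQ' : ∀ c ∈ lamFix Λ C, c ∈ Submodule.span (lamFix Λ C') (Q : Set M)) {k : ℕ} {s m : M}
    (hs : s ∈ lamFix Λ C) (hm : m ∈ monE Y c k) :
    s * m ∈ Submodule.span (lamFix Λ C') ((Q : Set M) * monE Y c k) := by
  refine Submodule.span_induction (p := fun x _ => x * m ∈
    Submodule.span (lamFix Λ C') ((Q : Set M) * monE Y c k)) ?_ ?_ ?_ ?_ (hQ' s hs)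
  · intro x hx
    exact Submodule.subset_span (Set.mul_mem_mul hx hm)
  · rw [zero_mul]; exact Submodule.zero_mem _
  · intro x y _ _ hx hy
    rw [add_mul]; exact Submodule.add_mem _ hx hy
  · intro a x _ hx
    rw [smul_mul_assoc]; exact Submodule.smul_mem _ _ hx

theorem v8_monE_mul {Y : Finset M} {c : M → ℕ} {j k : ℕ} {a b : M} (ha : a ∈ monE Y c j)
    (hb : b ∈ monE Y c k) : a * b ∈ monE Y c (j + k) := by
  obtain ⟨t, ht, hts, rfl⟩ := ha
  obtain ⟨u, hu, hus, rfl⟩ := hb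
  refine ⟨t + u, ?_, ?_, ?_⟩
  · intro y hy
    rcases Multiset.mem_add.1 hy with hy | hy
    · exact ht y hy
    · exact hu y hy
  · rw [Multiset.map_add, Multiset.sum_add, hts, hus]
  · rw [Multiset.prod_add]

include h in
theorem VerHyp.v8_N_mul {Y Q : Finset M} {c : M → ℕ} (hQ : ∀ q ∈ Q, q ∈ lamFix Λ C)
    (hQ' : ∀ c ∈ lamFix Λ C, c ∈ Submodule.span (lamFix Λ C') (Q : Set M)) {j k : ℕ} {x y : M}
    (hx : x ∈ Submodule.span (lamFix Λ C') ((Q : Set M) * monE Y c j))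
    (hy : y ∈ Submodule.span (lamFix Λ C') ((Q : Set M) * monE Y c k)) :
    x * y ∈ Submodule.span (lamFix Λ C') ((Q : Set M) * monE Y c (j + k)) := by
  refine Submodule.span_induction (p := fun x _ => x * y ∈
    Submodule.span (lamFix Λ C') ((Q : Set M) * monE Y c (j + k))) ?_ ?_ ?_ ?_ hx
  · intro x hx
    refine Submodule.span_induction (p := fun y _ => x * y ∈
      Submodule.span (lamFix Λ C') ((Q : Set M) * monE Y c (j + k))) ?_ ?_ ?_ ?_ hy
    · intro y hy
      obtain ⟨q, hq, a, ha, rfl⟩ := Set.mem_mul.1 hx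
      obtain ⟨q', hq', b, hb, rfl⟩ := Set.mem_mul.1 hy
      have h1 := h.v8_lam_mul hQ' ((lamFix Λ C).mul_mem (hQ q hq) (hQ q' hq')) (v8_monE_mul ha hb)
      have h2 : q * a * (q' * b) = q * q' * (a * b) := by ring
      rw [h2]; exact h1
    · rw [mul_zero]; exact Submodule.zero_mem _
    · intro y z _ _ hy hz
      rw [mul_add]; exact Submodule.add_mem _ hy hz
    · intro a z _ hz
      rw [mul_smul_comm]; exact Submodule.smul_mem _ _ hz
  · rw [zero_mul]; exact Submodule.zero_mem _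
  · intro x z _ _ hx hz
    rw [add_mul]; exact Submodule.add_mem _ hx hz
  · intro a z _ hz
    rw [smul_mul_assoc]; exact Submodule.smul_mem _ _ hz

include h in
theorem VerHyp.v8_monE_deg {Y : Finset M} {c : M → ℕ}
    (hY : ∀ y ∈ Y, y ∈ Submodule.span Λ (V₀ ^ c y) ∧ (∀ g ∈ C, g • y = y)) (t : Multiset M)
    (ht : ∀ y ∈ t, y ∈ Y) : t.prod ∈ ℳ (d * (t.map c).sum) := by
  induction t using Multiset.induction_on with
  | empty => simpa using SetLike.GradedOne.one_mem (A := ℳ)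
  | cons a t ih =>
    rw [Multiset.prod_cons, Multiset.map_cons, Multiset.sum_cons, mul_add]
    exact SetLike.GradedMul.mul_mem (h.W_deg (hY a (ht a (Multiset.mem_cons_self a t))).1)
      (ih (fun y hy => ht y (Multiset.mem_cons_of_mem hy)))

include h in
theorem VerHyp.v8_N_deg {Y Q : Finset M} {c : M → ℕ}
    (hY : ∀ y ∈ Y, y ∈ Submodule.span Λ (V₀ ^ c y) ∧ (∀ g ∈ C, g • y = y))
    (hQ : ∀ q ∈ Q, q ∈ lamFix Λ C) {k : ℕ} {x : M}
    (hx : x ∈ Submodule.span (lamFix Λ C') ((Q : Set M) * monE Y c k)) : x ∈ ℳ (d * k) := by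
  refine Submodule.span_induction (p := fun x _ => x ∈ ℳ (d * k)) ?_ ?_ ?_ ?_ hx
  · intro x hx
    obtain ⟨q, hq, a, ha, rfl⟩ := Set.mem_mul.1 hx
    obtain ⟨t, ht, hts, rfl⟩ := ha
    have h1 := SetLike.GradedMul.mul_mem (h.Λdeg q (hQ q hq).1) (h.v8_monE_deg hY t ht)
    rwa [hts, zero_add] at h1
  · exact (ℳ (d * k)).zero_mem
  · intro x y _ _ hx hy
    exact (ℳ (d * k)).add_mem hx hy
  · intro a x _ hx
    have h1 := SetLike.GradedMul.mul_mem (h.Λdeg (a : M) a.2.1) hx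
    rw [zero_add] at h1
    rwa [Subring.smul_def, smul_eq_mul]

include h in
/-- TASK V8. Let `Y` be as in `exists_gens`, with degrees `c y` (`y ∈ span Λ (V₀ ^ c y)`), and `Y' = {y ∈ Y | 1 ≤ c y}`.
The algebra generated by `Y` is spanned over `lamFix Λ C'` by the products of elements of `Y`
(`Algebra.adjoin_eq_span`), that is by the `λ * t.prod` with `λ ∈ lamFix Λ C` and `t` a multiset of elements
of `Y'` (the factors of degree `0` lie in `lamFix Λ C`), hence by the `q * t.prod`, `q ∈ Q`. The element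
`q * t.prod` is homogeneous of degree `d * (t.map c).sum`; comparing the components of degree `d n` of `f` we may
take only the `t` with `(t.map c).sum = n`. -/
theorem VerHyp.mem_span_monE {Y Q : Finset M} {c : M → ℕ}
    (hY : ∀ y ∈ Y, y ∈ Submodule.span Λ (V₀ ^ c y) ∧ (∀ g ∈ C, g • y = y))
    (hQ : ∀ q ∈ Q, q ∈ lamFix Λ C)
    (hQ' : ∀ c ∈ lamFix Λ C, c ∈ Submodule.span (lamFix Λ C') (Q : Set M)) {n : ℕ} {f : M}
    (hf : f ∈ Submodule.span Λ (V₀ ^ n)) (hfY : f ∈ Algebra.adjoin (lamFix Λ C') (Y : Set M)) :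
    f ∈ Submodule.span (lamFix Λ C') ((Q : Set M) * monE (Y.filter fun y => 1 ≤ c y) c n) := by
  set Y' : Finset M := Y.filter fun y => 1 ≤ c y with hY'
  have hYsub : ∀ y ∈ Y', y ∈ Submodule.span Λ (V₀ ^ c y) ∧ (∀ g ∈ C, g • y = y) :=
    fun y hy => hY y (Finset.mem_filter.1 hy).1
  set N : ℕ → Submodule (lamFix Λ C') M := fun k =>
    Submodule.span (lamFix Λ C') ((Q : Set M) * monE Y' c k) with hN
  have hone : (1 : M) ∈ monE Y' c 0 := ⟨0, fun y hy => absurd hy (Multiset.notMem_zero y), rfl, rfl⟩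
  have hlam : ∀ s ∈ lamFix Λ C, s ∈ N 0 := by
    intro s hs
    have := h.v8_lam_mul hQ' hs hone
    rwa [mul_one] at this
  have hall : f ∈ ⨆ k, N k := by
    refine Algebra.adjoin_induction (p := fun x _ => x ∈ ⨆ k, N k) ?_ ?_ ?_ ?_ hfY
    · intro y hy
      have hy' : y ∈ Y := hy
      by_cases hc : 1 ≤ c y
      · have hm : y ∈ monE Y' c (c y) := by
          refine ⟨{y}, ?_, ?_, ?_⟩
          · intro z hz
            rw [Multiset.mem_singleton.1 hz]
            exact Finset.mem_filter.2 ⟨hy', hc⟩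
          · simp
          · simp
        have h1 := h.v8_lam_mul hQ' (lamFix Λ C).one_mem hm
        rw [one_mul] at h1
        exact Submodule.mem_iSup_of_mem (c y) h1
      · have hc0 : c y = 0 := by omega
        have h0 := (hY y hy').1
        rw [hc0] at h0
        exact Submodule.mem_iSup_of_mem 0 (hlam y ⟨h.W_zero h0, (hY y hy').2⟩)
    · intro r
      have hr : (algebraMap (lamFix Λ C') M r) ∈ lamFix Λ C :=
        ⟨r.2.1, fun g hg => r.2.2 g (h.le hg)⟩
      exact Submodule.mem_iSup_of_mem 0 (hlam _ hr)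
    · intro x y _ _ hx hy
      exact Submodule.add_mem _ hx hy
    · intro x y _ _ hx hy
      refine Submodule.iSup_induction N (motive := fun x => x * y ∈ ⨆ k, N k) hx ?_ ?_ ?_
      · intro j x hx
        refine Submodule.iSup_induction N (motive := fun y => x * y ∈ ⨆ k, N k) hy ?_ ?_ ?_
        · intro k y hy
          exact Submodule.mem_iSup_of_mem (j + k) (h.v8_N_mul hQ hQ' hx hy)
        · rw [mul_zero]; exact Submodule.zero_mem _
        · intro y z hy hz
          rw [mul_add]; exact Submodule.add_mem _ hy hz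
      · rw [zero_mul]; exact Submodule.zero_mem _
      · intro x z hx hz
        rw [add_mul]; exact Submodule.add_mem _ hx hz
  have hproj : ((DirectSum.decompose ℳ f (d * n) : ℳ (d * n)) : M) ∈ N n := by
    refine Submodule.iSup_induction N
      (motive := fun x => ((DirectSum.decompose ℳ x (d * n) : ℳ (d * n)) : M) ∈ N n) hall ?_ ?_ ?_
    · intro k x hx
      have hxd : x ∈ ℳ (d * k) := h.v8_N_deg hYsub hQ hx
      by_cases hk : k = n
      · subst hk
        rw [DirectSum.decompose_of_mem_same ℳ hxd]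
        exact hx
      · have hne : d * k ≠ d * n := by
          intro he
          exact hk (Nat.eq_of_mul_eq_mul_left h.dpos he)
        rw [DirectSum.decompose_of_mem_ne ℳ hxd hne]
        exact Submodule.zero_mem _
    · rw [DirectSum.decompose_zero]
      exact Submodule.zero_mem _
    · intro x y hx hy
      rw [DirectSum.decompose_add]
      exact Submodule.add_mem _ hx hy
  rw [DirectSum.decompose_of_mem_same ℳ (h.W_deg hf)] at hproj
  exact hproj
-- END V8

-- BEGIN V9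
private theorem v9_sg_mul {a b : M} (ha : SgE C C' a ∨ SgO C C' a) (hb : SgE C C' b ∨ SgO C C' b) :
    SgE C C' (a * b) ∨ SgO C C' (a * b) := by
  rcases ha with ha | ha <;> rcases hb with hb | hb
  · exact Or.inl fun g hg hgC => by rw [smul_mul', ha g hg hgC, hb g hg hgC]
  · exact Or.inr fun g hg hgC => by rw [smul_mul', ha g hg hgC, hb g hg hgC, mul_neg]
  · exact Or.inr fun g hg hgC => by rw [smul_mul', ha g hg hgC, hb g hg hgC, neg_mul]
  · exact Or.inl fun g hg hgC => by rw [smul_mul', ha g hg hgC, hb g hg hgC, neg_mul_neg]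

private theorem v9_mem_zero {q : M} (hq : q ∈ Λ) : q ∈ Submodule.span Λ (V₀ ^ 0) := by
  have h1 : (1 : M) ∈ V₀ ^ 0 := by rw [pow_zero]; exact Set.mem_one.mpr rfl
  have h2 := Submodule.smul_mem (Submodule.span Λ (V₀ ^ 0)) (⟨q, hq⟩ : Λ) (Submodule.subset_span h1)
  have h3 : (⟨q, hq⟩ : Λ) • (1 : M) = q := by
    rw [Subring.smul_def, smul_eq_mul, mul_one]
  rwa [h3] at h2

include h in
private theorem v9_prod (c : M → ℕ) (t : Multiset M) (ht : ∀ y ∈ t, y ∈ Submodule.span Λ (V₀ ^ c y) ∧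
    (∀ g ∈ C, g • y = y) ∧ (SgE C C' y ∨ SgO C C' y)) :
    t.prod ∈ Submodule.span Λ (V₀ ^ (t.map c).sum) ∧ (∀ g ∈ C, g • t.prod = t.prod) ∧
      (SgE C C' t.prod ∨ SgO C C' t.prod) := by
  induction t using Multiset.induction_on with
  | empty =>
    refine ⟨?_, fun g _ => ?_, Or.inl fun g _ _ => ?_⟩
    · rw [Multiset.prod_zero, Multiset.map_zero, Multiset.sum_zero]
      exact v9_mem_zero Λ.one_mem
    · rw [Multiset.prod_zero, smul_one]
    · rw [Multiset.prod_zero, smul_one]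
  | cons a t ih =>
    obtain ⟨h1, h2, h3⟩ := ht a (Multiset.mem_cons_self a t)
    obtain ⟨h4, h5, h6⟩ := ih fun y hy => ht y (Multiset.mem_cons_of_mem hy)
    rw [Multiset.prod_cons, Multiset.map_cons, Multiset.sum_cons]
    exact ⟨h.W_mul h1 h4, fun g hg => by rw [smul_mul', h2 g hg, h5 g hg], v9_sg_mul h3 h6⟩

include h in
/-- TASK V9. **Veronese generation.** `Y`, `Q` from `exists_gens`, `exists_const`; `Y' = Y.filter (1 ≤ c y)`,
`L = ∏ y ∈ Y', c y`, `k = (|Y'| + 1) L`, `E = Q * monE Y' c k`. Products of signed elements are signed.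
`(Q : Set M) * monE Y' c (k m) ⊆ E ^ m` by `monE_mul` and `1 ∈ Q`:
`q * (x₁ ⋯ x_m) = (q x₁) (1 x₂) ⋯ (1 x_m)`. -/
theorem VerHyp.exists_veronese : ∃ (k : ℕ) (E : Set M), 1 ≤ k ∧ E.Finite ∧
    (∀ e ∈ E, e ∈ Submodule.span Λ (V₀ ^ k) ∧ (∀ g ∈ C, g • e = e) ∧ (SgE C C' e ∨ SgO C C' e)) ∧
    ∀ m, 1 ≤ m → ∀ f ∈ Submodule.span Λ (V₀ ^ (k * m)), (∀ g ∈ C, g • f = f) →
      f ∈ Submodule.span (lamFix Λ C') (E ^ m) := by
  classical
  obtain ⟨Y, hY, hYgen⟩ := h.exists_gens
  obtain ⟨Q, hQ1, hQ, hQgen⟩ := h.exists_const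
  choose! c hc using hY
  set Y' : Finset M := Y.filter fun y => 1 ≤ c y with hY'
  set L' : ℕ := ∏ y ∈ Y', c y with hL'
  have hcpos : ∀ y ∈ Y', 1 ≤ c y := fun y hy => (Finset.mem_filter.mp hy).2
  have hLpos : 1 ≤ L' := Nat.one_le_iff_ne_zero.mpr (Finset.prod_ne_zero_iff.mpr fun y hy =>
    Nat.one_le_iff_ne_zero.mp (hcpos y hy))
  have hcdvd : ∀ y ∈ Y', 1 ≤ c y ∧ c y ∣ L' := fun y hy =>
    ⟨hcpos y hy, Finset.dvd_prod_of_mem c hy⟩
  set k : ℕ := (Y'.card + 1) * L' with hk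
  have hk1 : 1 ≤ k := Nat.mul_pos (Nat.succ_pos _) hLpos
  refine ⟨k, (Q : Set M) * monE Y' c k, hk1, ?_, ?_, ?_⟩
  · exact Q.finite_toSet.mul (finite_monE Y' c hcpos k)
  · rintro e he
    obtain ⟨q, hq, x, ⟨t, ht, htk, rfl⟩, rfl⟩ := Set.mem_mul.mp he
    obtain ⟨hq1, hq2⟩ := hQ q hq
    obtain ⟨h1, h2, h3⟩ := v9_prod h c t fun y hy => hc y (Finset.mem_filter.mp (ht y hy)).1
    rw [htk] at h1
    have h4 := h.W_mul (v9_mem_zero (V₀ := V₀) (mem_lamFix.mp hq1).1) h1
    rw [zero_add] at h4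
    exact ⟨h4, fun g hg => by rw [smul_mul', (mem_lamFix.mp hq1).2 g hg, h2 g hg],
      v9_sg_mul hq2 h3⟩
  · intro m hm f hf hfC
    have h1 := h.mem_span_monE (Y := Y) (Q := Q) (c := c)
      (fun y hy => ⟨(hc y hy).1, (hc y hy).2.1⟩) (fun q hq => (hQ q hq).1) hQgen hf
      (hYgen _ f hf hfC)
    refine Submodule.span_mono ?_ h1
    have h2 : monE Y' c (k * m) ⊆ monE Y' c k ^ m := monE_mul Y' c L' hLpos hcdvd m hm
    have h3 : (Q : Set M) ⊆ (Q : Set M) ^ m := Set.subset_pow hQ1 (by omega)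
    rw [mul_pow]
    exact Set.mul_subset_mul h3 h2
-- END V9

end Pool.Agent.Lib.MP_6a3dac_ag.TW
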