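import Pool.Agent.Lib.MP_6a3dac_ag.TW.Set
import Pool.Agent.Lib.MP_6a3dac_ag.TW.Ver
import Pool.Agent.Lib.MP_6a3dac_ag.TW.Quad

/-!
# The tame quadratic step for centres
-/

set_option autoImplicit false
set_option linter.unusedSectionVars false
set_option linter.unusedVariables false

namespace Pool.Agent.Lib.MP_6a3dac_ag.TW

open Pool.Agent.Lib.MP_6a3dac_ag GI QD IsLocalRing
open scoped Pointwise

variable {L M F I G : Type} [Field L] [CommRing M] [Algebra L M] [Field F] [Group G] [Finite G]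
  [MulSemiringAction G M] [MulSemiringAction G F]

/-- A centre: finitely many finite sets of homogeneous elements, stable under `Dp`. -/
structure CSet (ℳ : ℕ → Submodule L M) (x : I → M) (Λ : Subring M) (ϖ : M) (Dp : Subgroup G)
    (r : ℕ) (B : ℕ → Set M) (dg J : ℕ → ℕ) : Prop where
  fin : ∀ j, (B j).Finite
  dpos : ∀ j, 1 ≤ dg j
  deg : ∀ j, ∀ b ∈ B j, b ∈ ℳ (dg j)
  pow : ∀ j i, ϖ ^ J j * x i ^ dg j ∈ B j
  stab : ∀ g ∈ Dp, ∀ j, ∀ b ∈ B j, g • b ∈ Submodule.span Λ (B j)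
  Jpos : ∀ j ∈ Finset.Icc 1 r, 1 ≤ J j
  slope : ∀ j ∈ Finset.Icc 1 r, ∀ l ∈ Finset.Icc 1 r, j < l → J j * dg l < J l * dg j

/-- The hypotheses on the groups and the constants. -/
structure StepHyp (ℳ : ℕ → Submodule L M) (x : I → M) (ι : M →+* F) (Λ : Subring M) (ϖ : M)
    (Dp C C' : Subgroup G) : Prop where
  inj : Function.Injective ι
  hF : ∀ (g : G) m, g • ι m = ι (g • m)
  Mst : ∀ (g : G) n m, m ∈ ℳ n → g • m ∈ ℳ n
  xdeg : ∀ i, x i ∈ ℳ 1
  xst : ∀ (g : G) l, ∃ l', g • x l = x l'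
  Λdeg : ∀ c ∈ Λ, c ∈ ℳ 0
  Λst : ∀ g ∈ Dp, ∀ c ∈ Λ, g • c ∈ Λ
  ϖΛ : ϖ ∈ Λ
  ϖst : ∀ g ∈ Dp, ∃ η ∈ Λ, g • ϖ = η * ϖ
  le : C ≤ C'
  le' : C' ≤ Dp
  norm : ∀ g ∈ Dp, ∀ c ∈ C, g * c * g⁻¹ ∈ C
  norm' : ∀ g ∈ Dp, ∀ c ∈ C', g * c * g⁻¹ ∈ C'
  idx : ∀ g ∈ C', ∀ h ∈ C', g ∉ C → h ∉ C → g⁻¹ * h ∈ C
  ne : ∃ τ ∈ C', τ ∉ C
  two : ∃ w ∈ lamFix Λ C', 2 * w = 1
  noeth : IsNoetherianRing (lamFix Λ C')
  finΛ : ∃ S₀ : Set M, S₀.Finite ∧ (∀ c ∈ S₀, c ∈ Λ) ∧ ∀ c ∈ Λ, c ∈ Submodule.span (lamFix Λ C') S₀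
  odd : ∃ c ∈ Λ, (∀ g ∈ C, g • c = c) ∧ SgO C C' c ∧ ∃ N : ℕ, ∃ c₀ ∈ Λ, ϖ ^ N = c₀ * c

/-- The set `E` of signed invariants given by the Veronese theorem. -/
structure EHyp (Λ : Subring M) (C C' : Subgroup G) (V : Set M) (k : ℕ) (E : Set M) : Prop where
  kpos : 1 ≤ k
  fin : E.Finite
  mem : ∀ e ∈ E, e ∈ Submodule.span Λ (V ^ k)
  fix : ∀ e ∈ E, ∀ g ∈ C, g • e = e
  sgn : ∀ e ∈ E, SgE C C' e ∨ SgO C C' e
  ver : ∀ m, 1 ≤ m → ∀ f ∈ Submodule.span Λ (V ^ (k * m)), (∀ g ∈ C, g • f = f) →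
    f ∈ Submodule.span (lamFix Λ C') (E ^ m)

variable {ℳ : ℕ → Submodule L M} [GradedAlgebra ℳ] {x : I → M} {ι : M →+* F} {Λ : Subring M}
  {ϖ : M} {Dp C C' : Subgroup G} {r : ℕ} {B : ℕ → Set M} {dg J : ℕ → ℕ}

section Signs

variable (hS : StepHyp ℳ x ι Λ ϖ Dp C C')

-- BEGIN U1
include hS in
/-- TASK U1. The field `Vst` is `smul_WSet`, `deg` is `WSet_deg`, `fin` is `DNF.finite_WSet`, `dpos` is clear. -/
theorem StepHyp.verHyp [Finite I] (hB : CSet ℳ x Λ ϖ Dp r B dg J) :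
    VerHyp ℳ Λ C C' (DNF.WSet x B r) (1 + ∑ j ∈ Finset.Icc 1 r, dg j) where
  dpos := by omega
  fin := DNF.finite_WSet hB.fin r
  deg := WSet_deg hS.xdeg hB.deg
  Λdeg := hS.Λdeg
  Λst := fun g hg => hS.Λst g (hS.le' hg)
  Vst := fun g hg => smul_WSet (hS.xst g) fun j _ b hb => hB.stab g (hS.le' hg) j b hb
  Mst := fun g _ n m hm => hS.Mst g n m hm
  le := hS.le
  idx := hS.idx
  two := hS.two
  noeth := hS.noeth
  finΛ := hS.finΛ

include hS in
/-- TASK U1. From `VerHyp.exists_veronese`. -/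
theorem StepHyp.exists_EHyp [Finite I] (hB : CSet ℳ x Λ ϖ Dp r B dg J) :
    ∃ (k : ℕ) (E : Set M), EHyp Λ C C' (DNF.WSet x B r) k E := by
  obtain ⟨k, E, hk, hfin, hE, hver⟩ := (hS.verHyp hB).exists_veronese
  exact ⟨k, E, hk, hfin, fun e he => (hE e he).1, fun e he => (hE e he).2.1,
    fun e he => (hE e he).2.2, hver⟩
-- END U1

-- BEGIN U2
private theorem u2_conj (g c : G) (f : M) : c • g • f = g • (g⁻¹ * c * g) • f := by
  rw [smul_smul, smul_smul]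
  congr 1
  group

omit [GradedAlgebra ℳ] in
include hS in
private theorem u2_mem {g : G} (hg : g ∈ Dp) {c : G} (hc : c ∈ C) : g⁻¹ * c * g ∈ C := by
  have h := hS.norm g⁻¹ (Dp.inv_mem hg) c hc
  rwa [inv_inv] at h

omit [GradedAlgebra ℳ] in
include hS in
private theorem u2_mem' {g : G} (hg : g ∈ Dp) {h : G} (hh : h ∈ C') (hhC : h ∉ C) :
    g⁻¹ * h * g ∈ C' ∧ g⁻¹ * h * g ∉ C := by
  refine ⟨?_, fun hcon => hhC ?_⟩
  · have h1 := hS.norm' g⁻¹ (Dp.inv_mem hg) h hh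
    rwa [inv_inv] at h1
  · have h1 := hS.norm g hg _ hcon
    have h2 : g * (g⁻¹ * h * g) * g⁻¹ = h := by group
    rwa [h2] at h1

omit [GradedAlgebra ℳ] in
include hS in
/-- TASK U2. `c • g • f = g • (g⁻¹ * c * g) • f` and `g⁻¹ * c * g ∈ C` (`norm` for `g⁻¹`). -/
theorem StepHyp.fix_smul {g : G} (hg : g ∈ Dp) {f : M} (hf : ∀ c ∈ C, c • f = f) :
    ∀ c ∈ C, c • g • f = g • f := by
  intro c hc
  rw [u2_conj g c f, hf _ (u2_mem hS hg hc)]

omit [GradedAlgebra ℳ] in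
include hS in
/-- TASK U2. For `h ∈ C'`, `h ∉ C` also `g⁻¹ * h * g` is in `C'` and not in `C`. -/
theorem StepHyp.sgE_smul {g : G} (hg : g ∈ Dp) {f : M} (hf : SgE C C' f) : SgE C C' (g • f) := by
  intro h hh hhC
  obtain ⟨h1, h2⟩ := u2_mem' hS hg hh hhC
  rw [u2_conj g h f, hf _ h1 h2]

omit [GradedAlgebra ℳ] in
include hS in
/-- TASK U2. -/
theorem StepHyp.sgO_smul {g : G} (hg : g ∈ Dp) {f : M} (hf : SgO C C' f) : SgO C C' (g • f) := by
  intro h hh hhC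
  obtain ⟨h1, h2⟩ := u2_mem' hS hg hh hhC
  rw [u2_conj g h f, hf _ h1 h2, smul_neg]
-- END U2

-- BEGIN U3
private theorem u3_even {S : Set M} (hS : ∀ e ∈ S, SgE C C' e) {f : M}
    (hf : f ∈ Submodule.span (lamFix Λ C') S) : SgE C C' f := by
  induction hf using Submodule.span_induction with
  | mem y hy => exact hS y hy
  | zero =>
    intro g _ _
    exact smul_zero g
  | add y z _ _ hy hz =>
    intro g hg hgC
    rw [smul_add, hy g hg hgC, hz g hg hgC]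
  | smul c y _ hy =>
    intro g hg hgC
    rw [Subring.smul_def, smul_eq_mul, smul_mul', hy g hg hgC, c.2.2 g hg]

private theorem u3_odd {S : Set M} (hS : ∀ e ∈ S, SgO C C' e) {f : M}
    (hf : f ∈ Submodule.span (lamFix Λ C') S) : SgO C C' f := by
  induction hf using Submodule.span_induction with
  | mem y hy => exact hS y hy
  | zero =>
    intro g _ _
    rw [smul_zero, neg_zero]
  | add y z _ _ hy hz =>
    intro g hg hgC
    rw [smul_add, hy g hg hgC, hz g hg hgC, neg_add]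
  | smul c y _ hy =>
    intro g hg hgC
    rw [Subring.smul_def, smul_eq_mul, smul_mul', hy g hg hgC, c.2.2 g hg, mul_neg]

private theorem u3_split {E : Set M} (hE : ∀ e ∈ E, SgE C C' e ∨ SgO C C' e) {f : M}
    (hf : f ∈ Submodule.span (lamFix Λ C') E) :
    ∃ f₁ ∈ Submodule.span (lamFix Λ C') {e | e ∈ E ∧ SgE C C' e},
      ∃ f₂ ∈ Submodule.span (lamFix Λ C') {e | e ∈ E ∧ SgO C C' e}, f = f₁ + f₂ := by
  have h1 : E ⊆ {e | e ∈ E ∧ SgE C C' e} ∪ {e | e ∈ E ∧ SgO C C' e} := by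
    intro e he
    rcases hE e he with h | h
    · exact Or.inl ⟨he, h⟩
    · exact Or.inr ⟨he, h⟩
  have h2 := Submodule.span_mono (R := lamFix Λ C') h1 hf
  rw [Submodule.span_union] at h2
  obtain ⟨f₁, hf₁, f₂, hf₂, h⟩ := Submodule.mem_sup.mp h2
  exact ⟨f₁, hf₁, f₂, hf₂, h.symm⟩

omit [GradedAlgebra ℳ] in
include hS in
private theorem u3_two {z : M} (hz : z + z = 0) : z = 0 := by
  obtain ⟨w, -, hw⟩ := hS.two
  have h : z = w * (z + z) := by
    have h2 : w * (z + z) = (2 * w) * z := by ring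
    rw [h2, hw, one_mul]
  rw [h, hz, mul_zero]

omit [GradedAlgebra ℳ] in
include hS in
/-- TASK U3. **Projection to the even and odd parts.** `f = f₁ + f₂` with `f₁` in the span of the even elements and
`f₂` in the span of the odd elements of `E` (`Submodule.span_induction`); `f₁` is even and `f₂` is odd since the
coefficients are fixed by `C'`. If `f` is even then with `τ ∈ C'`, `τ ∉ C`: `f₁ + f₂ = f = τ • f = f₁ - f₂`, so `f₂ = 0`. -/
theorem StepHyp.span_even {E : Set M} (hE : ∀ e ∈ E, SgE C C' e ∨ SgO C C' e) {f : M}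
    (hf : f ∈ Submodule.span (lamFix Λ C') E) (hs : SgE C C' f) :
    f ∈ Submodule.span (lamFix Λ C') {e | e ∈ E ∧ SgE C C' e} := by
  obtain ⟨f₁, hf₁, f₂, hf₂, rfl⟩ := u3_split hE hf
  obtain ⟨τ, hτ, hτC⟩ := hS.ne
  have h1 := u3_even (fun e he => he.2) hf₁ τ hτ hτC
  have h2 := u3_odd (fun e he => he.2) hf₂ τ hτ hτC
  have h3 := hs τ hτ hτC
  rw [smul_add, h1, h2] at h3
  have h4 : f₂ + f₂ = 0 := by linear_combination -h3
  rw [u3_two hS h4, add_zero]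
  exact hf₁

omit [GradedAlgebra ℳ] in
include hS in
/-- TASK U3. -/
theorem StepHyp.span_odd {E : Set M} (hE : ∀ e ∈ E, SgE C C' e ∨ SgO C C' e) {f : M}
    (hf : f ∈ Submodule.span (lamFix Λ C') E) (hs : SgO C C' f) :
    f ∈ Submodule.span (lamFix Λ C') {e | e ∈ E ∧ SgO C C' e} := by
  obtain ⟨f₁, hf₁, f₂, hf₂, rfl⟩ := u3_split hE hf
  obtain ⟨τ, hτ, hτC⟩ := hS.ne
  have h1 := u3_even (fun e he => he.2) hf₁ τ hτ hτC
  have h2 := u3_odd (fun e he => he.2) hf₂ τ hτ hτC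
  have h3 := hs τ hτ hτC
  rw [smul_add, h1, h2] at h3
  have h4 : f₁ + f₁ = 0 := by linear_combination h3
  rw [u3_two hS h4, zero_add]
  exact hf₂
-- END U3

variable {V : Set M} {k : ℕ} {E : Set M} (hE : EHyp Λ C C' V k E)

-- BEGIN U4
omit [GradedAlgebra ℳ] in
include hS hE in
/-- TASK U4. **The products of even and odd elements are stable.** `y = e * e'`; `g • e` is in `span Λ (V ^ k)`
(`smul_mem_span_pow`), fixed by `C` and even (U2), so by `hE.ver` (`m = 1`) and `span_even` a linear combination of even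
elements of `E`; `g • e'` of odd elements. Multiply (`Submodule.span_induction`; the coefficients are in `Λ`). -/
theorem StepHyp.prJ_stable {g : G} (hg : g ∈ Dp) (hV : ∀ w ∈ V, g • w ∈ Submodule.span Λ V) :
    ∀ y ∈ prJ C C' E, g • y ∈ Submodule.span Λ (prJ C C' E) := by
  have key : ∀ f ∈ Submodule.span (lamFix Λ C') {e | e ∈ E ∧ SgE C C' e},
      ∀ f' ∈ Submodule.span (lamFix Λ C') {e | e ∈ E ∧ SgO C C' e},
      f * f' ∈ Submodule.span Λ (prJ C C' E) := by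
    intro f hf f' hf'
    induction hf using Submodule.span_induction with
    | mem e he =>
      induction hf' using Submodule.span_induction with
      | mem e' he' => exact Submodule.subset_span ⟨e, he.1, e', he'.1, he.2, he'.2, rfl⟩
      | zero =>
        rw [mul_zero]
        exact Submodule.zero_mem _
      | add a b _ _ ha hb =>
        rw [mul_add]
        exact Submodule.add_mem _ ha hb
      | smul c a _ ha =>
        have h1 : e * (c • a) = (⟨(c : M), c.2.1⟩ : Λ) • (e * a) := by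
          change e * ((c : M) * a) = (c : M) * (e * a)
          ring
        rw [h1]
        exact Submodule.smul_mem _ _ ha
    | zero =>
      rw [zero_mul]
      exact Submodule.zero_mem _
    | add a b _ _ ha hb =>
      rw [add_mul]
      exact Submodule.add_mem _ ha hb
    | smul c a _ ha =>
      have h1 : (c • a) * f' = (⟨(c : M), c.2.1⟩ : Λ) • (a * f') := by
        change ((c : M) * a) * f' = (c : M) * (a * f')
        ring
      rw [h1]
      exact Submodule.smul_mem _ _ ha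
  have key2 : ∀ e ∈ E, g • e ∈ Submodule.span (lamFix Λ C') E := by
    intro e he
    have h1 : g • e ∈ Submodule.span Λ (V ^ (k * 1)) := by
      rw [mul_one]
      exact smul_mem_span_pow (hS.Λst g hg) hV (hE.mem e he)
    have h2 := hE.ver 1 le_rfl _ h1 (hS.fix_smul hg (hE.fix e he))
    rwa [pow_one] at h2
  rintro y ⟨e, he, e', he', h1, h2, rfl⟩
  rw [smul_mul']
  exact key _ (hS.span_even hE.sgn (key2 e he) (hS.sgE_smul hg h1)) _
    (hS.span_odd hE.sgn (key2 e' he') (hS.sgO_smul hg h2))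
-- END U4

-- BEGIN U5
private theorem u5_span {S : Set M} {T : Set M} {e₀ : M} (hST : ∀ e ∈ S, e * e₀ ∈ T) {f : M}
    (hf : f ∈ Submodule.span (lamFix Λ C') S) : f * e₀ ∈ Submodule.span Λ T := by
  induction hf using Submodule.span_induction with
  | mem y hy => exact Submodule.subset_span (hST y hy)
  | zero =>
    rw [zero_mul]
    exact Submodule.zero_mem _
  | add y z _ _ hy hz =>
    rw [add_mul]
    exact Submodule.add_mem _ hy hz
  | smul c y _ hy =>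
    have h := Submodule.smul_mem (Submodule.span Λ T) (⟨c.1, c.2.1⟩ : Λ) hy
    rw [Subring.smul_def, smul_eq_mul] at h ⊢
    rw [mul_assoc]
    exact h

omit [GradedAlgebra ℳ] in
include hS hE in
/-- TASK U5. Let `c` be the odd constant, `ϖ ^ N = c₀ * c`. For `e₀ ∈ E` the element `c * e₀` is in `span Λ (V ^ k)`, fixed
by `C` and of the opposite sign, so by `hE.ver` (`m = 1`) and U3 it is a linear combination of the elements of `E` of
the sign opposite to that of `e₀`; so `c * e₀ * e₀` is in the span of `prJ`, and `ϖ ^ N * e₀ ^ 2 = c₀ * (c * e₀ * e₀)`. -/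
theorem StepHyp.exists_pow : ∃ N : ℕ, ∀ e₀ ∈ E, ϖ ^ N * e₀ ^ 2 ∈ Submodule.span Λ (prJ C C' E) := by
  obtain ⟨c, hcΛ, hcC, hcO, N, c₀, hc₀, hN⟩ := hS.odd
  refine ⟨N, fun e₀ he₀ => ?_⟩
  have hmem : c * e₀ ∈ Submodule.span Λ (V ^ k) := by
    have h := Submodule.smul_mem _ (⟨c, hcΛ⟩ : Λ) (hE.mem e₀ he₀)
    rwa [Subring.smul_def, smul_eq_mul] at h
  have hfix : ∀ g ∈ C, g • (c * e₀) = c * e₀ := by
    intro g hg
    rw [smul_mul', hcC g hg, hE.fix e₀ he₀ g hg]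
  have hver : c * e₀ ∈ Submodule.span (lamFix Λ C') E := by
    have h := hE.ver 1 le_rfl (c * e₀) (by rwa [mul_one]) hfix
    rwa [pow_one] at h
  have hmain : (c * e₀) * e₀ ∈ Submodule.span Λ (prJ C C' E) := by
    rcases hE.sgn e₀ he₀ with h0 | h0
    · have hs : SgO C C' (c * e₀) := by
        intro g hg hgC
        rw [smul_mul', hcO g hg hgC, h0 g hg hgC, neg_mul]
      refine u5_span ?_ (hS.span_odd hE.sgn hver hs)
      intro e he
      exact ⟨e₀, he₀, e, he.1, h0, he.2, mul_comm _ _⟩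
    · have hs : SgE C C' (c * e₀) := by
        intro g hg hgC
        rw [smul_mul', hcO g hg hgC, h0 g hg hgC, neg_mul_neg]
      refine u5_span ?_ (hS.span_even hE.sgn hver hs)
      intro e he
      exact ⟨e, he.1, e₀, he₀, he.2, h0, rfl⟩
  have h := Submodule.smul_mem _ (⟨c₀, hc₀⟩ : Λ) hmain
  rw [Subring.smul_def, smul_eq_mul] at h
  have h2 : ϖ ^ N * e₀ ^ 2 = c₀ * ((c * e₀) * e₀) := by
    rw [hN]
    ring
  rw [h2]
  exact h
-- END U5

/-- The set of the new ideal. -/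
def newB (C C' : Subgroup G) (E : Set M) (x : I → M) (ϖ : M) (J₁ δ₂ : ℕ) : Set M :=
  prJ C C' E ∪ Set.range fun l => ϖ ^ J₁ * x l ^ δ₂

-- BEGIN U6
include hS in
/-- TASK U6. **The new centre.** `fin`: `prJ C C' E` is contained in `E * E`, `I` is finite. `deg`: `e ∈ ℳ (d k)` by
`VerHyp.W_deg` (V3), `d = 1 + ∑ dg j`, `δ₂ = 2 (d k)`; `ϖ ∈ ℳ 0`. `stab`: `prJ_stable` with `smul_WSet`, and
`g • (ϖ ^ J₁ x_l ^ δ₂) = η ^ J₁ ϖ ^ J₁ x_{l'} ^ δ₂`. For the indices different from `r + 1` everything is `hB`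
(`Function.update_of_ne`). `slope`: `J j * δ₂ < J₁ ≤ J₁ * dg j`. -/
theorem StepHyp.cset_new [Finite I] (hB : CSet ℳ x Λ ϖ Dp r B dg J)
    (hE : EHyp Λ C C' (DNF.WSet x B r) k E) {δ₂ J₁ : ℕ}
    (hδ₂ : δ₂ = 2 * ((1 + ∑ j ∈ Finset.Icc 1 r, dg j) * k)) (hJ₁ : 1 ≤ J₁)
    (hJ : ∀ j ∈ Finset.Icc 1 r, J j * δ₂ < J₁) :
    CSet ℳ x Λ ϖ Dp (r + 1) (Function.update B (r + 1) (newB C C' E x ϖ J₁ δ₂))
      (Function.update dg (r + 1) δ₂) (Function.update J (r + 1) J₁) := by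
  have hVer := hS.verHyp hB
  have hV : ∀ g ∈ Dp, ∀ w ∈ DNF.WSet x B r, g • w ∈ Submodule.span Λ (DNF.WSet x B r) :=
    fun g hg => smul_WSet (hS.xst g) fun j _ => hB.stab g hg j
  have hϖ0 : ϖ ∈ ℳ 0 := hS.Λdeg _ hS.ϖΛ
  constructor
  · intro j
    by_cases hj : j = r + 1
    · subst hj
      rw [Function.update_self]
      refine Set.Finite.union ?_ (Set.finite_range _)
      refine (Set.Finite.image2 (fun a b => a * b) hE.fin hE.fin).subset ?_
      rintro y ⟨e, he, e', he', -, -, rfl⟩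
      exact ⟨e, he, e', he', rfl⟩
    · rw [Function.update_of_ne hj]
      exact hB.fin j
  · intro j
    by_cases hj : j = r + 1
    · subst hj
      rw [Function.update_self, hδ₂]
      have h1 : 1 ≤ (1 + ∑ j ∈ Finset.Icc 1 r, dg j) * k :=
        Nat.mul_pos (by omega) hE.kpos
      omega
    · rw [Function.update_of_ne hj]
      exact hB.dpos j
  · intro j
    by_cases hj : j = r + 1
    · subst hj
      rw [Function.update_self, Function.update_self]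
      rintro b (⟨e, he, e', he', -, -, rfl⟩ | ⟨l, rfl⟩)
      · have h1 := hVer.W_deg (hE.mem e he)
        have h2 := hVer.W_deg (hE.mem e' he')
        have h3 := SetLike.mul_mem_graded h1 h2
        rw [hδ₂, two_mul]
        exact h3
      · have h1 := SetLike.pow_mem_graded J₁ hϖ0
        have h2 := SetLike.pow_mem_graded δ₂ (hS.xdeg l)
        have h3 := SetLike.mul_mem_graded h1 h2
        rw [smul_zero, zero_add, smul_eq_mul, mul_one] at h3
        exact h3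
    · rw [Function.update_of_ne hj, Function.update_of_ne hj]
      exact hB.deg j
  · intro j i
    by_cases hj : j = r + 1
    · subst hj
      rw [Function.update_self, Function.update_self, Function.update_self]
      exact Or.inr ⟨i, rfl⟩
    · rw [Function.update_of_ne hj, Function.update_of_ne hj, Function.update_of_ne hj]
      exact hB.pow j i
  · intro g hg j
    by_cases hj : j = r + 1
    · subst hj
      rw [Function.update_self]
      rintro b (hb | ⟨l, rfl⟩)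
      · exact Submodule.span_mono Set.subset_union_left (hS.prJ_stable hE hg (hV g hg) b hb)
      · obtain ⟨η, hη, h1⟩ := hS.ϖst g hg
        obtain ⟨l', hl'⟩ := hS.xst g l
        have h2 : g • (ϖ ^ J₁ * x l ^ δ₂) = (⟨η ^ J₁, Λ.pow_mem hη J₁⟩ : Λ) • (ϖ ^ J₁ * x l' ^ δ₂) := by
          rw [smul_mul', smul_pow', smul_pow', h1, hl', mul_pow, mul_assoc]
          rfl
        show g • (ϖ ^ J₁ * x l ^ δ₂) ∈ _
        rw [h2]
        exact Submodule.smul_mem _ _ (Submodule.subset_span (Or.inr ⟨l', rfl⟩))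
    · rw [Function.update_of_ne hj]
      exact hB.stab g hg j
  · intro j hj
    rw [Finset.mem_Icc] at hj
    by_cases hjr : j = r + 1
    · subst hjr
      rw [Function.update_self]
      exact hJ₁
    · rw [Function.update_of_ne hjr]
      exact hB.Jpos j (Finset.mem_Icc.2 (by omega))
  · intro j hj l hl hjl
    rw [Finset.mem_Icc] at hj hl
    have hjr : j ≠ r + 1 := by omega
    have hj' : j ∈ Finset.Icc 1 r := Finset.mem_Icc.2 (by omega)
    by_cases hlr : l = r + 1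
    · subst hlr
      rw [Function.update_of_ne hjr, Function.update_of_ne hjr, Function.update_self,
        Function.update_self]
      calc J j * δ₂ < J₁ := hJ j hj'
        _ = J₁ * 1 := (mul_one _).symm
        _ ≤ J₁ * dg j := Nat.mul_le_mul_left _ (hB.dpos j)
    · rw [Function.update_of_ne hjr, Function.update_of_ne hjr, Function.update_of_ne hlr,
        Function.update_of_ne hlr]
      exact hB.slope j hj' l (Finset.mem_Icc.2 (by omega)) hjl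
-- END U6

end Signs

section Local

variable {D : Subring F} {i : I} {β : ℕ → M}

-- BEGIN U7
/-- TASK U7. **Removing the last ideal.** `D₀` is the smallest dominated subring of `D` containing `ι Λ`, the
`ι (x l) / ι (x i)` and the `ι b / ι (β j)`, `j ≤ r`: the infimum of all these subrings (compare `blowR`, Q2). A subring
dominated by `D₀` is dominated by `D`. `D₀` is local since it is dominated by `D`. -/
theorem exists_sub {B' : ℕ → Set M} (hBB : ∀ j ∈ Finset.Icc 1 r, B' j = B j)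
    (hD : LocSit ι x B' Λ (r + 1) D i β) :
    ∃ D₀ : Subring F, LocSit ι x B Λ r D₀ i β ∧ D₀ ≤ D ∧ (∀ a ∈ D₀, ∀ b ∈ D, a * b = 1 → b ∈ D₀) ∧
      ∀ R' : Subring F, R' ≤ D → (∀ a ∈ R', ∀ b ∈ D, a * b = 1 → b ∈ R') → D₀ ≤ R' →
        (∀ b ∈ B' (r + 1), ι b / ι (β (r + 1)) ∈ R') → D ≤ R' := by
  have hsub : ∀ j ∈ Finset.Icc 1 r, j ∈ Finset.Icc 1 (r + 1) := by
    intro j hj
    rw [Finset.mem_Icc] at hj ⊢
    omega
  obtain ⟨S, hSdef⟩ : ∃ S : Set (Subring F), S = {R' | R' ≤ D ∧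
      (∀ a ∈ R', ∀ b ∈ D, a * b = 1 → b ∈ R') ∧ (∀ c ∈ Λ, ι c ∈ R') ∧
      (∀ k, ι (x k) / ι (x i) ∈ R') ∧
      ∀ j ∈ Finset.Icc 1 r, ∀ b ∈ B j, ι b / ι (β j) ∈ R'} := ⟨_, rfl⟩
  have hmem : ∀ R' : Subring F, R' ∈ S ↔ R' ≤ D ∧
      (∀ a ∈ R', ∀ b ∈ D, a * b = 1 → b ∈ R') ∧ (∀ c ∈ Λ, ι c ∈ R') ∧
      (∀ k, ι (x k) / ι (x i) ∈ R') ∧
      ∀ j ∈ Finset.Icc 1 r, ∀ b ∈ B j, ι b / ι (β j) ∈ R' := by
    intro R'
    rw [hSdef]
    exact Iff.rfl
  have hDS : D ∈ S := by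
    rw [hmem]
    refine ⟨le_rfl, fun a _ b hb _ => hb, hD.lam, hD.coord, fun j hj b hb => ?_⟩
    rw [← hBB j hj] at hb
    exact hD.ratio j (hsub j hj) b hb
  have hle : sInf S ≤ D := sInf_le hDS
  have hdom : ∀ a ∈ sInf S, ∀ b ∈ D, a * b = 1 → b ∈ sInf S := by
    intro a ha b hb hab
    rw [Subring.mem_sInf] at ha ⊢
    intro R' hR'
    exact ((hmem R').1 hR').2.1 a (ha R' hR') b hb hab
  have hlam : ∀ c ∈ Λ, ι c ∈ sInf S := by
    intro c hc
    rw [Subring.mem_sInf]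
    exact fun R' hR' => ((hmem R').1 hR').2.2.1 c hc
  have hcoord : ∀ k, ι (x k) / ι (x i) ∈ sInf S := by
    intro k
    rw [Subring.mem_sInf]
    exact fun R' hR' => ((hmem R').1 hR').2.2.2.1 k
  have hratio : ∀ j ∈ Finset.Icc 1 r, ∀ b ∈ B j, ι b / ι (β j) ∈ sInf S := by
    intro j hj b hb
    rw [Subring.mem_sInf]
    exact fun R' hR' => ((hmem R').1 hR').2.2.2.2 j hj b hb
  have hloc : IsLocalRing (sInf S : Subring F) := by
    have h0 : ∀ a : (sInf S : Subring F), a ∈ nonunits (sInf S : Subring F) → IsN D (a : F) := by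
      intro a ha
      rcases isU_or_isN (hle a.2) with h1 | h1
      · exfalso
        obtain ⟨h2, w, hw, h3⟩ := h1
        exact ha ((isUnit_iff_isU a).2 ⟨a.2, w, hdom a a.2 w hw h3, h3⟩)
      · exact h1
    refine IsLocalRing.of_nonunits_add fun a b ha hb hab => ?_
    have h1 := (h0 a ha).add hD.loc (h0 b hb)
    obtain ⟨h2, w, hw, h3⟩ := (isUnit_iff_isU (a + b)).1 hab
    exact h1.2 w (hle hw) h3
  refine ⟨sInf S, ⟨hloc, hlam, hD.ne, hcoord, fun j hj => ?_, fun j hj => hD.β_ne j (hsub j hj),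
    hratio, ?_⟩, hle, hdom, ?_⟩
  · rw [← hBB j hj]
    exact hD.β_mem j (hsub j hj)
  · intro R' hR' hdom' h1 h2 h3
    refine sInf_le ((hmem R').2 ⟨hR'.trans hle, fun a ha b hb hab => ?_, h1, h2, h3⟩)
    exact hdom' a ha b (hdom a (hR' ha) b hb hab) hab
  · intro R' hR' hdom' hDR' hlast
    refine hD.gen R' hR' hdom' (fun c hc => hDR' (hlam c hc)) (fun k => hDR' (hcoord k))
      fun j hj b hb => ?_
    by_cases hjr : j ∈ Finset.Icc 1 r
    · rw [hBB j hjr] at hb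
      exact hDR' (hratio j hjr b hb)
    · have hj1 : j = r + 1 := by
        rw [Finset.mem_Icc] at hj hjr
        omega
      subst hj1
      exact hlast b hb
-- END U7

variable {V : Set M} {k : ℕ} {E : Set M} {D₀ : Subring F} {v : F}

-- BEGIN U8
/-- TASK U8. **An element of `E` which does not vanish.** The proof is that of `QuadHyp.exists_e` (Q5): `exists_inv_unit`
for `C` gives `n ≥ 1`, `f = ι f'`, `f' ∈ span Λ (V ^ n)` fixed by `C` (`ι` is injective); `f' ^ k` is in the span of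
`E ^ n` by `hE.ver`, so some `ι y / v ^ (k n)`, `y ∈ E ^ n`, is a unit of `D₀`, and `y` is a product of `n ≥ 1` elements of
`E`. -/
theorem exists_e_unit (hι : Function.Injective ι) (hF : ∀ (g : G) m, g • ι m = ι (g • m))
    (hC : ∀ g ∈ C, ∀ n, ∀ f ∈ sysT ι Λ V n, g • f ∈ sysT ι Λ V n)
    (hΛ : ∀ c ∈ Λ, ι c ∈ D₀) (hE : EHyp Λ C C' V k E) (hD : GPt (sysT ι Λ V) D₀ v) :
    ∃ e ∈ E, IsU D₀ (ι e / v ^ k) := by
  have hT : GSys (sysT ι Λ V) := gSys_sysT V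
  obtain ⟨n, hn, h, hh, hfix, hu⟩ := hD.exists_inv_unit hT hC
  obtain ⟨f, hf, rfl⟩ := mem_sysT.1 hh
  have hffix : ∀ g ∈ C, g • f = f := by
    intro g hg
    apply hι
    rw [← hF, hfix g hg]
  have hpow : f ^ k ∈ Submodule.span Λ (V ^ (k * n)) := by
    obtain ⟨f₁, hf₁, h1⟩ := mem_sysT.1 (hT.pow hh k)
    rw [← map_pow] at h1
    rw [← hι h1, mul_comm k n]
    exact hf₁
  have hver := hE.ver n hn (f ^ k) hpow (fun g hg => by rw [smul_pow', hffix g hg])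
  have hunit : IsU D₀ (ι (f ^ k) / v ^ (k * n)) := by
    have h1 := hD.isU_pow hT hu k
    rwa [← map_pow, mul_comm n k] at h1
  have hEm : ∀ (m : ℕ) (y : M), y ∈ E ^ m → ι y ∈ sysT ι Λ V (k * m) := by
    intro m
    induction m with
    | zero =>
      intro y hy
      rw [pow_zero] at hy
      rw [Set.mem_one.1 hy, map_one, mul_zero]
      exact hT.one
    | succ m ih =>
      intro y hy
      rw [pow_succ] at hy
      obtain ⟨a, ha, b, hb, rfl⟩ := Set.mem_mul.1 hy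
      rw [map_mul, Nat.mul_succ]
      exact hT.mul (ih a ha) (mem_sysT.2 ⟨b, hE.mem b hb, rfl⟩)
  have hex : ∃ y ∈ E ^ n, IsU D₀ (ι y / v ^ (k * n)) := by
    by_contra hcon
    have hN : ∀ y ∈ E ^ n, IsN D₀ (ι y / v ^ (k * n)) := by
      intro y hy
      rcases isU_or_isN (hD.ratio (k * n) _ (hEm n y hy)) with h1 | h1
      · exact absurd ⟨y, hy, h1⟩ hcon
      · exact h1
    have hall : ∀ z ∈ Submodule.span (lamFix Λ C') (E ^ n), IsN D₀ (ι z / v ^ (k * n)) := by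
      intro z hz
      induction hz using Submodule.span_induction with
      | mem y hy => exact hN y hy
      | zero =>
        rw [map_zero, zero_div]
        exact isN_zero D₀
      | add a b _ _ ha hb =>
        rw [map_add, add_div]
        exact ha.add hD.loc hb
      | smul c a _ ha =>
        have h1 : ι (c • a) / v ^ (k * n) = ι (c : M) * (ι a / v ^ (k * n)) := by
          have h2 : c • a = (c : M) * a := rfl
          rw [h2, map_mul, mul_div_assoc]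
        rw [h1]
        exact ha.mul_left (hΛ _ c.2.1)
    exact hunit.not_isN (hall _ hver)
  obtain ⟨y, hy, hyu⟩ := hex
  obtain ⟨m, rfl⟩ : ∃ m, n = m + 1 := ⟨n - 1, by omega⟩
  rw [pow_succ] at hy
  obtain ⟨a, ha, b, hb, rfl⟩ := Set.mem_mul.1 hy
  refine ⟨b, hb, ?_⟩
  have h1 : ι (a * b) / v ^ (k * (m + 1)) = (ι a / v ^ (k * m)) * (ι b / v ^ k) := by
    rw [map_mul, Nat.mul_succ, pow_add, mul_div_mul_comm]
  rw [h1] at hyu
  exact hyu.right (hD.ratio _ _ (hEm m a ha))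
    (hD.ratio k _ (mem_sysT.2 ⟨b, hE.mem b hb, rfl⟩))
-- END U8

-- BEGIN U9
private theorem u9_span {Λ : Subring M} {D₀ : Subring F} {ι : M →+* F} (hΛ : ∀ c ∈ Λ, ι c ∈ D₀)
    {S : Set M} {m : M} (hm : m ∈ Submodule.span Λ S) : ι m ∈ Submodule.span D₀ (ι '' S) := by
  induction hm using Submodule.span_induction with
  | mem z hz => exact Submodule.subset_span ⟨z, hz, rfl⟩
  | zero => rw [map_zero]; exact Submodule.zero_mem _
  | add a b _ _ ha hb => rw [map_add]; exact Submodule.add_mem _ ha hb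
  | smul c a _ ha =>
    have h1 : ι (c • a) = (⟨ι c, hΛ c c.2⟩ : D₀) • ι a := by
      rw [Subring.smul_def, Subring.smul_def, smul_eq_mul, smul_eq_mul, map_mul]
    rw [h1]
    exact Submodule.smul_mem _ _ ha

/-- TASK U9. **The additional generators are redundant.** `v = ι (x i * ∏ β j)`, `d = 1 + ∑ dg j`, `δ₂ = 2 (d k)`,
`S = ∑ J j`. We have
`ι (ϖ ^ J₁ x_l ^ δ₂) = ι ϖ ^ (J₁ - N - 2 k S) (ι x_l / ι x_i) ^ δ₂ ((∏ ι (ϖ ^ J j x_i ^ dg j) / ι (β j)) ^ (2 k)) (v ^ k / ι e₀) ^ 2 ι (ϖ ^ N e₀ ^ 2)`,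
where all factors but the last lie in `D₀` (`hB.pow`, `hD₀.ratio`; `he₀`) and the last is in the span (`hN`). -/
theorem mem_span_prJ (hB : CSet ℳ x Λ ϖ Dp r B dg J) (hϖ : ϖ ∈ Λ)
    (hD₀ : LocSit ι x B Λ r D₀ i β) {N δ₂ J₁ : ℕ}
    (hδ₂ : δ₂ = 2 * ((1 + ∑ j ∈ Finset.Icc 1 r, dg j) * k))
    (hJ₁ : N + 2 * k * (∑ j ∈ Finset.Icc 1 r, J j) ≤ J₁) {e₀ : M}
    (he₀ : IsU D₀ (ι e₀ / ι (x i * ∏ j ∈ Finset.Icc 1 r, β j) ^ k))
    (hN : ϖ ^ N * e₀ ^ 2 ∈ Submodule.span Λ (prJ C C' E)) (l : I) :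
    ι (ϖ ^ J₁ * x l ^ δ₂) ∈ Submodule.span D₀ (ι '' prJ C C' E) := by
  classical
  obtain ⟨t, ht⟩ := Nat.exists_eq_add_of_le hJ₁
  obtain ⟨Q, hQ⟩ : ∃ Q, Q = ∏ j ∈ Finset.Icc 1 r, ι (ϖ ^ J j * x i ^ dg j) / ι (β j) := ⟨_, rfl⟩
  obtain ⟨P, hP⟩ : ∃ P, P = ∏ j ∈ Finset.Icc 1 r, ι (β j) := ⟨_, rfl⟩
  have hQD : Q ∈ D₀ := by
    rw [hQ]
    exact D₀.prod_mem fun j hj => hD₀.ratio j hj _ (hB.pow j i)
  have hP0 : P ≠ 0 := by
    rw [hP]
    exact Finset.prod_ne_zero_iff.2 fun j hj => hD₀.β_ne j hj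
  have hX0 := hD₀.ne
  have hv : ι (x i * ∏ j ∈ Finset.Icc 1 r, β j) = ι (x i) * P := by
    rw [map_mul, map_prod, hP]
  rw [hv] at he₀
  have he0 : ι e₀ ≠ 0 := by
    intro h0
    have := he₀.ne_zero
    rw [h0, zero_div] at this
    exact this rfl
  have hinv := he₀.inv_mem
  rw [inv_div] at hinv
  have hQP : Q * P = ι ϖ ^ (∑ j ∈ Finset.Icc 1 r, J j) * ι (x i) ^ (∑ j ∈ Finset.Icc 1 r, dg j) := by
    rw [hQ, hP, ← Finset.prod_mul_distrib, ← Finset.prod_pow_eq_pow_sum, ← Finset.prod_pow_eq_pow_sum,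
      ← Finset.prod_mul_distrib]
    refine Finset.prod_congr rfl fun j hj => ?_
    rw [div_mul_cancel₀ _ (hD₀.β_ne j hj), map_mul, map_pow, map_pow]
  have hsp := u9_span hD₀.lam hN
  have hc : ι ϖ ^ t * (ι (x l) / ι (x i)) ^ δ₂ * Q ^ (2 * k) * ((ι (x i) * P) ^ k / ι e₀) ^ 2 ∈ D₀ :=
    D₀.mul_mem (D₀.mul_mem (D₀.mul_mem (D₀.pow_mem (hD₀.lam _ hϖ) _) (D₀.pow_mem (hD₀.coord l) _))
      (D₀.pow_mem hQD _)) (D₀.pow_mem hinv _)
  have hkey : ι (ϖ ^ J₁ * x l ^ δ₂) =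
      (⟨_, hc⟩ : D₀) • ι (ϖ ^ N * e₀ ^ 2) := by
    rw [Subring.smul_def, smul_eq_mul]
    show ι (ϖ ^ J₁ * x l ^ δ₂) = ι ϖ ^ t * (ι (x l) / ι (x i)) ^ δ₂ * Q ^ (2 * k) *
      ((ι (x i) * P) ^ k / ι e₀) ^ 2 * ι (ϖ ^ N * e₀ ^ 2)
    simp only [map_mul, map_pow]
    have h1 : ι (x l) ^ δ₂ = (ι (x l) / ι (x i)) ^ δ₂ * ι (x i) ^ δ₂ := by
      rw [← mul_pow, div_mul_cancel₀ _ hX0]
    have h2 : ι ϖ ^ (2 * k * (∑ j ∈ Finset.Icc 1 r, J j)) * ι (x i) ^ δ₂ =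
        Q ^ (2 * k) * (ι (x i) * P) ^ (2 * k) := by
      have h3 : ι (x i) ^ δ₂ = ι (x i) ^ (2 * k) *
          (ι (x i) ^ (∑ j ∈ Finset.Icc 1 r, dg j)) ^ (2 * k) := by
        rw [← pow_mul, ← pow_add, hδ₂]
        congr 1
        ring
      have h4 : ι ϖ ^ (2 * k * (∑ j ∈ Finset.Icc 1 r, J j)) =
          (ι ϖ ^ (∑ j ∈ Finset.Icc 1 r, J j)) ^ (2 * k) := by
        rw [← pow_mul]
        congr 1
        ring
      calc ι ϖ ^ (2 * k * (∑ j ∈ Finset.Icc 1 r, J j)) * ι (x i) ^ δ₂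
          = (ι ϖ ^ (∑ j ∈ Finset.Icc 1 r, J j) * ι (x i) ^ (∑ j ∈ Finset.Icc 1 r, dg j)) ^ (2 * k) *
            ι (x i) ^ (2 * k) := by rw [h3, h4, mul_pow]; ring
        _ = Q ^ (2 * k) * (ι (x i) * P) ^ (2 * k) := by rw [← hQP]; ring
    have h5 : ((ι (x i) * P) ^ k / ι e₀) ^ 2 * ι e₀ ^ 2 = (ι (x i) * P) ^ (2 * k) := by
      rw [← mul_pow, div_mul_cancel₀ _ he0, ← pow_mul]
      congr 1
      ring
    have h6 : ι ϖ ^ J₁ = ι ϖ ^ N * ι ϖ ^ (2 * k * (∑ j ∈ Finset.Icc 1 r, J j)) * ι ϖ ^ t := by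
      rw [ht, pow_add, pow_add]
    calc ι ϖ ^ J₁ * ι (x l) ^ δ₂
        = ι ϖ ^ N * ι ϖ ^ t * (ι (x l) / ι (x i)) ^ δ₂ *
          (ι ϖ ^ (2 * k * (∑ j ∈ Finset.Icc 1 r, J j)) * ι (x i) ^ δ₂) := by
          rw [h6, h1]; ring
      _ = ι ϖ ^ N * ι ϖ ^ t * (ι (x l) / ι (x i)) ^ δ₂ *
          (Q ^ (2 * k) * (((ι (x i) * P) ^ k / ι e₀) ^ 2 * ι e₀ ^ 2)) := by
          rw [h2, h5]
      _ = _ := by ring
  rw [hkey]
  exact Submodule.smul_mem _ _ hsp
-- END U9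

-- BEGIN U10
private theorem u10_frac {D₀ R' : Subring F} (hle : D₀ ≤ R') {S : Set F} {w : F}
    (hS : ∀ z ∈ S, z / w ∈ R') {m : F} (hm : m ∈ Submodule.span D₀ S) : m / w ∈ R' := by
  induction hm using Submodule.span_induction with
  | mem z hz => exact hS z hz
  | zero => rw [zero_div]; exact R'.zero_mem
  | add a b _ _ ha hb => rw [add_div]; exact R'.add_mem ha hb
  | smul c a _ ha =>
    rw [Subring.smul_def, smul_eq_mul, mul_div_assoc]
    exact R'.mul_mem (hle c.2) ha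

private theorem u10_isN {D₀ D : Subring F} (hD : IsLocalRing D) (hle : D₀ ≤ D) {S : Set F} {w : F}
    (hS : ∀ z ∈ S, IsN D (z / w)) {m : F} (hm : m ∈ Submodule.span D₀ S) : IsN D (m / w) := by
  induction hm using Submodule.span_induction with
  | mem z hz => exact hS z hz
  | zero => rw [zero_div]; exact isN_zero D
  | add a b _ _ ha hb => rw [add_div]; exact ha.add hD hb
  | smul c a _ ha =>
    rw [Subring.smul_def, smul_eq_mul, mul_div_assoc]
    exact ha.mul_left (hle c.2)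

/-- TASK U10. **The blow-up.** Some `ι y₀ / ι β₁`, `y₀ ∈ prJ`, is a unit of `D`: `β₁` is an element of `prJ`, or it is one of
the additional generators and then `1 = ι β₁ / ι β₁` is a combination of the `ι y / ι β₁` with coefficients in `D₀`
(`hspan`; local ring, compare `co12_unit` in GI/Comb.lean). `gen`: let `R'` contain `D₀` and the `ι y / ι y₀`; then it contains
`ι b / ι y₀` for all `b ∈ newB` (`hspan`), in particular `ι β₁ / ι y₀`, whose inverse lies in `D`, hence in `R'`; so it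
contains all `ι b / ι β₁`, and `D ≤ R'` by `hgen`. -/
theorem exists_blowGen {β₁ : M} {J₁ δ₂ : ℕ} (hD : IsLocalRing D) (hle : D₀ ≤ D)
    (hdom : ∀ a ∈ D₀, ∀ b ∈ D, a * b = 1 → b ∈ D₀)
    (hβ : β₁ ∈ newB C C' E x ϖ J₁ δ₂) (hβ0 : ι β₁ ≠ 0)
    (hratio : ∀ b ∈ newB C C' E x ϖ J₁ δ₂, ι b / ι β₁ ∈ D)
    (hgen : ∀ R' : Subring F, R' ≤ D → (∀ a ∈ R', ∀ b ∈ D, a * b = 1 → b ∈ R') → D₀ ≤ R' →
        (∀ b ∈ newB C C' E x ϖ J₁ δ₂, ι b / ι β₁ ∈ R') → D ≤ R')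
    (hspan : ∀ l, ι (ϖ ^ J₁ * x l ^ δ₂) ∈ Submodule.span D₀ (ι '' prJ C C' E)) :
    ∃ y₀ ∈ prJ C C' E, ι y₀ ≠ 0 ∧ BlowGen D₀ D {z | ∃ y ∈ ι '' prJ C C' E, z = y / ι y₀} := by
  have hex : ∃ y₀ ∈ prJ C C' E, IsU D (ι y₀ / ι β₁) := by
    by_contra hcon
    have hN : ∀ z ∈ ι '' prJ C C' E, IsN D (z / ι β₁) := by
      rintro _ ⟨y, hy, rfl⟩
      rcases isU_or_isN (hratio y (Or.inl hy)) with h | h
      · exact absurd ⟨y, hy, h⟩ hcon
      · exact h
    have hβN : IsN D (ι β₁ / ι β₁) := by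
      rcases hβ with h | ⟨l, hl⟩
      · exact hN _ ⟨β₁, h, rfl⟩
      · have h1 := hspan l
        have h2 : ϖ ^ J₁ * x l ^ δ₂ = β₁ := hl
        rw [h2] at h1
        exact u10_isN hD hle hN h1
    rw [div_self hβ0] at hβN
    exact (isU_one D).not_isN hβN
  obtain ⟨y₀, hy, hu⟩ := hex
  have hy0 : ι y₀ ≠ 0 := by
    intro h0
    have := hu.ne_zero
    rw [h0, zero_div] at this
    exact this rfl
  have hinv := hu.inv_mem
  rw [inv_div] at hinv
  refine ⟨y₀, hy, hy0, hle, hD, ?_, hdom, fun R' hR' hR'inv hR'le hS => ?_⟩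
  · rintro _ ⟨_, ⟨y, hy', rfl⟩, rfl⟩
    have h1 := D.mul_mem (hratio y (Or.inl hy')) hinv
    rwa [div_mul_div_cancel₀ hβ0] at h1
  · have hall : ∀ b ∈ newB C C' E x ϖ J₁ δ₂, ι b / ι y₀ ∈ R' := by
      rintro b (hb | ⟨l, hl⟩)
      · exact hS _ ⟨_, ⟨b, hb, rfl⟩, rfl⟩
      · have h2 : ϖ ^ J₁ * x l ^ δ₂ = b := hl
        rw [← h2]
        exact u10_frac hR'le (fun z hz => hS _ ⟨z, hz, rfl⟩) (hspan l)
    have h3 : ι y₀ / ι β₁ ∈ R' := by
      refine hR'inv _ (hall _ hβ) _ hu.1 ?_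
      rw [div_mul_div_cancel₀ hy0, div_self hβ0]
    refine hgen R' hR' hR'inv hR'le fun b hb => ?_
    have h4 := R'.mul_mem (hall b hb) h3
    rwa [div_mul_div_cancel₀ hy0] at h4
-- END U10

-- BEGIN U11
theorem u11_sgE (hι : Function.Injective ι) (hF : ∀ (g : G) m, g • ι m = ι (g • m)) {e : M} :
    SgE C C' (ι e) ↔ SgE C C' e := by
  constructor
  · intro h g hg hgC
    apply hι
    rw [← hF]
    exact h g hg hgC
  · intro h g hg hgC
    rw [hF, h g hg hgC]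

theorem u11_sgO (hι : Function.Injective ι) (hF : ∀ (g : G) m, g • ι m = ι (g • m)) {e : M} :
    SgO C C' (ι e) ↔ SgO C C' e := by
  constructor
  · intro h g hg hgC
    apply hι
    rw [← hF, map_neg]
    exact h g hg hgC
  · intro h g hg hgC
    rw [hF, h g hg hgC, map_neg]

/-- TASK U11. `ι` is injective and compatible with the actions. -/
theorem prJ_image (hι : Function.Injective ι) (hF : ∀ (g : G) m, g • ι m = ι (g • m)) :
    prJ C C' (ι '' E) = ι '' prJ C C' E := by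
  ext y
  constructor
  · rintro ⟨_, ⟨e, he, rfl⟩, _, ⟨e', he', rfl⟩, h1, h2, rfl⟩
    exact ⟨e * e', ⟨e, he, e', he', (u11_sgE hι hF).1 h1, (u11_sgO hι hF).1 h2, rfl⟩, map_mul _ _ _⟩
  · rintro ⟨_, ⟨e, he, e', he', h1, h2, rfl⟩, rfl⟩
    exact ⟨ι e, ⟨e, he, rfl⟩, ι e', ⟨e', he', rfl⟩, (u11_sgE hι hF).2 h1, (u11_sgO hι hF).2 h2,
      map_mul _ _ _⟩

theorem u11_span {Λ₁ : Subring M} {S : Set M} {f : M} (hf : f ∈ Submodule.span Λ₁ S) :
    ι f ∈ Submodule.span (Λ₁.map ι) (ι '' S) := by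
  induction hf using Submodule.span_induction with
  | mem x hx => exact Submodule.subset_span ⟨x, hx, rfl⟩
  | zero => rw [map_zero]; exact Submodule.zero_mem _
  | add x y _ _ hx hy => rw [map_add]; exact Submodule.add_mem _ hx hy
  | smul a x _ hx =>
    have h1 : ι (a • x) = (⟨ι (a : M), (a : M), a.2, rfl⟩ : Λ₁.map ι) • ι x := by
      rw [Subring.smul_def, Subring.smul_def, smul_eq_mul, smul_eq_mul, map_mul]
    rw [h1]
    exact Submodule.smul_mem _ _ hx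

/-- TASK U11. The fields of `QuadHyp` from the given data: `Λ₁` is the image of `lamFix Λ C'`; `ver`: `f = ι f'` with
`f'` fixed by `C`; the image of the span of `E ^ m` is contained in the span of `(ι '' E) ^ m` (`Set.image_pow`). -/
theorem StepHyp.quadHyp (hS : StepHyp ℳ x ι Λ ϖ Dp C C')
    (hst : ∀ g ∈ C', ∀ n, ∀ f ∈ sysT ι Λ V n, g • f ∈ sysT ι Λ V n) (hΛ : ∀ c ∈ Λ, ι c ∈ D₀)
    (hE : EHyp Λ C C' V k E) (hD : GPt (sysT ι Λ V) D₀ v) (hreg : IsRegularLocalRing (fixG C D₀))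
    {y₀ : M} (hy : y₀ ∈ prJ C C' E) (hy0 : ι y₀ ≠ 0)
    (hbl : BlowGen D₀ D {z | ∃ y ∈ ι '' prJ C C' E, z = y / ι y₀}) :
    QuadHyp (sysT ι Λ V) C C' D₀ D v k (ι '' E) ((lamFix Λ C').map ι) (ι y₀) := by
  have hpr := prJ_image (C := C) (C' := C') (E := E) hS.inj hS.hF
  refine ⟨gSys_sysT V, hD, hst, hS.le, hS.idx, hE.kpos, ?_, ?_, ?_, ?_, ?_, ?_, ?_, hreg, ?_, ?_,
    hy0⟩
  · rintro _ ⟨e, he, rfl⟩
    exact ⟨e, hE.mem e he, rfl⟩
  · rintro _ ⟨e, he, rfl⟩ g hg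
    rw [hS.hF, hE.fix e he g hg]
  · rintro _ ⟨e, he, rfl⟩
    rcases hE.sgn e he with h | h
    · exact Or.inl ((u11_sgE hS.inj hS.hF).2 h)
    · exact Or.inr ((u11_sgO hS.inj hS.hF).2 h)
  · rintro _ ⟨c, hc, rfl⟩
    exact hΛ c hc.1
  · rintro _ ⟨c, hc, rfl⟩ g hg
    rw [hS.hF, hc.2 g hg]
  · obtain ⟨w, hw, h2⟩ := hS.two
    refine ⟨ι w, ⟨w, hw, rfl⟩, ?_⟩
    rw [← map_ofNat ι 2, ← map_mul, h2, map_one]
  · rintro m hm _ ⟨f, hf, rfl⟩ hfC
    have h1 : ∀ g ∈ C, g • f = f := by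
      intro g hg
      apply hS.inj
      rw [← hS.hF]
      exact hfC g hg
    have h2 := hE.ver m hm f hf h1
    have h3 := u11_span (ι := ι) h2
    rw [Set.image_pow] at h3
    exact h3
  · rw [hpr]
    exact hbl
  · rw [hpr]
    exact ⟨y₀, hy, rfl⟩
-- END U11

end Local

/-- **The tame quadratic step.** -/
theorem StepHyp.exists_cset [Finite I] (hS : StepHyp ℳ x ι Λ ϖ Dp C C')
    (hB : CSet ℳ x Λ ϖ Dp r B dg J)
    (hreg : ∀ D i β, LocSit ι x B Λ r D i β → IsRegularLocalRing (fixG C D)) :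
    ∃ (r' : ℕ) (B' : ℕ → Set M) (dg' J' : ℕ → ℕ), CSet ℳ x Λ ϖ Dp r' B' dg' J' ∧
      ∀ D i β, LocSit ι x B' Λ r' D i β → IsRegularLocalRing (fixG C' D) := by
  obtain ⟨k, E, hE⟩ := hS.exists_EHyp hB
  obtain ⟨N, hN⟩ := hS.exists_pow hE
  obtain ⟨δ₂, hδ₂⟩ : ∃ δ₂, δ₂ = 2 * ((1 + ∑ j ∈ Finset.Icc 1 r, dg j) * k) := ⟨_, rfl⟩
  obtain ⟨J₁, h1, h2, h3⟩ : ∃ J₁, 1 ≤ J₁ ∧ (∀ j ∈ Finset.Icc 1 r, J j * δ₂ < J₁) ∧
      N + 2 * k * (∑ j ∈ Finset.Icc 1 r, J j) ≤ J₁ := by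
    refine ⟨N + 2 * k * (∑ j ∈ Finset.Icc 1 r, J j) + (∑ j ∈ Finset.Icc 1 r, J j * δ₂) + 1,
      by omega, fun j hj => ?_, by omega⟩
    have h1 := Finset.single_le_sum (f := fun j => J j * δ₂) (fun _ _ => Nat.zero_le _) hj
    have h2 : J j * δ₂ ≤ ∑ j ∈ Finset.Icc 1 r, J j * δ₂ := h1
    omega
  refine ⟨r + 1, _, _, _, hS.cset_new hB hE hδ₂ h1 h2, fun D i β hD => ?_⟩
  have hBB : ∀ j ∈ Finset.Icc 1 r,
      Function.update B (r + 1) (newB C C' E x ϖ J₁ δ₂) j = B j := by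
    intro j hj
    rw [Finset.mem_Icc] at hj
    exact Function.update_of_ne (by omega) _ _
  obtain ⟨D₀, hD₀, hle, hdom, hgen⟩ := exists_sub hBB hD
  have hlast : Function.update B (r + 1) (newB C C' E x ϖ J₁ δ₂) (r + 1) =
      newB C C' E x ϖ J₁ δ₂ := Function.update_self _ _ _
  have hr1 : r + 1 ∈ Finset.Icc 1 (r + 1) := by simp
  have hgp := LocSit.gPt hD₀
  have hV : ∀ g ∈ Dp, ∀ w ∈ DNF.WSet x B r, g • w ∈ Submodule.span Λ (DNF.WSet x B r) :=
    fun g hg => smul_WSet (hS.xst g) fun j _ => hB.stab g hg j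
  have hst : ∀ g ∈ Dp, ∀ n, ∀ f ∈ sysT ι Λ (DNF.WSet x B r) n,
      g • f ∈ sysT ι Λ (DNF.WSet x B r) n := fun g hg =>
    sysT_stable hS.hF (hS.Λst g hg) (hV g hg)
  obtain ⟨e₀, he₀, heu⟩ := exists_e_unit hS.inj hS.hF (fun g hg => hst g (hS.le' (hS.le hg)))
    hD₀.lam hE hgp
  have hspan := fun l => mem_span_prJ hB hS.ϖΛ hD₀ hδ₂ h3 heu (hN e₀ he₀) l
  have hβ := hD.β_mem (r + 1) hr1
  have hra := hD.ratio (r + 1) hr1
  rw [hlast] at hβ hra hgen
  obtain ⟨y₀, hy, hy0, hbl⟩ := exists_blowGen hD.loc hle hdom hβ (hD.β_ne (r + 1) hr1) hra hgen hspan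
  exact (hS.quadHyp (fun g hg => hst g (hS.le' hg)) hD₀.lam hE hgp (hreg D₀ i β hD₀) hy hy0
    hbl).isRegular hS.ne

end Pool.Agent.Lib.MP_6a3dac_ag.TW
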