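import Pool.Agent.Lib.MP_6a3dac_ag.GI.RG5

/-!
# Graded rings inside a field and their local rings
-/

set_option autoImplicit false
set_option linter.unusedSectionVars false
set_option linter.unusedVariables false

namespace Pool.Agent.Lib.MP_6a3dac_ag.TW

open Pool.Agent.Lib.MP_6a3dac_ag GI IsLocalRing
open scoped Pointwise

variable {F : Type} [Field F]

/-- The homogeneous components of a graded ring, all of them inside a field. -/
structure GSys (T : ℕ → AddSubgroup F) : Prop where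
  one : (1 : F) ∈ T 0
  mul : ∀ {m n : ℕ} {a b : F}, a ∈ T m → b ∈ T n → a * b ∈ T (m + n)

/-- `D` is the homogeneous local ring of the graded ring at a point where `v ∈ T 1` does not vanish. -/
structure GPt (T : ℕ → AddSubgroup F) (D : Subring F) (v : F) : Prop where
  loc : IsLocalRing D
  ne : v ≠ 0
  mem : v ∈ T 1
  ratio : ∀ n, ∀ f ∈ T n, f / v ^ n ∈ D
  frac : ∀ z ∈ D, ∃ n, ∃ f ∈ T n, ∃ h ∈ T n, IsU D (h / v ^ n) ∧ z * h = f

/-- A homogeneous prime ideal, given by the predicate of not lying in it. -/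
structure HPr (T : ℕ → AddSubgroup F) (U : ℕ → F → Prop) : Prop where
  mul : ∀ {m n : ℕ} {a b : F}, a ∈ T m → b ∈ T n → (U (m + n) (a * b) ↔ U m a ∧ U n b)
  add : ∀ {n : ℕ} {a b : F}, a ∈ T n → b ∈ T n → ¬ U n a → U n b → U n (a + b)
  exists_one : ∃ w ∈ T 1, U 1 w

section Avoid

variable {T : ℕ → AddSubgroup F} (hT : GSys T)

-- BEGIN S1
include hT in
/-- TASK S1. -/
theorem GSys.pow {n : ℕ} {a : F} (ha : a ∈ T n) (k : ℕ) : a ^ k ∈ T (n * k) := by
  induction k with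
  | zero =>
    rw [pow_zero, mul_zero]
    exact hT.one
  | succ k ih =>
    rw [pow_succ, Nat.mul_succ]
    exact hT.mul ih ha

include hT in
/-- TASK S1. -/
theorem GSys.prod {α : Type} (s : Finset α) (n : α → ℕ) (a : α → F) (ha : ∀ i ∈ s, a i ∈ T (n i)) :
    ∏ i ∈ s, a i ∈ T (∑ i ∈ s, n i) := by
  classical
  induction s using Finset.induction_on with
  | empty =>
    rw [Finset.prod_empty, Finset.sum_empty]
    exact hT.one
  | insert i s hi ih =>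
    rw [Finset.prod_insert hi, Finset.sum_insert hi]
    exact hT.mul (ha i (Finset.mem_insert_self i s))
      (ih fun j hj => ha j (Finset.mem_insert_of_mem hj))

/-- TASK S1. With `w ∈ T 1`, `U 1 w`, `w = 1 * w`. -/
theorem HPr.one {U : ℕ → F → Prop} (hT : GSys T) (hU : HPr T U) : U 0 1 := by
  obtain ⟨w, hw, h1⟩ := hU.exists_one
  have h := hU.mul (m := 0) (n := 1) hT.one hw
  rw [one_mul, zero_add] at h
  exact (h.1 h1).1

/-- TASK S1. -/
theorem HPr.pow {U : ℕ → F → Prop} (hT : GSys T) (hU : HPr T U) {n : ℕ} {a : F} (ha : a ∈ T n) {k : ℕ}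
    (hk : 1 ≤ k) : U (n * k) (a ^ k) ↔ U n a := by
  induction k, hk using Nat.le_induction with
  | base => rw [mul_one, pow_one]
  | succ k hk ih =>
    rw [pow_succ, Nat.mul_succ, hU.mul (hT.pow ha k) ha, ih, and_self_iff]

/-- TASK S1. -/
theorem HPr.prod {α : Type} {U : ℕ → F → Prop} (hT : GSys T) (hU : HPr T U) (s : Finset α) (n : α → ℕ)
    (a : α → F) (ha : ∀ i ∈ s, a i ∈ T (n i)) :
    U (∑ i ∈ s, n i) (∏ i ∈ s, a i) ↔ ∀ i ∈ s, U (n i) (a i) := by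
  classical
  induction s using Finset.induction_on with
  | empty =>
    rw [Finset.prod_empty, Finset.sum_empty]
    exact ⟨fun _ i hi => absurd hi (Finset.notMem_empty i), fun _ => hU.one hT⟩
  | insert i s hi ih =>
    have hs : ∀ j ∈ s, a j ∈ T (n j) := fun j hj => ha j (Finset.mem_insert_of_mem hj)
    rw [Finset.prod_insert hi, Finset.sum_insert hi,
      hU.mul (ha i (Finset.mem_insert_self i s)) (hT.prod s n a hs), ih hs,
      Finset.forall_mem_insert]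
-- END S1

-- BEGIN S2
private theorem s2_pow {T : ℕ → AddSubgroup F} (hT : GSys T) (𝔞 : ℕ → Set F)
    (h𝔞T : ∀ n, ∀ a ∈ 𝔞 n, a ∈ T n)
    (h𝔞mul : ∀ m n, ∀ a ∈ 𝔞 m, ∀ b ∈ T n, a * b ∈ 𝔞 (m + n)) {n : ℕ} {a : F} (ha : a ∈ 𝔞 n)
    {k : ℕ} (hk : 1 ≤ k) : a ^ k ∈ 𝔞 (n * k) := by
  obtain ⟨j, rfl⟩ : ∃ j, k = j + 1 := ⟨k - 1, by omega⟩
  rw [pow_succ', Nat.mul_succ, Nat.add_comm]
  exact h𝔞mul _ _ a ha _ (hT.pow (h𝔞T n a ha) j)

private theorem s2_prod {T : ℕ → AddSubgroup F} (hT : GSys T) (𝔞 : ℕ → Set F)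
    (h𝔞T : ∀ n, ∀ a ∈ 𝔞 n, a ∈ T n)
    (h𝔞mul : ∀ m n, ∀ a ∈ 𝔞 m, ∀ b ∈ T n, a * b ∈ 𝔞 (m + n)) {S : Type} (s : Finset S)
    (hs : s.Nonempty) (n : S → ℕ) (a : S → F) (ha : ∀ i ∈ s, a i ∈ 𝔞 (n i)) :
    ∏ i ∈ s, a i ∈ 𝔞 (∑ i ∈ s, n i) := by
  classical
  obtain ⟨i, hi⟩ := hs
  rw [← Finset.mul_prod_erase s a hi, ← Finset.add_sum_erase s n hi]
  exact h𝔞mul _ _ _ (ha i hi) _
    (hT.prod _ _ _ fun j hj => h𝔞T _ _ (ha j (Finset.mem_of_mem_erase hj)))

include hT in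
/-- TASK S2. **Homogeneous prime avoidance.** Strong induction on the cardinality of `s`. `s = ∅`: `n = 1`,
`a = 0`. `s = {i}`: multiply the given `a` with the element `w ∈ T 1` of `exists_one` (to get `1 ≤ n`). If `s`
has at least two elements: by induction for every `i ∈ s` there are `n_i ≥ 1`, `h_i ∈ 𝔞 n_i` with
`U j n_i h_i` for all `j ∈ s`, `j ≠ i` (the set `s.erase i`). If `U i n_i h_i` for some `i`, take `h_i`.
Otherwise choose `i₁ ∈ s` and put `a = h_{i₁} ^ p + (∏ i ∈ s.erase i₁, h_i) ^ q`, `p = ∑ i ∈ s.erase i₁, n_i`,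
`q = n_{i₁}`, both of degree `p q`, `p, q ≥ 1`. At `i₁` the first term is in the prime ideal
(`HPr.pow`) and the second is not; at `j ≠ i₁` the first is not and the second is
(`HPr.prod`, the factor `h_j`); use `HPr.add`. -/
theorem avoid {S : Type} (U : S → ℕ → F → Prop) (hU : ∀ i, HPr T (U i)) (𝔞 : ℕ → Set F)
    (h𝔞T : ∀ n, ∀ a ∈ 𝔞 n, a ∈ T n) (h𝔞0 : ∀ n, (0 : F) ∈ 𝔞 n)
    (h𝔞add : ∀ n, ∀ a ∈ 𝔞 n, ∀ b ∈ 𝔞 n, a + b ∈ 𝔞 n)
    (h𝔞mul : ∀ m n, ∀ a ∈ 𝔞 m, ∀ b ∈ T n, a * b ∈ 𝔞 (m + n)) (s : Finset S)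
    (hs : ∀ i ∈ s, ∃ n, ∃ a ∈ 𝔞 n, U i n a) : ∃ n, 1 ≤ n ∧ ∃ a ∈ 𝔞 n, ∀ i ∈ s, U i n a := by
  classical
  induction s using Finset.strongInduction with
  | H s ih =>
    rcases s.eq_empty_or_nonempty with hs0 | ⟨i₁, hi₁⟩
    · subst hs0
      exact ⟨1, le_rfl, 0, h𝔞0 1, fun i hi => absurd hi (Finset.notMem_empty i)⟩
    by_cases hone : s = {i₁}
    · obtain ⟨n, a, ha, hUa⟩ := hs i₁ hi₁
      obtain ⟨w, hw, hUw⟩ := (hU i₁).exists_one
      refine ⟨n + 1, Nat.le_add_left 1 n, a * w, h𝔞mul _ _ a ha w hw, fun i hi => ?_⟩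
      rw [hone, Finset.mem_singleton] at hi
      subst hi
      exact ((hU i).mul (h𝔞T n a ha) hw).2 ⟨hUa, hUw⟩
    have hne : (s.erase i₁).Nonempty := by
      rw [Finset.nonempty_iff_ne_empty]
      intro h0
      rw [Finset.erase_eq_empty_iff] at h0
      rcases h0 with h0 | h0
      · rw [h0] at hi₁
        exact Finset.notMem_empty _ hi₁
      · exact hone h0
    have hex : ∀ i, ∃ n : ℕ, ∃ h : F, i ∈ s → 1 ≤ n ∧ h ∈ 𝔞 n ∧ ∀ j ∈ s.erase i, U j n h := by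
      intro i
      by_cases hi : i ∈ s
      · obtain ⟨n, hn, h, hh, hUh⟩ := ih (s.erase i) (Finset.erase_ssubset hi)
          (fun j hj => hs j (Finset.mem_of_mem_erase hj))
        exact ⟨n, h, fun _ => ⟨hn, hh, hUh⟩⟩
      · exact ⟨0, 0, fun h => absurd h hi⟩
    choose n h hnh using hex
    by_cases hall : ∃ i ∈ s, U i (n i) (h i)
    · obtain ⟨i, hi, hUi⟩ := hall
      refine ⟨n i, (hnh i hi).1, h i, (hnh i hi).2.1, fun j hj => ?_⟩
      by_cases hji : j = i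
      · rw [hji]
        exact hUi
      · exact (hnh i hi).2.2 j (Finset.mem_erase.2 ⟨hji, hj⟩)
    · have hall' : ∀ i ∈ s, ¬ U i (n i) (h i) := fun i hi hUi => hall ⟨i, hi, hUi⟩
      have hq : 1 ≤ n i₁ := (hnh i₁ hi₁).1
      have hp : 1 ≤ ∑ i ∈ s.erase i₁, n i := by
        obtain ⟨j, hj⟩ := hne
        exact (hnh j (Finset.mem_of_mem_erase hj)).1.trans
          (Finset.single_le_sum (f := n) (fun i _ => Nat.zero_le _) hj)
      have hx : h i₁ ^ (∑ i ∈ s.erase i₁, n i) ∈ 𝔞 (n i₁ * ∑ i ∈ s.erase i₁, n i) :=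
        s2_pow hT 𝔞 h𝔞T h𝔞mul (hnh i₁ hi₁).2.1 hp
      have hP : ∏ i ∈ s.erase i₁, h i ∈ 𝔞 (∑ i ∈ s.erase i₁, n i) :=
        s2_prod hT 𝔞 h𝔞T h𝔞mul _ hne _ _
          fun i hi => (hnh i (Finset.mem_of_mem_erase hi)).2.1
      have hy : (∏ i ∈ s.erase i₁, h i) ^ n i₁ ∈ 𝔞 (n i₁ * ∑ i ∈ s.erase i₁, n i) := by
        rw [Nat.mul_comm]
        exact s2_pow hT 𝔞 h𝔞T h𝔞mul hP hq
      have hUx : ∀ j, U j (n i₁ * ∑ i ∈ s.erase i₁, n i) (h i₁ ^ (∑ i ∈ s.erase i₁, n i)) ↔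
          U j (n i₁) (h i₁) := fun j =>
        (hU j).pow hT (h𝔞T _ _ (hnh i₁ hi₁).2.1) hp
      have hUy : ∀ j, U j (n i₁ * ∑ i ∈ s.erase i₁, n i) ((∏ i ∈ s.erase i₁, h i) ^ n i₁) ↔
          ∀ i ∈ s.erase i₁, U j (n i) (h i) := by
        intro j
        rw [Nat.mul_comm, (hU j).pow hT (h𝔞T _ _ hP) hq]
        exact (hU j).prod hT _ _ _
          fun i hi => h𝔞T _ _ (hnh i (Finset.mem_of_mem_erase hi)).2.1
      refine ⟨n i₁ * ∑ i ∈ s.erase i₁, n i, Nat.mul_pos hq hp, _,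
        h𝔞add _ _ hx _ hy, fun j hj => ?_⟩
      by_cases hji : j = i₁
      · subst hji
        refine (hU j).add (h𝔞T _ _ hx) (h𝔞T _ _ hy) ?_ ?_
        · rw [hUx]
          exact hall' j hj
        · rw [hUy]
          intro i hi
          have hi' := Finset.mem_erase.1 hi
          exact (hnh i hi'.2).2.2 j (Finset.mem_erase.2 ⟨fun h0 => hi'.1 h0.symm, hj⟩)
      · rw [add_comm]
        refine (hU j).add (h𝔞T _ _ hy) (h𝔞T _ _ hx) ?_ ?_
        · rw [hUy]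
          intro h0
          exact hall' j hj (h0 j (Finset.mem_erase.2 ⟨hji, hj⟩))
        · rw [hUx]
          exact (hnh i₁ hi₁).2.2 j (Finset.mem_erase.2 ⟨hji, hj⟩)
-- END S2

end Avoid

section Point

variable {T : ℕ → AddSubgroup F} {D : Subring F} {v : F} (hT : GSys T) (hD : GPt T D v)

-- BEGIN S3
include hT hD in
/-- TASK S3. The quotients `a / v ^ m`, `b / v ^ n` lie in `D`; `IsU.mul`, `IsU.left`, `IsU.right` (RG1). -/
theorem GPt.isU_mul {m n : ℕ} {a b : F} (ha : a ∈ T m) (hb : b ∈ T n) :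
    IsU D (a * b / v ^ (m + n)) ↔ IsU D (a / v ^ m) ∧ IsU D (b / v ^ n) := by
  have h1 : a * b / v ^ (m + n) = (a / v ^ m) * (b / v ^ n) := by
    rw [pow_add, div_mul_div_comm]
  rw [h1]
  exact ⟨fun h => ⟨h.left (hD.ratio m a ha) (hD.ratio n b hb),
    h.right (hD.ratio m a ha) (hD.ratio n b hb)⟩, fun h => h.1.mul h.2⟩

include hT hD in
/-- TASK S3. The predicate is `a ↦ IsU D (a / v ^ n)`; a sum of a nonunit and a unit of the local ring `D` is a
unit (`IsU.sub`, `IsN`, `isU_or_isN`); `w = v`. -/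
theorem GPt.hpr : HPr T (fun n a => IsU D (a / v ^ n)) := by
  refine ⟨fun ha hb => GPt.isU_mul hT hD ha hb, fun {n a b} ha hb hna hub => ?_,
    v, hD.mem, ?_⟩
  · have h1 : IsN D (a / v ^ n) := (isU_or_isN (hD.ratio n a ha)).resolve_left hna
    have h2 := IsU.sub hD.loc hub h1.neg
    have h3 : (a + b) / v ^ n = b / v ^ n - -(a / v ^ n) := by
      rw [add_div, sub_neg_eq_add, add_comm]
    rw [h3]
    exact h2
  · rw [pow_one, div_self hD.ne]
    exact isU_one D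

include hT hD in
/-- TASK S3. -/
theorem GPt.isU_pow {n : ℕ} {a : F} (ha : IsU D (a / v ^ n)) (k : ℕ) : IsU D (a ^ k / v ^ (n * k)) := by
  rw [pow_mul, ← div_pow]
  induction k with
  | zero =>
    rw [pow_zero]
    exact isU_one D
  | succ k ih =>
    rw [pow_succ]
    exact ih.mul ha
-- END S3

variable {G : Type} [Group G] [Finite G] [MulSemiringAction G F]

-- BEGIN S4
include hT hD in
/-- TASK S4. The homogeneous prime of the conjugate point: as `GPt.hpr`, `g • (a * b) = g • a * g • b`; `w = g⁻¹ • v`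
(`T` is stable under `g⁻¹`). -/
theorem GPt.hpr_smul (g : G) (hg : ∀ n, ∀ f ∈ T n, g • f ∈ T n) (hg' : ∀ n, ∀ f ∈ T n, g⁻¹ • f ∈ T n) :
    HPr T (fun n a => IsU D ((g • a) / v ^ n)) := by
  have hP := hD.hpr hT
  refine ⟨?_, ?_, ?_⟩
  · intro m n a b ha hb
    rw [smul_mul']
    exact hP.mul (hg m a ha) (hg n b hb)
  · intro n a b ha hb h1 h2
    rw [smul_add]
    exact hP.add (hg n a ha) (hg n b hb) h1 h2
  · refine ⟨g⁻¹ • v, hg' 1 v hD.mem, ?_⟩
    rw [smul_inv_smul, pow_one, div_self hD.ne]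
    exact isU_one D
-- END S4

-- BEGIN S5
private theorem s5_smul_prod (K : Subgroup G) [Fintype K] (q : F) {g : G} (hg : g ∈ K) :
    g • ∏ k : K, (k : G) • q = ∏ k : K, (k : G) • q := by
  have h1 : g • ∏ k : K, (k : G) • q = ∏ k : K, g • (k : G) • q :=
    map_prod (MulSemiringAction.toRingHom G F g) _ _
  rw [h1]
  refine Fintype.prod_equiv (Equiv.mulLeft (⟨g, hg⟩ : K)) _ _ fun k => ?_
  rw [Equiv.coe_mulLeft, Subgroup.coe_mul, mul_smul]

include hT hD in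
/-- TASK S5. **Invariant denominators.** Let `𝔞 n` be the set of all `h ∈ T n` with `z * h ∈ T n`. For `g ∈ K` there is
an element of `𝔞` outside the prime of `g` (`hpr_smul`): take `n, f, h` of `hD.frac z` and `g⁻¹ • h`
(`z * (g⁻¹ • h) = g⁻¹ • (z * h) = g⁻¹ • f`). By `avoid` (with `S = G`, `s` the finite set of elements of `K`; the
predicate for `g ∉ K` can be that of `1`, or take `S = K`) there are `n₀ ≥ 1` and `h₀ ∈ 𝔞 n₀` with
`IsU D ((g • h₀) / v ^ n₀)` for all `g ∈ K`. Take `h = ∏ g ∈ K, g • h₀` (fixed by `K`: reindex; see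
`rg3a_smul_prod` in RG3), it is `h₀` times an element of `T`, so `f := z * h ∈ T`, and `f` is fixed by `K`. -/
theorem GPt.exists_inv {K : Subgroup G} (hK : ∀ g ∈ K, ∀ n, ∀ f ∈ T n, g • f ∈ T n) {z : F}
    (hz : z ∈ fixG K D) : ∃ n, 1 ≤ n ∧ ∃ f ∈ T n, ∃ h ∈ T n, (∀ g ∈ K, g • f = f) ∧
      (∀ g ∈ K, g • h = h) ∧ IsU D (h / v ^ n) ∧ z * h = f := by
  classical
  have := Fintype.ofFinite K
  obtain ⟨n, f, hf, h, hh, hu, hzh⟩ := hD.frac z hz.1
  obtain ⟨n₀, hn₀, h₀, hh₀, hall⟩ := avoid hT (fun (k : K) n a => IsU D (((k : G) • a) / v ^ n))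
    (fun k => hD.hpr_smul hT (k : G) (hK k k.2) (hK _ (K.inv_mem k.2)))
    (fun n => {a | a ∈ T n ∧ z * a ∈ T n}) (fun n a ha => ha.1)
    (fun n => ⟨(T n).zero_mem, by rw [mul_zero]; exact (T n).zero_mem⟩)
    (fun n a ha b hb => ⟨(T n).add_mem ha.1 hb.1, by
      rw [mul_add]
      exact (T n).add_mem ha.2 hb.2⟩)
    (fun m n a ha b hb => ⟨hT.mul ha.1 hb, by
      rw [← mul_assoc]
      exact hT.mul ha.2 hb⟩) Finset.univ
    (fun k _ => ⟨n, (k : G)⁻¹ • h, ⟨hK _ (K.inv_mem k.2) n h hh, by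
      have h1 : z * (k : G)⁻¹ • h = (k : G)⁻¹ • (z * h) := by
        rw [smul_mul', hz.2 _ (K.inv_mem k.2)]
      rw [h1, hzh]
      exact hK _ (K.inv_mem k.2) n f hf⟩, by
      rw [smul_inv_smul]
      exact hu⟩)
  have hfix : ∀ g ∈ K, g • ∏ k : K, (k : G) • h₀ = ∏ k : K, (k : G) • h₀ := fun g hg =>
    s5_smul_prod K h₀ hg
  have hsum : 1 ≤ ∑ _k : K, n₀ := by
    have h1 : n₀ ≤ ∑ _k : K, n₀ :=
      Finset.single_le_sum (f := fun _ : K => n₀) (fun _ _ => Nat.zero_le _)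
        (Finset.mem_univ (1 : K))
    omega
  refine ⟨∑ _k : K, n₀, hsum, z * ∏ k : K, (k : G) • h₀, ?_, ∏ k : K, (k : G) • h₀,
    hT.prod _ _ _ fun k _ => hK k k.2 n₀ h₀ hh₀.1, fun g hg => ?_, hfix, ?_, rfl⟩
  · rw [← Finset.mul_prod_erase Finset.univ (fun k : K => (k : G) • h₀) (Finset.mem_univ 1),
      ← Finset.add_sum_erase Finset.univ (fun _ : K => n₀) (Finset.mem_univ 1), ← mul_assoc]
    refine hT.mul ?_ (hT.prod _ _ _ fun k _ => hK k k.2 n₀ h₀ hh₀.1)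
    rw [Subgroup.coe_one, one_smul]
    exact hh₀.2
  · rw [smul_mul', hz.2 g hg, hfix g hg]
  · rw [← Finset.prod_pow_eq_pow_sum, ← Finset.prod_div_distrib]
    exact IsU.prod _ _ fun k _ => hall k (Finset.mem_univ k)

include hT hD in
/-- TASK S5. `exists_inv` for `z = 1`. -/
theorem GPt.exists_inv_unit {K : Subgroup G} (hK : ∀ g ∈ K, ∀ n, ∀ f ∈ T n, g • f ∈ T n) :
    ∃ n, 1 ≤ n ∧ ∃ h ∈ T n, (∀ g ∈ K, g • h = h) ∧ IsU D (h / v ^ n) := by
  obtain ⟨n, hn, f, _, h, hh, _, hfix, hu, _⟩ := hD.exists_inv hT hK (z := 1)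
    ⟨D.one_mem, fun g _ => smul_one g⟩
  exact ⟨n, hn, h, hh, hfix, hu⟩
-- END S5

/-- The semilocal ring of the conjugates of the point: fractions with invariant denominators. -/
def midK (T : ℕ → AddSubgroup F) (K : Subgroup G) (D : Subring F) (v : F) (hT : GSys T)
    (hD : GPt T D v) : Subring F where
  carrier := {z | ∃ n, ∃ f ∈ T n, ∃ s ∈ T n, (∀ g ∈ K, g • s = s) ∧ IsU D (s / v ^ n) ∧ z * s = f}
  mul_mem' := by
    rintro a b ⟨n, f, hf, s, hs, hsK, hsu, h1⟩ ⟨m, f', hf', s', hs', hsK', hsu', h1'⟩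
    refine ⟨n + m, f * f', hT.mul hf hf', s * s', hT.mul hs hs', fun g hg => ?_, ?_, ?_⟩
    · rw [smul_mul', hsK g hg, hsK' g hg]
    · exact (hD.isU_mul hT hs hs').2 ⟨hsu, hsu'⟩
    · rw [← h1, ← h1']
      ring
  one_mem' := ⟨0, 1, hT.one, 1, hT.one, fun g _ => smul_one g, by
    rw [pow_zero, div_one]
    exact isU_one D, one_mul 1⟩
  add_mem' := by
    rintro a b ⟨n, f, hf, s, hs, hsK, hsu, h1⟩ ⟨m, f', hf', s', hs', hsK', hsu', h1'⟩
    refine ⟨n + m, f * s' + s * f', (T (n + m)).add_mem (hT.mul hf hs') (hT.mul hs hf'), s * s',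
      hT.mul hs hs', fun g hg => ?_, ?_, ?_⟩
    · rw [smul_mul', hsK g hg, hsK' g hg]
    · exact (hD.isU_mul hT hs hs').2 ⟨hsu, hsu'⟩
    · rw [← h1, ← h1']
      ring
  zero_mem' := ⟨0, 0, (T 0).zero_mem, 1, hT.one, fun g _ => smul_one g, by
    rw [pow_zero, div_one]
    exact isU_one D, zero_mul 1⟩
  neg_mem' := by
    rintro a ⟨n, f, hf, s, hs, hsK, hsu, h1⟩
    exact ⟨n, -f, (T n).neg_mem hf, s, hs, hsK, hsu, by rw [← h1]; ring⟩

variable {K : Subgroup G} (hK : ∀ g ∈ K, ∀ n, ∀ f ∈ T n, g • f ∈ T n)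

-- BEGIN S6
private theorem s6_inv {D : Subring F} {z : F} (h : IsU D z) : IsU D z⁻¹ :=
  ⟨h.inv_mem, z, h.1, inv_mul_cancel₀ h.ne_zero⟩

include hK in
/-- TASK S6. `le`: `z = (f / v ^ n) / (s / v ^ n)`. `stab`: `g • s = s`. `loc`: for `z ∈ D` take `f`, `h` of `hD.frac z`
(degree `n`) and `s` of degree `m ≥ 1` of `exists_inv_unit`; `q = h ^ m / s ^ n` is a unit of `D`, lies in
`midK` and `z q = (f h ^ (m - 1)) / s ^ n`. -/
theorem semiLoc_midK : SemiLoc K (midK T K D v hT hD) D := by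
  refine ⟨?_, ?_, ?_⟩
  · rintro z ⟨n, f, hf, s, hs, hsK, hsu, h1⟩
    have hv : v ^ n ≠ 0 := pow_ne_zero n hD.ne
    have hs0 : s ≠ 0 := by
      rintro rfl
      exact hsu.ne_zero (zero_div _)
    have h2 : z = f / v ^ n * (s / v ^ n)⁻¹ := by
      rw [← h1]
      field_simp
    rw [h2]
    exact D.mul_mem (hD.ratio n f hf) hsu.inv_mem
  · rintro g z ⟨n, f, hf, s, hs, hsK, hsu, h1⟩
    refine ⟨n, (g : G) • f, hK g g.2 n f hf, s, hs, hsK, hsu, ?_⟩
    rw [← h1, smul_mul', hsK g g.2]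
    rfl
  · intro z hz
    obtain ⟨n, f, hf, h, hh, hu, hzh⟩ := hD.frac z hz
    obtain ⟨m, hm, s, hs, hsK, hsu⟩ := hD.exists_inv_unit hT hK
    obtain ⟨m', rfl⟩ : ∃ m', m = m' + 1 := ⟨m - 1, by omega⟩
    have hv : v ≠ 0 := hD.ne
    have hs0 : s ≠ 0 := by
      rintro rfl
      exact hsu.ne_zero (zero_div _)
    have hsn : s ^ n ≠ 0 := pow_ne_zero n hs0
    have hsnT : s ^ n ∈ T (n * (m' + 1)) := by
      rw [mul_comm]
      exact hT.pow hs n
    have hsnU : IsU D (s ^ n / v ^ (n * (m' + 1))) := by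
      rw [mul_comm n]
      exact hD.isU_pow hT hsu n
    have hsnK : ∀ g ∈ K, g • s ^ n = s ^ n := by
      intro g hg
      rw [smul_pow', hsK g hg]
    have hhU : IsU D (h ^ (m' + 1) / v ^ (n * (m' + 1))) := hD.isU_pow hT hu (m' + 1)
    refine ⟨h ^ (m' + 1) / s ^ n, ⟨n * (m' + 1), h ^ (m' + 1), hT.pow hh _, s ^ n, hsnT, hsnK,
      hsnU, div_mul_cancel₀ _ hsn⟩, ?_, ⟨n * (m' + 1), f * h ^ m', ?_, s ^ n, hsnT, hsnK,
      hsnU, ?_⟩⟩
    · have h2 : h ^ (m' + 1) / s ^ n =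
          h ^ (m' + 1) / v ^ (n * (m' + 1)) * (s ^ n / v ^ (n * (m' + 1)))⁻¹ := by
        have hv' : v ^ (n * (m' + 1)) ≠ 0 := pow_ne_zero _ hv
        field_simp
      rw [h2]
      exact hhU.mul (s6_inv hsnU)
    · have h3 : n * (m' + 1) = n + n * m' := by ring
      rw [h3]
      exact hT.mul hf (hT.pow hh m')
    · rw [mul_assoc, div_mul_cancel₀ _ hsn, ← hzh, pow_succ]
      ring

/-- TASK S6. The invariants of `midK` are the invariants of `D` (`exists_inv`). (`⊤` is the whole group `K`.) -/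
theorem fixG_midK (hK : ∀ g ∈ K, ∀ n, ∀ f ∈ T n, g • f ∈ T n) :
    fixG (⊤ : Subgroup K) (midK T K D v hT hD) = fixG K D := by
  ext z
  rw [mem_fixG, mem_fixG]
  constructor
  · rintro ⟨h1, h2⟩
    exact ⟨(semiLoc_midK hT hD hK).le h1, fun g hg => h2 ⟨g, hg⟩ (Subgroup.mem_top _)⟩
  · rintro ⟨h1, h2⟩
    obtain ⟨n, hn, f, hf, h, hh, hfK, hhK, hu, hzh⟩ := hD.exists_inv hT hK (z := z) ⟨h1, h2⟩
    exact ⟨⟨n, f, hf, h, hh, hhK, hu, hzh⟩, fun g _ => h2 g g.2⟩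

/-- TASK S6. `a s = f` with `a`, `s` fixed by `K`, so `f` is fixed by `K`, and `f / v ^ n = a (s / v ^ n)` is a unit of
`D`; `a⁻¹ f = s`. -/
theorem inv_mem_midK (a : F) (ha : a ∈ fixG (⊤ : Subgroup K) (midK T K D v hT hD)) (hu : IsU D a) :
    a⁻¹ ∈ midK T K D v hT hD := by
  obtain ⟨⟨n, f, hf, s, hs, hsK, hsu, h1⟩, h2⟩ := ha
  refine ⟨n, s, hs, f, hf, fun g hg => ?_, ?_, ?_⟩
  · have h3 : g • a = a := h2 ⟨g, hg⟩ (Subgroup.mem_top _)
    rw [← h1, smul_mul', h3, hsK g hg]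
  · rw [← h1, mul_div_assoc]
    exact hu.mul hsu
  · rw [← h1, inv_mul_cancel_left₀ hu.ne_zero]
-- END S6

-- BEGIN S7
private theorem s7_inv {D : Subring F} {z : F} (h : IsU D z) : IsU D z⁻¹ :=
  ⟨h.inv_mem, z, h.1, inv_mul_cancel₀ h.ne_zero⟩

include hK in
/-- TASK S7. The splitting element. For `g ∈ K` which does not map `D` to itself there is `z ∈ D` with `g • z ∉ D`;
with `n, f, h` of `hD.frac z` the element `(g • h) / v ^ n ∈ D` is not a unit (otherwise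
`g • z = ((g • f) / v ^ n) / ((g • h) / v ^ n) ∈ D`). So for all `g : K` there are `n_g`, `h_g ∈ T n_g` with
`IsU D (h_g / v ^ n_g)`, and `IsN D ((g • h_g) / v ^ n_g)` if `g` does not map `D` to itself (else take `h_g = 1`).
Let `w = ∏ g, h_g` of degree `k`, `s ∈ T m`, `m ≥ 1` of `exists_inv_unit`, `e = w ^ m / s ^ k`. (The model is
`exists_split_elt` in GI/Reg.lean.) -/
theorem exists_split_midK : ∃ e ∈ midK T K D v hT hD, IsU D e ∧
    ∀ g : K, ¬ (∀ z ∈ D, g • z ∈ D) → IsN D (g • e) := by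
  classical
  have := Fintype.ofFinite K
  have hv : v ≠ 0 := hD.ne
  have h0 : ∀ g : K, ∃ n, ∃ h ∈ T n, IsU D (h / v ^ n) ∧
      (¬ (∀ z ∈ D, g • z ∈ D) → IsN D (((g : G) • h) / v ^ n)) := by
    intro g
    by_cases hg : ∀ z ∈ D, g • z ∈ D
    · refine ⟨0, 1, hT.one, ?_, fun h => absurd hg h⟩
      rw [pow_zero, div_one]
      exact isU_one D
    · have hg' := hg
      push Not at hg'
      obtain ⟨z, hz, hgz⟩ := hg'
      obtain ⟨n, f, hf, h, hh, hu, hzh⟩ := hD.frac z hz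
      refine ⟨n, h, hh, hu, fun _ => ?_⟩
      rcases isU_or_isN (hD.ratio n _ (hK g g.2 n h hh)) with hc | hc
      · exfalso
        apply hgz
        have hgh : (g : G) • h ≠ 0 := by
          intro h1
          rw [h1, zero_div] at hc
          exact hc.ne_zero rfl
        have h1 : (g : G) • z * (g : G) • h = (g : G) • f := by rw [← smul_mul', hzh]
        have hvn : v ^ n ≠ 0 := pow_ne_zero n hv
        have h2 : g • z = (g : G) • f / v ^ n * ((g : G) • h / v ^ n)⁻¹ := by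
          rw [← h1]
          change (g : G) • z = _
          field_simp
        rw [h2]
        exact D.mul_mem (hD.ratio n _ (hK g g.2 n f hf)) hc.inv_mem
      · exact hc
  choose n h hhT hhU hhN using h0
  obtain ⟨m, hm, s, hs, hsK, hsu⟩ := hD.exists_inv_unit hT hK
  obtain ⟨m', rfl⟩ : ∃ m', m = m' + 1 := ⟨m - 1, by omega⟩
  obtain ⟨k, hk⟩ : ∃ k, k = ∑ g : K, n g := ⟨_, rfl⟩
  obtain ⟨w, hw⟩ : ∃ w, w = ∏ g : K, h g := ⟨_, rfl⟩
  have hs0 : s ≠ 0 := by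
    rintro rfl
    exact hsu.ne_zero (zero_div _)
  have hsk : s ^ k ≠ 0 := pow_ne_zero k hs0
  have hwT : w ∈ T k := by
    rw [hw, hk]
    exact hT.prod _ _ _ fun g _ => hhT g
  have hwU : IsU D (w / v ^ k) := by
    rw [hw, hk, ← Finset.prod_pow_eq_pow_sum, ← Finset.prod_div_distrib]
    exact IsU.prod _ _ fun g _ => hhU g
  have hskT : s ^ k ∈ T (k * (m' + 1)) := by
    rw [mul_comm]
    exact hT.pow hs k
  have hskU : IsU D (s ^ k / v ^ (k * (m' + 1))) := by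
    rw [mul_comm k]
    exact hD.isU_pow hT hsu k
  have hskK : ∀ g ∈ K, g • s ^ k = s ^ k := by
    intro g hg
    rw [smul_pow', hsK g hg]
  have hvk : v ^ (k * (m' + 1)) ≠ 0 := pow_ne_zero _ hv
  refine ⟨w ^ (m' + 1) / s ^ k, ⟨k * (m' + 1), w ^ (m' + 1), hT.pow hwT _, s ^ k, hskT, hskK,
    hskU, div_mul_cancel₀ _ hsk⟩, ?_, ?_⟩
  · have h2 : w ^ (m' + 1) / s ^ k =
        w ^ (m' + 1) / v ^ (k * (m' + 1)) * (s ^ k / v ^ (k * (m' + 1)))⁻¹ := by
      field_simp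
    rw [h2]
    exact (hD.isU_pow hT hwU (m' + 1)).mul (s7_inv hskU)
  · intro g hg
    have h3 : IsN D (((g : G) • w) / v ^ k) := by
      have h4 : (g : G) • w = ∏ g' : K, (g : G) • h g' := by
        rw [hw]
        exact map_prod (MulSemiringAction.toRingHom G F (g : G)) _ _
      rw [h4, hk, ← Finset.prod_pow_eq_pow_sum, ← Finset.prod_div_distrib]
      exact isN_prod _ _ (fun g' _ => hD.ratio _ _ (hK g g.2 _ _ (hhT g'))) (Finset.mem_univ g)
        (hhN g hg)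
    have h5 : g • (w ^ (m' + 1) / s ^ k) =
        ((g : G) • w) / v ^ k * ((((g : G) • w) / v ^ k) ^ m' * (s ^ k / v ^ (k * (m' + 1)))⁻¹) := by
      change (g : G) • (w ^ (m' + 1) / s ^ k) = _
      have h6 : (g : G) • (w ^ (m' + 1) / s ^ k) = ((g : G) • w) ^ (m' + 1) / s ^ k := by
        rw [smul_div₀', smul_pow', hskK g g.2]
      rw [h6]
      have h7 : v ^ (k * (m' + 1)) = v ^ k * (v ^ k) ^ m' := by
        rw [← pow_mul, ← pow_add]
        congr 1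
        ring
      have hvk' : v ^ k ≠ 0 := pow_ne_zero _ hv
      rw [h7, pow_succ, div_pow]
      field_simp
    rw [h5]
    exact h3.mul_right (D.mul_mem (D.pow_mem h3.1 m') hskU.inv_mem)
-- END S7

include hT hD hK in
/-- **Regularity of the ring of invariants.** -/
theorem GPt.isRegular_fixG (hgood : Good K D) : IsRegularLocalRing (fixG K D) := by
  obtain ⟨e, he, he', hs⟩ := exists_split_midK hT hD hK
  have h := (semiLoc_midK hT hD hK).isRegular hD.loc (inv_mem_midK hT hD) he he' hs hgood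
  rwa [fixG_midK hT hD hK] at h

end Point

end Pool.Agent.Lib.MP_6a3dac_ag.TW
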